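import Pool.Agent.T9h21.TB.Inst

/-!
# Boards of CNF formulas
-/

set_option autoImplicit false

namespace Pool.Agent.T9h21.TB

open Pool.Agent.ETSP

/-- The data of a formula, whose clauses are arranged in `k` columns: `pr j i` (`nr j i`) tells
whether column `j` contains the positive (negative) literal of the variable of row `i`; the
clauses of a column end above the rows `i` with `tm j i`, and `bl j i` tells whether row `i`
separates column `j`.  The rows `i` with `te i` are not used by variables. -/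
structure Fm where
  h : ℕ
  k : ℕ
  pr : ℕ → ℕ → Bool
  nr : ℕ → ℕ → Bool
  tm : ℕ → ℕ → Bool
  bl : ℕ → ℕ → Bool
  te : ℕ → Bool

namespace Fm

variable (F : Fm)

/-- the literal segments of the board of a formula -/
def lit (i c : ℕ) : Bool :=
  if c % 9 = 0 ∨ c % 9 = 1 ∨ c % 9 = 3 ∨ c % 9 = 4 then true
  else if c % 9 = 2 ∨ c % 9 = 5 then decide (i % 2 = 1)
  else if c % 9 = 6 then F.nr (c / 9) i
  else if c % 9 = 7 then (F.pr (c / 9) i || F.nr (c / 9) i || F.tm (c / 9) i)
  else (F.pr (c / 9) i || F.tm (c / 9) i)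

/-- the board of a formula -/
def board : Board where
  h := F.h
  M := 9 * F.k + 6
  lit := F.lit
  blk := fun i c => decide (c % 9 = 7) && F.bl (c / 9) i

/-- the activated pairs -/
def ac (x : ℕ → ℕ → Bool) (e c : ℕ) : Bool :=
  decide (c % 9 = 7) && (x (c / 9) e && F.tm (c / 9) (e + 1))

/-- the clauses are not tautological, and the rows are used correctly -/
structure OK (F : Fm) : Prop where
  dis : ∀ j i, F.pr j i = true → F.nr j i = true → False
  prow : ∀ j i, F.pr j i = true → 1 ≤ i ∧ i ≤ 2 * F.h ∧ F.te i = false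
  nrow : ∀ j i, F.nr j i = true → 1 ≤ i ∧ i ≤ 2 * F.h ∧ F.te i = false
  tmte : ∀ j i, F.tm j i = true → F.te i = true
  blp : ∀ j i, F.bl j i = true → F.pr j i = false ∧ F.nr j i = false ∧ F.tm j i = false
  nxt : ∀ j i, F.tm j i = true → i ≤ 2 * F.h → F.bl j (i + 1) = true

variable {F}

theorem par_key (hF : F.OK) (i j : ℕ) (h0 : F.board.par i (9 * j) = false) :
    F.board.par i (9 * j) = false ∧
    F.board.par i (9 * j + 1) = true ∧ F.board.par i (9 * j + 2) = false ∧
    F.board.par i (9 * j + 3) = decide (i % 2 = 1) ∧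
    F.board.par i (9 * j + 4) = !(decide (i % 2 = 1)) ∧
    F.board.par i (9 * j + 6) = false ∧ F.board.par i (9 * j + 7) = F.nr j i ∧
    F.board.par i (9 * j + 9) = false := by
  have step : ∀ c, F.board.par i (c + 1) = xor (F.board.par i c) (F.lit i c) := fun c => rfl
  have l0 : F.lit i (9 * j) = true := by
    unfold lit; rw [if_pos (by omega)]
  have l1 : F.lit i (9 * j + 1) = true := by
    unfold lit; rw [if_pos (by omega)]
  have l2 : F.lit i (9 * j + 2) = decide (i % 2 = 1) := by
    unfold lit; rw [if_neg (by omega), if_pos (by omega)]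
  have l3 : F.lit i (9 * j + 3) = true := by
    unfold lit; rw [if_pos (by omega)]
  have l4 : F.lit i (9 * j + 4) = true := by
    unfold lit; rw [if_pos (by omega)]
  have l5 : F.lit i (9 * j + 5) = decide (i % 2 = 1) := by
    unfold lit; rw [if_neg (by omega), if_pos (by omega)]
  have l6 : F.lit i (9 * j + 6) = F.nr j i := by
    unfold lit
    rw [if_neg (by omega), if_neg (by omega), if_pos (by omega),
      show (9 * j + 6) / 9 = j by omega]
  have l7 : F.lit i (9 * j + 7) = (F.pr j i || F.nr j i || F.tm j i) := by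
    unfold lit
    rw [if_neg (by omega), if_neg (by omega), if_neg (by omega), if_pos (by omega),
      show (9 * j + 7) / 9 = j by omega]
  have l8 : F.lit i (9 * j + 8) = (F.pr j i || F.tm j i) := by
    unfold lit
    rw [if_neg (by omega), if_neg (by omega), if_neg (by omega), if_neg (by omega),
      show (9 * j + 8) / 9 = j by omega]
  have h1 := step (9 * j)
  have h2 := step (9 * j + 1)
  have h3 := step (9 * j + 2)
  have h4 := step (9 * j + 3)
  have h5 := step (9 * j + 4)
  have h6 := step (9 * j + 5)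
  have h7 := step (9 * j + 6)
  have h8 := step (9 * j + 7)
  have h9 := step (9 * j + 8)
  rw [h0, l0] at h1
  rw [h1, l1] at h2
  rw [h2, l2] at h3
  rw [h3, l3] at h4
  rw [h4, l4] at h5
  rw [h5, l5] at h6
  rw [h6, l6] at h7
  rw [h7, l7] at h8
  rw [h8, l8] at h9
  have d1 := hF.dis j i
  have d2 := hF.prow j i
  have d3 := hF.nrow j i
  refine ⟨h0, by rw [h1]; rfl, by rw [h2]; rfl, by rw [h3]; simp, by rw [h4]; simp, ?_, ?_, ?_⟩
  · rw [h6]; cases decide (i % 2 = 1) <;> rfl
  · rw [h7]; cases decide (i % 2 = 1) <;> simp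
  · rw [h9]
    cases ht : F.tm j i with
    | true =>
      have ht' := hF.tmte j i ht
      have e1 : F.pr j i = false := by
        by_contra h; rw [Bool.not_eq_false] at h
        rw [(d2 h).2.2] at ht'; simp at ht'
      have e2 : F.nr j i = false := by
        by_contra h; rw [Bool.not_eq_false] at h
        rw [(d3 h).2.2] at ht'; simp at ht'
      rw [e1, e2]
      cases decide (i % 2 = 1) <;> simp
    | false =>
      cases e1 : F.pr j i with
      | true =>
        have e2 : F.nr j i = false := by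
          by_contra h; rw [Bool.not_eq_false] at h; exact d1 e1 h
        rw [e2]
        cases decide (i % 2 = 1) <;> simp
      | false =>
        cases F.nr j i <;> cases decide (i % 2 = 1) <;> simp

theorem par_block (hF : F.OK) (i j : ℕ) : F.board.par i (9 * j) = false ∧
    F.board.par i (9 * j + 1) = true ∧ F.board.par i (9 * j + 2) = false ∧
    F.board.par i (9 * j + 3) = decide (i % 2 = 1) ∧
    F.board.par i (9 * j + 4) = !(decide (i % 2 = 1)) ∧
    F.board.par i (9 * j + 6) = false ∧ F.board.par i (9 * j + 7) = F.nr j i ∧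
    F.board.par i (9 * j + 9) = false := by
  induction j with
  | zero => exact par_key hF i 0 rfl
  | succ j ih => exact par_key hF i (j + 1) ih.2.2.2.2.2.2.2

/-- a clause is satisfied by a true literal -/
def tl (F : Fm) (m : ℕ → Bool) (j i : ℕ) : Bool := (F.pr j i && m i) || (F.nr j i && !(m i))

/-- the formula given by the clauses in `x` is satisfiable -/
def Sat (F : Fm) (x : ℕ → ℕ → Bool) : Prop :=
  ∃ m : ℕ → Bool, ∀ j < F.k, ∀ e ≤ 2 * F.h, x j e = true → F.tm j (e + 1) = true →
    ∃ i ≤ e, F.tl m j i = true ∧ ∀ i', i ≤ i' → i' ≤ e → F.bl j i' = false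

theorem one_le_M : 1 ≤ F.board.M := by
  change 1 ≤ 9 * F.k + 6
  omega

theorem lit7 (i : ℕ) {c : ℕ} (hc : c % 9 = 7) :
    F.board.lit i c = (F.pr (c / 9) i || F.nr (c / 9) i || F.tm (c / 9) i) := by
  change F.lit i c = _
  unfold lit
  rw [if_neg (by omega), if_neg (by omega), if_neg (by omega), if_pos hc]

theorem par7 (hF : F.OK) (i : ℕ) {c : ℕ} (hc : c % 9 = 7) : F.board.par i c = F.nr (c / 9) i := by
  have := (par_block hF i (c / 9)).2.2.2.2.2.2.1
  rwa [show 9 * (c / 9) + 7 = c by omega] at this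

theorem tl_bool : ∀ p n t x : Bool, t = false → (p = true → n = true → False) →
    (p || n || t) = true → xor x n = true → ((p && x) || (n && !x)) = true := by decide

theorem sat_of_asg (hF : F.OK) {x : ℕ → ℕ → Bool}
    (h : ∃ m : ℕ → Bool, ∀ c < F.board.M, ∀ e ≤ 2 * F.board.h, F.ac x e c = true →
      ∃ i ≤ e, (∀ i', i ≤ i' → i' ≤ e → F.board.blk i' c = false) ∧ F.board.lit i c = true ∧
        xor (m i) (F.board.par i c) = true) : F.Sat x := by
  obtain ⟨m, hm⟩ := h
  refine ⟨m, fun j hj e he hx ht => ?_⟩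
  have hc7 : (9 * j + 7) % 9 = 7 := by omega
  have hcj : (9 * j + 7) / 9 = j := by omega
  obtain ⟨i, hi, h0, h1, h2⟩ := hm (9 * j + 7) (by change 9 * j + 7 < 9 * F.k + 6; omega) e he (by
    unfold ac
    rw [hc7, hcj, hx, ht]
    rfl)
  have hbl : ∀ i', i ≤ i' → i' ≤ e → F.bl j i' = false := by
    intro i' g1 g2
    have g3 := h0 i' g1 g2
    change (decide ((9 * j + 7) % 9 = 7) && F.bl ((9 * j + 7) / 9) i') = false at g3
    rw [hc7, hcj] at g3
    simpa using g3
  change e ≤ 2 * F.h at he
  rw [lit7 i hc7, hcj] at h1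
  rw [par7 hF i hc7, hcj] at h2
  have h3 : F.tm j i = false := by
    by_contra h
    rw [Bool.not_eq_false] at h
    have h4 := hF.nxt j i h (by omega)
    rcases Nat.lt_or_ge i e with h5 | h5
    · rw [hbl (i + 1) (by omega) h5] at h4
      simp at h4
    · obtain rfl : i = e := by omega
      rw [(hF.blp j _ h4).2.2] at ht
      simp at ht
  exact ⟨i, hi, tl_bool _ _ _ _ h3 (hF.dis j i) h1 h2, hbl⟩

theorem tl_rev : ∀ p n t x : Bool, (p = true → n = true → False) →
    ((p && x) || (n && !x)) = true → (p || n || t) = true ∧ xor x n = true := by decide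

theorem sat_of_tour (hF : F.OK) {x : ℕ → ℕ → Bool}
    (h : ∃ L : List (ℤ × ℤ), L.Nodup ∧ L.toFinset = F.board.pts (F.ac x) ∧
      Pool.Agent.ETSP.tl eucl L < F.board.bd + 1 / 69) : F.Sat x :=
  sat_of_asg hF (Board.pts_sound one_le_M h)

open Board in
theorem good_of_sat (hF : F.OK) {x : ℕ → ℕ → Bool} (h : F.Sat x) :
    ∃ m kc cc z0, Board.Good F.board (F.ac x) m kc cc z0 := by
  classical
  obtain ⟨m0, hm0⟩ := h
  set m : ℕ → Bool := fun i => if F.te i = true then false else m0 i with hmdef
  have hmt : ∀ i, F.te i = true → m i = false := by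
    intro i hi; rw [hmdef]; simp only; rw [if_pos hi]
  have hrow : ∀ m' j i, F.tl m' j i = true → 1 ≤ i ∧ i ≤ 2 * F.h ∧ F.te i = false := by
    intro m' j i h
    unfold tl at h
    rw [Bool.or_eq_true, Bool.and_eq_true, Bool.and_eq_true] at h
    rcases h with h | h
    · exact hF.prow j i h.1
    · exact hF.nrow j i h.1
  have htl : ∀ j i, F.tl m0 j i = true → F.tl m j i = true := by
    intro j i h
    have hi := hrow m0 j i h
    have : m i = m0 i := by rw [hmdef]; simp only; rw [hi.2.2]; rfl
    unfold tl at h ⊢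
    rw [this]
    exact h
  -- the true literals of the active clauses
  have hact : ∀ j < F.k, ∀ e ≤ 2 * F.h, x j e = true → F.tm j (e + 1) = true →
      ∃ i ≤ e, F.tl m j i = true ∧ ∀ i', i ≤ i' → i' ≤ e → F.bl j i' = false := by
    intro j hj e he h1 h2
    obtain ⟨i, h3, h4, h5⟩ := hm0 j hj e he h1 h2
    exact ⟨i, h3, htl j i h4, h5⟩
  set P : ℕ → ℕ → Prop := fun i c => c % 9 = 7 ∧ c / 9 < F.k ∧ ∃ e ≤ 2 * F.h,
    x (c / 9) e = true ∧ F.tm (c / 9) (e + 1) = true ∧ i ≤ e ∧
    ∀ i', i < i' → i' ≤ e → F.tl m (c / 9) i' = false with hP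
  have hP1 : ∀ i c e, c / 9 < F.k → e ≤ 2 * F.h → x (c / 9) e = true →
      F.tm (c / 9) (e + 1) = true → i ≤ e →
      (∀ i', i < i' → i' ≤ e → F.tl m (c / 9) i' = false) →
      1 ≤ i ∧ ∀ i', i ≤ i' → i' ≤ e → F.bl (c / 9) i' = false := by
    intro i c e h1 h2 h3 h4 h5 h6
    obtain ⟨i0, g1, g2, g3⟩ := hact _ h1 e h2 h3 h4
    have g4 : i0 ≤ i := by
      by_contra g
      rw [h6 i0 (by omega) g1] at g2
      simp at g2
    have g5 := hrow _ _ _ g2
    exact ⟨by omega, fun i' g6 g7 => g3 i' (by omega) g7⟩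
  have hP0 : ∀ i c, P i c → 1 ≤ i := by
    rintro i c ⟨h1, h2, e, h3, h4, h5, h6, h7⟩
    exact (hP1 i c e h2 h3 h4 h5 h6 h7).1
  set z0 : ℕ → ℕ → Bool := fun i c => decide (P i c) with hz0
  have hz0t : ∀ i c, z0 i c = true ↔ P i c := fun i c => by rw [hz0]; simp only [decide_eq_true_eq]
  have hz0f : ∀ i c, z0 i c = false ↔ ¬ P i c := fun i c => by
    rw [hz0]; simp only [decide_eq_false_iff_not]
  have hup : ∀ i c, up z0 i c = true ↔ 1 ≤ i ∧ P (i - 1) c := by
    intro i c
    cases i with
    | zero => simp [up]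
    | succ i =>
      change z0 i c = true ↔ _
      rw [hz0t, Nat.add_sub_cancel]
      exact ⟨fun h => ⟨by omega, h⟩, fun h => h.2⟩
  have hlm : ∀ i c, F.board.lm m i c = xor (m i) (F.board.par i c) := fun _ _ => rfl
  have hM : F.board.M = 9 * F.k + 6 := rfl
  have hH : F.board.H = 2 * F.h + 2 := rfl
  have hh' : F.board.h = F.h := rfl
  have hblk : ∀ i c, F.board.blk i c = (decide (c % 9 = 7) && F.bl (c / 9) i) := fun _ _ => rfl
  have htmlm : ∀ i c, c % 9 = 7 → F.tm (c / 9) i = true → F.board.lm m i c = false := by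
    intro i c hc ht
    have h1 := hF.tmte _ _ ht
    have h2 : F.nr (c / 9) i = false := by
      by_contra h
      rw [Bool.not_eq_false] at h
      rw [(hF.nrow _ _ h).2.2] at h1
      simp at h1
    rw [hlm, par7 hF i hc, h2, hmt i h1]
    rfl
  refine ⟨m, fun c => decide (c % 9 = 0 ∨ c % 9 = 1 ∨ c % 9 = 3 ∨ c % 9 = 4),
    fun c => decide (c % 9 = 7), z0, ?_, ?_, ?_, ?_, ?_, ?_, ?_, ?_, ?_, ?_, ?_, ?_⟩
  · intro c _ hk i _
    rw [decide_eq_true_eq] at hk
    change F.lit i c = true
    unfold lit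
    rw [if_pos hk]
  · intro c _ hk
    rw [decide_eq_true_eq] at hk
    rw [decide_eq_false_iff_not]
    omega
  · intro c _ hk i _
    rw [decide_eq_true_eq] at hk
    rw [hblk, decide_eq_false (by omega)]
    rfl
  · intro e c hk
    unfold ac at hk
    rw [Bool.and_eq_true] at hk
    exact hk.1
  · intro c
    rw [hz0f]
    rintro ⟨h1, h2, e, h3, h4, h5, h6, h7⟩
    omega
  · intro i hi c hc
    by_cases h1 : 1 ≤ i ∧ P (i - 1) c
    · obtain ⟨h0, g1, g2, e, g3, g4, g5, g6, g7⟩ := h1
      by_cases hie : i ≤ e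
      · left
        have h2 : z0 i c = true := (hz0t i c).2
          ⟨g1, g2, e, g3, g4, g5, hie, fun i' g8 g9 => g7 i' (by omega) g9⟩
        rw [h2, (hup i c).2 ⟨h0, g1, g2, e, g3, g4, g5, g6, g7⟩]
      · obtain rfl : i = e + 1 := by omega
        by_cases h2 : P (e + 1) c
        · left
          rw [(hz0t _ c).2 h2, (hup _ c).2 ⟨h0, g1, g2, e, g3, g4, g5, g6, g7⟩]
        · right
          rw [lit7 _ g1, (hz0f _ c).2 h2, htmlm _ c g1 g5, g5]
          exact ⟨by simp, rfl⟩
    · have h2 : up z0 i c = false := by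
        rw [← Bool.not_eq_true, hup]; exact h1
      by_cases h3 : P i c
      · right
        obtain ⟨g1, g2, e, g3, g4, g5, g6, g7⟩ := h3
        have h4 := (hP1 i c e g2 g3 g4 g5 g6 g7).1
        have h5 : F.tl m (c / 9) i = true := by
          by_contra h5
          rw [Bool.not_eq_true] at h5
          apply h1
          refine ⟨h4, g1, g2, e, g3, g4, g5, by omega, fun i' g8 g9 => ?_⟩
          rcases Nat.lt_or_ge i i' with g10 | g10
          · exact g7 i' g10 g9
          · obtain rfl : i' = i := by omega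
            exact h5
        have h6 := tl_rev _ _ (F.tm (c / 9) i) _ (hF.dis (c / 9) i) h5
        rw [lit7 _ g1, (hz0t _ c).2 ⟨g1, g2, e, g3, g4, g5, g6, g7⟩, hlm, par7 hF i g1]
        exact ⟨h6.1, h6.2.symm⟩
      · left
        rw [h2, (hz0f i c).2 h3]
  · intro e he c hc h
    rw [hz0t]
    unfold ac at h
    rw [Bool.and_eq_true, Bool.and_eq_true, decide_eq_true_eq] at h
    exact ⟨h.1, by omega, e, he, h.2.1, h.2.2, le_rfl, fun i' g1 g2 => by omega⟩
  · intro i hi c hc hb
    rw [hblk, Bool.and_eq_true, decide_eq_true_eq] at hb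
    obtain ⟨hc7, hb⟩ := hb
    constructor
    · rw [← Bool.not_eq_true, hup]
      rintro ⟨h0, g1, g2, e, g3, g4, g5, g6, g7⟩
      rcases Nat.lt_or_ge e i with h1 | h1
      · obtain rfl : i = e + 1 := by omega
        rw [(hF.blp _ _ hb).2.2] at g5
        simp at g5
      · have := (hP1 (i - 1) c e g2 g3 g4 g5 g6 g7).2 i (by omega) h1
        rw [hb] at this
        simp at this
    · rw [hz0f]
      rintro ⟨g1, g2, e, g3, g4, g5, g6, g7⟩
      have := (hP1 i c e g2 g3 g4 g5 g6 g7).2 i le_rfl g6
      rw [hb] at this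
      simp at this
  · intro c _ h i
    rw [decide_eq_false_iff_not] at h
    rw [hz0f]
    exact fun h1 => h h1.1
  · intro c
    rw [hz0f]
    intro h
    have := hP0 0 c h
    omega
  · intro i hi c hc h1 h2 h3 h4
    rw [hup] at h1
    obtain ⟨h0, g1, g2, e, g3, g4, g5, g6, g7⟩ := h1
    have h5 : F.tm (c / 9) i = false := by
      by_contra h
      rw [Bool.not_eq_false] at h
      rw [htmlm i c g1 h] at h4
      simp at h4
    rw [lit7 i g1] at h3
    rw [hlm, par7 hF i g1] at h4
    have h6 := tl_bool _ _ _ _ h5 (hF.dis _ i) h3 h4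
    rcases Nat.lt_or_ge e i with h7 | h7
    · obtain rfl : i = e + 1 := by omega
      rw [h5] at g5
      simp at g5
    · have h8 := g7 i (by omega) h7
      unfold tl at h8
      rw [h6] at h8
      simp at h8
  · intro c hc
    set q := (c + 1) / 9 with hq
    refine ⟨min c (9 * q), max c (9 * q + 6), min_le_left _ _, le_max_left _ _, ?_, ?_, ?_⟩
    · rw [max_le_iff]; omega
    · intro e h1 h2
      rw [min_le_iff] at h1
      rw [lt_max_iff] at h2
      rw [decide_eq_false_iff_not]
      omega
    · intro i hi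
      obtain ⟨p0, p1, -, p3, p4, -, -, -⟩ := par_block hF i q
      obtain ⟨p0', p1', -, p3', p4', -, -, -⟩ := par_block hF (i + 1) q
      have hodd : decide ((i + 1) % 2 = 1) = !(decide (i % 2 = 1)) := by
        rcases Nat.mod_two_eq_zero_or_one i with h | h
        · have : (i + 1) % 2 = 1 := by omega
          simp [h, this]
        · have : (i + 1) % 2 = 0 := by omega
          simp [h, this]
      have key : ∀ t, t = 0 ∨ t = 1 ∨ t = 3 ∨ t = 4 → F.board.lm m i (9 * q + t) = true →
          F.board.lm m (i + 1) (9 * q + t) = false →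
          ∃ e, min c (9 * q) ≤ e ∧ e < max c (9 * q + 6) ∧
            decide (e % 9 = 0 ∨ e % 9 = 1 ∨ e % 9 = 3 ∨ e % 9 = 4) = true ∧
            F.board.lm m i e = true ∧ F.board.lm m (i + 1) e = false := by
        intro t ht h1 h2
        refine ⟨9 * q + t, ?_, ?_, ?_, h1, h2⟩
        · rw [min_le_iff]; omega
        · rw [lt_max_iff]; omega
        · rw [decide_eq_true_eq]; omega
      simp only [hlm] at key
      have k0 := key 0 (Or.inl rfl)
      have k1 := key 1 (Or.inr (Or.inl rfl))
      have k3 := key 3 (Or.inr (Or.inr (Or.inl rfl)))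
      have k4 := key 4 (Or.inr (Or.inr (Or.inr rfl)))
      rw [Nat.add_zero, p0, p0'] at k0
      rw [p1, p1'] at k1
      rw [p3, p3', hodd] at k3
      rw [p4, p4', hodd] at k4
      simp only [hlm]
      cases e1 : m i with
      | true =>
        cases e2 : m (i + 1) with
        | true =>
          rw [e1, e2] at k3 k4
          cases e3 : decide (i % 2 = 1) with
          | true => rw [e3] at k4; exact k4 rfl rfl
          | false => rw [e3] at k3; exact k3 rfl rfl
        | false => rw [e1, e2] at k0; exact k0 rfl rfl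
      | false =>
        cases e2 : m (i + 1) with
        | true => rw [e1, e2] at k1; exact k1 rfl rfl
        | false =>
          rw [e1, e2] at k3 k4
          cases e3 : decide (i % 2 = 1) with
          | true => rw [e3] at k3; exact k3 rfl rfl
          | false => rw [e3] at k4; exact k4 rfl rfl

theorem tour_of_sat (hF : F.OK) {x : ℕ → ℕ → Bool} (h : F.Sat x) :
    ∃ L : List (ℤ × ℤ), L.Nodup ∧ L.toFinset = F.board.pts (F.ac x) ∧
      Pool.Agent.ETSP.tl eucl L ≤ F.board.bd := by
  obtain ⟨m, kc, cc, z0, hG⟩ := good_of_sat hF h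
  exact Board.pts_complete one_le_M hG

end Fm

end Pool.Agent.T9h21.TB
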