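import Pool.Agent.T9h21.TB.TourC
import Pool.Agent.ETSP.Geo

/-!
# Packings of circles and tours through their centres
-/

set_option autoImplicit false

namespace Pool.Agent.T9h21.TB

open Pool.Agent.ETSP

/-- a cell of the grid as a point of the plane -/
def cel {N : ℕ} (q : Fin N × Fin N) : ℤ × ℤ := ((q.1.val : ℤ), (q.2.val : ℤ))

/-- the Euclidean length of a closed tour through cells of the grid -/
noncomputable def gtl {N : ℕ} (L : List (Fin N × Fin N)) : ℝ :=
  tl (fun p q => eucl (cel p) (cel q)) L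

/-- a list of all points of a set `x` in some order -/
def Lists {N : ℕ} (x : Fin N × Fin N → Bool) (L : List (Fin N × Fin N)) : Prop :=
  L.Nodup ∧ ∀ q, q ∈ L ↔ x q = true

theorem tl_map {U V : Type} {d : V → V → ℝ} {d' : U → U → ℝ} {f : U → V}
    (h : ∀ a b, d (f a) (f b) = d' a b) (l : List U) : tl d (l.map f) = tl d' l := by
  have h1 : ∀ (l : List U) (v w : U), pl d (f v) (l.map f) (f w) = pl d' v l w := by
    intro l
    induction l with
    | nil => intro v w; exact h v w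
    | cons x l ih => intro v w; simp only [pl, List.map_cons, ih, h]
  cases l with
  | nil => rfl
  | cons x l => exact h1 l x x

theorem cel_inj {N : ℕ} : Function.Injective (cel (N := N)) := by
  intro p q h
  unfold cel at h
  rw [Prod.mk.injEq] at h
  exact Prod.ext (Fin.ext (by omega)) (Fin.ext (by omega))

/-- the square of the distance of two points -/
def dd (p q : ℤ × ℤ) : ℤ := (p.1 - q.1) ^ 2 + (p.2 - q.2) ^ 2

theorem eucl_eq (p q : ℤ × ℤ) : eucl p q = √((dd p q : ℤ) : ℝ) := by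
  unfold eucl nrm dd
  congr 1
  push_cast
  simp only [Prod.fst_sub, Prod.snd_sub]
  push_cast
  ring

theorem dd_nonneg (p q : ℤ × ℤ) : 0 ≤ dd p q := by unfold dd; positivity

/-- disjoint circles whose centres are integer points and whose radii are small integers -/
structure Pack {V : Type} (P : V → Prop) (pos : V → ℤ × ℤ) (rad : V → ℤ) : Prop where
  fin : {v | P v}.Finite
  nn : ∀ v, P v → 0 ≤ rad v
  le : ∀ v, P v → rad v ≤ 17
  sep : ∀ v w, P v → P w → v ≠ w → (rad v + rad w) ^ 2 ≤ dd (pos v) (pos w)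
  inj : ∀ v w, P v → P w → pos v = pos w → v = w
  three : ∃ a b c, P a ∧ P b ∧ P c ∧ a ≠ b ∧ a ≠ c ∧ b ≠ c

/-- two circles touch or intersect -/
def Tch {V : Type} (pos : V → ℤ × ℤ) (rad : V → ℤ) (v w : V) : Prop :=
  dd (pos v) (pos w) ≤ (rad v + rad w) ^ 2

section

variable {V : Type} [DecidableEq V] {P : V → Prop} {pos : V → ℤ × ℤ} {rad : V → ℤ}

/-- the sum of the radii -/
noncomputable def Pack.tot (h : Pack P pos rad) : ℤ := ∑ v ∈ h.fin.toFinset, rad v

omit [DecidableEq V] in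
theorem Pack.tot_nonneg (h : Pack P pos rad) : 0 ≤ h.tot :=
  Finset.sum_nonneg fun v hv => h.nn v (by simpa using hv)

theorem Pack.sum_eq (h : Pack P pos rad) {l : List V} (hn : l.Nodup) (hm : ∀ v, v ∈ l ↔ P v) :
    (l.map fun v => (rad v : ℝ)).sum = (h.tot : ℝ) := by
  have h1 : l.toFinset = h.fin.toFinset := by
    ext v
    simp [hm]
  rw [← List.sum_toFinset _ hn, h1]
  unfold Pack.tot
  push_cast
  rfl

omit [DecidableEq V] in
theorem Pack.tch (h : Pack P pos rad) {v w : V} (hv : P v) (hw : P w)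
    (hd : eucl (pos v) (pos w) < (rad v : ℝ) + rad w + 1 / 69) : Tch pos rad v w := by
  have h4 := h.nn v hv
  have h5 := h.nn w hw
  have h6 := h.le v hv
  have h7 := h.le w hw
  unfold Tch
  generalize hk : rad v + rad w = k
  have h8 : (rad v : ℝ) + rad w = k := by rw [← hk]; push_cast; ring
  rw [eucl_eq, h8] at hd
  have h9 : (0 : ℝ) ≤ k := by exact_mod_cast (by omega : 0 ≤ k)
  have h10 : (k : ℝ) ≤ 34 := by exact_mod_cast (by omega : k ≤ 34)
  rw [Real.sqrt_lt' (by positivity)] at hd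
  by_contra h11
  have h12 : k ^ 2 + 1 ≤ dd (pos v) (pos w) := by omega
  have h13 : ((k : ℝ)) ^ 2 + 1 ≤ ((dd (pos v) (pos w) : ℤ) : ℝ) := by exact_mod_cast h12
  nlinarith

/-- short tours are tight -/
theorem Pack.sound (h : Pack P pos rad) {L : List (ℤ × ℤ)} (hL : L.Nodup)
    (hm : ∀ p, p ∈ L ↔ ∃ v, P v ∧ pos v = p) (ht : tl eucl L < 2 * (h.tot : ℝ) + 1 / 69) :
    ∃ σ : Equiv.Perm V, Cyc P (Tch pos rad) σ := by
  classical
  obtain ⟨a0, b0, c0, ha, hb, hc, hab, hac, hbc⟩ := h.three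
  have hg : ∃ g : ℤ × ℤ → V, ∀ p ∈ L, P (g p) ∧ pos (g p) = p :=
    ⟨fun p => if h : ∃ v, P v ∧ pos v = p then Classical.choose h else a0, fun p hp => by
      have h1 := (hm p).1 hp
      simp only [h1, dite_true]
      exact Classical.choose_spec h1⟩
  obtain ⟨g, hg⟩ := hg
  have h4 : (L.map g).map pos = L := by
    rw [List.map_map]
    conv_rhs => rw [← List.map_id L]
    exact List.map_congr_left fun p hp => (hg p hp).2
  have h5 : (L.map g).Nodup := by
    apply List.Nodup.of_map pos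
    rw [h4]
    exact hL
  have h6 : ∀ v, v ∈ L.map g ↔ P v := by
    intro v
    constructor
    · intro hv
      obtain ⟨p, hp, rfl⟩ := List.mem_map.1 hv
      exact (hg p hp).1
    · intro hv
      have h7 : pos v ∈ L := (hm _).2 ⟨v, hv, rfl⟩
      rw [List.mem_map]
      exact ⟨pos v, h7, h.inj _ _ (hg _ h7).1 hv (hg _ h7).2⟩
  have h3 : 3 ≤ (L.map g).length := by
    have h8 : [a0, b0, c0].Nodup := by simp [hab, hac, hbc]
    have h9 : [a0, b0, c0] ⊆ L.map g := by
      intro v hv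
      rw [h6]
      simp only [List.mem_cons, List.not_mem_nil, or_false] at hv
      rcases hv with rfl | rfl | rfl <;> assumption
    exact (h8.subperm h9).length_le
  have h7 : tl (fun v w => eucl (pos v) (pos w)) (L.map g) = tl eucl L := by
    rw [← tl_map (d := eucl) (f := pos) (fun _ _ => rfl), h4]
  have hC := cyc_of_list (d := fun v w => eucl (pos v) (pos w)) (r := fun v => (rad v : ℝ))
    (P := P) h5 h3 h6 (fun v w hv hw hne => by
      have k1 : (0 : ℝ) ≤ rad v := by exact_mod_cast h.nn v hv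
      have k2 : (0 : ℝ) ≤ rad w := by exact_mod_cast h.nn w hw
      have k3 : (0 : ℝ) ≤ ((dd (pos v) (pos w) : ℤ) : ℝ) := by exact_mod_cast dd_nonneg _ _
      rw [eucl_eq, Real.le_sqrt (by positivity) k3]
      exact_mod_cast h.sep v w hv hw hne) (γ := 1 / 69) (by
      rw [h7, h.sum_eq h5 h6]
      exact ht)
  exact ⟨_, hC.val, hC.inv, fun v hv => h.tch hv (hC.val v hv) (hC.tight v hv), hC.ne, hC.ne2,
    hC.conn⟩

/-- tight tours are short -/
theorem Pack.complete (h : Pack P pos rad) {a : V} {l : List V} (hn : (a :: l).Nodup)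
    (hm : ∀ v, v ∈ a :: l ↔ P v) (hc : (a :: (l ++ [a])).IsChain (Tch pos rad)) :
    ∃ L : List (ℤ × ℤ), L.Nodup ∧ (∀ p, p ∈ L ↔ ∃ v, P v ∧ pos v = p) ∧
      tl eucl L ≤ 2 * (h.tot : ℝ) := by
  have hmem : ∀ v ∈ a :: (l ++ [a]), P v := by
    intro v hv
    rw [← hm]
    simp only [List.mem_cons, List.mem_append, List.not_mem_nil, or_false] at hv ⊢
    tauto
  refine ⟨(a :: l).map pos, ?_, ?_, ?_⟩
  · exact List.Nodup.map_on (fun v hv w hw hvw => h.inj v w ((hm v).1 hv) ((hm w).1 hw) hvw) hn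
  · intro p
    rw [List.mem_map]
    simp only [hm]
  · rw [tl_map (d := eucl) (f := pos) (d' := fun v w => eucl (pos v) (pos w)) (fun _ _ => rfl),
      ← h.sum_eq hn hm]
    refine tl_of_chain (r := fun v => (rad v : ℝ)) ?_
    rw [List.isChain_iff_getElem] at hc ⊢
    intro i hi
    have h1 := hc i hi
    have k0 : P (a :: (l ++ [a]))[i] := hmem _ (List.getElem_mem _)
    have k0' : P (a :: (l ++ [a]))[i + 1] := hmem _ (List.getElem_mem _)
    have k1 : (0 : ℝ) ≤ rad (a :: (l ++ [a]))[i] := by exact_mod_cast h.nn _ k0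
    have k2 : (0 : ℝ) ≤ rad (a :: (l ++ [a]))[i + 1] := by exact_mod_cast h.nn _ k0'
    unfold Tch at h1
    rw [eucl_eq, Real.sqrt_le_left (by positivity)]
    exact_mod_cast h1

open Classical in
/-- the cells of a packing -/
noncomputable def cellsP (P : V → Prop) (pos : V → ℤ × ℤ) (sx sy : ℤ) {N : ℕ}
    (q : Fin N × Fin N) : Bool :=
  decide (∃ v, P v ∧ pos v = ((q.1.val : ℤ) - sx, (q.2.val : ℤ) - sy))

omit [DecidableEq V] in
theorem cellsP_eq {sx sy : ℤ} {N : ℕ} {q : Fin N × Fin N} : cellsP P pos sx sy q = true ↔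
    ∃ v, P v ∧ pos v = ((q.1.val : ℤ) - sx, (q.2.val : ℤ) - sy) := by
  simp only [cellsP, decide_eq_true_eq]

omit [DecidableEq V] in
theorem grid_iffP {sx sy : ℤ} {N : ℕ} (hr : ∀ v, P v → 0 ≤ (pos v).1 + sx ∧ (pos v).1 + sx < N ∧
    0 ≤ (pos v).2 + sy ∧ (pos v).2 + sy < N) (p : ℝ → Prop) :
    (∃ L, Lists (N := N) (cellsP P pos sx sy) L ∧ p (gtl L)) ↔
    ∃ L : List (ℤ × ℤ), L.Nodup ∧ (∀ r, r ∈ L ↔ ∃ v, P v ∧ pos v = r) ∧ p (tl eucl L) := by
  set cl : Fin N × Fin N → ℤ × ℤ := fun q => ((q.1.val : ℤ) - sx, (q.2.val : ℤ) - sy) with hcl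
  have hinj : Function.Injective cl := by
    intro a b h
    rw [hcl] at h
    simp only [Prod.mk.injEq] at h
    exact Prod.ext (Fin.ext (by omega)) (Fin.ext (by omega))
  have hsurj : ∀ r, (∃ v, P v ∧ pos v = r) → ∃ q, cl q = r := by
    rintro r ⟨v, hv, rfl⟩
    obtain ⟨g1, g2, g3, g4⟩ := hr v hv
    refine ⟨(⟨((pos v).1 + sx).toNat, by omega⟩, ⟨((pos v).2 + sy).toNat, by omega⟩), ?_⟩
    rw [hcl]
    ext
    · simp only; omega
    · simp only; omega
  have hmap : ∀ L : List (Fin N × Fin N), tl eucl (L.map cl) = gtl L := by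
    intro L
    refine tl_map (fun q q' => ?_) L
    unfold eucl cel
    congr 1
    rw [hcl]
    simp only [Prod.mk_sub_mk, Prod.mk.injEq]
    constructor <;> ring
  constructor
  · rintro ⟨L, ⟨g1, g2⟩, g3⟩
    refine ⟨L.map cl, g1.map hinj, ?_, by rwa [hmap]⟩
    intro r
    rw [List.mem_map]
    constructor
    · rintro ⟨q, hq, rfl⟩
      rw [g2, cellsP_eq] at hq
      exact hq
    · intro hr'
      obtain ⟨q, rfl⟩ := hsurj r hr'
      exact ⟨q, (g2 q).2 (cellsP_eq.2 hr'), rfl⟩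
  · rintro ⟨L, g1, g2, g3⟩
    have h3 : L ∈ Set.range (List.map cl) := by
      rw [Set.range_list_map]
      intro r hr'
      exact hsurj r ((g2 r).1 hr')
    obtain ⟨L', rfl⟩ := h3
    refine ⟨L', ⟨List.Nodup.of_map _ g1, fun q => ?_⟩, by rwa [← hmap]⟩
    rw [cellsP_eq]
    refine Iff.trans ?_ (g2 (cl q))
    rw [List.mem_map]
    constructor
    · exact fun h => ⟨q, h, rfl⟩
    · rintro ⟨q', h3, h4⟩
      rw [← hinj h4]
      exact h3

end

end Pool.Agent.T9h21.TB
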