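import Pool.Agent.T9h21.TB.Csp
import Pool.Agent.T9h21.TB.Pack

/-!
# Boards in a square grid
-/

set_option autoImplicit false

namespace Pool.Agent.T9h21.TB

open Pool.Agent.ETSP

namespace Board

variable {b : Board} {act : ℕ → ℕ → Bool}

theorem rng {v : Nd} (hv : b.Val act v) : -19 ≤ b.px v ∧ b.px v ≤ 64 * b.M + 51 ∧
    -(72 * b.h + 45) ≤ b.py v ∧ b.py v ≤ 9 := by
  have hH : b.H = 2 * b.h + 2 := rfl
  have hr : ∀ i n k, n ≤ 2 * b.M → k ≤ b.len i n → 0 ≤ b.xx i n k ∧ b.xx i n k ≤ 64 * b.M + 30 ∧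
      1 ≤ b.sz i n k ^ 2 ∧ b.sz i n k ^ 2 ≤ 9 := by
    intro i n k hn hk
    have h4 := ft_len (b.ty i n)
    have h3 : k < 13 := by unfold len at hk; omega
    obtain ⟨g1, g2, g3, g4, -⟩ := ft_range (b.ty i n) ⟨k, h3⟩ hk
    simp only at g1 g2 g3 g4
    have h5 : (n : ℤ) ≤ 2 * b.M := by exact_mod_cast hn
    have h6 : 1 ≤ b.sz i n k := g3
    have h7 : b.sz i n k ≤ 3 := g4
    unfold xx
    refine ⟨by omega, by omega, by nlinarith, by nlinarith⟩
  cases v with
  | X i n k s =>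
    obtain ⟨h1, h2, h3, -⟩ := hv
    obtain ⟨g1, g2, g3, g4⟩ := hr i n k h2 h3
    simp only [px, py]
    cases s <;> simp [sg] <;> omega
  | Q i n k =>
    obtain ⟨h1, h2, h3, -⟩ := hv
    obtain ⟨g1, g2, g3, g4⟩ := hr i n k h2 h3
    simp only [px, py]
    omega
  | S i r =>
    have h1 : i < b.H := hv
    simp only [px, py]
    cases r <;> simp <;> omega
  | C i r =>
    have h1 : i < b.H := hv
    simp only [px, py]
    cases r <;> simp <;> omega
  | T i r =>
    obtain ⟨h1, h2⟩ := hv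
    simp only [px, py]
    cases r <;> simp <;> omega
  | A e c =>
    obtain ⟨h1, h2, -⟩ := hv
    simp only [px, py]
    omega

/-- the point of a cell -/
def cl (b : Board) {N : ℕ} (q : Fin N × Fin N) : ℤ × ℤ :=
  ((q.1.val : ℤ) - 19, (q.2.val : ℤ) - (72 * b.h + 45))

/-- the cells of a board -/
def cells (b : Board) (N : ℕ) (act : ℕ → ℕ → Bool) (q : Fin N × Fin N) : Bool :=
  decide (b.cl q ∈ b.pts act)

theorem cl_inj {N : ℕ} : Function.Injective (b.cl (N := N)) := by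
  intro p q h
  unfold cl at h
  rw [Prod.mk.injEq] at h
  exact Prod.ext (Fin.ext (by omega)) (Fin.ext (by omega))

theorem mem_pts {p : ℤ × ℤ} : p ∈ b.pts act ↔ ∃ v, b.Val act v ∧ b.pos v = p := by
  unfold pts
  rw [List.mem_toFinset, List.mem_map]
  simp only [mem_nds]

theorem cl_surj {N : ℕ} (h1 : 64 * b.M + 71 ≤ N) (h2 : 72 * b.h + 55 ≤ N) {p : ℤ × ℤ}
    (hp : p ∈ b.pts act) : ∃ q : Fin N × Fin N, b.cl q = p := by
  obtain ⟨v, hv, rfl⟩ := mem_pts.1 hp
  obtain ⟨g1, g2, g3, g4⟩ := rng hv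
  refine ⟨(⟨(b.px v + 19).toNat, by omega⟩, ⟨(b.py v + (72 * b.h + 45)).toNat, by omega⟩), ?_⟩
  unfold cl pos
  simp only [Prod.mk.injEq]
  omega

theorem grid_iff {N : ℕ} (h1 : 64 * b.M + 71 ≤ N) (h2 : 72 * b.h + 55 ≤ N)
    (p : ℝ → Prop) : (∃ L, Lists (b.cells N act) L ∧ p (gtl L)) ↔
    ∃ L : List (ℤ × ℤ), L.Nodup ∧ L.toFinset = b.pts act ∧ p (tl eucl L) := by
  have hmap : ∀ L : List (Fin N × Fin N), tl eucl (L.map b.cl) = gtl L := by
    intro L
    refine tl_map (fun q q' => ?_) L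
    unfold eucl cel cl
    congr 1
    simp only [Prod.mk_sub_mk, Prod.mk.injEq]
    constructor <;> ring
  constructor
  · rintro ⟨L, ⟨g1, g2⟩, g3⟩
    refine ⟨L.map b.cl, g1.map cl_inj, ?_, by rwa [hmap]⟩
    ext r
    rw [List.mem_toFinset, List.mem_map]
    constructor
    · rintro ⟨q, hq, rfl⟩
      rw [g2] at hq
      unfold cells at hq
      exact of_decide_eq_true hq
    · intro hr
      obtain ⟨q, rfl⟩ := cl_surj h1 h2 hr
      exact ⟨q, (g2 q).2 (by unfold cells; exact decide_eq_true hr), rfl⟩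
  · rintro ⟨L, g1, g2, g3⟩
    have h3 : L ∈ Set.range (List.map (b.cl (N := N))) := by
      rw [Set.range_list_map]
      intro r hr
      exact cl_surj (act := act) h1 h2 (by rw [← g2, List.mem_toFinset]; exact hr)
    obtain ⟨L', rfl⟩ := h3
    refine ⟨L', ⟨List.Nodup.of_map _ g1, fun q => ?_⟩, by rwa [← hmap]⟩
    unfold cells
    rw [decide_eq_true_eq, ← g2, List.mem_toFinset, List.mem_map]
    constructor
    · exact fun h => ⟨q, h, rfl⟩
    · rintro ⟨q', h3, h4⟩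
      rw [← cl_inj h4]
      exact h3

theorem Val_mono {act' : ℕ → ℕ → Bool} {v : Nd}
    (h : ∀ e c, v = .A e c → act e c = true → act' e c = true) (hv : b.Val act v) :
    b.Val act' v := by
  cases v with
  | X i n k s => exact hv
  | Q i n k => exact hv
  | S i r => exact hv
  | C i r => exact hv
  | T i r => exact hv
  | A e c => exact ⟨hv.1, hv.2.1, h e c rfl hv.2.2⟩

theorem cells_mono {act' : ℕ → ℕ → Bool} (h : ∀ e c, act e c = true → act' e c = true) (N : ℕ) :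
    b.cells N act ≤ b.cells N act' := by
  intro q hq
  unfold cells at *
  rw [decide_eq_true_eq, mem_pts] at *
  obtain ⟨v, hv, h1⟩ := hq
  exact ⟨v, Val_mono (fun e c _ => h e c) hv, h1⟩

/-- A cell depends on at most one pair. -/
theorem cells_dep (hM : 1 ≤ b.M) {N : ℕ} (q : Fin N × Fin N) :
    ∃ e0 c0, ∀ act act' : ℕ → ℕ → Bool, (act e0 c0 = true → act' e0 c0 = true) →
      b.cells N act q = true → b.cells N act' q = true := by
  have hT : ∀ {act : ℕ → ℕ → Bool} {v : Nd}, b.Val act v → b.Val (fun _ _ => true) v :=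
    fun hv => Val_mono (fun _ _ _ _ => rfl) hv
  by_cases hq : ∃ e c, b.Val (fun _ _ => true) (.A e c) ∧ b.pos (.A e c) = b.cl q
  · obtain ⟨e0, c0, h1, h2⟩ := hq
    refine ⟨e0, c0, fun act act' h h3 => ?_⟩
    unfold cells at *
    rw [decide_eq_true_eq, mem_pts] at *
    obtain ⟨v, hv, h4⟩ := h3
    have h5 := pos_inj hM (hT hv) h1 (h4.trans h2.symm)
    subst h5
    have h6 : b.Val act' (.A e0 c0) := ⟨hv.1, hv.2.1, h hv.2.2⟩
    exact ⟨_, h6, h4⟩
  · refine ⟨0, 0, fun act act' _ h3 => ?_⟩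
    unfold cells at *
    rw [decide_eq_true_eq, mem_pts] at *
    obtain ⟨v, hv, h4⟩ := h3
    refine ⟨v, Val_mono ?_ hv, h4⟩
    rintro e c rfl
    exact absurd ⟨e, c, hT hv, h4⟩ hq

end Board

end Pool.Agent.T9h21.TB
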