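import Mathlib

/-!
# Splicing circular arrangements
-/

set_option autoImplicit false

namespace Pool.Agent.T9h21.TB

section

variable {V : Type} {P : V → Prop} {R : V → V → Prop}

/-- the elements of `P` can be arranged on a circle such that all steps satisfy `R` -/
def Crc (P : V → Prop) (R : V → V → Prop) : Prop :=
  ∃ a l, (a :: l).Nodup ∧ (∀ v, v ∈ a :: l ↔ P v) ∧ (a :: (l ++ [a])).IsChain R

/-- the elements of `P` can be arranged on a path from `a` to `b` such that all steps satisfy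
`R` -/
def Pth (P : V → Prop) (R : V → V → Prop) (a b : V) : Prop :=
  ∃ l, (a :: (l ++ [b])).Nodup ∧ (∀ v, v ∈ a :: (l ++ [b]) ↔ P v) ∧ (a :: (l ++ [b])).IsChain R

theorem Crc.rot (h : Crc P R) {T : V} (hT : P T) :
    ∃ p, (T :: p).Nodup ∧ (∀ v, v ∈ T :: p ↔ P v) ∧ (T :: (p ++ [T])).IsChain R := by
  obtain ⟨a, l, h1, h2, h3⟩ := h
  rcases List.mem_cons.1 ((h2 T).2 hT) with rfl | hl
  · exact ⟨l, h1, h2, h3⟩
  · obtain ⟨l1, l2, rfl⟩ := List.append_of_mem hl
    have hp : (T :: (l2 ++ a :: l1)).Perm (a :: (l1 ++ T :: l2)) := by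
      have e1 : T :: (l2 ++ a :: l1) = (T :: l2) ++ (a :: l1) := rfl
      have e2 : a :: (l1 ++ T :: l2) = (a :: l1) ++ (T :: l2) := rfl
      rw [e1, e2]
      exact List.perm_append_comm
    refine ⟨l2 ++ a :: l1, hp.nodup_iff.2 h1, fun v => by rw [hp.mem_iff]; exact h2 v, ?_⟩
    have e1 : a :: ((l1 ++ T :: l2) ++ [a]) = (a :: l1) ++ T :: (l2 ++ [a]) := by simp
    have e2 : T :: ((l2 ++ a :: l1) ++ [T]) = (T :: l2) ++ a :: (l1 ++ [T]) := by simp
    rw [e1, List.isChain_split] at h3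
    rw [e2, List.isChain_split]
    exact ⟨h3.2, h3.1⟩

theorem Pth.symm (hs : ∀ x y, R x y → R y x) {a b : V} (h : Pth P R a b) : Pth P R b a := by
  obtain ⟨l, h1, h2, h3⟩ := h
  have e : (a :: (l ++ [b])).reverse = b :: (l.reverse ++ [a]) := by simp
  refine ⟨l.reverse, ?_, ?_, ?_⟩
  · rw [← e]; exact List.nodup_reverse.2 h1
  · intro v; rw [← e, List.mem_reverse]; exact h2 v
  · rw [← e, List.isChain_reverse]
    exact h3.imp fun x y hxy => hs _ _ hxy

/-- cutting a circle at a point with only two possible neighbours -/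
theorem Crc.cut (hs : ∀ x y, R x y → R y x) (h : Crc P R) {T a b : V} (hT : P T)
    (hnb : ∀ x, P x → x ≠ T → R T x → x = a ∨ x = b)
    (h3 : ∃ x y, P x ∧ P y ∧ x ≠ T ∧ y ≠ T ∧ x ≠ y) : Pth (fun v => P v ∧ v ≠ T) R a b := by
  obtain ⟨p, g1, g2, g3⟩ := h.rot hT
  obtain ⟨x0, y0, hx0, hy0, hxT, hyT, hxy⟩ := h3
  have hT' : T ∉ p := (List.nodup_cons.1 g1).1
  have hmem : ∀ v, P v → v ≠ T → v ∈ p := by
    intro v hv hne
    rcases List.mem_cons.1 ((g2 v).2 hv) with h | h
    · exact absurd h hne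
    · exact h
  cases p with
  | nil => exact absurd (hmem x0 hx0 hxT) (by simp)
  | cons x q =>
    rcases List.eq_nil_or_concat q with rfl | ⟨mid, y, rfl⟩
    · have k1 := hmem x0 hx0 hxT
      have k2 := hmem y0 hy0 hyT
      simp only [List.mem_cons, List.not_mem_nil, or_false] at k1 k2
      exact absurd (k1.trans k2.symm) hxy
    · have hnd := (List.nodup_cons.1 g1).2
      have hne : x ≠ y := by
        rintro rfl
        simp at hnd
      have k1 : R T x := by
        rw [List.cons_append, List.isChain_cons_cons] at g3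
        exact g3.1
      have k2 : R y T := by
        have e : T :: (x :: (mid ++ [y]) ++ [T]) = (T :: x :: mid) ++ y :: [T] := by simp
        rw [List.concat_eq_append] at g3
        rw [e, List.isChain_split] at g3
        have := g3.2
        rw [List.isChain_cons_cons] at this
        exact this.1
      rw [List.concat_eq_append] at g1 g2 g3 hnd hT'
      have k3 : (x :: (mid ++ [y])).IsChain R := by
        have e : T :: (x :: (mid ++ [y]) ++ [T]) = [T] ++ x :: ((mid ++ [y]) ++ [T]) := by simp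
        rw [e, List.isChain_split] at g3
        have h5 := g3.2
        have e2 : x :: ((mid ++ [y]) ++ [T]) = (x :: (mid ++ [y])) ++ [T] := by simp
        rw [e2] at h5
        exact h5.left_of_append
      have k4 : ∀ v, v ∈ x :: (mid ++ [y]) ↔ P v ∧ v ≠ T := by
        intro v
        constructor
        · intro hv
          refine ⟨(g2 v).1 (List.mem_cons_of_mem _ hv), ?_⟩
          rintro rfl
          exact hT' hv
        · rintro ⟨hv, hv'⟩
          rcases List.mem_cons.1 ((g2 v).2 hv) with h | h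
          · exact absurd h hv'
          · exact h
      have hx := (k4 x).1 (by simp)
      have hy := (k4 y).1 (by simp)
      have hp : Pth (fun v => P v ∧ v ≠ T) R x y := ⟨mid, hnd, k4, k3⟩
      rcases hnb x hx.1 hx.2 k1 with rfl | rfl
      · rcases hnb y hy.1 hy.2 (hs _ _ k2) with rfl | rfl
        · exact absurd rfl hne
        · exact hp
      · rcases hnb y hy.1 hy.2 (hs _ _ k2) with rfl | rfl
        · exact hp.symm hs
        · exact absurd rfl hne

/-- joining two paths by two points -/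
theorem Pth.join (hs : ∀ x y, R x y → R y x) {P1 P2 Q : V → Prop} {a1 b1 a2 b2 u u' : V}
    (h1 : Pth P1 R a1 b1) (h2 : Pth P2 R a2 b2) (k1 : R u a1) (k2 : R u a2) (k3 : R u' b1)
    (k4 : R u' b2) (hu : u ≠ u') (hd : ∀ v, P1 v → P2 v → False)
    (hu1 : ¬ P1 u ∧ ¬ P2 u ∧ ¬ P1 u' ∧ ¬ P2 u')
    (hQ : ∀ v, Q v ↔ P1 v ∨ P2 v ∨ v = u ∨ v = u') : Crc Q R := by
  obtain ⟨m1, f1, f2, f3⟩ := h1
  obtain ⟨m2, g1, g2, g3⟩ := h2.symm hs
  have key : ∀ A1 A2 : List V, A1.Nodup → (∀ v, v ∈ A1 ↔ P1 v) → A2.Nodup →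
      (∀ v, v ∈ A2 ↔ P2 v) → (u :: (A1 ++ u' :: A2)).Nodup ∧
        ∀ v, v ∈ u :: (A1 ++ u' :: A2) ↔ Q v := by
    intro A1 A2 f1 f2 g1 g2
    constructor
    · rw [List.nodup_cons, List.nodup_append', List.nodup_cons, List.mem_append, List.mem_cons,
        f2, g2, g2]
      refine ⟨?_, f1, ⟨hu1.2.2.2, g1⟩, ?_⟩
      · rintro (h | h | h)
        · exact hu1.1 h
        · exact hu h
        · exact hu1.2.1 h
      · intro v hv hv'
        rw [f2] at hv
        rw [List.mem_cons, g2] at hv'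
        rcases hv' with rfl | hv'
        · exact hu1.2.2.1 hv
        · exact hd v hv hv'
    · intro v
      rw [List.mem_cons, List.mem_append, List.mem_cons, f2, g2, hQ]
      tauto
  obtain ⟨e1, e2⟩ := key _ _ f1 f2 g1 g2
  refine ⟨u, (a1 :: (m1 ++ [b1])) ++ u' :: (b2 :: (m2 ++ [a2])), e1, e2, ?_⟩
  · have e : u :: (((a1 :: (m1 ++ [b1])) ++ u' :: (b2 :: (m2 ++ [a2]))) ++ [u]) =
        [u] ++ a1 :: (m1 ++ b1 :: (u' :: (b2 :: (m2 ++ a2 :: [u])))) := by simp
    rw [e, List.isChain_split]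
    refine ⟨by simpa using k1, ?_⟩
    rw [← List.cons_append, List.isChain_split]
    refine ⟨by simpa using f3, ?_⟩
    rw [List.isChain_cons_cons, List.isChain_cons_cons, ← List.cons_append, List.isChain_split]
    exact ⟨hs _ _ k3, k4, by simpa using g3, by simpa using hs _ _ k2⟩

theorem Crc.map {U : Type} {S : U → U → Prop} {Q : U → Prop} {f : V → U} (hf : Function.Injective f)
    (hQ : ∀ u, Q u ↔ ∃ v, P v ∧ f v = u) (hS : ∀ v w, R v w → S (f v) (f w)) (h : Crc P R) :
    Crc Q S := by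
  obtain ⟨a, l, h1, h2, h3⟩ := h
  refine ⟨f a, l.map f, ?_, ?_, ?_⟩
  · rw [← List.map_cons]
    exact h1.map hf
  · intro u
    rw [← List.map_cons, List.mem_map, hQ]
    simp only [h2]
  · have e : f a :: (l.map f ++ [f a]) = (a :: (l ++ [a])).map f := by simp
    rw [e, List.isChain_map]
    exact h3.imp hS

end

end Pool.Agent.T9h21.TB
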