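import Pool.Agent.T9h21.TB.Inst
import Pool.Agent.T9h21.TB.Pack
import Pool.Agent.T9h21.TB.Splice

/-!
# Rows of boards
-/

set_option autoImplicit false

namespace Pool.Agent.T9h21.TB

open Pool.Agent.ETSP

/-- The nodes of a row of boards: the nodes of board `κ`, and two circles between the boards `κ`
and `κ + 1`. -/
inductive Nk
  | B (κ : ℕ) (v : Nd)
  | U (κ : ℕ) (r : Bool)
  deriving DecidableEq

namespace Board

variable (b : Board)

/-- the distance of consecutive boards -/
def W : ℤ := 64 * b.M + 106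

/-- the position of a node -/
def posK : Nk → ℤ × ℤ
  | .B κ v => (b.px v + κ * b.W, b.py v)
  | .U κ r => (64 * b.M + 69 + κ * b.W, if r then -36 else 0)

/-- the radius of a node -/
def radK : Nk → ℤ
  | .B _ v => b.rad v
  | .U _ _ => 1

/-- the nodes of a row of `k` boards -/
def ValK (k : ℕ) (act : ℕ → ℕ → ℕ → Bool) : Nk → Prop
  | .B κ v => κ < k ∧ b.Val (act κ) v ∧ (v = .T 0 false → κ = 0) ∧ (v = .T 0 true → κ + 1 = k)
  | .U κ _ => κ + 1 < k

variable {b} {act : ℕ → ℕ → ℕ → Bool} {k : ℕ}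

theorem rng' {act : ℕ → ℕ → Bool} {v : Nd} (hv : b.Val act v) : -19 ≤ b.px v ∧
    b.px v ≤ 64 * b.M + 51 ∧ -(72 * b.h + 45) ≤ b.py v ∧ b.py v ≤ 9 := by
  have hH : b.H = 2 * b.h + 2 := rfl
  have hr : ∀ i n k, n ≤ 2 * b.M → k ≤ b.len i n → 0 ≤ b.xx i n k ∧ b.xx i n k ≤ 64 * b.M + 30 ∧
      1 ≤ b.sz i n k ^ 2 ∧ b.sz i n k ^ 2 ≤ 9 := by
    intro i n k hn hk
    have h4 := ft_len (b.ty i n)
    have h3 : k < 13 := by unfold len at hk; omega
    obtain ⟨g1, g2, g3, g4, -⟩ := ft_range (b.ty i n) ⟨k, h3⟩ hk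
    simp only at g1 g2 g3 g4
    have h5 : (n : ℤ) ≤ 2 * b.M := by exact_mod_cast hn
    have h6 : 1 ≤ b.sz i n k := g3
    have h7 : b.sz i n k ≤ 3 := g4
    unfold xx
    refine ⟨by omega, by omega, by nlinarith, by nlinarith⟩
  cases v with
  | X i n k s =>
    obtain ⟨h1, h2, h3, -⟩ := hv
    obtain ⟨g1, g2, g3, g4⟩ := hr i n k h2 h3
    simp only [px, py]
    cases s <;> simp [sg] <;> omega
  | Q i n k =>
    obtain ⟨h1, h2, h3, -⟩ := hv
    obtain ⟨g1, g2, g3, g4⟩ := hr i n k h2 h3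
    simp only [px, py]
    omega
  | S i r =>
    have h1 : i < b.H := hv
    simp only [px, py]
    cases r <;> simp <;> omega
  | C i r =>
    have h1 : i < b.H := hv
    simp only [px, py]
    cases r <;> simp <;> omega
  | T i r =>
    obtain ⟨h1, h2⟩ := hv
    simp only [px, py]
    cases r <;> simp <;> omega
  | A e c =>
    obtain ⟨h1, h2, -⟩ := hv
    simp only [px, py]
    omega

/-- the circles are apart -/
def Fa (b : Board) (v w : Nk) : Prop :=
  (b.radK v + b.radK w) ^ 2 < dd (b.posK v) (b.posK w)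

theorem fa_x {v w : Nk} (h0 : 0 ≤ b.radK v + b.radK w)
    (h : b.radK v + b.radK w < (b.posK v).1 - (b.posK w).1 ∨
      b.radK v + b.radK w < (b.posK w).1 - (b.posK v).1) : b.Fa v w := by
  unfold Fa dd
  rcases h with h | h
  · nlinarith [sq_nonneg ((b.posK v).2 - (b.posK w).2)]
  · nlinarith [sq_nonneg ((b.posK v).2 - (b.posK w).2)]

theorem fa_y {v w : Nk} (h0 : 0 ≤ b.radK v + b.radK w)
    (h : b.radK v + b.radK w < (b.posK v).2 - (b.posK w).2 ∨
      b.radK v + b.radK w < (b.posK w).2 - (b.posK v).2) : b.Fa v w := by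
  unfold Fa dd
  rcases h with h | h
  · nlinarith [sq_nonneg ((b.posK v).1 - (b.posK w).1)]
  · nlinarith [sq_nonneg ((b.posK v).1 - (b.posK w).1)]

theorem Fa.symm {v w : Nk} (h : b.Fa v w) : b.Fa w v := by
  unfold Fa dd at *
  rw [add_comm]
  linarith [h, sq_nonneg ((b.posK v).1 - (b.posK w).1)]

theorem Fa.not_tch {v w : Nk} (h : b.Fa v w) : ¬ Tch b.posK b.radK v w := by
  unfold Fa at h
  unfold Tch
  omega

theorem tch_symm {v w : Nk} (h : Tch b.posK b.radK v w) : Tch b.posK b.radK w v := by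
  unfold Tch dd at *
  rw [add_comm (b.radK w)]
  linarith

theorem W_pos : 106 ≤ b.W := by unfold W; omega

theorem mulW {κ κ' : ℕ} (h : κ < κ') : (κ : ℤ) * b.W + b.W ≤ κ' * b.W := by
  have h1 : ((κ : ℤ) + 1) * b.W ≤ κ' * b.W :=
    mul_le_mul_of_nonneg_right (by exact_mod_cast h) (by have := b.W_pos; omega)
  linarith

theorem rad_bds {act : ℕ → ℕ → Bool} {v : Nd} (hv : b.Val act v) : 0 ≤ b.rad v ∧ b.rad v ≤ 17 :=
  ⟨b.rad_nonneg v, rad_le v hv⟩

theorem rad_small {act : ℕ → ℕ → Bool} {v : Nd} (hv : b.Val act v) (h : ∀ i r, v ≠ .C i r) :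
    b.rad v ≤ 9 := by
  cases v with
  | X i n k s =>
    have h1 := b.sz_pos i n k hv.2.2.1
    have h2 : b.sz i n k ≤ 3 := by
      have := ft_range (b.ty i n) ⟨k, by
        have h3 := hv.2.2.1
        have h4 := ft_len (b.ty i n)
        unfold len at h3
        omega⟩ hv.2.2.1
      exact this.2.2.2.1
    simp only [rad]
    nlinarith
  | Q i n k => simp [rad]
  | S i r => simp [rad]
  | C i r => exact absurd rfl (h i r)
  | T i r => simp [rad]
  | A e c => simp [rad]

theorem fa_boards {act act' : ℕ → ℕ → Bool} {κ κ' : ℕ} {v v' : Nd} (h : κ < κ')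
    (hv : b.Val act v) (hv' : b.Val act' v') : b.Fa (.B κ v) (.B κ' v') := by
  obtain ⟨h1, h2, -, -⟩ := rng' hv
  obtain ⟨g1, g2, -, -⟩ := rng' hv'
  obtain ⟨r1, r2⟩ := rad_bds hv
  obtain ⟨r3, r4⟩ := rad_bds hv'
  have h3 := b.mulW h
  apply fa_x
  · simp only [radK]; omega
  · simp only [radK, posK]
    unfold W at h3 ⊢
    right
    linarith

/-- a circle between two boards is apart from all circles of the boards but those at the ends -/
theorem fa_U {act : ℕ → ℕ → Bool} {κ κ' : ℕ} {r : Bool} {v : Nd} (hv : b.Val act v)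
    (h : ∀ i s, v ≠ .C i s) : b.Fa (.U κ r) (.B κ' v) := by
  obtain ⟨h1, h2, -, -⟩ := rng' hv
  have r1 := b.rad_nonneg v
  have r2 := rad_small hv h
  apply fa_x
  · simp only [radK]; omega
  · simp only [radK, posK]
    rcases Nat.lt_or_ge κ κ' with h3 | h3
    · have h4 := b.mulW h3
      unfold W at h4 ⊢
      right; linarith
    · have h4 : (κ' : ℤ) * b.W ≤ κ * b.W :=
        mul_le_mul_of_nonneg_right (by exact_mod_cast h3) (by have := b.W_pos; omega)
      unfold W at h4 ⊢
      left; linarith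

theorem UC {κ κ' i : ℕ} {r s : Bool} :
    (b.radK (.U κ r) + b.radK (.B κ' (.C i s))) ^ 2 ≤
      dd (b.posK (.U κ r)) (b.posK (.B κ' (.C i s))) := by
  unfold dd
  simp only [radK, posK, rad, px, py]
  have hM0 : (0 : ℤ) ≤ b.M := Int.natCast_nonneg _
  have h4 : (18 : ℤ) ≤ (64 * b.M + 69 + κ * b.W) -
      ((if s then 64 * (b.M : ℤ) + 51 else -19) + κ' * b.W) ∨
      (18 : ℤ) ≤ ((if s then 64 * (b.M : ℤ) + 51 else -19) + κ' * b.W) -
        (64 * b.M + 69 + κ * b.W) := by
    rcases Nat.lt_or_ge κ κ' with h3 | h3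
    · have h4 := b.mulW h3
      right
      unfold W at h4 ⊢
      cases s
      · simp only [Bool.false_eq_true, if_false]; linarith
      · simp only [if_true]; linarith
    · have h4 : (κ' : ℤ) * b.W ≤ κ * b.W :=
        mul_le_mul_of_nonneg_right (by exact_mod_cast h3) (by have := b.W_pos; omega)
      left
      unfold W at h4 ⊢
      cases s
      · simp only [Bool.false_eq_true, if_false]; linarith
      · simp only [if_true]; linarith
  rcases h4 with h4 | h4
  · nlinarith [sq_nonneg ((if r then (-36 : ℤ) else 0) - -36 * i)]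
  · nlinarith [sq_nonneg ((if r then (-36 : ℤ) else 0) - -36 * i)]

theorem UU {κ κ' : ℕ} {r r' : Bool} (h : Nk.U κ r ≠ .U κ' r') : b.Fa (.U κ r) (.U κ' r') := by
  by_cases h1 : κ = κ'
  · subst h1
    have h2 : r ≠ r' := fun h2 => h (by rw [h2])
    apply fa_y
    · simp [radK]
    · simp only [radK, posK]
      cases r <;> cases r' <;> simp at h2 ⊢
  · apply fa_x
    · simp [radK]
    · simp only [radK, posK]
      have h2 := b.W_pos
      rcases Nat.lt_or_ge κ κ' with h3 | h3
      · have h4 := b.mulW h3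
        right; linarith
      · have h4 := b.mulW (show κ' < κ by omega)
        left; linarith

theorem dd_same (κ : ℕ) (v w : Nd) : dd (b.posK (.B κ v)) (b.posK (.B κ w)) = b.d2 v w := by
  unfold dd d2
  simp only [posK]
  ring

theorem tch_same {κ : ℕ} {v w : Nd} : Tch b.posK b.radK (.B κ v) (.B κ w) ↔ b.Tight v w := by
  unfold Tch Tight
  rw [dd_same]
  exact Iff.rfl

theorem sepK (hM : 1 ≤ b.M) {v w : Nk} (hv : b.ValK k act v) (hw : b.ValK k act w)
    (hne : v ≠ w) : (b.radK v + b.radK w) ^ 2 ≤ dd (b.posK v) (b.posK w) := by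
  have hs : ∀ {v w : Nk}, (b.radK v + b.radK w) ^ 2 ≤ dd (b.posK v) (b.posK w) →
      (b.radK w + b.radK v) ^ 2 ≤ dd (b.posK w) (b.posK v) := by
    intro v w h
    unfold dd at *
    rw [add_comm (b.radK w)]
    linarith
  have hUB : ∀ {κ κ' : ℕ} {r : Bool} {v : Nd}, b.Val (act κ') v →
      (b.radK (.U κ r) + b.radK (.B κ' v)) ^ 2 ≤ dd (b.posK (.U κ r)) (b.posK (.B κ' v)) := by
    intro κ κ' r v hv
    by_cases h : ∃ i s, v = .C i s
    · obtain ⟨i, s, rfl⟩ := h
      exact UC
    · exact le_of_lt (fa_U hv fun i s h1 => h ⟨i, s, h1⟩)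
  cases v with
  | B κ v =>
    cases w with
    | B κ' w =>
      rcases Nat.lt_trichotomy κ κ' with h | rfl | h
      · exact le_of_lt (fa_boards h hv.2.1 hw.2.1)
      · rw [dd_same]
        have hne' : v ≠ w := fun h => hne (by rw [h])
        exact (cls hM hv.2.1 hw.2.1 hne').1
      · exact hs (le_of_lt (fa_boards h hw.2.1 hv.2.1))
    | U κ' r => exact hs (hUB hv.2.1)
  | U κ r =>
    cases w with
    | B κ' w => exact hUB hw.2.1
    | U κ' r' => exact le_of_lt (UU hne)

/-- the neighbours of a node without circles of size 17 -/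
theorem nbK (hM : 1 ≤ b.M) {κ : ℕ} {v : Nd} {w : Nk} (hv : b.ValK k act (.B κ v))
    (hw : b.ValK k act w) (hne : Nk.B κ v ≠ w) (hC : ∀ i r, v ≠ .C i r)
    (ht : Tch b.posK b.radK (.B κ v) w) : ∃ w', w = .B κ w' ∧ w' ∈ b.nb (act κ) v := by
  cases w with
  | B κ' w =>
    rcases Nat.lt_trichotomy κ κ' with h | rfl | h
    · exact absurd ht (fa_boards h hv.2.1 hw.2.1).not_tch
    · have hne' : v ≠ w := fun h => hne (by rw [h])
      rw [tch_same] at ht
      exact ⟨w, rfl, ((cls hM hv.2.1 hw.2.1 hne').2 ht).1⟩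
    · exact absurd ht (fa_boards h hw.2.1 hv.2.1).symm.not_tch
  | U κ' r => exact absurd ht (fa_U hv.2.1 hC).symm.not_tch

theorem finK : {v | b.ValK k act v}.Finite := by
  have h1 : {v | b.ValK k act v} ⊆
      (⋃ κ ∈ Set.Iio k, (Nk.B κ) '' {v | b.Val (act κ) v}) ∪
        (Set.image (fun p : ℕ × Bool => Nk.U p.1 p.2) (Set.Iio k ×ˢ Set.univ)) := by
    intro v hv
    cases v with
    | B κ v =>
      left
      simp only [Set.mem_iUnion]
      exact ⟨κ, hv.1, v, hv.2.1, rfl⟩
    | U κ r =>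
      right
      have h2 : κ + 1 < k := hv
      exact ⟨(κ, r), ⟨by simp only [Set.mem_Iio]; omega, Set.mem_univ _⟩, rfl⟩
  refine Set.Finite.subset (Set.Finite.union ?_ ?_) h1
  · exact Set.Finite.biUnion (Set.finite_Iio k) fun κ _ => val_fin.image _
  · exact ((Set.finite_Iio k).prod Set.finite_univ).image _

theorem packK (hM : 1 ≤ b.M) (hk : 1 ≤ k) : Pack (b.ValK k act) b.posK b.radK := by
  have hH : b.H = 2 * b.h + 2 := rfl
  refine ⟨finK, ?_, ?_, fun v w hv hw hne => sepK hM hv hw hne, ?_, ?_⟩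
  · intro v hv
    cases v with
    | B κ v => exact b.rad_nonneg v
    | U κ r => simp [radK]
  · intro v hv
    cases v with
    | B κ v => exact rad_le v hv.2.1
    | U κ r => simp [radK]
  · intro v w hv hw h
    have h0 : dd (b.posK v) (b.posK w) = 0 := by rw [h]; unfold dd; ring
    have hF : ∀ {v w : Nk}, dd (b.posK v) (b.posK w) = 0 → b.Fa v w → False := by
      intro v w h0 h1
      unfold Fa at h1
      rw [h0] at h1
      have := sq_nonneg (b.radK v + b.radK w)
      omega
    have hUB : ∀ {κ κ' : ℕ} {r : Bool} {v : Nd}, b.Val (act κ') v →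
        dd (b.posK (.U κ r)) (b.posK (.B κ' v)) = 0 → False := by
      intro κ κ' r v hv h0
      by_cases h : ∃ i s, v = .C i s
      · obtain ⟨i, s, rfl⟩ := h
        have := UC (b := b) (κ := κ) (κ' := κ') (i := i) (r := r) (s := s)
        rw [h0] at this
        simp [radK, rad] at this
      · exact hF h0 (fa_U hv fun i s h1 => h ⟨i, s, h1⟩)
    have h0' : dd (b.posK w) (b.posK v) = 0 := by rw [h]; unfold dd; ring
    cases v with
    | B κ v =>
      cases w with
      | B κ' w =>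
        rcases Nat.lt_trichotomy κ κ' with h1 | rfl | h1
        · exact (hF h0 (fa_boards h1 hv.2.1 hw.2.1)).elim
        · have h2 : b.pos v = b.pos w := by
            simp only [posK, Prod.mk.injEq] at h
            unfold pos
            rw [Prod.mk.injEq]
            exact ⟨by linarith [h.1], h.2⟩
          rw [pos_inj hM hv.2.1 hw.2.1 h2]
        · exact (hF h0' (fa_boards h1 hw.2.1 hv.2.1)).elim
      | U κ' r => exact (hUB hv.2.1 h0').elim
    | U κ r =>
      cases w with
      | B κ' w => exact (hUB hw.2.1 h0).elim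
      | U κ' r' =>
        by_contra hne
        exact hF h0 (UU hne)
  · refine ⟨.B 0 (.S 0 false), .B 0 (.S 0 true), .B 0 (.C 0 false), ⟨hk, ?_, by simp, by simp⟩,
      ⟨hk, ?_, by simp, by simp⟩, ⟨hk, ?_, by simp, by simp⟩, by simp, by simp, by simp⟩
    · simp only [Val]; omega
    · simp only [Val]; omega
    · simp only [Val]; omega

theorem tot_eq {act' : ℕ → ℕ → ℕ → Bool} (h : Pack (b.ValK k act) b.posK b.radK)
    (h' : Pack (b.ValK k act') b.posK b.radK) : h.tot = h'.tot := by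
  classical
  set p : Nk → Prop := fun v => ∀ κ e c, v ≠ .B κ (.A e c) with hp
  have h1 : ∀ {act : ℕ → ℕ → ℕ → Bool} (h : Pack (b.ValK k act) b.posK b.radK),
      ∑ v ∈ h.fin.toFinset with p v, b.radK v = h.tot := by
    intro act h
    unfold Pack.tot
    apply Finset.sum_filter_of_ne
    intro v _ hr κ e c hv
    subst hv
    simp [radK, rad] at hr
  rw [← h1 h, ← h1 h']
  apply Finset.sum_congr _ fun _ _ => rfl
  have h2 : ∀ {act act' : ℕ → ℕ → ℕ → Bool} {v : Nk}, p v → b.ValK k act v →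
      b.ValK k act' v := by
    intro act act' v hv h
    cases v with
    | B κ v =>
      refine ⟨h.1, ?_, h.2.2⟩
      have h3 := h.2.1
      cases v with
      | X i n k s => exact h3
      | Q i n k => exact h3
      | S i r => exact h3
      | C i r => exact h3
      | T i r => exact h3
      | A e c => exact absurd rfl (hv κ e c)
    | U κ r => exact h
  ext v
  simp only [Finset.mem_filter, Set.Finite.mem_toFinset, Set.mem_ofPred_eq]
  exact ⟨fun h => ⟨h2 h.2 h.1, h.2⟩, fun h => ⟨h2 h.2 h.1, h.2⟩⟩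

end Board

end Pool.Agent.T9h21.TB
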