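import Pool.Agent.T9h21.TB.Form
import Pool.Agent.W969.MC.Circ

/-!
# Boards of constraint satisfaction problems
-/

set_option autoImplicit false

namespace Pool.Agent.T9h21.TB

/-- Parameters: `J` copies of a problem with `m` variables, each with `t` bits, and `M` constraints
with `a` variables. -/
structure Pq where
  J : ℕ
  m : ℕ
  M : ℕ
  a : ℕ
  t : ℕ
  h : Fin M → Fin a → Fin m

theorem ln_lt {x y X Y : ℕ} (hx : x < X) (hy : y < Y) : x * Y + y < X * Y := by
  have : (x + 1) * Y ≤ X * Y := Nat.mul_le_mul_right _ hx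
  rw [Nat.add_mul, Nat.one_mul] at this
  omega

theorem unq {x y x' y' Y : ℕ} (hy : y < Y) (hy' : y' < Y) (h : x * Y + y = x' * Y + y') :
    x = x' ∧ y = y' := by
  rcases Nat.lt_trichotomy x x' with h1 | h1 | h1
  · have := ln_lt h1 hy
    omega
  · subst h1
    exact ⟨rfl, by omega⟩
  · have := ln_lt h1 hy'
    omega

namespace Pq

variable (P : Pq)

/-- the number of bits of a constraint -/
def w : ℕ := P.a * P.t

/-- the number of rows of a copy -/
def Hc : ℕ := P.m * P.t + P.M * (P.w + 2) + 2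

/-- the rows of a copy -/
def row (j r : ℕ) : ℕ := 1 + (j * P.Hc + r)

/-- the number of rows -/
def RT : ℕ := 1 + P.J * P.Hc

/-- the number of global columns -/
def G : ℕ := 2 * (P.M * P.w)

/-- the index of a bit -/
def ri (x : Fin P.a) (y : Fin P.t) : ℕ := x.val * P.t + y.val

/-- the index of a bit of a variable -/
def vi (v : Fin P.m) (y : Fin P.t) : ℕ := v.val * P.t + y.val

/-- the start of a block -/
def bs (i : Fin P.M) : ℕ := P.m * P.t + i.val * (P.w + 2)

/-- the row of a bit of a variable -/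
def rV (j : Fin P.J) (v : Fin P.m) (y : Fin P.t) : ℕ := P.row j (P.vi v y)

/-- the row of the copy of a bit in a block -/
def rB (j : Fin P.J) (i : Fin P.M) (x : Fin P.a) (y : Fin P.t) : ℕ := P.row j (P.bs i + P.ri x y)

/-- the last row but one of a copy -/
def eG (j : Fin P.J) : ℕ := P.row j (P.m * P.t + P.M * (P.w + 2))

/-- the last row but one of a block -/
def eL (j : Fin P.J) (i : Fin P.M) : ℕ := P.row j (P.bs i + P.w)

/-- the index of a global column -/
def gc (i : Fin P.M) (x : Fin P.a) (y : Fin P.t) : ℕ := i.val * P.w + P.ri x y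

open Classical in
/-- the formula -/
noncomputable def fm : Fm where
  h := P.RT
  k := P.G + 2 ^ P.w
  pr := fun c ρ => decide ((∃ j i x y, c = 2 * P.gc i x y ∧ ρ = P.rV j (P.h i x) y) ∨
    (∃ j i x y, c = 2 * P.gc i x y + 1 ∧ ρ = P.rB j i x y) ∨
    (∃ s j i x y, c = P.G + s ∧ ρ = P.rB j i x y ∧ s.testBit (P.ri x y) = false))
  nr := fun c ρ => decide ((∃ j i x y, c = 2 * P.gc i x y ∧ ρ = P.rB j i x y) ∨
    (∃ j i x y, c = 2 * P.gc i x y + 1 ∧ ρ = P.rV j (P.h i x) y) ∨
    (∃ s j i x y, c = P.G + s ∧ ρ = P.rB j i x y ∧ s.testBit (P.ri x y) = true))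
  tm := fun c ρ => decide ((c < P.G ∧ ∃ j, ρ = P.eG j) ∨ (P.G ≤ c ∧ ∃ j i, ρ = P.eL j i))
  bl := fun c ρ => decide ((c < P.G ∧ ∃ j, ρ = P.eG j + 1) ∨ (P.G ≤ c ∧ ∃ j i, ρ = P.eL j i + 1))
  te := fun ρ => decide ((∃ j, ρ = P.eG j) ∨ ∃ j i, ρ = P.eL j i)

variable {P}

theorem row_uniq {j j' r r' : ℕ} (hr : r < P.Hc) (hr' : r' < P.Hc) (h : P.row j r = P.row j' r') :
    j = j' ∧ r = r' := by
  unfold row at h
  exact unq hr hr' (Nat.add_left_cancel h)

theorem row_lt {j j' r r' : ℕ} (hr : r < P.Hc) (h : j < j') : P.row j r < P.row j' r' := by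
  unfold row
  have := ln_lt h hr
  omega

theorem row_mono {j r r' : ℕ} (h : r < r') : P.row j r < P.row j r' := by unfold row; omega

theorem row_succ {j r : ℕ} : P.row j r + 1 = P.row j (r + 1) := by unfold row; omega

theorem row_le {r : ℕ} {j : Fin P.J} (hr : r < P.Hc) : 1 ≤ P.row j r ∧ P.row j r < P.RT := by
  have := ln_lt j.2 hr
  unfold row RT
  omega

theorem ri_lt (x : Fin P.a) (y : Fin P.t) : P.ri x y < P.w := ln_lt x.2 y.2

theorem vi_lt (v : Fin P.m) (y : Fin P.t) : P.vi v y < P.m * P.t := ln_lt v.2 y.2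

theorem bs_lt (i : Fin P.M) : P.m * P.t ≤ P.bs i ∧ P.bs i + (P.w + 2) ≤ P.m * P.t +
    P.M * (P.w + 2) := by
  have : (i.val + 1) * (P.w + 2) ≤ P.M * (P.w + 2) := Nat.mul_le_mul_right _ i.2
  rw [Nat.add_mul, Nat.one_mul] at this
  unfold bs
  omega

theorem Hc_eq : P.Hc = P.m * P.t + P.M * (P.w + 2) + 2 := rfl

theorem bs_uniq {i i' : Fin P.M} {r r' : ℕ} (hr : r < P.w + 2) (hr' : r' < P.w + 2)
    (h : P.bs i + r = P.bs i' + r') : i = i' ∧ r = r' := by
  unfold bs at h
  obtain ⟨h1, h2⟩ := unq hr hr' (by omega : i.val * (P.w + 2) + r = i'.val * (P.w + 2) + r')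
  exact ⟨Fin.ext h1, h2⟩

theorem bs_mono {i i' : Fin P.M} (h : i < i') : P.bs i + (P.w + 2) ≤ P.bs i' := by
  have h1 : (i.val + 1) * (P.w + 2) ≤ i'.val * (P.w + 2) := Nat.mul_le_mul_right _ h
  rw [Nat.add_mul, Nat.one_mul] at h1
  unfold bs
  omega

theorem gc_lt (i : Fin P.M) (x : Fin P.a) (y : Fin P.t) : 2 * P.gc i x y + 1 < P.G := by
  have := ln_lt i.2 (ri_lt x y)
  unfold gc G
  omega

theorem ri_inj {x x' : Fin P.a} {y y' : Fin P.t} (h : P.ri x y = P.ri x' y') : x = x' ∧ y = y' := by
  obtain ⟨h1, h2⟩ := unq y.2 y'.2 h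
  exact ⟨Fin.ext h1, Fin.ext h2⟩

theorem vi_inj {x x' : Fin P.m} {y y' : Fin P.t} (h : P.vi x y = P.vi x' y') : x = x' ∧ y = y' := by
  obtain ⟨h1, h2⟩ := unq y.2 y'.2 h
  exact ⟨Fin.ext h1, Fin.ext h2⟩

theorem gc_inj {i i' : Fin P.M} {x x' : Fin P.a} {y y' : Fin P.t}
    (h : P.gc i x y = P.gc i' x' y') : i = i' ∧ x = x' ∧ y = y' := by
  obtain ⟨h1, h2⟩ := unq (ri_lt x y) (ri_lt x' y') h
  exact ⟨Fin.ext h1, ri_inj h2⟩

theorem rV_inj {j j' : Fin P.J} {v v' : Fin P.m} {y y' : Fin P.t}
    (h : P.rV j v y = P.rV j' v' y') : j = j' ∧ v = v' ∧ y = y' := by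
  have h1 := vi_lt v y
  have h2 := vi_lt v' y'
  have h3 := P.Hc_eq
  obtain ⟨h4, h5⟩ := row_uniq (by omega) (by omega) h
  exact ⟨Fin.ext h4, vi_inj h5⟩

theorem rB_inj {j j' : Fin P.J} {i i' : Fin P.M} {x x' : Fin P.a} {y y' : Fin P.t}
    (h : P.rB j i x y = P.rB j' i' x' y') : j = j' ∧ i = i' ∧ x = x' ∧ y = y' := by
  have h1 := ri_lt x y
  have h2 := ri_lt x' y'
  have h3 := P.Hc_eq
  have h4 := bs_lt i
  have h5 := bs_lt i'
  obtain ⟨h6, h7⟩ := row_uniq (by omega) (by omega) h
  obtain ⟨h8, h9⟩ := bs_uniq (by omega) (by omega) h7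
  exact ⟨Fin.ext h6, h8, ri_inj h9⟩

theorem rV_ne_rB {j j' : Fin P.J} {i' : Fin P.M} {v : Fin P.m} {x' : Fin P.a} {y y' : Fin P.t} :
    P.rV j v y ≠ P.rB j' i' x' y' := by
  intro h
  have h1 := vi_lt v y
  have h2 := ri_lt x' y'
  have h3 := P.Hc_eq
  have h5 := bs_lt i'
  obtain ⟨h6, h7⟩ := row_uniq (by omega) (by omega) h
  omega

/-- the rows of literals -/
def LitR (P : Pq) (ρ : ℕ) : Prop := (∃ j v y, ρ = P.rV j v y) ∨ ∃ j i x y, ρ = P.rB j i x y

theorem lit_ne {ρ : ℕ} (h : P.LitR ρ) : 1 ≤ ρ ∧ ρ < P.RT ∧ (∀ j, ρ ≠ P.eG j ∧ ρ ≠ P.eG j + 1) ∧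
    ∀ j i, ρ ≠ P.eL j i ∧ ρ ≠ P.eL j i + 1 := by
  have h3 := P.Hc_eq
  rcases h with ⟨j, v, y, rfl⟩ | ⟨j, i, x, y, rfl⟩
  · have h1 := vi_lt v y
    obtain ⟨g1, g2⟩ := P.row_le (j := j) (r := P.vi v y) (by omega)
    refine ⟨g1, g2, fun j' => ⟨fun h => ?_, fun h => ?_⟩, fun j' i' => ?_⟩
    · have := (row_uniq (by omega) (by omega) h).2
      omega
    · unfold eG at h
      rw [row_succ] at h
      have := (row_uniq (by omega) (by omega) h).2
      omega
    · have h5 := bs_lt i'
      refine ⟨fun h => ?_, fun h => ?_⟩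
      · have := (row_uniq (by omega) (by omega) h).2
        omega
      · unfold eL at h
        rw [row_succ] at h
        have := (row_uniq (by omega) (by omega) h).2
        omega
  · have h1 := ri_lt x y
    have h4 := bs_lt i
    obtain ⟨g1, g2⟩ := P.row_le (j := j) (r := P.bs i + P.ri x y) (by omega)
    refine ⟨g1, g2, fun j' => ⟨fun h => ?_, fun h => ?_⟩, fun j' i' => ?_⟩
    · have := (row_uniq (by omega) (by omega) h).2
      omega
    · unfold eG at h
      rw [row_succ] at h
      have := (row_uniq (by omega) (by omega) h).2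
      omega
    · have h5 := bs_lt i'
      refine ⟨fun h => ?_, fun h => ?_⟩
      · have h6 := (row_uniq (by omega) (by omega) h).2
        have := (bs_uniq (by omega) (by omega) h6).2
        omega
      · unfold eL at h
        rw [row_succ] at h
        have h6 := (row_uniq (by omega) (by omega) h).2
        have := (bs_uniq (P := P) (i := i) (i' := i') (r := P.ri x y) (r' := P.w + 1) (by omega) (by omega)
          (by omega)).2
        omega

theorem eG_ne_eL {j j' : Fin P.J} {i : Fin P.M} : P.eG j ≠ P.eL j' i ∧ P.eG j + 1 ≠ P.eL j' i ∧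
    P.eG j ≠ P.eL j' i + 1 := by
  have h3 := P.Hc_eq
  have h4 := bs_lt i
  refine ⟨fun h => ?_, fun h => ?_, fun h => ?_⟩
  · have := (row_uniq (by omega) (by omega) h).2
    omega
  · unfold eG at h
    rw [row_succ] at h
    have := (row_uniq (by omega) (by omega) h).2
    omega
  · unfold eL at h
    rw [row_succ] at h
    have := (row_uniq (by omega) (by omega) h).2
    omega

theorem eG_le (j : Fin P.J) : 1 ≤ P.eG j ∧ P.eG j + 1 < P.RT := by
  have h3 := P.Hc_eq
  unfold eG
  rw [row_succ]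
  exact ⟨(P.row_le (j := j) (by omega)).1, (P.row_le (j := j) (by omega)).2⟩

theorem eL_le (j : Fin P.J) (i : Fin P.M) : 1 ≤ P.eL j i ∧ P.eL j i + 1 < P.RT := by
  have h3 := P.Hc_eq
  have h4 := bs_lt i
  unfold eL
  rw [row_succ]
  exact ⟨(P.row_le (j := j) (by omega)).1, (P.row_le (j := j) (by omega)).2⟩

theorem ok : P.fm.OK := by
  have hrow : ∀ c ρ, (P.fm.pr c ρ = true ∨ P.fm.nr c ρ = true) → P.LitR ρ := by
    intro c ρ h
    simp only [fm, decide_eq_true_eq] at h
    rcases h with (⟨j, i, x, y, -, h⟩ | ⟨j, i, x, y, -, h⟩ | ⟨s, j, i, x, y, -, h, -⟩) |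
      (⟨j, i, x, y, -, h⟩ | ⟨j, i, x, y, -, h⟩ | ⟨s, j, i, x, y, -, h, -⟩)
    · exact Or.inl ⟨_, _, _, h⟩
    · exact Or.inr ⟨_, _, _, _, h⟩
    · exact Or.inr ⟨_, _, _, _, h⟩
    · exact Or.inr ⟨_, _, _, _, h⟩
    · exact Or.inl ⟨_, _, _, h⟩
    · exact Or.inr ⟨_, _, _, _, h⟩
  have hte : ∀ ρ, P.LitR ρ → P.fm.te ρ = false := by
    intro ρ h
    obtain ⟨h1, h2, h3, h4⟩ := lit_ne h
    simp only [fm, decide_eq_false_iff_not, not_or, not_exists]
    exact ⟨fun j => (h3 j).1, fun j i => (h4 j i).1⟩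
  have hh : P.fm.h = P.RT := rfl
  refine ⟨?_, ?_, ?_, ?_, ?_, ?_⟩
  · intro c ρ h1 h2
    simp only [fm, decide_eq_true_eq] at h1 h2
    rcases h1 with ⟨j, i, x, y, e1, e2⟩ | ⟨j, i, x, y, e1, e2⟩ | ⟨s, j, i, x, y, e1, e2, e3⟩ <;>
    rcases h2 with ⟨j', i', x', y', f1, f2⟩ | ⟨j', i', x', y', f1, f2⟩ |
      ⟨s', j', i', x', y', f1, f2, f3⟩
    · exact rV_ne_rB (e2.symm.trans f2)
    · omega
    · have := gc_lt i x y
      omega
    · omega
    · exact rV_ne_rB (f2.symm.trans e2)
    · have := gc_lt i x y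
      omega
    · have := gc_lt i' x' y'
      omega
    · have := gc_lt i' x' y'
      omega
    · obtain ⟨rfl, rfl, rfl, rfl⟩ := rB_inj (e2.symm.trans f2)
      obtain rfl : s = s' := by omega
      rw [e3] at f3
      simp at f3
  · intro c ρ h
    have h0 := hrow c ρ (Or.inl h)
    obtain ⟨h1, h2, h3⟩ := lit_ne h0
    exact ⟨h1, by omega, hte ρ h0⟩
  · intro c ρ h
    have h0 := hrow c ρ (Or.inr h)
    obtain ⟨h1, h2, h3⟩ := lit_ne h0
    exact ⟨h1, by omega, hte ρ h0⟩
  · intro c ρ h
    simp only [fm, decide_eq_true_eq] at h ⊢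
    rcases h with h | h
    · exact Or.inl h.2
    · exact Or.inr h.2
  · intro c ρ h
    simp only [fm, decide_eq_true_eq] at h
    have hl : ∀ c', ¬ (P.fm.pr c' ρ = true ∨ P.fm.nr c' ρ = true) := by
      intro c' h1
      obtain ⟨-, -, h2, h3⟩ := lit_ne (hrow c' ρ h1)
      rcases h with ⟨-, j, h⟩ | ⟨-, j, i, h⟩
      · exact (h2 j).2 h
      · exact (h3 j i).2 h
    refine ⟨?_, ?_, ?_⟩
    · by_contra h1
      rw [Bool.not_eq_false] at h1
      exact hl c (Or.inl h1)
    · by_contra h1
      rw [Bool.not_eq_false] at h1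
      exact hl c (Or.inr h1)
    · by_contra h1
      rw [Bool.not_eq_false] at h1
      simp only [fm, decide_eq_true_eq] at h1
      have h3 := P.Hc_eq
      rcases h with ⟨h4, j, h⟩ | ⟨h4, j, i, h⟩
      · rcases h1 with ⟨-, j', h1⟩ | ⟨h1, -⟩
        · have h5 : P.row j (P.m * P.t + P.M * (P.w + 2) + 1) =
              P.row j' (P.m * P.t + P.M * (P.w + 2)) := by
            rw [← row_succ]
            exact h.symm.trans h1
          have := (row_uniq (by omega) (by omega) h5).2
          omega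
        · omega
      · rcases h1 with ⟨h1, -⟩ | ⟨-, j', i', h1⟩
        · omega
        · have h6 := bs_lt i
          have h7 := bs_lt i'
          have h5 : P.row j (P.bs i + P.w + 1) = P.row j' (P.bs i' + P.w) := by
            rw [← row_succ]
            exact h.symm.trans h1
          have h8 := (row_uniq (by omega) (by omega) h5).2
          have := (bs_uniq (P := P) (i := i) (i' := i') (r := P.w + 1) (r' := P.w) (by omega)
            (by omega) (by omega)).2
          omega
  · intro c ρ h h1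
    simp only [fm, decide_eq_true_eq] at h ⊢
    rcases h with ⟨h2, j, h3⟩ | ⟨h2, j, i, h3⟩
    · exact Or.inl ⟨h2, j, by omega⟩
    · exact Or.inr ⟨h2, j, i, by omega⟩

open Classical in
/-- the code of the values of a constraint -/
noncomputable def enc (P : Pq) (σ : Fin P.a → Fin P.t → Bool) : ℕ :=
  Nat.ofBits (n := P.w) (fun r => if h : r.val / P.t < P.a ∧ r.val % P.t < P.t then
    σ ⟨r.val / P.t, h.1⟩ ⟨r.val % P.t, h.2⟩ else false)

theorem enc_lt (σ : Fin P.a → Fin P.t → Bool) : P.enc σ < 2 ^ P.w := Nat.ofBits_lt_two_pow _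

theorem enc_bit (σ : Fin P.a → Fin P.t → Bool) (x : Fin P.a) (y : Fin P.t) :
    (P.enc σ).testBit (P.ri x y) = σ x y := by
  unfold enc
  rw [Nat.testBit_ofBits_lt (h := ri_lt x y)]
  have ht : 0 < P.t := by have := y.2; omega
  have h1 : P.ri x y / P.t = x.val := by
    unfold ri
    rw [Nat.mul_comm, Nat.mul_add_div ht, Nat.div_eq_of_lt y.2, Nat.add_zero]
  have h2 : P.ri x y % P.t = y.val := by
    unfold ri
    rw [Nat.mul_comm, Nat.mul_add_mod, Nat.mod_eq_of_lt y.2]
  simp only [h1, h2]
  rw [dif_pos ⟨x.2, y.2⟩]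

theorem enc_inj {σ σ' : Fin P.a → Fin P.t → Bool} (h : P.enc σ = P.enc σ') : σ = σ' := by
  funext x y
  rw [← enc_bit σ, ← enc_bit σ', h]

open Classical in
/-- the clauses given by the sets `y` -/
noncomputable def xs (P : Pq) (y : Fin P.J → Set (Fin P.M × (Fin P.a → Fin P.t → Bool)))
    (c e : ℕ) : Bool :=
  decide ((c < P.G ∧ ∃ j, e + 1 = P.eG j) ∨
    ∃ j i σ, (i, σ) ∈ y j ∧ c = P.G + P.enc σ ∧ e + 1 = P.eL j i)

theorem dec {n X Y : ℕ} (h : n < X * Y) : ∃ x < X, ∃ y < Y, n = x * Y + y := by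
  have hY : 0 < Y := by
    rcases Nat.eq_zero_or_pos Y with rfl | h1
    · simp at h
    · exact h1
  exact ⟨n / Y, Nat.div_lt_of_lt_mul (by rwa [Nat.mul_comm] at h), n % Y, Nat.mod_lt _ hY, by
    rw [Nat.mul_comm]; exact (Nat.div_add_mod n Y).symm⟩

open Pool.Agent.W969.MC in
theorem mem_tg {V I A Λ : Type} [Fintype V] [DecidableEq V] [Fintype I] [DecidableEq I]
    [Fintype A] [DecidableEq A] [Fintype Λ] [DecidableEq Λ] {h : I → A → V}
    {p : V → Λ} {u : I × (A → Λ)} :
    u ∈ tu h (gr p) ↔ ∀ x, p (h u.1 x) = u.2 x := by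
  unfold tu
  rw [Finset.mem_filter]
  constructor
  · rintro ⟨-, h1⟩ x
    exact mem_gr.mp (h1 x)
  · exact fun h1 => ⟨Finset.mem_univ _, fun x => mem_gr.mpr (h1 x)⟩

open Pool.Agent.W969.MC in
theorem sat_iff (y : Fin P.J → Set (Fin P.M × (Fin P.a → Fin P.t → Bool))) :
    P.fm.Sat (P.xs y) ↔
      ∀ j, ∃ p : Fin P.m → (Fin P.t → Bool), ∀ u ∈ tu P.h (gr p), u ∉ y j := by
  classical
  have hh : P.fm.h = P.RT := rfl
  have hk : P.fm.k = P.G + 2 ^ P.w := rfl
  have h2w : 0 < 2 ^ P.w := Nat.two_pow_pos _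
  have hHc := P.Hc_eq
  constructor
  · rintro ⟨mm, hmm⟩ j
    refine ⟨fun v b => mm (P.rV j v b), ?_⟩
    rintro ⟨i, σ⟩ hu hy
    have hu' : ∀ x, (fun b => mm (P.rV j (P.h i x) b)) = σ x := fun x => mem_tg.mp hu x
    have hjG := eG_le j
    -- the rows of global clauses
    have hGr : ∀ (c i0 : ℕ), c < P.G → i0 + 1 ≤ P.eG j →
        (∀ i', i0 ≤ i' → i' + 1 ≤ P.eG j → P.fm.bl c i' = false) →
        ∀ (j' : Fin P.J) (r : ℕ), r < P.m * P.t + P.M * (P.w + 2) → i0 = P.row j' r → j' = j := by
      intro c i0 hc h1 h2 j' r hr h3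
      rcases lt_trichotomy j' j with h4 | h4 | h4
      · exfalso
        have h5 : P.eG j' + 1 < P.eG j := by
          unfold eG
          rw [row_succ]
          exact row_lt (by omega) h4
        have h6 : i0 < P.eG j' := by rw [h3]; exact row_mono hr
        have h7 := h2 (P.eG j' + 1) (by omega) (by omega)
        simp only [fm, decide_eq_false_iff_not] at h7
        exact h7 (Or.inl ⟨hc, j', rfl⟩)
      · exact h4
      · exfalso
        have h5 : P.eG j < i0 := by
          rw [h3]
          exact row_lt (by omega) h4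
        omega
    -- the copies of the values
    have hcp : ∀ x b, mm (P.rB j i x b) = mm (P.rV j (P.h i x) b) := by
      intro x b
      have hg := gc_lt i x b
      have h1 := hmm (2 * P.gc i x b) (by omega) (P.eG j - 1) (by omega)
        (by simp only [xs, decide_eq_true_eq]; exact Or.inl ⟨by omega, j, by omega⟩)
        (by simp only [fm, decide_eq_true_eq]; exact Or.inl ⟨by omega, j, by omega⟩)
      have h2 := hmm (2 * P.gc i x b + 1) (by omega) (P.eG j - 1) (by omega)
        (by simp only [xs, decide_eq_true_eq]; exact Or.inl ⟨by omega, j, by omega⟩)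
        (by simp only [fm, decide_eq_true_eq]; exact Or.inl ⟨by omega, j, by omega⟩)
      obtain ⟨i0, k1, h1, k2⟩ := h1
      obtain ⟨i1, k3, h2, k4⟩ := h2
      have r1 := hGr _ i0 (by omega) (by omega) (fun i' g1 g2 => k2 i' g1 (by omega))
      have r2 := hGr _ i1 (by omega) (by omega) (fun i' g1 g2 => k4 i' g1 (by omega))
      have e1 : mm (P.rV j (P.h i x) b) = true ∨ mm (P.rB j i x b) = false := by
        unfold Fm.tl at h1
        rw [Bool.or_eq_true, Bool.and_eq_true, Bool.and_eq_true] at h1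
        simp only [fm, decide_eq_true_eq] at h1
        rcases h1 with ⟨h3, h4⟩ | ⟨h3, h4⟩
        · rcases h3 with ⟨j', i', x', b', f1, f2⟩ | ⟨j', i', x', b', f1, f2⟩ |
            ⟨s', j', i', x', b', f1, f2, f3⟩
          · obtain ⟨rfl, rfl, rfl⟩ := gc_inj (by omega : P.gc i x b = P.gc i' x' b')
            have := r1 j' _ (by have := vi_lt (P.h i x) b; omega) f2
            subst this
            left; rw [← f2]; exact h4
          · omega
          · omega
        · rcases h3 with ⟨j', i', x', b', f1, f2⟩ | ⟨j', i', x', b', f1, f2⟩ |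
            ⟨s', j', i', x', b', f1, f2, f3⟩
          · obtain ⟨rfl, rfl, rfl⟩ := gc_inj (by omega : P.gc i x b = P.gc i' x' b')
            have := r1 j' _ (by have := bs_lt i; have := ri_lt x b; omega) f2
            subst this
            right; rw [← f2]; simpa using h4
          · omega
          · omega
      have e2 : mm (P.rB j i x b) = true ∨ mm (P.rV j (P.h i x) b) = false := by
        unfold Fm.tl at h2
        rw [Bool.or_eq_true, Bool.and_eq_true, Bool.and_eq_true] at h2
        simp only [fm, decide_eq_true_eq] at h2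
        rcases h2 with ⟨h3, h4⟩ | ⟨h3, h4⟩
        · rcases h3 with ⟨j', i', x', b', f1, f2⟩ | ⟨j', i', x', b', f1, f2⟩ |
            ⟨s', j', i', x', b', f1, f2, f3⟩
          · omega
          · obtain ⟨rfl, rfl, rfl⟩ := gc_inj (by omega : P.gc i x b = P.gc i' x' b')
            have := r2 j' _ (by have := bs_lt i; have := ri_lt x b; omega) f2
            subst this
            left; rw [← f2]; exact h4
          · omega
        · rcases h3 with ⟨j', i', x', b', f1, f2⟩ | ⟨j', i', x', b', f1, f2⟩ |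
            ⟨s', j', i', x', b', f1, f2, f3⟩
          · omega
          · obtain ⟨rfl, rfl, rfl⟩ := gc_inj (by omega : P.gc i x b = P.gc i' x' b')
            have := r2 j' _ (by have := vi_lt (P.h i x) b; omega) f2
            subst this
            right; rw [← f2]; simpa using h4
          · omega
      cases e3 : mm (P.rB j i x b) <;> cases e4 : mm (P.rV j (P.h i x) b) <;> simp_all
    have hb := bs_lt i
    have hel := P.enc_lt σ
    have hjL := eL_le j i
    obtain ⟨i0, h1, h2, h3⟩ := hmm (P.G + P.enc σ) (by omega) (P.eL j i - 1)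
      (by omega)
      (by simp only [xs, decide_eq_true_eq]; exact Or.inr ⟨j, i, σ, hy, rfl, by omega⟩)
      (by
        simp only [fm, decide_eq_true_eq]
        exact Or.inr ⟨by omega, j, i, by omega⟩)
    have h4 : ∃ j' i' x b, i0 = P.rB j' i' x b ∧ mm i0 = !(σ x b) := by
      unfold Fm.tl at h2
      rw [Bool.or_eq_true, Bool.and_eq_true, Bool.and_eq_true] at h2
      simp only [fm, decide_eq_true_eq] at h2
      rcases h2 with ⟨h3, h4⟩ | ⟨h3, h4⟩
      · rcases h3 with ⟨j', i', x', b', f1, f2⟩ | ⟨j', i', x', b', f1, f2⟩ |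
          ⟨s', j', i', x', b', f1, f2, f3⟩
        · have := gc_lt i' x' b'
          omega
        · have := gc_lt i' x' b'
          omega
        · obtain rfl : s' = P.enc σ := by omega
          rw [enc_bit] at f3
          exact ⟨j', i', x', b', f2, by rw [h4, f3]; rfl⟩
      · rcases h3 with ⟨j', i', x', b', f1, f2⟩ | ⟨j', i', x', b', f1, f2⟩ |
          ⟨s', j', i', x', b', f1, f2, f3⟩
        · have := gc_lt i' x' b'
          omega
        · have := gc_lt i' x' b'
          omega
        · obtain rfl : s' = P.enc σ := by omega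
          rw [enc_bit] at f3
          exact ⟨j', i', x', b', f2, by rw [f3]; simpa using h4⟩
    obtain ⟨j', i', x, b, h5, h6⟩ := h4
    have hr := ri_lt x b
    have hb' := bs_lt i'
    have h7 : j' = j ∧ i' = i := by
      have hbl : P.eL j' i' + 1 < P.eL j i → i0 < P.eL j' i' → False := by
        intro g1 g2
        have h10 := h3 (P.eL j' i' + 1) (by omega) (by omega)
        simp only [fm, decide_eq_false_iff_not] at h10
        exact h10 (Or.inr ⟨by omega, j', i', rfl⟩)
      have h8 : i0 < P.eL j' i' := by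
        rw [h5]
        exact row_mono (by omega)
      rcases lt_trichotomy j' j with h4 | h4 | h4
      · exfalso
        refine hbl ?_ h8
        unfold eL
        rw [row_succ]
        exact row_lt (by omega) h4
      · subst h4
        refine ⟨rfl, ?_⟩
        rcases lt_trichotomy i' i with h9 | h9 | h9
        · exfalso
          refine hbl ?_ h8
          have := bs_mono h9
          unfold eL
          rw [row_succ]
          exact row_mono (by omega)
        · exact h9
        · exfalso
          have := bs_mono h9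
          have h10 : P.eL j' i < i0 := by
            rw [h5]
            exact row_mono (by omega)
          omega
      · exfalso
        have h10 : P.eL j i < i0 := by
          rw [h5]
          exact row_lt (by omega) h4
        omega
    obtain ⟨rfl, rfl⟩ := h7
    have h8 := congrFun (hu' x) b
    rw [h5, hcp, h8] at h6
    cases h9 : σ x b <;> rw [h9] at h6 <;> simp at h6
  · intro hp
    choose p hp using hp
    set mm : ℕ → Bool := fun ρ => decide ((∃ j v b, ρ = P.rV j v b ∧ p j v b = true) ∨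
      (∃ j i x b, ρ = P.rB j i x b ∧ p j (P.h i x) b = true)) with hmm
    have hV : ∀ j v b, mm (P.rV j v b) = p j v b := by
      intro j v b
      rw [hmm]
      simp only
      cases h1 : p j v b with
      | true => rw [decide_eq_true_eq]; exact Or.inl ⟨j, v, b, rfl, h1⟩
      | false =>
        rw [decide_eq_false_iff_not]
        rintro (⟨j', v', b', h2, h3⟩ | ⟨j', i', x', b', h2, h3⟩)
        · obtain ⟨rfl, rfl, rfl⟩ := rV_inj h2
          rw [h1] at h3
          simp at h3
        · exact rV_ne_rB h2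
    have hB : ∀ j i x b, mm (P.rB j i x b) = p j (P.h i x) b := by
      intro j i x b
      rw [hmm]
      simp only
      cases h1 : p j (P.h i x) b with
      | true => rw [decide_eq_true_eq]; exact Or.inr ⟨j, i, x, b, rfl, h1⟩
      | false =>
        rw [decide_eq_false_iff_not]
        rintro (⟨j', v', b', h2, h3⟩ | ⟨j', i', x', b', h2, h3⟩)
        · exact rV_ne_rB h2.symm
        · obtain ⟨rfl, rfl, rfl, rfl⟩ := rB_inj h2
          rw [h1] at h3
          simp at h3
    refine ⟨mm, fun c hc e he hx ht => ?_⟩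
    simp only [xs, decide_eq_true_eq] at hx
    rcases hx with ⟨h1, j, h2⟩ | ⟨j, i, σ, hy, h1, h2⟩
    · have h3 : c / 2 < P.M * P.w := by
        unfold G at h1
        omega
      obtain ⟨i, hi, r, hr, h4⟩ := dec h3
      obtain ⟨x, hx, b, hb, rfl⟩ := dec hr
      have h5 : c / 2 = P.gc ⟨i, hi⟩ ⟨x, hx⟩ ⟨b, hb⟩ := h4
      have h6' : ∀ ρ r, r < P.m * P.t + P.M * (P.w + 2) → ρ = P.row j r → ρ ≤ e ∧
          ∀ i', ρ ≤ i' → i' ≤ e → P.fm.bl c i' = false := by
        intro ρ r hr hρ
        have g1 : ρ < P.eG j := by rw [hρ]; exact row_mono hr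
        refine ⟨by omega, fun i' g2 g3 => ?_⟩
        simp only [fm, decide_eq_false_iff_not]
        rintro (⟨-, j', g4⟩ | ⟨g4, -⟩)
        · rcases lt_trichotomy j' j with g5 | g5 | g5
          · have g6 : P.eG j' + 1 < ρ ∨ P.eG j' + 1 = ρ := by
              rw [hρ]
              have : P.eG j' + 1 < P.row j r := by
                unfold eG
                rw [row_succ]
                exact row_lt (by omega) g5
              exact Or.inl this
            rcases g6 with g6 | g6
            · omega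
            · rw [hρ] at g6
              have : P.eG j' + 1 < P.row j r := by
                unfold eG
                rw [row_succ]
                exact row_lt (by omega) g5
              omega
          · subst g5
            omega
          · have g6 : P.eG j < P.eG j' := by
              unfold eG
              exact row_lt (by omega) g5
            omega
        · omega
      have hmV := hV j (P.h ⟨i, hi⟩ ⟨x, hx⟩) ⟨b, hb⟩
      have hmB := hB j ⟨i, hi⟩ ⟨x, hx⟩ ⟨b, hb⟩
      have hV' := h6' (P.rV j (P.h ⟨i, hi⟩ ⟨x, hx⟩) ⟨b, hb⟩) _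
        (by have := vi_lt (P.h ⟨i, hi⟩ ⟨x, hx⟩) ⟨b, hb⟩; omega) rfl
      have hB' := h6' (P.rB j ⟨i, hi⟩ ⟨x, hx⟩ ⟨b, hb⟩) _
        (by
          have := bs_lt (P := P) ⟨i, hi⟩
          have := ri_lt (P := P) ⟨x, hx⟩ ⟨b, hb⟩
          omega) rfl
      rcases Nat.mod_two_eq_zero_or_one c with h6 | h6
      · cases h7 : p j (P.h ⟨i, hi⟩ ⟨x, hx⟩) ⟨b, hb⟩ with
        | true =>
          refine ⟨P.rV j (P.h ⟨i, hi⟩ ⟨x, hx⟩) ⟨b, hb⟩, hV'.1, ?_, hV'.2⟩
          unfold Fm.tl
          rw [hmV, h7, Bool.or_eq_true, Bool.and_eq_true]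
          left
          refine ⟨?_, rfl⟩
          simp only [fm, decide_eq_true_eq]
          exact Or.inl ⟨_, _, _, _, by rw [← h5]; omega, rfl⟩
        | false =>
          refine ⟨P.rB j ⟨i, hi⟩ ⟨x, hx⟩ ⟨b, hb⟩, hB'.1, ?_, hB'.2⟩
          unfold Fm.tl
          rw [hmB, h7, Bool.or_eq_true, Bool.and_eq_true, Bool.and_eq_true]
          right
          refine ⟨?_, rfl⟩
          simp only [fm, decide_eq_true_eq]
          exact Or.inl ⟨_, _, _, _, by rw [← h5]; omega, rfl⟩
      · cases h7 : p j (P.h ⟨i, hi⟩ ⟨x, hx⟩) ⟨b, hb⟩ with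
        | true =>
          refine ⟨P.rB j ⟨i, hi⟩ ⟨x, hx⟩ ⟨b, hb⟩, hB'.1, ?_, hB'.2⟩
          unfold Fm.tl
          rw [hmB, h7, Bool.or_eq_true, Bool.and_eq_true]
          left
          refine ⟨?_, rfl⟩
          simp only [fm, decide_eq_true_eq]
          exact Or.inr (Or.inl ⟨_, _, _, _, by rw [← h5]; omega, rfl⟩)
        | false =>
          refine ⟨P.rV j (P.h ⟨i, hi⟩ ⟨x, hx⟩) ⟨b, hb⟩, hV'.1, ?_, hV'.2⟩
          unfold Fm.tl
          rw [hmV, h7, Bool.or_eq_true, Bool.and_eq_true, Bool.and_eq_true]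
          right
          refine ⟨?_, rfl⟩
          simp only [fm, decide_eq_true_eq]
          exact Or.inr (Or.inl ⟨_, _, _, _, by rw [← h5]; omega, rfl⟩)
    · have h3 : (i, σ) ∉ tu P.h (gr (p j)) := fun h => hp j _ h hy
      have h4 : ∃ x, p j (P.h i x) ≠ σ x := by
        by_contra hcon
        push Not at hcon
        exact h3 (mem_tg.mpr hcon)
      obtain ⟨x, h4⟩ := h4
      obtain ⟨b, h5⟩ := Function.ne_iff.mp h4
      have hr := ri_lt x b
      have hbi := bs_lt i
      have hmB := hB j i x b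
      have h6' : P.rB j i x b < P.eL j i := row_mono (by omega)
      refine ⟨P.rB j i x b, by omega, ?_, ?_⟩
      · unfold Fm.tl
        rw [hmB, Bool.or_eq_true, Bool.and_eq_true, Bool.and_eq_true]
        simp only [fm, decide_eq_true_eq]
        cases h6 : σ x b with
        | false =>
          left
          rw [h6] at h5
          exact ⟨Or.inr (Or.inr ⟨P.enc σ, j, i, x, b, h1, rfl, by rw [enc_bit, h6]⟩),
            by simpa using h5⟩
        | true =>
          right
          rw [h6] at h5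
          exact ⟨Or.inr (Or.inr ⟨P.enc σ, j, i, x, b, h1, rfl, by rw [enc_bit, h6]⟩),
            by simpa using h5⟩
      · intro ρ g1 g2
        simp only [fm, decide_eq_false_iff_not]
        rintro (⟨g3, -⟩ | ⟨-, j', i', g3⟩)
        · omega
        · have hbi' := bs_lt i'
          rcases lt_trichotomy j' j with g4 | g4 | g4
          · have g6 : P.eL j' i' + 1 < P.rB j i x b := by
              unfold eL rB
              rw [row_succ]
              exact row_lt (by omega) g4
            omega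
          · subst g4
            rcases lt_trichotomy i' i with g5 | g5 | g5
            · have g7 := bs_mono g5
              have g6 : P.eL j' i' + 1 < P.rB j' i x b ∨ P.eL j' i' + 1 = P.rB j' i x b := by
                unfold eL rB
                rw [row_succ]
                rcases Nat.lt_or_ge (P.bs i' + P.w + 1) (P.bs i + P.ri x b) with g8 | g8
                · exact Or.inl (row_mono g8)
                · omega
              rcases g6 with g6 | g6
              · omega
              · have : P.LitR (P.eL j' i' + 1) := Or.inr ⟨_, _, _, _, g6⟩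
                exact (lit_ne this).2.2.2 j' i' |>.2 rfl
            · subst g5
              omega
            · have g7 := bs_mono g5
              have g6 : P.eL j' i < P.eL j' i' := row_mono (by omega)
              omega
          · have g6 : P.eL j i < P.eL j' i' := by
              unfold eL
              exact row_lt (by omega) g4
            omega

end Pq

end Pool.Agent.T9h21.TB
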