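import Pool.Agent.T9h21.TB.ArrT
import Pool.Agent.T9h21.TB.Csq

/-!
# Circuits for tours through rows of boards
-/

set_option autoImplicit false
set_option linter.unusedVariables false

namespace Pool.Agent.T9h21.TB

open Pool.Agent.ETSP Pool.Agent.W969.MC Pool.Agent.H560R2

section

variable {V I A Λ : Type} [Fintype V] [DecidableEq V] [Fintype I] [DecidableEq I] [Fintype A]
  [DecidableEq A] [Nonempty A] [Fintype Λ] [DecidableEq Λ]
  {h : I → A → V} {Inp : Type} {S : ℕ} {T : Finset (Fin S)} {wd : Fin S → ℕ}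
  {a : ∀ i, Fin (wd i) → Inp ⊕ Fin S}
  {op : ∀ i, (Fin (wd i) → ℝ) → ℝ} {θ : ∀ i, Fin (wd i) → ℝ} {val : (Inp → Bool) → Fin S → ℝ}

/-- the circuit lower bound, with the chain of changes -/
theorem csp_chain {b s w : ℕ} (hG : Good h Λ b s w) {m' : ℕ}
    (htop : ∀ i j k, a i j = Sum.inr k → k < i)
    (hmon : ∀ i ∉ T, wd i ≤ 2 ∧ Monotone (op i))
    (hT : ∀ i ∈ T, ∀ z z' : Fin (wd i) → ℝ, (∀ j, θ i j ≤ z j ↔ θ i j ≤ z' j) → op i z = op i z')
    (hval : ∀ x i, val x i = op i (fun j => Sum.elim (bit x) (val x) (a i j)))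
    (o : Fin S) (τ : ℝ) (E : (Fin m' → Set (I × (A → Λ))) → Inp → Bool)
    (hmono : ∀ y y', (∀ j, y j ⊆ y' j) → E y ≤ E y')
    (hC : ∀ y, τ ≤ val (E y) o ↔ ∃ j, ∀ p : V → Λ, ∃ u ∈ tu h (gr p), u ∈ y j)
    (hnar : ∀ (y : Fin m' → Set (I × (A → Λ))) (J : Fin m') (p : Inp),
      ∃ T' : Finset (I × (A → Λ)), T'.card ≤ 1 ∧
      ∀ x x' : Set (I × (A → Λ)), (∀ e ∈ T', e ∈ x → e ∈ x') →
        E (Function.update y J x) p = true → E (Function.update y J x') p = true)
    (hlen : S + ∑ i ∈ T, wd i ≤ (Fintype.card Λ + 1) ^ Fintype.card V)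
    (hlt : 8 * (S + ∑ i ∈ T, wd i) * 2 ^ (w / (2 * b) / b + 1) <
      Fintype.card Λ ^ (w / (2 * b) / b + 1)) :
    ∃ x : ℕ → Inp → Bool, (∀ i < m', x i ≤ x (i + 1) ∧
      ∃ t ∈ T, ∃ j, ¬ (prb a θ val (x i) t j ↔ prb a θ val (x (i + 1)) t j)) ∧
      ∀ i ≤ m', ∃ y : Fin m' → Set (I × (A → Λ)), x i = E y ∧
        ∀ j, ¬ ∀ p : V → Λ, ∃ u ∈ tu h (gr p), u ∈ y j := by
  classical
  have hΛ : Nonempty Λ := by
    have := hG.hq
    exact Fintype.card_pos_iff.mp (by omega)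
  have hf0 : ¬ ∀ p : V → Λ, ∃ u ∈ tu h (gr p), u ∈ (∅ : Set (I × (A → Λ))) := by
    intro hp
    obtain ⟨u, -, hu⟩ := hp (Classical.arbitrary _)
    exact hu
  exact chainR (m := m') htop hmon hT hval o τ
    (fun X => ∀ p : V → Λ, ∃ u ∈ tu h (gr p), u ∈ X) hf0 E hmono hC (by
      intro y J L g hL hg hlenL hgf
      have := core_dual (h := h) b s w hG.hb hG.hA hG.hE hG.hw hG.hws hG.hV hG.hI hG.hq hG.hstar _
        (leaf_aux (fun X => E (Function.update y J X)) (hnar y J)) hL (hlenL.trans hlen) g hg τ hgf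
      have h2 : 8 * L.length * 2 ^ (w / (2 * b) / b + 1) ≤
          8 * (S + ∑ i ∈ T, wd i) * 2 ^ (w / (2 * b) / b + 1) :=
        Nat.mul_le_mul_right _ (Nat.mul_le_mul_left _ hlenL)
      omega)

end

theorem Fm.ac_mono' {F : Fm} {x x' : ℕ → ℕ → Bool} {e c : ℕ}
    (h : x (c / 9) e = true → x' (c / 9) e = true) (hx : F.ac x e c = true) :
    F.ac x' e c = true := by
  unfold Fm.ac at hx ⊢
  rw [Bool.and_eq_true, Bool.and_eq_true] at hx ⊢
  exact ⟨hx.1, h hx.2.1, hx.2.2⟩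

namespace Board

variable {b : Board} {act act' : ℕ → ℕ → ℕ → Bool} {k : ℕ}

theorem ValK_mono {v : Nk}
    (h : ∀ κ e c, v = .B κ (.A e c) → act κ e c = true → act' κ e c = true)
    (hv : b.ValK k act v) : b.ValK k act' v := by
  cases v with
  | U κ r => exact hv
  | B κ v =>
    refine ⟨hv.1, ?_, hv.2.2⟩
    have h1 := hv.2.1
    cases v with
    | X i n k s => exact h1
    | Q i n k => exact h1
    | S i r => exact h1
    | C i r => exact h1
    | T i r => exact h1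
    | A e c => exact ⟨h1.1, h1.2.1, h κ e c rfl h1.2.2⟩

/-- the cells of a row of boards -/
noncomputable def cellsK (b : Board) (N k : ℕ) (act : ℕ → ℕ → ℕ → Bool) (q : Fin N × Fin N) :
    Bool :=
  cellsP (b.ValK k act) b.posK 19 (72 * b.h + 45) q

theorem cellsK_mono (h : ∀ κ e c, act κ e c = true → act' κ e c = true) (N : ℕ) :
    b.cellsK N k act ≤ b.cellsK N k act' := by
  intro q hq
  unfold cellsK at *
  rw [cellsP_eq] at *
  obtain ⟨v, hv, h1⟩ := hq
  exact ⟨v, ValK_mono (fun κ e c _ => h κ e c) hv, h1⟩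

theorem cellsK_dep (hM : 1 ≤ b.M) (hk : 1 ≤ k) {N : ℕ} (q : Fin N × Fin N) :
    ∃ κ0 e0 c0, ∀ act act' : ℕ → ℕ → ℕ → Bool, (act κ0 e0 c0 = true → act' κ0 e0 c0 = true) →
      b.cellsK N k act q = true → b.cellsK N k act' q = true := by
  have hT : ∀ {act : ℕ → ℕ → ℕ → Bool} {v : Nk}, b.ValK k act v →
      b.ValK k (fun _ _ _ => true) v := fun hv => ValK_mono (fun _ _ _ _ _ => rfl) hv
  have hP := packK (b := b) (act := fun _ _ _ => true) hM hk
  by_cases hq : ∃ κ e c, b.ValK k (fun _ _ _ => true) (.B κ (.A e c)) ∧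
      b.posK (.B κ (.A e c)) = ((q.1.val : ℤ) - 19, (q.2.val : ℤ) - (72 * b.h + 45))
  · obtain ⟨κ0, e0, c0, h1, h2⟩ := hq
    refine ⟨κ0, e0, c0, fun act act' h h3 => ?_⟩
    unfold cellsK at *
    rw [cellsP_eq] at *
    obtain ⟨v, hv, h4⟩ := h3
    have h5 := hP.inj _ _ (hT hv) h1 (h4.trans h2.symm)
    subst h5
    refine ⟨_, ValK_mono ?_ hv, h4⟩
    intro κ e c h6 h7
    injection h6 with h8 h9
    injection h9 with h9 h10
    subst h8 h9 h10
    exact h h7
  · refine ⟨0, 0, 0, fun act act' _ h3 => ?_⟩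
    unfold cellsK at *
    rw [cellsP_eq] at *
    obtain ⟨v, hv, h4⟩ := h3
    refine ⟨v, ValK_mono ?_ hv, h4⟩
    rintro κ e c rfl
    exact absurd ⟨κ, e, c, hT hv, h4⟩ hq

theorem rngK (hk : 1 ≤ k) {N : ℕ} (h1 : k * (64 * b.M + 106) ≤ N) (h2 : 72 * b.h + 55 ≤ N)
    {v : Nk} (hv : b.ValK k act v) : 0 ≤ (b.posK v).1 + 19 ∧ (b.posK v).1 + 19 < N ∧
      0 ≤ (b.posK v).2 + (72 * b.h + 45) ∧ (b.posK v).2 + (72 * b.h + 45) < N := by
  have h3 : (k : ℤ) * b.W ≤ N := by
    unfold W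
    exact_mod_cast h1
  have hW := b.W_pos
  have h4 : ∀ κ : ℕ, 0 ≤ (κ : ℤ) * b.W := fun κ => by positivity
  cases v with
  | B κ v =>
    obtain ⟨g1, g2, g3, g4⟩ := rng' hv.2.1
    have h5 := h4 κ
    have h6 := b.mulW hv.1
    simp only [posK]
    have h7 : b.W = 64 * b.M + 106 := rfl
    refine ⟨by linarith, by linarith, by linarith, by linarith⟩
  | U κ r =>
    have h5 := h4 κ
    have h6 := b.mulW (show κ + 1 < k from hv)
    push_cast at h6
    simp only [posK]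
    have h7 : b.W = 64 * b.M + 106 := rfl
    refine ⟨by linarith, by linarith, ?_, ?_⟩
    · cases r <;> simp <;> omega
    · cases r <;> simp <;> omega

theorem gridK (hk : 1 ≤ k) {N : ℕ} (h1 : k * (64 * b.M + 106) ≤ N) (h2 : 72 * b.h + 55 ≤ N)
    (p : ℝ → Prop) : (∃ L, Lists (b.cellsK N k act) L ∧ p (gtl L)) ↔
      ∃ L, b.ListK k act L ∧ p (tl eucl L) := by
  have h3 := grid_iffP (P := b.ValK k act) (pos := b.posK) (sx := 19) (sy := 72 * b.h + 45)
    (N := N) (fun v hv => rngK hk h1 h2 hv) p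
  unfold cellsK ListK
  rw [h3]
  simp only [and_assoc]

end Board

namespace Pq

variable {P : Pq}

theorem xs_mono {y y' : Fin P.J → Set (Fin P.M × (Fin P.a → Fin P.t → Bool))}
    (h : ∀ j, y j ⊆ y' j) {c e : ℕ} (hx : P.xs y c e = true) : P.xs y' c e = true := by
  simp only [xs, decide_eq_true_eq] at hx ⊢
  rcases hx with hx | ⟨j, i, σ, h1, h2⟩
  · exact Or.inl hx
  · exact Or.inr ⟨j, i, σ, h j h1, h2⟩

/-- A pair of column and row depends on at most one constraint. -/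
theorem xs_dep (J : Fin P.J) (c e : ℕ) :
    ∃ T' : Finset (Fin P.M × (Fin P.a → Fin P.t → Bool)), T'.card ≤ 1 ∧
      ∀ (y : Fin P.J → Set (Fin P.M × (Fin P.a → Fin P.t → Bool)))
        (x x' : Set (Fin P.M × (Fin P.a → Fin P.t → Bool))), (∀ u ∈ T', u ∈ x → u ∈ x') →
        P.xs (Function.update y J x) c e = true → P.xs (Function.update y J x') c e = true := by
  classical
  have hHc := P.Hc_eq
  by_cases hq : ∃ i σ, c = P.G + P.enc σ ∧ e + 1 = P.eL J i
  · obtain ⟨i, σ, h1, h2⟩ := hq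
    refine ⟨{(i, σ)}, by simp, fun y x x' h hx => ?_⟩
    simp only [xs, decide_eq_true_eq] at hx ⊢
    rcases hx with hx | ⟨j, i', σ', h3, h4, h5⟩
    · exact Or.inl hx
    · right
      have h7 : σ' = σ := enc_inj (by omega)
      subst h7
      by_cases hj : j = J
      · subst hj
        have h6 : i' = i := by
          have h8 := bs_lt i
          have h9 := bs_lt i'
          have h10 := (row_uniq (P := P) (j := j) (j' := j) (r := P.bs i' + P.w)
            (r' := P.bs i + P.w) (by omega) (by omega) (h5.symm.trans h2)).2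
          exact (bs_uniq (r := P.w) (r' := P.w) (by omega) (by omega) h10).1
        subst h6
        refine ⟨j, i', σ', ?_, h4, h5⟩
        rw [Function.update_self] at h3 ⊢
        exact h _ (Finset.mem_singleton_self _) h3
      · refine ⟨j, i', σ', ?_, h4, h5⟩
        rw [Function.update_of_ne hj] at h3 ⊢
        exact h3
  · refine ⟨∅, by simp, fun y x x' _ hx => ?_⟩
    simp only [xs, decide_eq_true_eq] at hx ⊢
    rcases hx with hx | ⟨j, i', σ', h3, h4, h5⟩
    · exact Or.inl hx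
    · right
      by_cases hj : j = J
      · subst hj
        exact absurd ⟨i', σ', h4, h5⟩ hq
      · refine ⟨j, i', σ', ?_, h4, h5⟩
        rw [Function.update_of_ne hj] at h3 ⊢
        exact h3

/-- the sets of one board -/
def sub (P : Pq) {k : ℕ} (y : Fin (k * P.J) → Set (Fin P.M × (Fin P.a → Fin P.t → Bool)))
    (κ : Fin k) (j : Fin P.J) : Set (Fin P.M × (Fin P.a → Fin P.t → Bool)) :=
  y (finProdFinEquiv (κ, j))

/-- the activations given by sets -/
noncomputable def acts (P : Pq) {k : ℕ}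
    (y : Fin (k * P.J) → Set (Fin P.M × (Fin P.a → Fin P.t → Bool))) (κ e c : ℕ) : Bool :=
  if h : κ < k then P.fm.ac (P.xs (P.sub y ⟨κ, h⟩)) e c else false

/-- the lower bound with integer parameters -/
theorem arr_param (P : Pq) {b s w : ℕ} (hG : Good P.h (Fin P.t → Bool) b s w) {N k : ℕ}
    (hk : 1 ≤ k) (h1 : k * (64 * P.fm.board.M + 106) ≤ N) (h2 : 72 * P.fm.board.h + 55 ≤ N)
    {S : ℕ} {T : Finset (Fin S)} {wd : Fin S → ℕ}
    {a : ∀ i, Fin (wd i) → (Fin N × Fin N) ⊕ Fin S}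
    {op : ∀ i, (Fin (wd i) → ℝ) → ℝ} {θ : ∀ i, Fin (wd i) → ℝ}
    {val : (Fin N × Fin N → Bool) → Fin S → ℝ}
    (htop : ∀ i j k, a i j = Sum.inr k → k < i)
    (hmon : ∀ i ∉ T, wd i ≤ 2 ∧ Monotone (op i))
    (hT : ∀ i ∈ T, ∀ z z' : Fin (wd i) → ℝ, (∀ j, θ i j ≤ z j ↔ θ i j ≤ z' j) → op i z = op i z')
    (hval : ∀ x i, val x i = op i (fun j => Sum.elim (bit x) (val x) (a i j)))
    (o : Fin S) (τ : ℝ)
    (hlo : ∀ x, (∃ L, Lists x L ∧ gtl L ≤ P.fm.board.bdK Fm.one_le_M k hk) → val x o < τ)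
    (hhi : ∀ x, (∀ L, Lists x L → (P.fm.board.bdK Fm.one_le_M k hk : ℝ) + 1 / 69 ≤ gtl L) →
      τ ≤ val x o)
    (hlen : S + ∑ i ∈ T, wd i ≤ (2 ^ P.t + 1) ^ P.m)
    (hlt : 8 * (S + ∑ i ∈ T, wd i) * 2 ^ (w / (2 * b) / b + 1) <
      (2 ^ P.t) ^ (w / (2 * b) / b + 1)) :
    ∃ x : ℕ → Fin N × Fin N → Bool, (∀ i < k * P.J, x i ≤ x (i + 1) ∧
      ∃ t ∈ T, ∃ j, ¬ (prb a θ val (x i) t j ↔ prb a θ val (x (i + 1)) t j)) ∧
      ∀ i ≤ k * P.J, ∃ L, Lists (x i) L ∧ gtl L ≤ P.fm.board.bdK Fm.one_le_M k hk := by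
  classical
  have hΛ : Fintype.card (Fin P.t → Bool) = 2 ^ P.t := by
    rw [Fintype.card_fun, Fintype.card_bool, Fintype.card_fin]
  have hne : Nonempty (Fin P.a) := by
    have := hG.hA
    exact Fintype.card_pos_iff.mp (by omega)
  have hM : 1 ≤ P.fm.board.M := Fm.one_le_M
  -- satisfiable inputs have short tours
  have hsat : ∀ y : Fin (k * P.J) → Set (Fin P.M × (Fin P.a → Fin P.t → Bool)),
      (∀ j, ∃ p : Fin P.m → (Fin P.t → Bool), ∀ u ∈ tu P.h (gr p), u ∉ y j) →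
      ∃ L, Lists (P.fm.board.cellsK N k (P.acts y)) L ∧
        gtl L ≤ P.fm.board.bdK Fm.one_le_M k hk := by
    intro y hy
    refine (Board.gridK hk h1 h2 (fun z => z ≤ P.fm.board.bdK Fm.one_le_M k hk)).2 ?_
    refine Board.completeK hM hk fun κ hκ => ?_
    have h3 : P.acts y κ = P.fm.ac (P.xs (P.sub y ⟨κ, hκ⟩)) := by
      funext e c
      unfold acts
      rw [dif_pos hκ]
    rw [h3]
    exact Fm.good_of_sat P.ok ((sat_iff _).2 fun j => hy _)
  suffices H : ∃ x : ℕ → Fin N × Fin N → Bool, (∀ i < k * P.J, x i ≤ x (i + 1) ∧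
      ∃ t ∈ T, ∃ j, ¬ (prb a θ val (x i) t j ↔ prb a θ val (x (i + 1)) t j)) ∧
      ∀ i ≤ k * P.J, ∃ y : Fin (k * P.J) → Set (Fin P.M × (Fin P.a → Fin P.t → Bool)),
        x i = P.fm.board.cellsK N k (P.acts y) ∧
        ∀ j, ¬ ∀ p : Fin P.m → (Fin P.t → Bool), ∃ u ∈ tu P.h (gr p), u ∈ y j by
    obtain ⟨x, hx1, hx2⟩ := H
    refine ⟨x, hx1, fun i hi => ?_⟩
    obtain ⟨y, hy1, hy2⟩ := hx2 i hi
    rw [hy1]
    apply hsat
    intro j
    have h3 := hy2 j
    push Not at h3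
    exact h3
  refine csp_chain hG (m' := k * P.J) htop hmon hT hval o τ
    (fun y => P.fm.board.cellsK N k (P.acts y)) ?_ ?_ ?_ ?_ ?_
  · intro y y' hy
    refine Board.cellsK_mono (fun κ e c h => ?_) N
    unfold acts at h ⊢
    split_ifs at h ⊢ with h3
    exact Fm.ac_mono' (fun h => xs_mono (fun j => hy _) h) h
  · intro y
    constructor
    · intro h
      by_contra hcon
      push Not at hcon
      exact absurd h (not_le.2 (hlo _ (hsat y hcon)))
    · rintro ⟨j, hj⟩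
      apply hhi
      intro L hL
      by_contra hcon
      push Not at hcon
      have h4 := (Board.gridK (act := P.acts y) hk h1 h2
        (fun z => z < P.fm.board.bdK Fm.one_le_M k hk + 1 / 69)).1 ⟨L, hL, hcon⟩
      have h5 := Board.soundK hM hk h4
      set κ : Fin k := (finProdFinEquiv.symm j).1 with hκ
      set j' : Fin P.J := (finProdFinEquiv.symm j).2 with hj'
      have h6 : P.acts y κ.val = P.fm.ac (P.xs (P.sub y κ)) := by
        funext e c
        unfold acts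
        rw [dif_pos κ.2]
      have h7 := h5 κ.val κ.2
      rw [h6] at h7
      obtain ⟨p, h8⟩ := (sat_iff _).1 (Fm.sat_of_asg P.ok h7) j'
      obtain ⟨u, h9, h10⟩ := hj p
      apply h8 u h9
      unfold sub
      rw [hκ, hj', Prod.mk.eta, Equiv.apply_symm_apply]
      exact h10
  · intro y J q
    obtain ⟨κ0, e0, c0, h3⟩ := Board.cellsK_dep (b := P.fm.board) hM hk q
    by_cases hκ : κ0 = (finProdFinEquiv.symm J).1.val
    · obtain ⟨T', h4, h5⟩ := xs_dep (P := P) (finProdFinEquiv.symm J).2 (c0 / 9) e0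
      refine ⟨T', h4, fun x x' h => h3 _ _ ?_⟩
      have h6 : κ0 < k := by rw [hκ]; exact (finProdFinEquiv.symm J).1.2
      unfold acts
      rw [dif_pos h6, dif_pos h6]
      refine Fm.ac_mono' ?_
      have h7 : (⟨κ0, h6⟩ : Fin k) = (finProdFinEquiv.symm J).1 := Fin.ext hκ
      have h8 : ∀ x, P.sub (Function.update y J x) ⟨κ0, h6⟩ =
          Function.update (P.sub y ⟨κ0, h6⟩) (finProdFinEquiv.symm J).2 x := by
        intro x
        funext j
        unfold sub
        by_cases h9 : j = (finProdFinEquiv.symm J).2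
        · subst h9
          rw [Function.update_self, h7, Prod.mk.eta, Equiv.apply_symm_apply, Function.update_self]
        · rw [Function.update_of_ne h9, Function.update_of_ne]
          intro h10
          apply h9
          rw [← h10, Equiv.symm_apply_apply]
      rw [h8, h8]
      exact h5 _ x x' h
    · refine ⟨∅, by simp, fun x x' _ => h3 _ _ ?_⟩
      unfold acts
      by_cases h6 : κ0 < k
      · rw [dif_pos h6, dif_pos h6]
        have h8 : ∀ x, P.sub (Function.update y J x) ⟨κ0, h6⟩ = P.sub y ⟨κ0, h6⟩ := by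
          intro x
          funext j
          unfold sub
          rw [Function.update_of_ne]
          intro h10
          apply hκ
          rw [← h10, Equiv.symm_apply_apply]
        rw [h8, h8]
        exact id
      · rw [dif_neg h6, dif_neg h6]
        exact id
  · rw [hΛ, Fintype.card_fin]; exact hlen
  · rw [hΛ]; exact hlt

end Pq

end Pool.Agent.T9h21.TB
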