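import Pool.Agent.T9h21.TB.ArrC

/-!
# The lower bound for circuits for tours in a square grid
-/

set_option autoImplicit false
set_option linter.unusedVariables false

namespace Pool.Agent.T9h21.TB

open Pool.Agent.ETSP Pool.Agent.W969.MC Pool.Agent.H560R2

theorem ev_sq' (C : ℕ) : ∃ t0 : ℕ, ∀ t ≥ t0, C * (t + 1) ^ 2 ≤ 2 ^ t := by
  have h1 := tendsto_pow_const_div_const_pow_of_one_lt 2 (one_lt_two (α := ℝ))
  have h2 : ∀ᶠ n : ℕ in Filter.atTop, (n : ℝ) ^ 2 / 2 ^ n < 1 / (4 * (C + 1)) :=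
    h1.eventually (gt_mem_nhds (by positivity))
  obtain ⟨t0, h3⟩ := Filter.eventually_atTop.1 h2
  refine ⟨max t0 1, fun t ht => ?_⟩
  have h4 := h3 t ((le_max_left _ _).trans ht)
  have h5 : 1 ≤ t := (le_max_right _ _).trans ht
  rw [div_lt_div_iff₀ (by positivity) (by positivity)] at h4
  have h6 : ((t : ℝ) + 1) ^ 2 ≤ 4 * (t : ℝ) ^ 2 := by
    have : (1 : ℝ) ≤ t := by exact_mod_cast h5
    nlinarith
  have h7 : (C : ℝ) * ((t : ℝ) + 1) ^ 2 ≤ 2 ^ t := by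
    have h8 : (0 : ℝ) ≤ C := Nat.cast_nonneg _
    nlinarith [mul_le_mul_of_nonneg_left h6 h8, sq_nonneg (t : ℝ)]
  exact_mod_cast h7

theorem fq_M (P : Pq) : P.fm.board.M = 9 * (P.G + 2 ^ P.w) + 6 := rfl

theorem fq_h (P : Pq) : P.fm.board.h = 1 + P.J * P.Hc := rfl

theorem br1 {q m y z : ℕ} (hq : 1 ≤ q) (hm : 0 < m) (h : y ≤ q) (hz : z = q ^ 5 * m) :
    64 * (9 * (2 * ((2 * m) * y) + z) + 6) + 106 ≤ 4096 * z := by
  subst hz
  have k3 : (2 * m) * y ≤ 2 * (q * m) := by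
    calc (2 * m) * y ≤ (2 * m) * q := Nat.mul_le_mul_left _ h
      _ = 2 * (q * m) := by ring
  have k4 : q * m ≤ q ^ 5 * m := Nat.mul_le_mul_right _ (Nat.le_self_pow (by norm_num) q)
  have k5 : 1 ≤ q ^ 5 * m := Nat.mul_pos (by positivity) hm
  omega

theorem br2 {q m y t z J : ℕ} (hq : 1 ≤ q) (hm : 0 < m) (h : y + 2 ≤ q) (ht : t ≤ q)
    (hz : z = q ^ 5 * m) (hJ : 1 ≤ J) :
    72 * (1 + J * (m * t + (2 * m) * (y + 2) + 2)) + 55 ≤ J * (4096 * z) := by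
  subst hz
  have k3 : (2 * m) * (y + 2) ≤ 2 * (q * m) := by
    calc (2 * m) * (y + 2) ≤ (2 * m) * q := Nat.mul_le_mul_left _ h
      _ = 2 * (q * m) := by ring
  have k3' : m * t ≤ q * m := by
    calc m * t ≤ m * q := Nat.mul_le_mul_left _ ht
      _ = q * m := by ring
  have k4 : q * m ≤ q ^ 5 * m := Nat.mul_le_mul_right _ (Nat.le_self_pow (by norm_num) q)
  have k5 : 1 ≤ q ^ 5 * m := Nat.mul_pos (by positivity) hm
  set A := q ^ 5 * m with hA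
  have k6 : m * t + (2 * m) * (y + 2) + 2 ≤ 5 * A := by omega
  calc 72 * (1 + J * (m * t + (2 * m) * (y + 2) + 2)) + 55
      ≤ 72 * (1 + J * (5 * A)) + 55 := by gcongr
    _ = 127 + 360 * (J * A) := by ring
    _ ≤ 4096 * (J * A) := by
      have : 1 ≤ J * A := Nat.mul_pos hJ k5
      omega
    _ = J * (4096 * A) := by ring

theorem br3 {b t q m w : ℕ} (hb : 4 ≤ b) (ht : 5 ≤ t) (hq : q = 2 ^ t)
    (hm : m = 2 ^ ((b - 3) * t)) (hw : w ≤ m) (h : 1024 * b * (t + 1) ^ 2 ≤ q) :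
    256 * (q * ((2 * (m * Nat.clog 2 (q + 1)) + 2) * (Nat.log 2 w + 1))) ≤ q * (q * m) := by
  have hm0 : 0 < m := by rw [hm]; positivity
  have k1 : Nat.clog 2 (q + 1) ≤ t + 1 := by
    apply Nat.clog_le_of_le_pow
    rw [hq, pow_succ]
    have := Nat.one_le_two_pow (n := t)
    omega
  have k2 : Nat.log 2 w ≤ b * t := by
    calc Nat.log 2 w ≤ Nat.log 2 m := Nat.log_mono_right hw
      _ = (b - 3) * t := by rw [hm, Nat.log_pow (by norm_num)]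
      _ ≤ b * t := Nat.mul_le_mul_right _ (by omega)
  have k3 : 2 * (m * Nat.clog 2 (q + 1)) + 2 ≤ 4 * m * (t + 1) := by
    have k5 : m * Nat.clog 2 (q + 1) ≤ m * (t + 1) := Nat.mul_le_mul_left _ k1
    have k6 : 1 ≤ m * (t + 1) := Nat.mul_pos hm0 (by omega)
    have k7 : 4 * m * (t + 1) = 4 * (m * (t + 1)) := by ring
    omega
  have k4 : Nat.log 2 w + 1 ≤ b * (t + 1) := by
    rw [Nat.mul_add]
    omega
  calc 256 * (q * ((2 * (m * Nat.clog 2 (q + 1)) + 2) * (Nat.log 2 w + 1)))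
      ≤ 256 * (q * ((4 * m * (t + 1)) * (b * (t + 1)))) :=
        Nat.mul_le_mul_left _ (Nat.mul_le_mul_left _ (Nat.mul_le_mul k3 k4))
    _ = q * m * (1024 * b * (t + 1) ^ 2) := by ring
    _ ≤ q * m * q := Nat.mul_le_mul_left _ h
    _ = q * (q * m) := by ring

/-- the numbers for the lower bound -/
theorem pars2 (b : ℕ) (hb : 4 ≤ b) : ∃ K t0 : ℕ, 0 < K ∧ ∀ t ≥ t0, 5 ≤ t ∧ K ≤ 2 ^ t ∧
    ∀ J, 1 ≤ J → ∃ (P : Pq) (s w : ℕ), Good P.h (Fin P.t → Bool) b s w ∧ P.t = t ∧ P.J = J ∧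
      P.m = 2 ^ ((b - 3) * t) ∧ 64 * P.fm.board.M + 106 ≤ 4096 * 2 ^ ((b + 2) * t) ∧
      72 * P.fm.board.h + 55 ≤ J * (4096 * 2 ^ ((b + 2) * t)) ∧
      P.m ≤ K * (w / (2 * b) / b + 1) ∧ w / (2 * b) / b + 1 ≤ P.m := by
  obtain ⟨t1, h1⟩ := ev_sq' (1024 * b)
  obtain ⟨t2, h2⟩ := ev_sq' (36 * 3 ^ b * b ^ 2 * (b * (b + 2) + 1) + 72 * 3 ^ b * b ^ 4)
  refine ⟨72 * 3 ^ b * b ^ 4, max (max t1 t2) 5, by positivity, fun t ht => ?_⟩
  have g1 := h1 t ((le_max_left _ _).trans ((le_max_left _ _).trans ht))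
  have g2 := h2 t ((le_max_right _ _).trans ((le_max_left _ _).trans ht))
  have g3 : 5 ≤ t := (le_max_right _ _).trans ht
  set q := 2 ^ t with hq
  have hq32 : 32 ≤ q := by
    rw [hq]
    calc 32 = 2 ^ 5 := by norm_num
      _ ≤ 2 ^ t := Nat.pow_le_pow_right (by norm_num) g3
  have ht1 : 1 ≤ (t + 1) ^ 2 := Nat.one_le_pow _ _ (by omega)
  have g4 : 36 * 3 ^ b * b ^ 2 * (b * (b + 2) + 1) + 72 * 3 ^ b * b ^ 4 ≤ q :=
    le_trans (Nat.le_mul_of_pos_right _ (by positivity)) g2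
  refine ⟨g3, by omega, fun J hJ => ?_⟩
  set m := 2 ^ ((b - 3) * t) with hm
  have hmq : m = q ^ (b - 3) := by rw [hm, hq, ← pow_mul, Nat.mul_comm]
  have hqm : q ≤ m := by
    rw [hmq]
    exact Nat.le_self_pow (by omega) q
  have hm0 : 0 < m := by omega
  set D := 18 * 3 ^ b * b ^ 2 with hD
  have hD0 : 0 < D := by rw [hD]; positivity
  set s := m / D with hs
  set w := s / 2 with hw
  have e1 : D * s ≤ m := Nat.mul_div_le _ _
  have e2 : m < D * (s + 1) := Nat.lt_mul_div_succ m hD0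
  have e3 : 2 * w ≤ s := Nat.mul_div_le _ _
  have e4 : s < 2 * (w + 1) := Nat.lt_mul_div_succ s (by norm_num)
  have hww : b * (b + 2) ≤ w := by
    have k1 : 2 * D * (b * (b + 2) + 1) ≤ m := by
      have : 2 * D * (b * (b + 2) + 1) = 36 * 3 ^ b * b ^ 2 * (b * (b + 2) + 1) := by
        rw [hD]; ring
      omega
    have k2 : 2 * (b * (b + 2) + 1) ≤ s := by
      rw [hs, Nat.le_div_iff_mul_le hD0]
      calc 2 * (b * (b + 2) + 1) * D = 2 * D * (b * (b + 2) + 1) := by ring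
        _ ≤ m := k1
    omega
  obtain ⟨h, hE⟩ := exists_expd (A := Fin (b + 2)) b s m (2 * m) (by omega) (by simp)
    (by rw [← hD]; exact e1) (by omega) hm0
  have hΛ : Fintype.card (Fin t → Bool) = q := by
    rw [Fintype.card_fun, Fintype.card_bool, Fintype.card_fin]
  have hb3 : q ^ (b - 1) = q * (q * m) := by
    rw [hmq, show b - 1 = (b - 3) + 1 + 1 by omega, pow_succ, pow_succ]; ring
  have hwm : w + 1 ≤ m := by
    have : s ≤ m := Nat.div_le_self _ _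
    omega
  have k1 : (b + 2) * t + 2 ≤ q := by
    calc (b + 2) * t + 2 ≤ (b + 2) * (t + 1) := by rw [Nat.mul_add]; omega
      _ ≤ (1024 * b) * (t + 1) ^ 2 :=
        Nat.mul_le_mul (by omega) (Nat.le_self_pow (by norm_num) _)
      _ ≤ q := g1
  have k2 : 2 ^ ((b + 2) * t) = q ^ 5 * m := by
    rw [hmq, hq, ← pow_mul, ← pow_mul, ← pow_add]
    congr 1
    have : b + 2 = 5 + (b - 3) := by omega
    rw [this]; ring
  have htq : t ≤ q := by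
    rw [hq]
    exact Nat.lt_two_pow_self.le
  have hwm1 : w ≤ m := by omega
  have hq1 : 1 ≤ q := by omega
  have hbq : (b + 2) * t ≤ q := by omega
  refine ⟨⟨J, m, 2 * m, b + 2, t, h⟩, s, w, ?_, rfl, rfl, rfl, ?_, ?_, ?_, ?_⟩
  · refine ⟨by omega, by simp, hE, hww, e3, by simpa using hm0, by simp, ?_, ?_⟩
    · rw [hΛ]; omega
    · rw [hΛ, Fintype.card_fin, hb3]
      exact br3 hb g3 hq hm hwm1 g1
  · rw [fq_M]
    exact br1 hq1 hm0 hbq k2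
  · rw [fq_h]
    exact br2 hq1 hm0 k1 htq k2 hJ
  · change m ≤ 72 * 3 ^ b * b ^ 4 * (w / (2 * b) / b + 1)
    rw [Nat.div_div_eq_div_mul]
    have k1 : w < 2 * b * b * (w / (2 * b * b) + 1) := Nat.lt_mul_div_succ w (by positivity)
    set j0 := w / (2 * b * b) + 1 with hj0
    have k2 : s + 1 ≤ 2 * (2 * b * b * j0) := by omega
    calc m ≤ D * (s + 1) := e2.le
      _ ≤ D * (2 * (2 * b * b * j0)) := Nat.mul_le_mul_left _ k2
      _ = 72 * 3 ^ b * b ^ 4 * j0 := by rw [hD]; ring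
  · change w / (2 * b) / b + 1 ≤ m
    have : w / (2 * b) / b ≤ w := (Nat.div_le_self _ _).trans (Nat.div_le_self _ _)
    omega

theorem numZ {ε : ℝ} (hε : 0 < ε) (hε1 : ε ≤ 1) {b C1 K D t m j0 : ℕ} (hb4 : 4 ≤ b)
    (hbε : 6 ≤ ε * ((b : ℝ) + 2)) (hC10 : 0 < C1) (hK : 0 < K)
    (hupp : D < C1 * 2 ^ ((b + 2) * t)) (hPm : m = 2 ^ ((b - 3) * t)) (f3 : m ≤ K * j0)
    (hq : 2 * C1 * K ≤ 2 ^ t) : Real.exp ((D : ℝ) ^ (1 - ε)) ≤ (2 : ℝ) ^ j0 := by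
  have h1 : (D : ℝ) ≤ C1 * (2 : ℝ) ^ (((b : ℝ) + 2) * t) := by
    have : (D : ℝ) ≤ C1 * 2 ^ ((b + 2) * t) := by exact_mod_cast hupp.le
    refine this.trans (le_of_eq ?_)
    rw [← Real.rpow_natCast]
    push_cast
    ring_nf
  have h2 : (D : ℝ) ^ (1 - ε) ≤ C1 * (2 : ℝ) ^ (((b : ℝ) - 4) * t) := by
    calc (D : ℝ) ^ (1 - ε) ≤ (C1 * (2 : ℝ) ^ (((b : ℝ) + 2) * t)) ^ (1 - ε) :=
          Real.rpow_le_rpow (Nat.cast_nonneg _) h1 (by linarith)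
      _ = (C1 : ℝ) ^ (1 - ε) * (2 : ℝ) ^ ((((b : ℝ) + 2) * t) * (1 - ε)) := by
          rw [Real.mul_rpow (Nat.cast_nonneg _) (by positivity), ← Real.rpow_mul (by norm_num)]
      _ ≤ (C1 : ℝ) ^ (1 : ℝ) * (2 : ℝ) ^ (((b : ℝ) - 4) * t) := by
          apply mul_le_mul
          · apply Real.rpow_le_rpow_of_exponent_le _ (by linarith)
            exact_mod_cast hC10
          · apply Real.rpow_le_rpow_of_exponent_le (by norm_num)
            have h3 : (0 : ℝ) ≤ t := Nat.cast_nonneg _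
            have h4 : ((b : ℝ) + 2) * (1 - ε) ≤ (b : ℝ) - 4 := by linarith
            calc ((b : ℝ) + 2) * t * (1 - ε) = ((b : ℝ) + 2) * (1 - ε) * t := by ring
              _ ≤ ((b : ℝ) - 4) * t := mul_le_mul_of_nonneg_right h4 h3
          · positivity
          · positivity
      _ = C1 * (2 : ℝ) ^ (((b : ℝ) - 4) * t) := by rw [Real.rpow_one]
  have h3 : (2 : ℝ) ^ (((b : ℝ) - 4) * t) * 2 ^ t = m := by
    rw [hPm, Nat.cast_pow, Nat.cast_ofNat, ← Real.rpow_natCast, ← Real.rpow_natCast,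
      ← Real.rpow_add (by norm_num)]
    congr 1
    rw [Nat.cast_mul, Nat.cast_sub (by omega)]
    push_cast
    ring
  have h4 : (m : ℝ) ≤ K * j0 := by exact_mod_cast f3
  have h5 : (2 : ℝ) * C1 * K ≤ 2 ^ t := by exact_mod_cast hq
  have h6 : (0 : ℝ) < K := by exact_mod_cast hK
  have h7 : (0 : ℝ) < (2 : ℝ) ^ (((b : ℝ) - 4) * t) := by positivity
  have h8 : (2 : ℝ) ^ (((b : ℝ) - 4) * t) * (2 * C1 * K) ≤ K * j0 := by
    calc (2 : ℝ) ^ (((b : ℝ) - 4) * t) * (2 * C1 * K) ≤ (2 : ℝ) ^ (((b : ℝ) - 4) * t) * 2 ^ t :=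
          mul_le_mul_of_nonneg_left h5 h7.le
      _ = m := h3
      _ ≤ K * j0 := h4
  have h9 : C1 * (2 : ℝ) ^ (((b : ℝ) - 4) * t) ≤ (j0 : ℝ) / 2 := by
    rw [le_div_iff₀ (by norm_num)]
    refine le_of_mul_le_mul_left ?_ h6
    calc (K : ℝ) * (C1 * (2 : ℝ) ^ (((b : ℝ) - 4) * t) * 2) =
          (2 : ℝ) ^ (((b : ℝ) - 4) * t) * (2 * C1 * K) := by ring
      _ ≤ K * j0 := h8
  have hY : (D : ℝ) ^ (1 - ε) ≤ (j0 : ℝ) / 2 := h2.trans h9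
  have e1 : (2 : ℝ) ^ j0 = Real.exp (Real.log 2 * j0) := by
    rw [← Real.rpow_natCast, Real.rpow_def_of_pos (by norm_num : (0 : ℝ) < 2) (j0 : ℝ)]
  rw [e1]
  apply Real.exp_le_exp.mpr
  have e2 := Real.log_two_gt_d9
  have e3 : (0 : ℝ) ≤ j0 := Nat.cast_nonneg _
  have e4 : (1 / 2 : ℝ) * j0 ≤ Real.log 2 * j0 :=
    mul_le_mul_of_nonneg_right (by linarith) e3
  linarith

theorem numK {X j0 t : ℕ} (hX : X < 2 ^ j0) (hj : 1 ≤ j0) (ht : 5 ≤ t) :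
    8 * X * 2 ^ j0 < (2 ^ t) ^ j0 := by
  calc 8 * X * 2 ^ j0 < 8 * 2 ^ j0 * 2 ^ j0 :=
        Nat.mul_lt_mul_of_pos_right (Nat.mul_lt_mul_of_pos_left hX (by norm_num))
          (by positivity)
    _ = 2 ^ (3 + j0 + j0) := by rw [pow_add, pow_add]; norm_num
    _ ≤ 2 ^ (t * j0) := Nat.pow_le_pow_right (by norm_num) (by nlinarith)
    _ = (2 ^ t) ^ j0 := by rw [pow_mul]

theorem arr_aux (ε : ℝ) (hε : 0 < ε) (hε1 : ε ≤ 1) :
    ∃ D0 : ℕ, 1 ≤ D0 ∧ ∀ D : ℕ, D0 ≤ D → ∀ N : ℕ, D ≤ N → ∃ B : ℕ,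
      ∀ {S : ℕ} {T : Finset (Fin S)} {wd : Fin S → ℕ}
        {a : ∀ i, Fin (wd i) → (Fin N × Fin N) ⊕ Fin S}
        {op : ∀ i, (Fin (wd i) → ℝ) → ℝ} {θ : ∀ i, Fin (wd i) → ℝ}
        {val : (Fin N × Fin N → Bool) → Fin S → ℝ}
        (_ : ∀ i j k, a i j = Sum.inr k → k < i)
        (_ : ∀ i ∉ T, wd i ≤ 2 ∧ Monotone (op i))
        (_ : ∀ i ∈ T, ∀ z z' : Fin (wd i) → ℝ, (∀ j, θ i j ≤ z j ↔ θ i j ≤ z' j) →
          op i z = op i z')
        (_ : ∀ x i, val x i = op i (fun j => Sum.elim (bit x) (val x) (a i j)))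
        (o : Fin S) (τ : ℝ)
        (_ : ∀ x, (∃ L, Lists x L ∧ gtl L ≤ B) → val x o < τ)
        (_ : ∀ x, (∀ L, Lists x L → (B : ℝ) + 1 / 69 ≤ gtl L) → τ ≤ val x o),
        Real.exp ((D : ℝ) ^ (1 - ε)) ≤ ((S + ∑ i ∈ T, wd i : ℕ) : ℝ) ∨
        ∃ x : ℕ → Fin N × Fin N → Bool, (∀ i < (N / D) ^ 2, x i ≤ x (i + 1) ∧
          ∃ t ∈ T, ∃ j, ¬ (prb a θ val (x i) t j ↔ prb a θ val (x (i + 1)) t j)) ∧
          ∀ i ≤ (N / D) ^ 2, ∃ L, Lists (x i) L ∧ gtl L ≤ B := by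
  set b : ℕ := ⌈6 / ε⌉₊ + 4 with hb
  have hb4 : 4 ≤ b := by omega
  have hbε : 6 ≤ ε * ((b : ℝ) + 2) := by
    have h1 : 6 / ε ≤ (⌈6 / ε⌉₊ : ℝ) := Nat.le_ceil _
    rw [div_le_iff₀ hε] at h1
    have h2 : (b : ℝ) = ⌈6 / ε⌉₊ + 4 := by rw [hb]; push_cast; ring
    rw [h2]
    nlinarith
  obtain ⟨K, t0, hK, H⟩ := pars2 b hb4
  set C1 : ℕ := 4096 * 2 ^ (b + 2) with hC1
  have hC10 : 0 < C1 := by rw [hC1]; positivity
  set t1 : ℕ := max t0 (Nat.clog 2 (2 * C1 * K)) with ht1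
  refine ⟨4096 * 2 ^ ((b + 2) * t1), ?_, ?_⟩
  · have : 0 < 2 ^ ((b + 2) * t1) := by positivity
    omega
  intro D hD N hDN
  set t : ℕ := Nat.log (2 ^ (b + 2)) (D / 4096) with ht
  have hbase : 1 < 2 ^ (b + 2) := Nat.one_lt_two_pow (by omega)
  have hN1 : 2 ^ ((b + 2) * t1) ≤ D / 4096 := by
    rw [Nat.le_div_iff_mul_le (by norm_num)]
    omega
  have hN0 : D / 4096 ≠ 0 := by
    have : 0 < 2 ^ ((b + 2) * t1) := by positivity
    omega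
  have hD0 : 0 < D := by omega
  have htt : t1 ≤ t := by
    rw [ht]
    apply Nat.le_log_of_pow_le hbase
    rw [← pow_mul]
    exact hN1
  have hlow : 4096 * 2 ^ ((b + 2) * t) ≤ D := by
    have h1 := Nat.pow_log_le_self (2 ^ (b + 2)) hN0
    rw [← ht, ← pow_mul, Nat.le_div_iff_mul_le (by norm_num)] at h1
    omega
  have hupp : D < C1 * 2 ^ ((b + 2) * t) := by
    have h1 := Nat.lt_pow_succ_log_self hbase (D / 4096)
    rw [← ht, ← pow_mul, Nat.div_lt_iff_lt_mul (by norm_num), Nat.succ_eq_add_one, Nat.mul_add,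
      pow_add, Nat.mul_one] at h1
    rw [hC1]
    calc D < 2 ^ ((b + 2) * t) * 2 ^ (b + 2) * 4096 := h1
      _ = 4096 * 2 ^ (b + 2) * 2 ^ ((b + 2) * t) := by ring
  have hk : 1 ≤ N / D := (Nat.one_le_div_iff hD0).2 hDN
  obtain ⟨ht5, hKt, HJ⟩ := H t ((le_max_left _ _).trans htt)
  obtain ⟨P, s, w, hG, hPt, hPJ, hPm, f1, f2, f3, f4⟩ := HJ (N / D) hk
  set j0 : ℕ := w / (2 * b) / b + 1 with hj0
  have hq : 2 * C1 * K ≤ 2 ^ t := by
    have h1 : Nat.clog 2 (2 * C1 * K) ≤ t := (le_max_right _ _).trans htt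
    exact (Nat.le_pow_clog (by norm_num) _).trans (Nat.pow_le_pow_right (by norm_num) h1)
  have hND : N / D * D ≤ N := Nat.div_mul_le_self N D
  have g1 : N / D * (64 * P.fm.board.M + 106) ≤ N :=
    (Nat.mul_le_mul_left _ (f1.trans hlow)).trans hND
  have g2 : 72 * P.fm.board.h + 55 ≤ N := f2.trans ((Nat.mul_le_mul_left _ hlow).trans hND)
  refine ⟨P.fm.board.bdK Fm.one_le_M (N / D) hk, ?_⟩
  intro S T wd a op θ val htop hmon hT hval o τ hlo hhi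
  rw [or_iff_not_imp_left]
  intro hcon
  push Not at hcon
  set X : ℕ := S + ∑ i ∈ T, wd i with hX
  have hXj : X < 2 ^ j0 := by
    have h1 := numZ hε hε1 hb4 hbε hC10 hK hupp hPm f3 hq
    have h2 : (X : ℝ) < (2 : ℝ) ^ j0 := hcon.trans_le h1
    exact_mod_cast h2
  have hj1 : 1 ≤ j0 := by rw [hj0]; exact Nat.le_add_left _ _
  have g3 : S + ∑ i ∈ T, wd i ≤ (2 ^ P.t + 1) ^ P.m := by
    calc S + ∑ i ∈ T, wd i ≤ 2 ^ j0 := hXj.le
      _ ≤ 2 ^ P.m := Nat.pow_le_pow_right (by norm_num) f4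
      _ ≤ (2 ^ P.t + 1) ^ P.m := Nat.pow_le_pow_left (by
        have := Nat.one_le_two_pow (n := P.t)
        omega) _
  have g4 : 8 * (S + ∑ i ∈ T, wd i) * 2 ^ j0 < (2 ^ P.t) ^ j0 := by
    rw [hPt]
    exact numK hXj hj1 ht5
  have hres := Pq.arr_param P hG hk g1 g2 htop hmon hT hval o τ hlo hhi g3 g4
  rw [hPJ, ← sq] at hres
  exact hres

/-- the lower bound for circuits for short tours in a square grid -/
theorem arr_main (ε : ℝ) (hε : 0 < ε) :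
    ∃ D0 : ℕ, ∀ D : ℕ, D0 ≤ D → ∀ N : ℕ, D ≤ N → ∃ B : ℕ,
      ∀ {S : ℕ} {T : Finset (Fin S)} {wd : Fin S → ℕ}
        {a : ∀ i, Fin (wd i) → (Fin N × Fin N) ⊕ Fin S}
        {op : ∀ i, (Fin (wd i) → ℝ) → ℝ} {θ : ∀ i, Fin (wd i) → ℝ}
        {val : (Fin N × Fin N → Bool) → Fin S → ℝ}
        (_ : ∀ i j k, a i j = Sum.inr k → k < i)
        (_ : ∀ i ∉ T, wd i ≤ 2 ∧ Monotone (op i))
        (_ : ∀ i ∈ T, ∀ z z' : Fin (wd i) → ℝ, (∀ j, θ i j ≤ z j ↔ θ i j ≤ z' j) →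
          op i z = op i z')
        (_ : ∀ x i, val x i = op i (fun j => Sum.elim (bit x) (val x) (a i j)))
        (o : Fin S) (τ : ℝ)
        (_ : ∀ x, (∃ L, Lists x L ∧ gtl L ≤ B) → val x o < τ)
        (_ : ∀ x, (∀ L, Lists x L → (B : ℝ) + 1 / 69 ≤ gtl L) → τ ≤ val x o),
        Real.exp ((D : ℝ) ^ (1 - ε)) ≤ ((S + ∑ i ∈ T, wd i : ℕ) : ℝ) ∨
        ∃ x : ℕ → Fin N × Fin N → Bool, (∀ i < (N / D) ^ 2, x i ≤ x (i + 1) ∧
          ∃ t ∈ T, ∃ j, ¬ (prb a θ val (x i) t j ↔ prb a θ val (x (i + 1)) t j)) ∧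
          ∀ i ≤ (N / D) ^ 2, ∃ L, Lists (x i) L ∧ gtl L ≤ B := by
  obtain ⟨D0, hD0, H⟩ := arr_aux (min ε 1) (lt_min hε one_pos) (min_le_right _ _)
  refine ⟨D0, fun D hD N hN => ?_⟩
  obtain ⟨B, HB⟩ := H D hD N hN
  refine ⟨B, fun {S T wd a op θ val} htop hmon hT hval o τ hlo hhi => ?_⟩
  rcases HB htop hmon hT hval o τ hlo hhi with h | h
  · left
    refine le_trans ?_ h
    apply Real.exp_le_exp.mpr
    apply Real.rpow_le_rpow_of_exponent_le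
    · exact_mod_cast hD0.trans hD
    · have := min_le_left ε 1
      linarith
  · exact Or.inr h

end Pool.Agent.T9h21.TB
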