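import Pool.Agent.T9h21.TB.Arr

/-!
# Tours through rows of boards
-/

set_option autoImplicit false

namespace Pool.Agent.T9h21.TB

open Pool.Agent.ETSP

namespace Board

variable {b : Board} {act : ℕ → ℕ → ℕ → Bool} {k : ℕ}

theorem valK_loc {κ : ℕ} {v : Nd} (hκ : κ < k) (hv : b.Val (act κ) v) (hl : ∀ i r, v ≠ .T i r) :
    b.ValK k act (.B κ v) :=
  ⟨hκ, hv, fun h => absurd h (hl _ _), fun h => absurd h (hl _ _)⟩

theorem loc_ne {v : Nd} (h : v.loc = true) : (∀ i r, v ≠ .T i r) ∧ ∀ i r, v ≠ .C i r := by
  constructor <;> rintro i r rfl <;> simp [Nd.loc] at h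

/-- a tight tour through a row of boards is locally a tight tour of each board -/
theorem locK (hM : 1 ≤ b.M) {σ : Equiv.Perm Nk} (hC : Cyc (b.ValK k act) (Tch b.posK b.radK) σ)
    {κ : ℕ} (hκ : κ < k) : Loc b (act κ) (fun v w => σ (.B κ v) = .B κ w) := by
  have hinj : Function.Injective (Nk.B κ) := fun v w h => by injection h
  have hua : ∀ v w, ua (fun v w => σ (.B κ v) = .B κ w) v w = us σ (.B κ v) (.B κ w) := by
    intro v w
    unfold ua us
    split_ifs <;> rfl
  constructor
  · intro v hv hl hn
    obtain ⟨h1, h2⟩ := loc_ne hl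
    have hvK := valK_loc hκ hv h1
    have h3 : σ (.B κ v) ∈ (b.nb (act κ) v).map (Nk.B κ) := by
      obtain ⟨w', h4, h5⟩ := nbK hM hvK (hC.val _ hvK) (Ne.symm (hC.ne _ hvK)) h2
        (hC.tight _ hvK)
      rw [h4]
      exact List.mem_map_of_mem h5
    have h4 : σ⁻¹ (.B κ v) ∈ (b.nb (act κ) v).map (Nk.B κ) := by
      have h5 : σ (σ⁻¹ (.B κ v)) = .B κ v := Equiv.apply_symm_apply σ _
      have h6 := hC.tight _ (hC.inv _ hvK)
      have h7 := hC.ne _ (hC.inv _ hvK)
      rw [h5] at h6 h7
      obtain ⟨w', h8, h9⟩ := nbK hM hvK (hC.inv _ hvK) h7 h2 (tch_symm h6)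
      rw [h8]
      exact List.mem_map_of_mem h9
    have h5 := hC.sum_us hvK (hn.map hinj) h3 h4
    rw [List.map_map] at h5
    rw [← h5]
    congr 1
    exact List.map_congr_left fun w _ => hua v w
  · intro L v0 hv0 hL hl
    have h1 := hC.small (L.map (Nk.B κ)) (List.mem_map_of_mem hv0) (by
      intro x hx
      obtain ⟨v, hv, rfl⟩ := List.mem_map.1 hx
      obtain ⟨h1, a, ha, c, hc, h2, h3, h4⟩ := hL v hv
      rw [hua] at h3 h4
      exact ⟨valK_loc hκ h1 (loc_ne (hl v hv)).1, _, List.mem_map_of_mem ha, _,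
        List.mem_map_of_mem hc, fun h => h2 (hinj h), h3, h4⟩) (.B κ (.S 0 true)) (by
      refine valK_loc hκ ?_ (by simp)
      simp only [Val]
      unfold H
      omega)
    obtain ⟨v, hv, h2⟩ := List.mem_map.1 h1
    have h3 := hinj h2
    subst h3
    have h4 := hl _ hv
    simp [Nd.loc] at h4

/-- the bound on the length of tours through a row of boards -/
noncomputable def bdK (b : Board) (hM : 1 ≤ b.M) (k : ℕ) (hk : 1 ≤ k) : ℕ :=
  (2 * (packK (b := b) (act := fun _ _ _ => false) hM hk).tot).toNat

theorem bdK_eq (hM : 1 ≤ b.M) (hk : 1 ≤ k) (h : Pack (b.ValK k act) b.posK b.radK) :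
    ((b.bdK hM k hk : ℕ) : ℝ) = 2 * (h.tot : ℝ) := by
  have h1 := tot_eq h (packK (b := b) (act := fun _ _ _ => false) hM hk)
  have h2 := h.tot_nonneg
  have h3 : ((b.bdK hM k hk : ℕ) : ℤ) = 2 * h.tot := by
    unfold bdK
    rw [← h1, Int.toNat_of_nonneg (by omega)]
  exact_mod_cast h3

/-- a list of the points of a row of boards -/
def ListK (b : Board) (k : ℕ) (act : ℕ → ℕ → ℕ → Bool) (L : List (ℤ × ℤ)) : Prop :=
  L.Nodup ∧ ∀ p, p ∈ L ↔ ∃ v, b.ValK k act v ∧ b.posK v = p

theorem soundK (hM : 1 ≤ b.M) (hk : 1 ≤ k)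
    (h : ∃ L, b.ListK k act L ∧ tl eucl L < (b.bdK hM k hk : ℝ) + 1 / 69) :
    ∀ κ < k, ∃ m : ℕ → Bool, ∀ c < b.M, ∀ e ≤ 2 * b.h, act κ e c = true →
      ∃ i ≤ e, (∀ i', i ≤ i' → i' ≤ e → b.blk i' c = false) ∧ b.lit i c = true ∧
        xor (m i) (b.par i c) = true := by
  obtain ⟨L, ⟨h1, h2⟩, h3⟩ := h
  have hP := packK (b := b) (act := act) hM hk
  rw [bdK_eq hM hk hP] at h3
  obtain ⟨σ, hC⟩ := hP.sound h1 h2 h3
  intro κ hκ
  exact sound hM (locK hM hC hκ)

theorem crc_of_good (hM : 1 ≤ b.M) {act : ℕ → ℕ → Bool} {m : ℕ → Bool} {kc cc : ℕ → Bool}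
    {z0 : ℕ → ℕ → Bool} (hG : Good b act m kc cc z0) : Crc (b.Val act) b.Tight := by
  have hH : b.H = 2 * b.h + 2 := rfl
  obtain ⟨z, hL, hz⟩ := hG.conn hM val_fin
  have hv0 : b.Val act (.S 0 false) := by simp only [Val]; omega
  obtain ⟨l, h1, h2, h3⟩ := list_of_cycles (Gr b hM act m z) (P := b.Val act) val_fin
    (fun v w h => h.1) (fun v hv => ncard_Gr hL hv) hv0 hz
  exact ⟨_, l, h1, h2, h3.imp fun v w h => nb_tight hM h.1 (mem_nb h.2.2)⟩

theorem valT0 {act : ℕ → ℕ → Bool} (r : Bool) : b.Val act (.T 0 r) := by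
  have hH : b.H = 2 * b.h + 2 := rfl
  exact ⟨by omega, rfl⟩

theorem tight_T {act : ℕ → ℕ → Bool} (hM : 1 ≤ b.M) {r : Bool} {w : Nd} (hw : b.Val act w)
    (hne : w ≠ .T 0 r) (h : b.Tight (.T 0 r) w) : w = .C 0 r ∨ w = .C 1 r := by
  have hH : b.H = 2 * b.h + 2 := rfl
  have hv : b.Val act (.T 0 r) := ⟨by omega, rfl⟩
  have h1 := ((cls hM hv hw (Ne.symm hne)).2 h).1
  simpa [nb] using h1

theorem UC_tch (κ : ℕ) (r : Bool) :
    Tch b.posK b.radK (.U κ r) (.B κ (.C (if r then 1 else 0) true)) ∧
    Tch b.posK b.radK (.U κ r) (.B (κ + 1) (.C (if r then 1 else 0) false)) := by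
  unfold Tch dd
  simp only [posK, radK, rad, px, py]
  unfold W
  push_cast
  constructor
  · cases r
    · simp only [Bool.false_eq_true, if_false, if_true]
      ring_nf
      omega
    · simp only [if_true]
      ring_nf
      omega
  · cases r
    · simp only [Bool.false_eq_true, if_false]
      ring_nf
      omega
    · simp only [Bool.false_eq_true, if_false, if_true]
      ring_nf
      omega

theorem crcK (hM : 1 ≤ b.M) (hG : ∀ κ < k, Crc (b.Val (act κ)) b.Tight) (hk : 1 ≤ k) :
    Crc (b.ValK k act) (Tch b.posK b.radK) := by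
  have hH : b.H = 2 * b.h + 2 := rfl
  have hinj : ∀ κ, Function.Injective (Nk.B κ) := fun κ v w h => by injection h
  induction k with
  | zero => omega
  | succ k ih =>
    rcases Nat.eq_zero_or_pos k with rfl | hk0
    · refine (hG 0 (by omega)).map (hinj 0) ?_ fun v w h => tch_same.2 h
      intro u
      cases u with
      | B κ v =>
        constructor
        · rintro ⟨h1, h2, -⟩
          obtain rfl : κ = 0 := by omega
          exact ⟨v, h2, rfl⟩
        · rintro ⟨w, h1, h2⟩
          injection h2 with h2 h3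
          subst h2 h3
          exact ⟨by omega, h1, fun _ => rfl, fun _ => rfl⟩
      | U κ r =>
        constructor
        · intro h
          have h1 : κ + 1 < 0 + 1 := h
          omega
        · rintro ⟨w, h1, h2⟩
          exact absurd h2 (by simp)
    · have h1 := ih (fun κ hκ => hG κ (by omega)) hk0
      have h2 : Crc (fun u => ∃ v, b.Val (act k) v ∧ Nk.B k v = u) (Tch b.posK b.radK) :=
        (hG k (by omega)).map (hinj k) (fun u => Iff.rfl) fun v w h => tch_same.2 h
      have hs : ∀ x y, Tch b.posK b.radK x y → Tch b.posK b.radK y x := fun x y => tch_symm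
      have p1 : Pth (fun v => b.ValK k act v ∧ v ≠ .B (k - 1) (.T 0 true)) (Tch b.posK b.radK)
          (.B (k - 1) (.C 0 true)) (.B (k - 1) (.C 1 true)) := by
        refine h1.cut hs ⟨by omega, valT0 true, by simp, fun _ => by omega⟩ ?_ ?_
        · intro x hx hne ht
          cases x with
          | B κ w =>
            rcases Nat.lt_trichotomy κ (k - 1) with h | h | h
            · exact absurd ht (fa_boards (act' := act (k - 1)) h hx.2.1
                (valT0 true)).symm.not_tch
            · subst h
              rw [tch_same] at ht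
              rcases tight_T hM hx.2.1 (fun h => hne (by rw [h])) ht with rfl | rfl
              · exact Or.inl rfl
              · exact Or.inr rfl
            · have := hx.1
              omega
          | U κ r =>
            exact absurd ht (fa_U (act := act (k - 1)) (valT0 true) (by simp)).symm.not_tch
        · refine ⟨.B 0 (.S 0 false), .B 0 (.S 0 true), ⟨by omega, ?_, by simp, by simp⟩,
            ⟨by omega, ?_, by simp, by simp⟩, by simp, by simp, by simp⟩
          · simp only [Val]; omega
          · simp only [Val]; omega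
      have p2 : Pth (fun u => (∃ v, b.Val (act k) v ∧ Nk.B k v = u) ∧ u ≠ .B k (.T 0 false))
          (Tch b.posK b.radK) (.B k (.C 0 false)) (.B k (.C 1 false)) := by
        refine h2.cut hs ⟨.T 0 false, valT0 false, rfl⟩ ?_ ?_
        · rintro x ⟨w, hw, rfl⟩ hne ht
          rw [tch_same] at ht
          rcases tight_T hM hw (fun h => hne (by rw [h])) ht with rfl | rfl
          · exact Or.inl rfl
          · exact Or.inr rfl
        · refine ⟨.B k (.S 0 false), .B k (.S 0 true), ⟨_, ?_, rfl⟩, ⟨_, ?_, rfl⟩, by simp,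
            by simp, by simp⟩
          · simp only [Val]; omega
          · simp only [Val]; omega
      have e1 := UC_tch (b := b) (k - 1) false
      have e2 := UC_tch (b := b) (k - 1) true
      rw [show k - 1 + 1 = k by omega] at e1 e2
      simp only [Bool.false_eq_true, if_false] at e1
      simp only [if_true] at e2
      refine p1.join hs p2 (u := .U (k - 1) false) (u' := .U (k - 1) true) e1.1 e1.2 e2.1 e2.2
        (by simp) ?_ ?_ ?_
      · rintro v ⟨h3, -⟩ ⟨⟨w, -, rfl⟩, -⟩
        have := h3.1
        omega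
      · refine ⟨?_, ?_, ?_, ?_⟩
        · rintro ⟨h3, -⟩
          have h4 : k - 1 + 1 < k := h3
          omega
        · rintro ⟨⟨w, -, h3⟩, -⟩
          simp at h3
        · rintro ⟨h3, -⟩
          have h4 : k - 1 + 1 < k := h3
          omega
        · rintro ⟨⟨w, -, h3⟩, -⟩
          simp at h3
      · intro v
        cases v with
        | B κ v =>
          constructor
          · rintro ⟨h3, h4, h5, h6⟩
            by_cases h7 : κ = k
            · subst h7
              right; left
              refine ⟨⟨v, h4, rfl⟩, ?_⟩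
              intro h8
              injection h8 with _ h8
              have := h5 h8
              omega
            · left
              refine ⟨⟨by omega, h4, h5, fun h8 => ?_⟩, ?_⟩
              · have := h6 h8
                omega
              · intro h8
                injection h8 with _ h8
                have := h6 h8
                omega
          · rintro (⟨⟨h3, h4, h5, h6⟩, h7⟩ | ⟨⟨w, h3, h4⟩, h5⟩ | h3 | h3)
            · refine ⟨by omega, h4, h5, fun h8 => ?_⟩
              have := h6 h8
              exact absurd (by rw [h8]; congr 1; omega) h7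
            · injection h4 with h4 h6
              subst h4 h6
              refine ⟨by omega, h3, fun h8 => ?_, fun _ => rfl⟩
              exact absurd (by rw [h8]) h5
            · simp at h3
            · simp at h3
        | U κ r =>
          constructor
          · intro h3
            have h4 : κ + 1 < k + 1 := h3
            by_cases h5 : κ = k - 1
            · subst h5
              right; right
              cases r <;> simp
            · left
              exact ⟨(by omega : κ + 1 < k), by simp⟩
          · rintro (⟨h3, -⟩ | ⟨⟨w, -, h4⟩, -⟩ | h3 | h3)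
            · have h4 : κ + 1 < k := h3
              exact (by omega : κ + 1 < k + 1)
            · simp at h4
            · injection h3 with h3 _
              subst h3
              exact (by omega : k - 1 + 1 < k + 1)
            · injection h3 with h3 _
              subst h3
              exact (by omega : k - 1 + 1 < k + 1)

theorem completeK (hM : 1 ≤ b.M) (hk : 1 ≤ k)
    (hG : ∀ κ < k, ∃ m kc cc z0, Good b (act κ) m kc cc z0) :
    ∃ L, b.ListK k act L ∧ tl eucl L ≤ (b.bdK hM k hk : ℝ) := by
  have hP := packK (b := b) (act := act) hM hk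
  obtain ⟨a, l, h1, h2, h3⟩ := crcK (act := act) hM (fun κ hκ => by
    obtain ⟨m, kc, cc, z0, h⟩ := hG κ hκ
    exact crc_of_good hM h) hk
  obtain ⟨L, h4, h5, h6⟩ := hP.complete h1 h2 h3
  rw [bdK_eq hM hk hP]
  exact ⟨L, ⟨h4, h5⟩, h6⟩

end Board

end Pool.Agent.T9h21.TB
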