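import Pool.Agent.T9h21.TB.Sound

/-!
# The graphs of the configurations of a board
-/

set_option autoImplicit false

namespace Pool.Agent.T9h21.TB

/-- whether the wires above are used -/
def up (z : ℕ → ℕ → Bool) (i c : ℕ) : Bool :=
  match i with
  | 0 => false
  | i + 1 => z i c

/-- whether row `i` changes at pair `n / 2` -/
def tr (z : ℕ → ℕ → Bool) (i n : ℕ) : Bool :=
  decide (n % 2 = 1) && xor (up z i (n / 2)) (z i (n / 2))

namespace Board

variable (b : Board)

/-- the mode of row `i` left of pair `c` -/
def lm (m : ℕ → Bool) (i c : ℕ) : Bool := xor (m i) (b.par i c)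

/-- the use of the first gap of a segment, above -/
def base (m : ℕ → Bool) (i n : ℕ) : Bool :=
  if n = 0 then b.lm m i 0 else !(b.lm m i (n / 2))

/-- whether the gap to the right of a station is used -/
def gu (m : ℕ → Bool) (z : ℕ → ℕ → Bool) (i n k : ℕ) (s : Bool) : Bool :=
  if tr z i n then decide (k % 2 = 0) else xor (xor (b.base m i n) (decide (k % 2 = 1))) (!s)

/-- whether the pair of wire `n` is activated below row `e` -/
def hA (act : ℕ → ℕ → Bool) (e n : ℕ) : Bool := decide (n % 2 = 1 ∧ act e (n / 2) = true)

/-- the candidate that activates the pair of wire `n` -/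
def acand (act : ℕ → ℕ → Bool) (e n : ℕ) : List (Nd × Bool) :=
  if hA act e n then [(.A e (n / 2), true)] else []

/-- the vertical candidates of a wire -/
def vcand (act : ℕ → ℕ → Bool) (z : ℕ → ℕ → Bool) (i n : ℕ) (s : Bool) : List (Nd × Bool) :=
  if s then (if i = 0 then [] else
      (.X (i - 1) n 0 false, up z i ((n - 1) / 2) && !(hA act (i - 1) n)) :: acand act (i - 1) n)
  else (if i = 2 * b.h + 1 then [] else
      (.X (i + 1) n 0 true, z i ((n - 1) / 2) && !(hA act i n)) :: acand act i n)

/-- the candidate between the circles of a blocked wire -/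
def qcand (i n : ℕ) : List (Nd × Bool) :=
  if b.blk i ((n - 1) / 2) = true then [(.Q i n 0, true)] else []

/-- The neighbours of a node, with the information whether they are used. -/
def cand (act : ℕ → ℕ → Bool) (m : ℕ → Bool) (z : ℕ → ℕ → Bool) : Nd → List (Nd × Bool)
  | .X i n k s =>
      (b.lf i n k s, if k = 0 then b.gu m z i (n - 1) (b.len i (n - 1)) s else
        b.gu m z i n (k - 1) s) ::
      (b.rt i n k s, b.gu m z i n k s) ::
      (.X i n k (!s), decide (k = 0) && (!(b.blk i ((n - 1) / 2)) &&
        (!(up z i ((n - 1) / 2)) && !(z i ((n - 1) / 2))))) ::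
      (if k = 0 then b.qcand i n ++ b.vcand act z i n s else [(.Q i n k, true)])
  | .Q i n k => [(.X i n k true, true), (.X i n k false, true)]
  | .S i false => [(.C i false, true), (.X i 0 1 true, b.gu m z i 0 0 true),
      (.X i 0 1 false, b.gu m z i 0 0 false)]
  | .S i true => [(.C i true, true), (.X i (2 * b.M) 12 true, b.gu m z i (2 * b.M) 12 true),
      (.X i (2 * b.M) 12 false, b.gu m z i (2 * b.M) 12 false)]
  | .C i r => [(.S i r, true), (.T (i - i % 2) r, true)]
  | .T i r => [(.C i r, true), (.C (i + 1) r, true)]
  | .A e c => [(.X e (2 * c + 1) 0 false, true), (.X (e + 1) (2 * c + 1) 0 true, true)]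

variable {b} {act : ℕ → ℕ → Bool} {m : ℕ → Bool} {z : ℕ → ℕ → Bool}

theorem hA_iff {e n : ℕ} : hA act e n = true ↔ n % 2 = 1 ∧ act e (n / 2) = true := by
  unfold hA; rw [decide_eq_true_eq]

theorem map_acand (e n : ℕ) : (acand act e n).map Prod.fst = aN act e n := by
  unfold acand aN
  by_cases h : n % 2 = 1 ∧ act e (n / 2) = true
  · rw [if_pos h, if_pos (hA_iff.2 h)]; rfl
  · rw [if_neg h, if_neg (fun h1 => h (hA_iff.1 h1))]; rfl

theorem map_cand (v : Nd) : (b.cand act m z v).map Prod.fst = b.nb act v := by
  cases v with
  | X i n k s =>
    simp only [cand, nb, List.map_cons]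
    congr 3
    by_cases hk : k = 0
    · simp only [hk, if_true, List.map_append]
      congr 1
      · unfold qcand
        split_ifs <;> rfl
      · unfold vcand vert
        split_ifs <;> simp [map_acand]
    · simp [hk]
  | Q i n k => rfl
  | S i r => cases r <;> rfl
  | C i r => rfl
  | T i r => rfl
  | A e c => rfl

/-- all listed neighbours are valid -/
theorem val_nb (hM : 1 ≤ b.M) {v w : Nd} (hv : b.Val act v) (hw : w ∈ b.nb act v) :
    b.Val act w := by
  cases v with
  | X i n k s =>
    obtain ⟨h1, h2, h3, h4⟩ := hv
    have h5 := b.two_le_len i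
    have hH : b.H = 2 * b.h + 2 := rfl
    have hlf : b.Val act (b.lf i n k s) := by
      unfold lf
      split_ifs with g1 g2
      · exact ⟨h1, by omega, le_rfl, fun h => by have := h5 (n - 1); omega⟩
      · exact h1
      · exact ⟨h1, h2, by omega, fun h => by omega⟩
    have hrt : b.Val act (b.rt i n k s) := by
      unfold rt
      split_ifs with g1 g2
      · exact ⟨h1, h2, by omega, fun h => by omega⟩
      · exact h1
      · exact ⟨h1, by omega, Nat.zero_le _, fun h => by omega⟩
    by_cases hk : k = 0
    · subst hk
      have hn1 := h4 rfl
      have haN : ∀ e, e ≤ 2 * b.h → ∀ w, w ∈ aN act e n → b.Val act w := by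
        intro e he w hw
        unfold aN at hw
        split_ifs at hw with g1
        · simp only [List.mem_singleton] at hw
          subst hw
          exact ⟨he, by omega, g1.2⟩
        · simp at hw
      rw [nb_wire] at hw
      simp only [List.mem_cons, vert, qN, List.mem_append] at hw
      rcases hw with rfl | rfl | rfl | hw | hw
      · exact hlf
      · exact hrt
      · exact ⟨h1, h2, h3, h4⟩
      · split_ifs at hw with g1
        · simp only [List.mem_singleton] at hw
          subst hw
          exact ⟨h1, h2, Nat.zero_le _, fun _ => ⟨hn1, g1⟩⟩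
        · simp at hw
      · split_ifs at hw with g1 g2 g3
        · simp at hw
        · rw [List.mem_cons] at hw
          rcases hw with rfl | hw
          · exact ⟨by omega, h2, Nat.zero_le _, fun _ => h4 rfl⟩
          · exact haN _ (by omega) _ hw
        · simp at hw
        · rw [List.mem_cons] at hw
          rcases hw with rfl | hw
          · exact ⟨by omega, h2, Nat.zero_le _, fun _ => h4 rfl⟩
          · exact haN _ (by omega) _ hw
    · rw [nb_rung _ _ _ _ (by omega)] at hw
      simp only [List.mem_cons, List.not_mem_nil, or_false] at hw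
      rcases hw with rfl | rfl | rfl | rfl
      · exact hlf
      · exact hrt
      · exact ⟨h1, h2, h3, h4⟩
      · exact ⟨h1, h2, h3, fun h => absurd h hk⟩
  | Q i n k =>
    obtain ⟨h1, h2, h3, h4⟩ := hv
    simp only [nb, List.mem_cons, List.not_mem_nil, or_false] at hw
    rcases hw with rfl | rfl <;> exact ⟨h1, h2, h3, fun h => (h4 h).1⟩
  | S i r =>
    have h1 : i < b.H := hv
    cases r with
    | false =>
      simp only [nb, List.mem_cons, List.not_mem_nil, or_false] at hw
      rcases hw with rfl | rfl | rfl
      · exact h1
      · exact ⟨h1, by omega, by have := b.two_le_len i 0; omega, fun h => by omega⟩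
      · exact ⟨h1, by omega, by have := b.two_le_len i 0; omega, fun h => by omega⟩
    | true =>
      have h2 : b.len i (2 * b.M) = 12 := by rw [len_even hM, if_pos (Or.inr rfl)]
      simp only [nb, List.mem_cons, List.not_mem_nil, or_false] at hw
      rcases hw with rfl | rfl | rfl
      · exact h1
      · exact ⟨h1, by omega, by omega, fun h => by omega⟩
      · exact ⟨h1, by omega, by omega, fun h => by omega⟩
  | C i r =>
    have h1 : i < b.H := hv
    simp only [nb, List.mem_cons, List.not_mem_nil, or_false] at hw
    rcases hw with rfl | rfl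
    · exact h1
    · exact ⟨by omega, by omega⟩
  | T i r =>
    obtain ⟨h1, h2⟩ := hv
    have hH : b.H = 2 * b.h + 2 := rfl
    simp only [nb, List.mem_cons, List.not_mem_nil, or_false] at hw
    rcases hw with rfl | rfl
    · exact h1
    · change i + 1 < b.H
      omega
  | A e c =>
    obtain ⟨h0, h1, h2⟩ := hv
    have hH : b.H = 2 * b.h + 2 := rfl
    simp only [nb, List.mem_cons, List.not_mem_nil, or_false] at hw
    rcases hw with rfl | rfl
    · exact ⟨by omega, by omega, Nat.zero_le _, fun _ => by omega⟩
    · exact ⟨by omega, by omega, Nat.zero_le _, fun _ => by omega⟩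

theorem mem_nb {v w : Nd} {f : Bool} (h : (w, f) ∈ b.cand act m z v) : w ∈ b.nb act v := by
  rw [← map_cand (m := m) (z := z)]
  exact List.mem_map_of_mem (f := Prod.fst) h

/-- The used neighbours form a symmetric relation. -/
theorem cand_symm (hM : 1 ≤ b.M) {v w : Nd} (hv : b.Val act v)
    (h : (w, true) ∈ b.cand act m z v) : (v, true) ∈ b.cand act m z w := by
  have hw : b.Val act w := val_nb hM hv (mem_nb h)
  have hH : b.H = 2 * b.h + 2 := rfl
  cases v with
  | X i n k s =>
    obtain ⟨h1, h2, h3, h4⟩ := hv
    have h5 := b.two_le_len i
    simp only [cand, List.mem_cons, Prod.mk.injEq] at h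
    rcases h with ⟨rfl, h⟩ | ⟨rfl, h⟩ | ⟨rfl, h⟩ | h
    · unfold lf
      by_cases hk : k = 0
      · subst hk
        have h4' := h4 rfl
        rw [if_pos rfl]
        rw [if_pos rfl] at h
        have h6 : b.rt i (n - 1) (b.len i (n - 1)) s = .X i n 0 s := by
          unfold rt
          rw [if_neg (by omega), if_neg (by omega), Nat.sub_add_cancel h4']
        simp only [cand, List.mem_cons, h6, ← h, true_or, or_true]
      · rw [if_neg hk]
        rw [if_neg hk] at h
        by_cases hk' : k = 1 ∧ n = 0
        · obtain ⟨rfl, rfl⟩ := hk'
          rw [if_pos ⟨rfl, rfl⟩]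
          have h' : b.gu m z i 0 0 s = true := h.symm
          cases s <;> simp [cand, h']
        · rw [if_neg hk']
          have h6 : b.rt i n (k - 1) s = .X i n k s := by
            unfold rt
            rw [if_pos (by omega), Nat.sub_add_cancel (by omega)]
          simp only [cand, List.mem_cons, h6, ← h, true_or, or_true]
    · unfold rt
      by_cases hk : k < b.len i n
      · rw [if_pos hk]
        have h6 : b.lf i n (k + 1) s = .X i n k s := by
          unfold lf
          rw [if_neg (by omega), if_neg (by omega), Nat.add_sub_cancel]
        simp only [cand, List.mem_cons, h6]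
        left
        rw [if_neg (by omega), Nat.add_sub_cancel, h]
      · rw [if_neg hk]
        obtain rfl : k = b.len i n := by omega
        by_cases hn : n = 2 * b.M
        · rw [if_pos hn]
          subst hn
          have h7 : b.len i (2 * b.M) = 12 := by rw [len_even hM, if_pos (Or.inr rfl)]
          rw [h7] at h ⊢
          cases s <;> simp [cand, ← h]
        · rw [if_neg hn]
          have h6 : b.lf i (n + 1) 0 s = .X i n (b.len i n) s := by
            unfold lf
            rw [if_pos rfl, Nat.add_sub_cancel]
          simp only [cand, List.mem_cons, h6]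
          left
          rw [if_pos trivial, Nat.add_sub_cancel, h]
    · simp only [cand, List.mem_cons, Bool.not_not]
      right; right; left
      rw [h]
    · by_cases hk : k = 0
      · subst hk
        rw [if_pos rfl] at h
        have h4' := h4 rfl
        have hac : ∀ e w, (w, true) ∈ acand act e n → w = .A e (n / 2) ∧ 2 * (n / 2) + 1 = n := by
          intro e w hw
          unfold acand at hw
          split_ifs at hw with g1
          · simp only [List.mem_singleton, Prod.mk.injEq, and_true] at hw
            rw [hA_iff] at g1
            exact ⟨hw, by omega⟩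
          · simp at hw
        unfold vcand qcand at h
        rw [List.mem_append] at h
        rcases h with h | h
        · split_ifs at h with g1
          · simp only [List.mem_singleton, Prod.mk.injEq, and_true] at h
            subst h
            cases s <;> simp [cand]
          · simp at h
        · cases s with
          | true =>
            simp only [if_true] at h
            cases i with
            | zero => simp at h
            | succ i =>
              rw [if_neg (by omega), Nat.add_sub_cancel, List.mem_cons] at h
              rcases h with h | h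
              · simp only [Prod.mk.injEq] at h
                obtain ⟨rfl, h⟩ := h
                simp only [cand, List.mem_cons]
                right; right; right
                rw [if_pos trivial, List.mem_append]
                right
                unfold vcand
                rw [if_neg (by simp), if_neg (by omega), List.mem_cons]
                left
                rw [Prod.mk.injEq]
                exact ⟨rfl, h⟩
              · obtain ⟨rfl, g4⟩ := hac _ _ h
                simp [cand, g4]
          | false =>
            simp only [Bool.false_eq_true, if_false] at h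
            by_cases hi : i = 2 * b.h + 1
            · rw [if_pos hi] at h; simp at h
            · rw [if_neg hi, List.mem_cons] at h
              rcases h with h | h
              · simp only [Prod.mk.injEq] at h
                obtain ⟨rfl, h⟩ := h
                simp only [cand, List.mem_cons]
                right; right; right
                rw [if_pos trivial, List.mem_append]
                right
                unfold vcand
                rw [if_pos rfl, if_neg (by omega), Nat.add_sub_cancel, List.mem_cons]
                left
                rw [Prod.mk.injEq]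
                exact ⟨rfl, h⟩
              · obtain ⟨rfl, g4⟩ := hac _ _ h
                simp [cand, g4]
      · rw [if_neg hk] at h
        simp only [List.mem_singleton, Prod.mk.injEq, and_true] at h
        subst h
        cases s <;> simp [cand]
  | Q i n k =>
    obtain ⟨h1, h2, h3, h4⟩ := hv
    simp only [cand, List.mem_cons, Prod.mk.injEq, and_true, List.not_mem_nil, or_false] at h
    by_cases hk : k = 0
    · subst hk
      have h5 := (h4 rfl).2
      rcases h with rfl | rfl <;> simp [cand, qcand, h5]
    · rcases h with rfl | rfl <;> simp [cand, hk]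
  | S i r =>
    have h1 : i < b.H := hv
    cases r with
    | false =>
      simp only [cand, List.mem_cons, Prod.mk.injEq, and_true, List.not_mem_nil, or_false] at h
      rcases h with rfl | ⟨rfl, h⟩ | ⟨rfl, h⟩
      · simp [cand]
      · simp [cand, lf, ← h]
      · simp [cand, lf, ← h]
    | true =>
      have h2 : b.len i (2 * b.M) = 12 := by rw [len_even hM, if_pos (Or.inr rfl)]
      simp only [cand, List.mem_cons, Prod.mk.injEq, and_true, List.not_mem_nil, or_false] at h
      rcases h with rfl | ⟨rfl, h⟩ | ⟨rfl, h⟩
      · simp [cand]
      · simp [cand, rt, ← h, h2]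
      · simp [cand, rt, ← h, h2]
  | C i r =>
    have h1 : i < b.H := hv
    simp only [cand, List.mem_cons, Prod.mk.injEq, and_true, List.not_mem_nil, or_false] at h
    rcases h with rfl | rfl
    · cases r <;> simp [cand]
    · rcases Nat.mod_two_eq_zero_or_one i with h3 | h3
      · simp [cand, h3]
      · have h4 : i - 1 + 1 = i := by omega
        simp [cand, h3, h4]
  | T i r =>
    obtain ⟨h1, h2⟩ := hv
    simp only [cand, List.mem_cons, Prod.mk.injEq, and_true, List.not_mem_nil, or_false] at h
    rcases h with rfl | rfl
    · simp [cand, h2]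
    · have h3 : (i + 1) % 2 = 1 := by omega
      simp [cand, h3]
  | A e c =>
    obtain ⟨h0, h1, h2⟩ := hv
    have h5 : (2 * c + 1) / 2 = c := by omega
    have h6 : (2 * c + 1) % 2 = 1 := by omega
    have h7 : ¬ e = 2 * b.h + 1 := by omega
    simp only [cand, List.mem_cons, Prod.mk.injEq, and_true, List.not_mem_nil, or_false] at h
    rcases h with rfl | rfl
    · simp [cand, vcand, acand, hA, h2, h5, h6, h7]
    · simp [cand, vcand, acand, hA, h2, h5, h6]

theorem nodup_nb {v : Nd} (hv : b.Val act v) : (b.nb act v).Nodup := by
  cases v with
  | X i n k s =>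
    rcases Nat.eq_zero_or_pos k with rfl | hk
    · exact nodup_wire _ _ _ (hv.2.2.2 rfl)
    · exact nodup_rung _ _ _ _ hk
  | Q i n k => simp [nb]
  | S i r => cases r <;> simp [nb]
  | C i r => simp [nb]
  | T i r => simp [nb]
  | A c => simp [nb]

/-- a configuration satisfies the local laws -/
structure Legal (b : Board) (act : ℕ → ℕ → Bool) (m : ℕ → Bool) (z : ℕ → ℕ → Bool) : Prop where
  bot : ∀ c, z (2 * b.h + 1) c = false
  law : ∀ i < b.H, ∀ c < b.M, up z i c = z i c ∨ (b.lit i c = true ∧ z i c = b.lm m i c)
  act : ∀ e ≤ 2 * b.h, ∀ c < b.M, act e c = true → z e c = true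
  blk : ∀ i < b.H, ∀ c < b.M, b.blk i c = true → up z i c = false ∧ z i c = false

theorem gl1 (hM : 1 ≤ b.M) (i : ℕ) {c : ℕ} (hc : c < b.M) (s : Bool) :
    b.gu m z i (2 * c) (b.len i (2 * c)) s = xor (b.lm m i c) (!s) := by
  unfold gu tr base
  rw [len_even hM]
  have h1 : (2 * c) % 2 = 0 := by omega
  have h2 : (2 * c) / 2 = c := by omega
  simp only [h1, h2]
  rcases Nat.eq_zero_or_pos c with rfl | hc0
  · simp
  · rw [if_neg (by omega : ¬ (c = 0 ∨ c = b.M)), if_neg (by omega : ¬ 2 * c = 0)]
    simp

theorem gr1 (i c : ℕ) (s : Bool) : b.gu m z i (2 * c + 1) 0 s =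
    if xor (up z i c) (z i c) then true else xor (!(b.lm m i c)) (!s) := by
  unfold gu tr base
  have h1 : (2 * c + 1) % 2 = 1 := by omega
  have h2 : (2 * c + 1) / 2 = c := by omega
  simp only [h1, h2]
  rw [if_neg (by omega : ¬ 2 * c + 1 = 0)]
  simp

theorem lm_succ (i c : ℕ) : b.lm m i (c + 1) = xor (b.lm m i c) (b.lit i c) := by
  unfold lm
  rw [par]
  generalize m i = x
  generalize b.par i c = y
  generalize b.lit i c = w
  revert x y w; decide

theorem gl2 (hL : Legal b act m z) {i : ℕ} (hi : i < b.H) {c : ℕ} (hc : c < b.M) (s : Bool) :
    b.gu m z i (2 * c + 1) (b.len i (2 * c + 1)) s =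
    if xor (up z i c) (z i c) then true else xor (b.lm m i (c + 1)) (!s) := by
  unfold gu tr base
  have h1 : (2 * c + 1) % 2 = 1 := by omega
  have h2 : (2 * c + 1) / 2 = c := by omega
  rw [len_odd hc, lm_succ]
  simp only [h1, h2]
  rw [if_neg (by omega : ¬ 2 * c + 1 = 0)]
  cases hl : b.lit i c with
  | true => simp
  | false =>
    rcases hL.law i hi c hc with h | h
    · rw [h]; simp
    · rw [hl] at h; simp at h

theorem gr2 (i c : ℕ) (s : Bool) : b.gu m z i (2 * c + 2) 0 s =
    xor (!(b.lm m i (c + 1))) (!s) := by
  unfold gu tr base
  have h1 : (2 * c + 2) % 2 = 0 := by omega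
  have h2 : (2 * c + 2) / 2 = c + 1 := by omega
  simp only [h1, h2]
  rw [if_neg (by omega : ¬ 2 * c + 2 = 0)]
  simp

theorem vcount (hL : Legal b act m z) {i n c : ℕ} (hi : i < b.H) (hc : c < b.M)
    (hn : n = 2 * c + 1 ∨ n = 2 * c + 2) (s : Bool) :
    (b.vcand act z i n s).countP (fun p => p.2) = (if s then up z i c else z i c).toNat := by
  have h1 : (n - 1) / 2 = c := by omega
  have hH : b.H = 2 * b.h + 2 := rfl
  have key : ∀ e ≤ 2 * b.h, ∀ w : Nd, ((w, z e c && !(hA act e n)) :: acand act e n).countP
      (fun p => p.2) = (z e c).toNat := by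
    intro e he w
    unfold acand
    by_cases hA' : hA act e n = true
    · have g := hA_iff.1 hA'
      rw [show n / 2 = c by omega] at g
      have g5 := hL.act e he c hc g.2
      rw [if_pos hA', hA', g5]
      simp
    · rw [if_neg hA']
      rw [Bool.not_eq_true] at hA'
      rw [hA']
      cases z e c <;> simp
  unfold vcand
  rw [h1]
  cases s with
  | true =>
    simp only [if_true]
    cases i with
    | zero => simp [up]
    | succ i =>
      rw [if_neg (by omega), Nat.add_sub_cancel]
      exact key i (by omega) _
  | false =>
    simp only [Bool.false_eq_true, if_false]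
    by_cases h2 : i = 2 * b.h + 1
    · rw [if_pos h2, h2, hL.bot]; simp
    · rw [if_neg h2]
      exact key i (by omega) _

/-- every node has two used neighbours -/
theorem count_cand (hM : 1 ≤ b.M) (hL : Legal b act m z) {v : Nd} (hv : b.Val act v) :
    (b.cand act m z v).countP (fun p => p.2) = 2 := by
  cases v with
  | X i n k s =>
    obtain ⟨h1, h2, h3, h4⟩ := hv
    by_cases hk : k = 0
    · subst hk
      obtain ⟨c, hc, hn⟩ : ∃ c < b.M, n = 2 * c + 1 ∨ n = 2 * c + 2 := by
        have := h4 rfl
        exact ⟨(n - 1) / 2, by omega, by omega⟩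
      have hc1 : (n - 1) / 2 = c := by omega
      simp only [cand, if_true, List.countP_cons, List.countP_append, vcount hL h1 hc hn, hc1]
      have hlaw := hL.law i h1 c hc
      have hbl := hL.blk i h1 c hc
      have hq : (b.qcand i n).countP (fun p => p.2) = (b.blk i c).toNat := by
        unfold qcand
        rw [hc1]
        cases b.blk i c <;> simp
      rw [hq]
      rcases hn with rfl | rfl
      · rw [Nat.add_sub_cancel, gl1 hM i hc, gr1]
        simp only [decide_true, Bool.true_and]
        generalize up z i c = u at *
        generalize z i c = d at *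
        generalize b.lm m i c = l at *
        generalize b.lit i c = t at *
        generalize b.blk i c = x at *
        cases s <;> cases u <;> cases d <;> cases l <;> cases t <;> cases x <;>
          simp at hlaw hbl ⊢
      · rw [show 2 * c + 2 - 1 = 2 * c + 1 by omega, gl2 hL h1 hc, gr2, lm_succ]
        simp only [decide_true, Bool.true_and]
        generalize up z i c = u at *
        generalize z i c = d at *
        generalize b.lm m i c = l at *
        generalize b.lit i c = t at *
        generalize b.blk i c = x at *
        cases s <;> cases u <;> cases d <;> cases l <;> cases t <;> cases x <;>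
          simp at hlaw hbl ⊢
    · simp only [cand, if_neg hk, List.countP_cons, List.countP_nil]
      have h5 : b.gu m z i n (k - 1) s = !(b.gu m z i n k s) := by
        unfold gu
        rcases Nat.mod_two_eq_zero_or_one k with h6 | h6
        · have h7 : (k - 1) % 2 = 1 := by omega
          rw [h6, h7]
          split_ifs <;> simp
        · have h7 : (k - 1) % 2 = 0 := by omega
          rw [h6, h7]
          split_ifs <;> simp
      rw [h5, decide_eq_false hk]
      cases b.gu m z i n k s <;> simp
  | Q i n k => rfl
  | S i r =>
    cases r with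
    | false =>
      simp only [cand, List.countP_cons, List.countP_nil, gu, tr]
      simp only [Nat.zero_mod, Nat.zero_div]
      cases b.base m i 0 <;> simp
    | true =>
      have h3 : 2 * b.M % 2 = 0 := by omega
      simp only [cand, List.countP_cons, List.countP_nil, gu, tr, h3]
      cases b.base m i (2 * b.M) <;> simp
  | C i r => rfl
  | T i r => rfl
  | A c => rfl

theorem not_mem_nb {v : Nd} (hv : b.Val act v) : v ∉ b.nb act v := by
  cases v with
  | X i n k s =>
    obtain ⟨h1, h2, h3, h4⟩ := hv
    rcases Nat.eq_zero_or_pos k with rfl | hk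
    · have h5 := h4 rfl
      have h6 : 0 < b.len i n := by have := b.two_le_len i n; omega
      rw [nb_wire]
      unfold lf rt vert qN aN
      rw [if_pos rfl, if_pos h6]
      simp only [List.mem_cons, List.mem_append, not_or]
      refine ⟨by simp; omega, by simp, by cases s <;> simp, ?_, ?_⟩
      · split_ifs <;> simp
      · split_ifs <;> simp <;> omega
    · rw [nb_rung _ _ _ _ hk]
      unfold lf rt
      rw [if_neg (by omega)]
      simp only [List.mem_cons, List.not_mem_nil, or_false, not_or]
      refine ⟨?_, ?_, by cases s <;> simp, by simp⟩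
      · split_ifs
        · simp
        · simp; omega
      · split_ifs <;> simp
  | Q i n k => simp [nb]
  | S i r => cases r <;> simp [nb]
  | C i r => simp [nb]
  | T i r => simp [nb]
  | A c => simp [nb]

/-- The graph of a configuration. -/
def Gr (b : Board) (hM : 1 ≤ b.M) (act : ℕ → ℕ → Bool) (m : ℕ → Bool) (z : ℕ → ℕ → Bool) :
    SimpleGraph Nd where
  Adj v w := b.Val act v ∧ b.Val act w ∧ (w, true) ∈ b.cand act m z v
  symm := ⟨fun _ _ h => ⟨h.2.1, h.1, cand_symm hM h.1 h.2.2⟩⟩
  loopless := ⟨fun _ h => not_mem_nb h.1 (mem_nb h.2.2)⟩

end Board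

end Pool.Agent.T9h21.TB
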