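import Pool.Agent.T9h21.TB.Geo

/-!
# The contacts of the circles of a board
-/

set_option autoImplicit false

namespace Pool.Agent.T9h21.TB

namespace Board

variable (b : Board)

/-- the node to the right -/
def rt (i n k : ℕ) (s : Bool) : Nd :=
  if k < b.len i n then .X i n (k + 1) s else if n = 2 * b.M then .S i true else .X i (n + 1) 0 s

/-- the node to the left -/
def lf (i n k : ℕ) (s : Bool) : Nd :=
  if k = 0 then .X i (n - 1) (b.len i (n - 1)) s else
    if k = 1 ∧ n = 0 then .S i false else .X i n (k - 1) s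

/-- the activation point below row `e` at wire `n` -/
def aN (act : ℕ → ℕ → Bool) (e n : ℕ) : List Nd :=
  if n % 2 = 1 ∧ act e (n / 2) = true then [.A e (n / 2)] else []

/-- the vertical neighbours of a wire -/
def vert (act : ℕ → ℕ → Bool) (i n : ℕ) (s : Bool) : List Nd :=
  if s then (if i = 0 then [] else .X (i - 1) n 0 false :: aN act (i - 1) n) else
    (if i = 2 * b.h + 1 then [] else .X (i + 1) n 0 true :: aN act i n)

/-- The nodes whose circles touch the circle of a node. -/
def nb (act : ℕ → ℕ → Bool) : Nd → List Nd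
  | .X i n k s => b.lf i n k s :: b.rt i n k s :: .X i n k (!s) ::
      (if k = 0 then (if b.blk i ((n - 1) / 2) = true then [.Q i n 0] else []) ++ b.vert act i n s
      else [.Q i n k])
  | .Q i n k => [.X i n k true, .X i n k false]
  | .S i false => [.C i false, .X i 0 1 true, .X i 0 1 false]
  | .S i true => [.C i true, .X i (2 * b.M) 12 true, .X i (2 * b.M) 12 false]
  | .C i r => [.S i r, .T (i - i % 2) r]
  | .T i r => [.C i r, .C (i + 1) r]
  | .A e c => [.X e (2 * c + 1) 0 false, .X (e + 1) (2 * c + 1) 0 true]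

/-- The nodes are apart, or touch and are listed. -/
def Cls (act : ℕ → ℕ → Bool) (v w : Nd) : Prop :=
  b.Sep v w ∧ (b.Tight v w → w ∈ b.nb act v ∧ v ∈ b.nb act w)

variable {b}

theorem Cls.symm {act : ℕ → ℕ → Bool} {v w : Nd} (h : b.Cls act v w) : b.Cls act w v :=
  ⟨h.1.symm, fun h1 => (h.2 h1.symm).symm⟩

theorem sq_far {R d : ℤ} (h0 : 0 ≤ R) (h : R < d ∨ R < -d) : R ^ 2 < d ^ 2 := by
  rcases h with h | h <;> nlinarith

theorem far {act : ℕ → ℕ → Bool} {v w : Nd} (h0 : 0 ≤ b.rad v + b.rad w)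
    (h : b.rad v + b.rad w < b.px v - b.px w ∨ b.rad v + b.rad w < b.px w - b.px v ∨
      b.rad v + b.rad w < b.py v - b.py w ∨ b.rad v + b.rad w < b.py w - b.py v) :
    b.Cls act v w := by
  have h1 : (b.rad v + b.rad w) ^ 2 < b.d2 v w := by
    unfold d2
    rcases h with h | h | h | h
    · nlinarith [sq_nonneg (b.py v - b.py w)]
    · nlinarith [sq_nonneg (b.py v - b.py w)]
    · nlinarith [sq_nonneg (b.px v - b.px w)]
    · nlinarith [sq_nonneg (b.px v - b.px w)]
  exact ⟨h1.le, fun h2 => absurd h1 (not_lt.2 h2)⟩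

theorem ty_F {i n : ℕ} (h : b.ty i n = .F) : n = 0 := by
  unfold ty at h
  by_contra h1
  rw [if_neg h1] at h
  split_ifs at h

theorem ty_F' (i : ℕ) : b.ty i 0 = .F := by simp [ty]

theorem ty_E {i n : ℕ} (h : b.ty i n = .E) : n = 2 * b.M := by
  unfold ty at h
  by_contra h1
  rw [if_neg h1] at h
  split_ifs at h

theorem ty_E' (hM : 1 ≤ b.M) (i : ℕ) : b.ty i (2 * b.M) = .E := by
  unfold ty
  rw [if_neg (by omega), if_pos rfl]

theorem len_le (i n : ℕ) : b.len i n ≤ 12 := (ft_len _).2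

theorem two_le_len (i n : ℕ) : 2 ≤ b.len i n := (ft_len _).1

theorem st_data {i n k : ℕ} (h2 : k ≤ b.len i n) :
    ∃ o a : ℤ, b.xx i n k = 32 * n + o ∧ b.sz i n k = a ∧ 0 ≤ o ∧ o ≤ 30 ∧
      (a = 1 ∨ a = 2 ∨ a = 3) ∧ (0 < k → 2 ≤ o ∧ a ≤ 2) ∧ (k = 0 → o = 0 ∧ a = 3) := by
  have h4 : k < 13 := by have := b.len_le i n; omega
  have h5 := ft_range (b.ty i n) ⟨k, h4⟩ h2
  simp only at h5
  refine ⟨(b.ty i n).off k, (b.ty i n).sz k, rfl, rfl, h5.1, h5.2.1, ?_, h5.2.2.2.2, ?_⟩
  · have := h5.2.2; omega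
  · rintro rfl; exact ft_zero _

theorem xx_same {i n k k' : ℕ} (hk : k < k') (hk' : k' ≤ b.len i n) (h0 : k = 0 → 1 ≤ n) :
    2 * b.sz i n k * b.sz i n k' ≤ b.xx i n k' - b.xx i n k ∧
    (b.xx i n k' - b.xx i n k ≤ 2 * b.sz i n k * b.sz i n k' → k' = k + 1) := by
  have h4 : k' < 13 := by have := b.len_le i n; omega
  have h5 := ft_same (b.ty i n) ⟨k, by omega⟩ ⟨k', h4⟩ hk hk' (fun h h6 => by
    have := ty_F h6
    have := h0 h
    omega)
  have h6 : b.xx i n k' - b.xx i n k = (b.ty i n).off k' - (b.ty i n).off k := by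
    unfold xx; ring
  rw [h6]
  exact h5

theorem xx_next {i n n' k k' : ℕ} (hn : n < n') (hn' : n' ≤ 2 * b.M) (hk : k ≤ b.len i n)
    (hk' : k' ≤ b.len i n') (h0 : k = 0 → 1 ≤ n) :
    2 * b.sz i n k * b.sz i n' k' ≤ b.xx i n' k' - b.xx i n k ∧
    (b.xx i n' k' - b.xx i n k ≤ 2 * b.sz i n k * b.sz i n' k' →
      n' = n + 1 ∧ k = b.len i n ∧ k' = 0) := by
  rcases Nat.lt_or_ge (n + 1) n' with h1 | h1
  · obtain ⟨o, a, h2, h3, h4, h5, h6, -⟩ := st_data hk
    obtain ⟨o', a', h2', h3', h4', h5', h6', -⟩ := st_data hk'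
    have h7 : 2 * a * a' ≤ 18 := by
      rcases h6 with rfl | rfl | rfl <;> rcases h6' with rfl | rfl | rfl <;> norm_num
    rw [h2, h3, h2', h3']
    constructor
    · have : (n : ℤ) + 2 ≤ n' := by exact_mod_cast h1
      linarith
    · intro h8
      have : (n : ℤ) + 2 ≤ n' := by exact_mod_cast h1
      linarith
  · obtain rfl : n' = n + 1 := by omega
    have h4 : k < 13 := by have := b.len_le i n; omega
    have h4' : k' < 13 := by have := b.len_le i (n + 1); omega
    have h5 := ft_next (b.ty i n) (b.ty i (n + 1)) ⟨k, h4⟩ ⟨k', h4'⟩ hk hk'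
      (fun h => by have := ty_E h; omega) (fun h => by have := ty_F h; omega)
      (fun h h6 => by
        have := ty_F h6
        have := h0 h
        omega)
    have h6 : b.xx i (n + 1) k' - b.xx i n k =
        32 + (b.ty i (n + 1)).off k' - (b.ty i n).off k := by
      unfold xx; push_cast; ring
    rw [h6]
    exact ⟨h5.1, fun h => ⟨rfl, h5.2 h⟩⟩

theorem sz_pos (i n k : ℕ) (hk : k ≤ b.len i n) : 1 ≤ b.sz i n k := by
  obtain ⟨o, a, -, h3, -, -, h6, -⟩ := st_data hk
  rw [h3]
  rcases h6 with rfl | rfl | rfl <;> norm_num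

/-- stations are ordered along a row -/
theorem xx_lt {i n n' k k' : ℕ} (h : n < n' ∨ n = n' ∧ k < k') (hn' : n' ≤ 2 * b.M)
    (hk : k ≤ b.len i n) (hk' : k' ≤ b.len i n') (h0 : k = 0 → 1 ≤ n) :
    0 < b.xx i n' k' - b.xx i n k ∧
    2 * b.sz i n k * b.sz i n' k' ≤ b.xx i n' k' - b.xx i n k ∧
    (b.xx i n' k' - b.xx i n k ≤ 2 * b.sz i n k * b.sz i n' k' →
      ∀ s, .X i n' k' s = b.rt i n k s ∧ .X i n k s = b.lf i n' k' s) := by
  have h1 : 0 < 2 * b.sz i n k * b.sz i n' k' := by
    have h2 := b.sz_pos i n k hk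
    have h3 := b.sz_pos i n' k' hk'
    positivity
  rcases h with h | ⟨rfl, h⟩
  · obtain ⟨h2, h3⟩ := b.xx_next h hn' hk hk' h0
    refine ⟨by linarith, h2, fun h4 s => ?_⟩
    obtain ⟨rfl, rfl, rfl⟩ := h3 h4
    unfold rt lf
    rw [if_neg (by omega), if_neg (by omega), if_pos rfl]
    exact ⟨rfl, rfl⟩
  · obtain ⟨h2, h3⟩ := b.xx_same h hk' h0
    refine ⟨by linarith, h2, fun h4 s => ?_⟩
    obtain rfl := h3 h4
    unfold rt lf
    rw [if_pos (by omega), if_neg (by omega), if_neg (by
      rintro ⟨h5, h6⟩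
      have := h0 (by omega)
      omega)]
    exact ⟨rfl, rfl⟩

variable {act : ℕ → ℕ → Bool}

theorem mem_lf {i n k : ℕ} {s : Bool} : b.lf i n k s ∈ b.nb act (.X i n k s) := by simp [nb]

theorem mem_rt {i n k : ℕ} {s : Bool} : b.rt i n k s ∈ b.nb act (.X i n k s) := by simp [nb]

theorem mem_op {i n k : ℕ} {s : Bool} : .X i n k (!s) ∈ b.nb act (.X i n k s) := by simp [nb]

theorem sg_cases (s : Bool) : (s = true ∧ sg s = 1) ∨ (s = false ∧ sg s = -1) := by
  cases s <;> simp [sg]

/-- two circles on the same side of a row -/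
theorem cls_side {i n n' k k' : ℕ} {s : Bool} (h : n < n' ∨ n = n' ∧ k < k')
    (hn' : n' ≤ 2 * b.M) (hk : k ≤ b.len i n) (hk' : k' ≤ b.len i n') (h0 : k = 0 → 1 ≤ n) :
    b.Cls act (.X i n k s) (.X i n' k' s) := by
  obtain ⟨h1, h2, h3⟩ := b.xx_lt h hn' hk hk' h0
  have h4 : b.d2 (.X i n k s) (.X i n' k' s) = (b.xx i n' k' - b.xx i n k) ^ 2 +
      (b.sz i n k ^ 2 - b.sz i n' k' ^ 2) ^ 2 := by
    simp only [d2, px, py]
    rcases sg_cases s with ⟨-, h5⟩ | ⟨-, h5⟩ <;> rw [h5] <;> ring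
  have h5 : (b.rad (.X i n k s) + b.rad (.X i n' k' s)) ^ 2 = (2 * b.sz i n k * b.sz i n' k') ^ 2
      + (b.sz i n k ^ 2 - b.sz i n' k' ^ 2) ^ 2 := by
    simp only [rad]; ring
  have h6 : 0 < 2 * b.sz i n k * b.sz i n' k' := by
    have h2 := b.sz_pos i n k hk
    have h3 := b.sz_pos i n' k' hk'
    positivity
  unfold Cls Sep Tight
  rw [h4, h5]
  constructor
  · have := pow_le_pow_left₀ h6.le h2 2
    linarith
  · intro h7
    have h8 : (b.xx i n' k' - b.xx i n k) ^ 2 ≤ (2 * b.sz i n k * b.sz i n' k') ^ 2 := by linarith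
    obtain ⟨h9, h10⟩ := h3 (abs_le_of_sq_le_sq' h8 h6.le).2 s
    rw [h9]
    refine ⟨mem_rt, ?_⟩
    rw [← h9, h10]
    exact mem_lf

/-- two circles on different sides of a row -/
theorem cls_opp {i n n' k k' : ℕ} {s s' : Bool} (hs : s' = !s) (hn : n ≤ 2 * b.M)
    (hn' : n' ≤ 2 * b.M) (hk : k ≤ b.len i n) (hk' : k' ≤ b.len i n') (h0 : k = 0 → 1 ≤ n)
    (h0' : k' = 0 → 1 ≤ n') : b.Cls act (.X i n k s) (.X i n' k' s') := by
  have h4 : b.d2 (.X i n k s) (.X i n' k' s') = (b.xx i n' k' - b.xx i n k) ^ 2 +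
      (b.sz i n k ^ 2 + b.sz i n' k' ^ 2) ^ 2 := by
    subst hs
    simp only [d2, px, py]
    cases s <;> simp [sg] <;> ring
  have h5 : (b.rad (.X i n k s) + b.rad (.X i n' k' s')) ^ 2 =
      (b.sz i n k ^ 2 + b.sz i n' k' ^ 2) ^ 2 := by
    simp only [rad]
  unfold Cls Sep Tight
  rw [h4, h5]
  constructor
  · nlinarith [sq_nonneg (b.xx i n' k' - b.xx i n k)]
  · intro h7
    have h8 : b.xx i n' k' - b.xx i n k = 0 := by
      have : (b.xx i n' k' - b.xx i n k) ^ 2 = 0 :=
        le_antisymm (by linarith) (sq_nonneg _)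
      exact pow_eq_zero_iff (two_ne_zero) |>.1 this
    have h9 : n = n' ∧ k = k' := by
      by_contra h10
      rcases Nat.lt_trichotomy n n' with h11 | h11 | h11
      · have := (b.xx_lt (Or.inl h11) hn' hk hk' h0).1; omega
      · subst h11
        rcases Nat.lt_trichotomy k k' with h11 | h11 | h11
        · have := (b.xx_lt (Or.inr ⟨rfl, h11⟩) hn' hk hk' h0).1; omega
        · exact h10 ⟨rfl, h11⟩
        · have := (b.xx_lt (Or.inr ⟨rfl, h11⟩) hn hk' hk h0').1; omega
      · have := (b.xx_lt (Or.inl h11) hn hk' hk h0').1; omega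
    obtain ⟨rfl, rfl⟩ := h9
    subst hs
    refine ⟨mem_op, ?_⟩
    have := mem_op (b := b) (act := act) (i := i) (n := n) (k := k) (s := !s)
    rwa [Bool.not_not] at this

/-- two circles of different rows -/
theorem cls_rows {i i' n n' k k' : ℕ} {s s' : Bool} (hi : i < i') (hi' : i' < b.H) (hk : k ≤ b.len i n) (hk' : k' ≤ b.len i' n')
    : b.Cls act (.X i n k s) (.X i' n' k' s') := by
  obtain ⟨o, a, h2, h3, h4, h5, h6, h7, h8⟩ := st_data hk
  obtain ⟨o', a', h2', h3', h4', h5', h6', h7', h8'⟩ := st_data hk'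
  by_cases h9 : i' = i + 1 ∧ s = false ∧ s' = true ∧ a = 3 ∧ a' = 3
  · obtain ⟨rfl, rfl, rfl, rfl, rfl⟩ := h9
    have hk0 : k = 0 := by by_contra h; have := h7 (by omega); omega
    have hk0' : k' = 0 := by by_contra h; have := h7' (by omega); omega
    subst hk0; subst hk0'
    obtain ⟨rfl, -⟩ := h8 rfl
    obtain ⟨rfl, -⟩ := h8' rfl
    have h10 : b.d2 (.X i n 0 false) (.X (i + 1) n' 0 true) = (32 * (n : ℤ) - 32 * n') ^ 2 +
        18 ^ 2 := by
      simp only [d2, px, py, h2, h3, h2', h3']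
      simp [sg]
      ring
    have h11 : (b.rad (.X i n 0 false) + b.rad (.X (i + 1) n' 0 true)) ^ 2 = 18 ^ 2 := by
      simp only [rad, h3, h3']; norm_num
    unfold Cls Sep Tight
    rw [h10, h11]
    constructor
    · nlinarith [sq_nonneg (32 * (n : ℤ) - 32 * n')]
    · intro h7
      have h8 : 32 * (n : ℤ) - 32 * n' = 0 := by
        have : (32 * (n : ℤ) - 32 * n') ^ 2 = 0 :=
          le_antisymm (by linarith) (sq_nonneg _)
        exact pow_eq_zero_iff (two_ne_zero) |>.1 this
      obtain rfl : n = n' := by omega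
      unfold H at hi'
      have h12 : ¬ i = 2 * b.h + 1 := by omega
      simp [nb, vert, h12]
  · have h10 : (36 : ℤ) * i + 36 ≤ 36 * i' := by
      have : (i : ℤ) + 1 ≤ i' := by exact_mod_cast hi
      linarith
    apply far
    · simp only [rad, h3, h3']; positivity
    · right; right; left
      simp only [rad, py, h3, h3']
      rcases Nat.lt_or_ge (i + 1) i' with h11 | h11
      · have h10 : (i : ℤ) + 2 ≤ i' := by exact_mod_cast h11
        rcases sg_cases s with ⟨-, h12⟩ | ⟨-, h12⟩ <;> rcases sg_cases s' with ⟨-, h13⟩ | ⟨-, h13⟩ <;>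
        rw [h12, h13] <;> rcases h6 with rfl | rfl | rfl <;> rcases h6' with rfl | rfl | rfl <;>
        norm_num <;> omega
      · obtain rfl : i' = i + 1 := by omega
        push_cast
        rcases sg_cases s with ⟨h14, h12⟩ | ⟨h14, h12⟩ <;>
        rcases sg_cases s' with ⟨h15, h13⟩ | ⟨h15, h13⟩ <;>
        rw [h12, h13] <;> rcases h6 with rfl | rfl | rfl <;> rcases h6' with rfl | rfl | rfl <;>
        first
        | (exfalso; exact h9 ⟨rfl, h14, h15, rfl, rfl⟩)
        | (ring_nf; norm_num)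

theorem eq_of_xx {i n n' k k' : ℕ} (hn : n ≤ 2 * b.M) (hn' : n' ≤ 2 * b.M)
    (hk : k ≤ b.len i n) (hk' : k' ≤ b.len i n') (h0 : k = 0 → 1 ≤ n)
    (h0' : k' = 0 → 1 ≤ n') (h : b.xx i n k = b.xx i n' k') : n = n' ∧ k = k' := by
  by_contra h10
  rcases Nat.lt_trichotomy n n' with h11 | h11 | h11
  · have := (b.xx_lt (Or.inl h11) hn' hk hk' h0).1; omega
  · subst h11
    rcases Nat.lt_trichotomy k k' with h11 | h11 | h11
    · have := (b.xx_lt (Or.inr ⟨rfl, h11⟩) hn' hk hk' h0).1; omega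
    · exact h10 ⟨rfl, h11⟩
    · have := (b.xx_lt (Or.inr ⟨rfl, h11⟩) hn hk' hk h0').1; omega
  · have := (b.xx_lt (Or.inl h11) hn hk' hk h0').1; omega

theorem cls_XX {i i' n n' k k' : ℕ} {s s' : Bool} (hv : b.Val act (.X i n k s))
    (hw : b.Val act (.X i' n' k' s')) (hne : Nd.X i n k s ≠ .X i' n' k' s') :
    b.Cls act (.X i n k s) (.X i' n' k' s') := by
  obtain ⟨h1, h2, h3, h4⟩ := hv
  obtain ⟨h1', h2', h3', h4'⟩ := hw
  rcases Nat.lt_trichotomy i i' with h5 | rfl | h5
  · exact cls_rows h5 h1' h3 h3'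
  · by_cases h6 : s = s'
    · subst h6
      rcases Nat.lt_trichotomy n n' with h7 | rfl | h7
      · exact cls_side (Or.inl h7) h2' h3 h3' h4
      · rcases Nat.lt_trichotomy k k' with h7 | rfl | h7
        · exact cls_side (Or.inr ⟨rfl, h7⟩) h2' h3 h3' h4
        · exact absurd rfl hne
        · exact (cls_side (Or.inr ⟨rfl, h7⟩) h2 h3' h3 h4').symm
      · exact (cls_side (Or.inl h7) h2 h3' h3 h4').symm
    · exact cls_opp (by cases s <;> cases s' <;> simp_all) h2 h2' h3 h3' h4 h4'
  · exact (cls_rows h5 h1 h3' h3).symm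

theorem row_far {i i' : ℕ} (h : i ≠ i') : (36 : ℤ) ≤ 36 * i - 36 * i' ∨ (36 : ℤ) ≤ 36 * i' - 36 * i := by
  omega

theorem cls_XQ {i i' n n' k k' : ℕ} {s : Bool} (hv : b.Val act (.X i n k s))
    (hw : b.Val act (.Q i' n' k')) : b.Cls act (.X i n k s) (.Q i' n' k') := by
  obtain ⟨h1, h2, h3, h4⟩ := hv
  obtain ⟨h1', h2', h3', h4'⟩ := hw
  obtain ⟨o, a, g2, g3, g4, g5, g6, g7, g8⟩ := st_data h3
  by_cases h5 : i = i'
  · subst h5
    unfold Cls Sep Tight
    have h6 : b.d2 (.X i n k s) (.Q i n' k') = (b.xx i n k - b.xx i n' k') ^ 2 +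
        (b.sz i n k ^ 2) ^ 2 := by
      simp only [d2, px, py]
      rcases sg_cases s with ⟨-, h5⟩ | ⟨-, h5⟩ <;> rw [h5] <;> ring
    have h7 : (b.rad (.X i n k s) + b.rad (.Q i n' k')) ^ 2 = (b.sz i n k ^ 2) ^ 2 := by
      simp only [rad]; ring
    rw [h6, h7]
    constructor
    · nlinarith [sq_nonneg (b.xx i n k - b.xx i n' k')]
    · intro h7
      have h8 : b.xx i n k - b.xx i n' k' = 0 := by
        have : (b.xx i n k - b.xx i n' k') ^ 2 = 0 :=
          le_antisymm (by linarith) (sq_nonneg _)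
        exact pow_eq_zero_iff (two_ne_zero) |>.1 this
      obtain ⟨rfl, rfl⟩ := eq_of_xx h2 h2' h3 h3' h4 (fun h => (h4' h).1) (by linarith)
      by_cases h9 : k = 0
      · subst h9
        cases s <;> simp [nb, (h4' rfl).2]
      · cases s <;> simp [nb, h9]
  · apply far
    · simp only [rad]; positivity
    · simp only [rad, px, py, g3]
      have h10 := row_far h5
      rcases sg_cases s with ⟨-, h5⟩ | ⟨-, h5⟩ <;> rw [h5] <;> rcases g6 with rfl | rfl | rfl <;>
        norm_num <;> omega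

theorem cls_XS {i i' n k : ℕ} {s r : Bool} (hM : 1 ≤ b.M) (hv : b.Val act (.X i n k s)) :
    b.Cls act (.X i n k s) (.S i' r) := by
  obtain ⟨h1, h2, h3, h4⟩ := hv
  obtain ⟨o, a, g2, g3, g4, g5, g6, g7, g8⟩ := st_data h3
  have h20 : (n : ℤ) ≤ 2 * b.M := by exact_mod_cast h2
  by_cases h5 : i = i'
  · subst h5
    have key : ∀ D : ℤ, (b.px (.S i r) - b.xx i n k) ^ 2 = D ^ 2 →
        ((a = 2 ∧ D = 3 ∧ (Nd.S i r ∈ b.nb act (.X i n k s)) ∧
          (Nd.X i n k s ∈ b.nb act (.S i r))) ∨ 2 * a ^ 2 + 1 < D ^ 2) →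
        b.Cls act (.X i n k s) (.S i r) := by
      intro D h6 h7
      have h8 : b.d2 (.X i n k s) (.S i r) = D ^ 2 + (a ^ 2) ^ 2 := by
        rw [← h6]
        simp only [d2, px, py, g3]
        rcases sg_cases s with ⟨-, h5⟩ | ⟨-, h5⟩ <;> rw [h5] <;> ring
      have h9 : (b.rad (.X i n k s) + b.rad (.S i r)) ^ 2 = (a ^ 2) ^ 2 + (2 * a ^ 2 + 1) := by
        simp only [rad, g3]; ring
      unfold Cls Sep Tight
      rw [h8, h9]
      rcases h7 with ⟨rfl, rfl, h7, h10⟩ | h7
      · exact ⟨by norm_num, fun _ => ⟨h7, h10⟩⟩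
      · exact ⟨by linarith, fun h => by linarith⟩
    cases r with
    | false =>
      apply key (b.xx i n k + 1)
      · simp only [px]; norm_num; ring
      · rcases Nat.eq_zero_or_pos n with rfl | hn
        · have h6 : 1 ≤ k := by by_contra h; have := h4 (by omega); omega
          have h7 : b.len i 0 = 12 := by unfold len; rw [ty_F']; rfl
          rcases ft_F ⟨k, by omega⟩ h6 with ⟨h8, h9, h10⟩ | ⟨h8, h9⟩
          · left
            simp only at h8 h9 h10
            subst h8
            have h11 : b.xx i 0 1 = 2 := by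
              unfold xx; rw [ty_F', h9]; norm_num
            have h12 : b.sz i 0 1 = 2 := by unfold sz; rw [ty_F', h10]
            refine ⟨by omega, by omega, ?_, ?_⟩
            · simp [nb, lf]
            · cases s <;> simp [nb]
          · right
            simp only at h8 h9
            have h11 : 6 ≤ b.xx i 0 k := by
              unfold xx; rw [ty_F']; push_cast; linarith
            have h12 : b.sz i 0 k = 1 := by unfold sz; rw [ty_F', h9]
            have h13 : a = 1 := by omega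
            subst h13
            nlinarith
        · right
          have h6 : (1 : ℤ) ≤ n := by exact_mod_cast hn
          rw [g2]
          rcases g6 with rfl | rfl | rfl <;> nlinarith
    | true =>
      apply key (64 * b.M + 33 - b.xx i n k)
      · simp only [px]; norm_num
      · rcases Nat.lt_or_ge n (2 * b.M) with hn | hn
        · right
          have h6 : (n : ℤ) + 1 ≤ 2 * b.M := by exact_mod_cast hn
          rw [g2]
          rcases g6 with rfl | rfl | rfl <;> nlinarith
        · obtain rfl : n = 2 * b.M := by omega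
          have h7 : b.len i (2 * b.M) = 12 := by unfold len; rw [ty_E' hM]; rfl
          rcases ft_E ⟨k, by omega⟩ with ⟨h8, h9, h10⟩ | ⟨h8, h9, h10⟩ | ⟨h8, h9, h10⟩
          · left
            simp only at h8 h9 h10
            subst h8
            have h11 : b.xx i (2 * b.M) 12 = 64 * b.M + 30 := by
              unfold xx; rw [ty_E' hM, h9]; push_cast; ring
            have h12 : b.sz i (2 * b.M) 12 = 2 := by unfold sz; rw [ty_E' hM, h10]
            refine ⟨by omega, by omega, ?_, ?_⟩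
            · simp [nb, rt, h7]
            · cases s <;> simp [nb]
          · right
            simp only at h8 h9 h10
            have h11 : b.xx i (2 * b.M) k ≤ 64 * b.M + 26 := by
              unfold xx; rw [ty_E' hM]; push_cast; linarith
            have h12 : b.sz i (2 * b.M) k = 1 := by unfold sz; rw [ty_E' hM, h10]
            have h13 : a = 1 := by omega
            subst h13
            nlinarith
          · right
            simp only at h8 h9 h10
            subst h8
            have h11 : b.xx i (2 * b.M) 0 = 64 * b.M := by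
              unfold xx; rw [ty_E' hM, h9]; push_cast; ring
            rw [h11]
            rcases g6 with rfl | rfl | rfl <;> norm_num
  · apply far
    · simp only [rad]; positivity
    · simp only [rad, px, py, g3]
      have h10 := row_far h5
      rcases sg_cases s with ⟨-, h5⟩ | ⟨-, h5⟩ <;> rw [h5] <;> rcases g6 with rfl | rfl | rfl <;>
        norm_num <;> omega

theorem far' {v w : Nd} (h0 : 0 ≤ b.rad v + b.rad w)
    (h : b.rad v + b.rad w ≤ b.px v - b.px w ∨ b.rad v + b.rad w ≤ b.px w - b.px v)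
    (h' : b.py v - b.py w ≠ 0) : b.Cls act v w := by
  have h1 : (b.rad v + b.rad w) ^ 2 < b.d2 v w := by
    unfold d2
    have h3 : 0 < (b.py v - b.py w) ^ 2 := by positivity
    rcases h with h | h <;> nlinarith
  exact ⟨h1.le, fun h2 => absurd h1 (not_lt.2 h2)⟩

theorem cls_XC {i i' n k : ℕ} {s r : Bool} (hv : b.Val act (.X i n k s)) :
    b.Cls act (.X i n k s) (.C i' r) := by
  obtain ⟨h1, h2, h3, h4⟩ := hv
  obtain ⟨o, a, g2, g3, g4, g5, g6, g7, g8⟩ := st_data h3
  have h20 : (n : ℤ) ≤ 2 * b.M := by exact_mod_cast h2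
  apply far'
  · simp only [rad]; positivity
  · simp only [rad, px, g3, g2]
    have h5 : k = 0 → (1 : ℤ) ≤ n := fun h => by exact_mod_cast h4 h
    rcases Nat.eq_zero_or_pos k with rfl | hk
    · obtain ⟨rfl, rfl⟩ := g8 rfl
      have h6 := h5 rfl
      cases r <;> norm_num <;> omega
    · obtain ⟨g9, g10⟩ := g7 hk
      rcases g6 with rfl | rfl | rfl
      · cases r <;> norm_num <;> omega
      · cases r <;> norm_num <;> omega
      · omega
  · simp only [py, g3]
    rcases sg_cases s with ⟨-, h5⟩ | ⟨-, h5⟩ <;> rw [h5] <;> rcases g6 with rfl | rfl | rfl <;>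
      norm_num <;> omega

theorem cls_XT {i i' n k : ℕ} {s r : Bool} (hv : b.Val act (.X i n k s)) :
    b.Cls act (.X i n k s) (.T i' r) := by
  obtain ⟨h1, h2, h3, h4⟩ := hv
  obtain ⟨o, a, g2, g3, g4, g5, g6, g7, g8⟩ := st_data h3
  have h20 : (n : ℤ) ≤ 2 * b.M := by exact_mod_cast h2
  apply far
  · simp only [rad]; positivity
  · simp only [rad, px, g3, g2]
    rcases g6 with rfl | rfl | rfl <;> cases r <;> norm_num <;> omega

theorem cls_XA {i e c n k : ℕ} {s : Bool} (hv : b.Val act (.X i n k s))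
    (hw : b.Val act (.A e c)) : b.Cls act (.X i n k s) (.A e c) := by
  obtain ⟨h1, h2, h3, h4⟩ := hv
  obtain ⟨h0', h1', h2'⟩ := hw
  obtain ⟨o, a, g2, g3, g4, g5, g6, g7, g8⟩ := st_data h3
  unfold H at h1
  by_cases h9 : a = 3 ∧ i = (if s then e + 1 else e)
  · obtain ⟨rfl, h9⟩ := h9
    have hk0 : k = 0 := by by_contra h; have := g7 (by omega); omega
    subst hk0
    obtain ⟨rfl, -⟩ := g8 rfl
    have h10 : b.d2 (.X i n 0 s) (.A e c) = (32 * (n : ℤ) - (64 * c + 32)) ^ 2 + 9 ^ 2 := by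
      simp only [d2, px, py, g2, g3]
      subst h9
      cases s
      · simp [sg]
      · simp [sg]; ring
    have h11 : (b.rad (.X i n 0 s) + b.rad (.A e c)) ^ 2 = 9 ^ 2 := by
      simp only [rad, g3]; norm_num
    unfold Cls Sep Tight
    rw [h10, h11]
    constructor
    · nlinarith [sq_nonneg (32 * (n : ℤ) - (64 * c + 32))]
    · intro h7
      have h8 : 32 * (n : ℤ) - (64 * c + 32) = 0 := by
        have : (32 * (n : ℤ) - (64 * c + 32)) ^ 2 = 0 :=
          le_antisymm (by linarith) (sq_nonneg _)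
        exact pow_eq_zero_iff (two_ne_zero) |>.1 this
      obtain rfl : n = 2 * c + 1 := by omega
      have h12 : (2 * c + 1) % 2 = 1 := by omega
      have h13 : (2 * c + 1) / 2 = c := by omega
      have h14 : ¬ e = 2 * b.h + 1 := by omega
      subst h9
      cases s <;> simp [nb, vert, aN, h12, h13, h2', h14]
  · apply far
    · simp only [rad]; positivity
    · right; right
      simp only [rad, py, g3]
      rcases sg_cases s with ⟨h14, h12⟩ | ⟨h14, h12⟩ <;> rw [h12] <;>
      rcases g6 with rfl | rfl | rfl <;> simp only [h14] at h9 <;> norm_num at h9 ⊢ <;> omega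

theorem cls_QQ {i i' n n' k k' : ℕ} (hv : b.Val act (.Q i n k)) (hw : b.Val act (.Q i' n' k'))
    (hne : Nd.Q i n k ≠ .Q i' n' k') : b.Cls act (.Q i n k) (.Q i' n' k') := by
  obtain ⟨h1, h2, h3, h4⟩ := hv
  obtain ⟨h1', h2', h3', h4'⟩ := hw
  apply far
  · simp [rad]
  · simp only [rad, px, py]
    by_cases h5 : i = i'
    · subst h5
      by_cases h6 : b.xx i n k = b.xx i n' k'
      · obtain ⟨rfl, rfl⟩ := eq_of_xx h2 h2' h3 h3' (fun h => (h4 h).1) (fun h => (h4' h).1) h6
        exact absurd rfl hne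
      · omega
    · omega

theorem cls_QS {i i' n k : ℕ} {r : Bool} (hv : b.Val act (.Q i n k)) :
    b.Cls act (.Q i n k) (.S i' r) := by
  obtain ⟨h1, h2, h3, h4⟩ := hv
  obtain ⟨o, a, g2, g3, g4, g5, g6, g7, g8⟩ := st_data h3
  have h20 : (n : ℤ) ≤ 2 * b.M := by exact_mod_cast h2
  have g9 : (0 : ℤ) < k ∨ (1 : ℤ) ≤ n := by
    rcases Nat.eq_zero_or_pos k with h | h
    · right; exact_mod_cast (h4 h).1
    · left; exact_mod_cast h
  have g10 : (0 : ℤ) < k → 2 ≤ o := fun h => (g7 (by exact_mod_cast h)).1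
  apply far
  · simp [rad]
  · simp only [rad, px, py, g2]
    cases r <;> norm_num <;> omega

theorem cls_QC {i i' n k : ℕ} {r : Bool} (hv : b.Val act (.Q i n k)) :
    b.Cls act (.Q i n k) (.C i' r) := by
  obtain ⟨h1, h2, h3, h4⟩ := hv
  obtain ⟨o, a, g2, g3, g4, g5, g6, g7, g8⟩ := st_data h3
  have h20 : (n : ℤ) ≤ 2 * b.M := by exact_mod_cast h2
  have g9 : (0 : ℤ) < k ∨ (1 : ℤ) ≤ n := by
    rcases Nat.eq_zero_or_pos k with h | h
    · right; exact_mod_cast (h4 h).1
    · left; exact_mod_cast h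
  have g10 : (0 : ℤ) < k → 2 ≤ o := fun h => (g7 (by exact_mod_cast h)).1
  apply far
  · simp [rad]
  · simp only [rad, px, py, g2]
    cases r <;> norm_num <;> omega

theorem cls_QT {i i' n k : ℕ} {r : Bool} (hv : b.Val act (.Q i n k)) :
    b.Cls act (.Q i n k) (.T i' r) := by
  obtain ⟨h1, h2, h3, h4⟩ := hv
  obtain ⟨o, a, g2, g3, g4, g5, g6, g7, g8⟩ := st_data h3
  have h20 : (n : ℤ) ≤ 2 * b.M := by exact_mod_cast h2
  have g9 : (0 : ℤ) < k ∨ (1 : ℤ) ≤ n := by
    rcases Nat.eq_zero_or_pos k with h | h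
    · right; exact_mod_cast (h4 h).1
    · left; exact_mod_cast h
  have g10 : (0 : ℤ) < k → 2 ≤ o := fun h => (g7 (by exact_mod_cast h)).1
  apply far
  · simp [rad]
  · simp only [rad, px, py, g2]
    cases r <;> norm_num <;> omega

theorem cls_QA {i e c n k : ℕ} : b.Cls act (.Q i n k) (.A e c) := by
  apply far
  · simp [rad]
  · simp only [rad, py]
    omega

theorem cls_SS {i i' : ℕ} {r r' : Bool} (hne : Nd.S i r ≠ .S i' r') :
    b.Cls act (.S i r) (.S i' r') := by
  apply far
  · simp [rad]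
  · simp only [rad, px, py]
    cases r <;> cases r' <;> norm_num
    · have h5 : i ≠ i' := fun h => hne (by rw [h])
      omega
    · omega
    · omega
    · have h5 : i ≠ i' := fun h => hne (by rw [h])
      omega

theorem cls_SC {i i' : ℕ} {r r' : Bool} : b.Cls act (.S i r) (.C i' r') := by
  by_cases h : i = i' ∧ r = r'
  · obtain ⟨rfl, rfl⟩ := h
    constructor
    · unfold Sep
      simp only [rad, d2, px, py]
      cases r <;> norm_num
    · intro _
      cases r <;> simp [nb]
  · apply far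
    · simp [rad]
    · simp only [rad, px, py]
      by_cases h5 : i = i'
      · subst h5
        cases r <;> cases r' <;> simp at h ⊢ <;> omega
      · omega

theorem cls_ST {i i' : ℕ} {r r' : Bool} : b.Cls act (.S i r) (.T i' r') := by
  apply far
  · simp [rad]
  · simp only [rad, px, py]
    cases r <;> cases r' <;> norm_num <;> omega

theorem cls_SA {i e c : ℕ} {r : Bool} : b.Cls act (.S i r) (.A e c) := by
  apply far
  · simp [rad]
  · simp only [rad, px, py]
    omega

theorem cls_CC {i i' : ℕ} {r r' : Bool} (hne : Nd.C i r ≠ .C i' r') :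
    b.Cls act (.C i r) (.C i' r') := by
  apply far
  · simp [rad]
  · simp only [rad, px, py]
    cases r <;> cases r' <;> norm_num
    · have h5 : i ≠ i' := fun h => hne (by rw [h])
      omega
    · omega
    · omega
    · have h5 : i ≠ i' := fun h => hne (by rw [h])
      omega

theorem cls_CT {i i' : ℕ} {r r' : Bool} (h1 : i' % 2 = 0) : b.Cls act (.C i r) (.T i' r') := by
  by_cases h : (i = i' ∨ i = i' + 1) ∧ r = r'
  · obtain ⟨h, rfl⟩ := h
    have h2 : b.d2 (.C i r) (.T i' r) = 18 ^ 2 := by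
      simp only [d2, px, py]
      rcases h with rfl | rfl <;> push_cast <;> ring
    constructor
    · unfold Sep
      rw [h2]
      simp only [rad]; norm_num
    · intro _
      rcases h with rfl | rfl
      · simp [nb, h1]
      · have h3 : (i' + 1) % 2 = 1 := by omega
        simp [nb, h3]
  · apply far
    · simp [rad]
    · simp only [rad, px, py]
      cases r <;> cases r' <;> simp at h ⊢ <;> omega

theorem cls_CA {i e c : ℕ} {r : Bool} (hc : c < b.M) : b.Cls act (.C i r) (.A e c) := by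
  apply far
  · simp [rad]
  · simp only [rad, px, py]
    cases r <;> norm_num <;> omega

theorem cls_TT {i i' : ℕ} {r r' : Bool} (hne : Nd.T i r ≠ .T i' r') :
    b.Cls act (.T i r) (.T i' r') := by
  apply far
  · simp [rad]
  · simp only [rad, px, py]
    cases r <;> cases r' <;> norm_num
    · have h5 : i ≠ i' := fun h => hne (by rw [h])
      omega
    · omega
    · omega
    · have h5 : i ≠ i' := fun h => hne (by rw [h])
      omega

theorem cls_TA {i e c : ℕ} {r : Bool} (hc : c < b.M) : b.Cls act (.T i r) (.A e c) := by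
  apply far
  · simp [rad]
  · simp only [rad, px, py]
    cases r <;> norm_num <;> omega

theorem cls_AA {e e' c c' : ℕ} (hne : Nd.A e c ≠ .A e' c') : b.Cls act (.A e c) (.A e' c') := by
  have h5 : c ≠ c' ∨ e ≠ e' := by
    by_contra h
    push Not at h
    exact hne (by rw [h.1, h.2])
  apply far
  · simp [rad]
  · simp only [rad, px, py]
    omega

/-- The circles of a board are disjoint or touch, and only listed circles touch. -/
theorem cls (hM : 1 ≤ b.M) {v w : Nd} (hv : b.Val act v) (hw : b.Val act w) (hne : v ≠ w) :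
    b.Cls act v w := by
  cases v <;> cases w
  · exact cls_XX hv hw hne
  · exact cls_XQ hv hw
  · exact cls_XS hM hv
  · exact cls_XC hv
  · exact cls_XT hv
  · exact cls_XA hv hw
  · exact (cls_XQ hw hv).symm
  · exact cls_QQ hv hw hne
  · exact cls_QS hv
  · exact cls_QC hv
  · exact cls_QT hv
  · exact cls_QA
  · exact (cls_XS hM hw).symm
  · exact (cls_QS hw).symm
  · exact cls_SS hne
  · exact cls_SC
  · exact cls_ST
  · exact cls_SA
  · exact (cls_XC hw).symm
  · exact (cls_QC hw).symm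
  · exact cls_SC.symm
  · exact cls_CC hne
  · exact cls_CT hw.2
  · exact cls_CA hw.2.1
  · exact (cls_XT hw).symm
  · exact (cls_QT hw).symm
  · exact cls_ST.symm
  · exact (cls_CT hv.2).symm
  · exact cls_TT hne
  · exact cls_TA hw.2.1
  · exact (cls_XA hw hv).symm
  · exact cls_QA.symm
  · exact cls_SA.symm
  · exact (cls_CA hv.2.1).symm
  · exact (cls_TA hv.2.1).symm
  · exact cls_AA hne

end Board

end Pool.Agent.T9h21.TB
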