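import Pool.Agent.T9h21.TB.Form
import Pool.Agent.W969.MC.Circ

/-!
# Boards of constraint satisfaction problems
-/

set_option autoImplicit false

namespace Pool.Agent.T9h21.TB

/-- Parameters: `J` copies of a problem with `m` variables, each with `t` bits, and `M` constraints
with `a` variables. -/
structure Pm where
  J : ℕ
  m : ℕ
  M : ℕ
  a : ℕ
  t : ℕ
  h : Fin M → Fin a → Fin m

theorem lin_lt {x y X Y : ℕ} (hx : x < X) (hy : y < Y) : x * Y + y < X * Y := by
  have : (x + 1) * Y ≤ X * Y := Nat.mul_le_mul_right _ hx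
  rw [Nat.add_mul, Nat.one_mul] at this
  omega

theorem uniq {x y x' y' Y : ℕ} (hy : y < Y) (hy' : y' < Y) (h : x * Y + y = x' * Y + y') :
    x = x' ∧ y = y' := by
  rcases Nat.lt_trichotomy x x' with h1 | h1 | h1
  · have := lin_lt h1 hy
    omega
  · subst h1
    exact ⟨rfl, by omega⟩
  · have := lin_lt h1 hy'
    omega

namespace Pm

variable (P : Pm)

/-- the number of bits of a constraint -/
def w : ℕ := P.a * P.t

/-- the first row of a block -/
def base (β : ℕ) : ℕ := 1 + P.J * P.m * P.t + β * (P.w + 2)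

/-- the number of rows -/
def RT : ℕ := 1 + P.J * P.m * P.t + P.J * P.M * (P.w + 2)

/-- the number of global columns -/
def G : ℕ := 2 * (P.J * P.M * P.w)

/-- the index of a block -/
def bi (j : Fin P.J) (i : Fin P.M) : ℕ := j.val * P.M + i.val

/-- the index of a bit -/
def ri (x : Fin P.a) (y : Fin P.t) : ℕ := x.val * P.t + y.val

/-- the row of a bit of a variable -/
def rV (j : Fin P.J) (v : Fin P.m) (y : Fin P.t) : ℕ := 1 + ((j.val * P.m + v.val) * P.t + y.val)

/-- the row of the copy of a bit in a block -/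
def rB (j : Fin P.J) (i : Fin P.M) (x : Fin P.a) (y : Fin P.t) : ℕ :=
  P.base (P.bi j i) + P.ri x y

/-- the index of a global column -/
def gc (j : Fin P.J) (i : Fin P.M) (x : Fin P.a) (y : Fin P.t) : ℕ := P.bi j i * P.w + P.ri x y

open Classical in
/-- the formula -/
noncomputable def fm : Fm where
  h := P.RT
  k := P.G + 2 ^ P.w
  pr := fun c ρ => decide ((∃ j i x y, c = 2 * P.gc j i x y ∧ ρ = P.rV j (P.h i x) y) ∨
    (∃ j i x y, c = 2 * P.gc j i x y + 1 ∧ ρ = P.rB j i x y) ∨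
    (∃ s j i x y, c = P.G + s ∧ ρ = P.rB j i x y ∧ s.testBit (P.ri x y) = false))
  nr := fun c ρ => decide ((∃ j i x y, c = 2 * P.gc j i x y ∧ ρ = P.rB j i x y) ∨
    (∃ j i x y, c = 2 * P.gc j i x y + 1 ∧ ρ = P.rV j (P.h i x) y) ∨
    (∃ s j i x y, c = P.G + s ∧ ρ = P.rB j i x y ∧ s.testBit (P.ri x y) = true))
  tm := fun c ρ => decide ((c < P.G ∧ ρ = 2 * P.RT + 1) ∨
    (P.G ≤ c ∧ ∃ j i, ρ = P.base (P.bi j i) + P.w))
  bl := fun c ρ => decide (P.G ≤ c ∧ ∃ j i, ρ = P.base (P.bi j i) + P.w + 1)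
  te := fun ρ => decide (ρ = 2 * P.RT + 1 ∨ ∃ j i, ρ = P.base (P.bi j i) + P.w)

variable {P}

theorem bi_lt (j : Fin P.J) (i : Fin P.M) : P.bi j i < P.J * P.M := lin_lt j.2 i.2

theorem ri_lt (x : Fin P.a) (y : Fin P.t) : P.ri x y < P.w := lin_lt x.2 y.2

theorem gc_lt (j : Fin P.J) (i : Fin P.M) (x : Fin P.a) (y : Fin P.t) :
    2 * P.gc j i x y + 1 < P.G := by
  have := lin_lt (bi_lt j i) (ri_lt x y)
  unfold gc G
  omega

theorem bi_inj {j j' : Fin P.J} {i i' : Fin P.M} (h : P.bi j i = P.bi j' i') : j = j' ∧ i = i' := by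
  obtain ⟨h1, h2⟩ := uniq i.2 i'.2 h
  exact ⟨Fin.ext h1, Fin.ext h2⟩

theorem ri_inj {x x' : Fin P.a} {y y' : Fin P.t} (h : P.ri x y = P.ri x' y') : x = x' ∧ y = y' := by
  obtain ⟨h1, h2⟩ := uniq y.2 y'.2 h
  exact ⟨Fin.ext h1, Fin.ext h2⟩

theorem gc_inj {j j' : Fin P.J} {i i' : Fin P.M} {x x' : Fin P.a} {y y' : Fin P.t}
    (h : P.gc j i x y = P.gc j' i' x' y') : j = j' ∧ i = i' ∧ x = x' ∧ y = y' := by
  obtain ⟨h1, h2⟩ := uniq (ri_lt x y) (ri_lt x' y') h
  exact ⟨(bi_inj h1).1, (bi_inj h1).2, ri_inj h2⟩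

theorem rV_le (j : Fin P.J) (v : Fin P.m) (y : Fin P.t) :
    1 ≤ P.rV j v y ∧ P.rV j v y < 1 + P.J * P.m * P.t := by
  have := lin_lt (lin_lt j.2 v.2) y.2
  unfold rV
  omega

theorem rV_inj {j j' : Fin P.J} {v v' : Fin P.m} {y y' : Fin P.t}
    (h : P.rV j v y = P.rV j' v' y') : j = j' ∧ v = v' ∧ y = y' := by
  unfold rV at h
  obtain ⟨h1, h2⟩ := uniq y.2 y'.2 (Nat.add_left_cancel h)
  obtain ⟨h3, h4⟩ := uniq v.2 v'.2 h1
  exact ⟨Fin.ext h3, Fin.ext h4, Fin.ext h2⟩

theorem base_le (j : Fin P.J) (i : Fin P.M) :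
    1 + P.J * P.m * P.t ≤ P.base (P.bi j i) ∧ P.base (P.bi j i) + P.w + 1 < P.RT := by
  have h1 := lin_lt (bi_lt j i) (show P.w + 1 < P.w + 2 by omega)
  unfold base RT
  exact ⟨Nat.le_add_right _ _, by omega⟩

/-- rows of blocks are different -/
theorem base_uniq {j j' : Fin P.J} {i i' : Fin P.M} {r r' : ℕ} (hr : r < P.w + 2)
    (hr' : r' < P.w + 2) (h : P.base (P.bi j i) + r = P.base (P.bi j' i') + r') :
    j = j' ∧ i = i' ∧ r = r' := by
  unfold base at h
  obtain ⟨h1, h2⟩ := uniq hr hr' (by omega : P.bi j i * (P.w + 2) + r = P.bi j' i' * (P.w + 2) + r')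
  exact ⟨(bi_inj h1).1, (bi_inj h1).2, h2⟩

theorem rB_inj {j j' : Fin P.J} {i i' : Fin P.M} {x x' : Fin P.a} {y y' : Fin P.t}
    (h : P.rB j i x y = P.rB j' i' x' y') : j = j' ∧ i = i' ∧ x = x' ∧ y = y' := by
  have g1 := ri_lt x y
  have g2 := ri_lt x' y'
  obtain ⟨h1, h2, h3⟩ := base_uniq (by omega) (by omega) h
  exact ⟨h1, h2, ri_inj h3⟩

theorem rV_ne_rB {j j' : Fin P.J} {i' : Fin P.M} {v : Fin P.m} {x' : Fin P.a} {y y' : Fin P.t} :
    P.rV j v y ≠ P.rB j' i' x' y' := by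
  have h1 := rV_le j v y
  have h2 := base_le j' i'
  unfold rB
  omega

theorem rB_le (j : Fin P.J) (i : Fin P.M) (x : Fin P.a) (y : Fin P.t) :
    1 ≤ P.rB j i x y ∧ P.rB j i x y < P.RT := by
  have h2 := base_le j i
  have h3 := ri_lt x y
  unfold rB
  omega

theorem rV_lt (j : Fin P.J) (v : Fin P.m) (y : Fin P.t) : P.rV j v y < P.RT := by
  have h1 := rV_le j v y
  unfold RT
  omega

theorem te_false {ρ : ℕ} (h : ρ < P.RT) (h1 : ∀ j i, ρ ≠ P.base (P.bi j i) + P.w) :
    P.fm.te ρ = false := by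
  simp only [fm, decide_eq_false_iff_not, not_or, not_exists]
  exact ⟨by omega, h1⟩

theorem ok : P.fm.OK := by
  have hrow : ∀ c ρ, (P.fm.pr c ρ = true ∨ P.fm.nr c ρ = true) →
      (∃ j v y, ρ = P.rV j v y) ∨ ∃ j i x y, ρ = P.rB j i x y := by
    intro c ρ h
    simp only [fm, decide_eq_true_eq] at h
    rcases h with (⟨j, i, x, y, -, h⟩ | ⟨j, i, x, y, -, h⟩ | ⟨s, j, i, x, y, -, h, -⟩) |
      (⟨j, i, x, y, -, h⟩ | ⟨j, i, x, y, -, h⟩ | ⟨s, j, i, x, y, -, h, -⟩)
    · exact Or.inl ⟨_, _, _, h⟩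
    · exact Or.inr ⟨_, _, _, _, h⟩
    · exact Or.inr ⟨_, _, _, _, h⟩
    · exact Or.inr ⟨_, _, _, _, h⟩
    · exact Or.inl ⟨_, _, _, h⟩
    · exact Or.inr ⟨_, _, _, _, h⟩
  have hr2 : ∀ ρ, ((∃ j v y, ρ = P.rV j v y) ∨ ∃ j i x y, ρ = P.rB j i x y) →
      1 ≤ ρ ∧ ρ < P.RT ∧ ∀ j i, ρ ≠ P.base (P.bi j i) + P.w ∧ ρ ≠ P.base (P.bi j i) + P.w + 1 := by
    rintro ρ (⟨j, v, y, rfl⟩ | ⟨j, i, x, y, rfl⟩)
    · have h1 := rV_le j v y
      refine ⟨h1.1, rV_lt _ _ _, fun j' i' => ?_⟩
      have := base_le j' i'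
      omega
    · have h1 := rB_le j i x y
      have h2 := ri_lt x y
      refine ⟨h1.1, h1.2, fun j' i' => ⟨fun h => ?_, fun h => ?_⟩⟩
      · have := (base_uniq (by omega) (by omega) h).2.2
        omega
      · have := (base_uniq (r' := P.w + 1) (by omega) (by omega) h).2.2
        omega
  have hh : P.fm.h = P.RT := rfl
  refine ⟨?_, ?_, ?_, ?_, ?_, ?_⟩
  · intro c ρ h1 h2
    simp only [fm, decide_eq_true_eq] at h1 h2
    rcases h1 with ⟨j, i, x, y, e1, e2⟩ | ⟨j, i, x, y, e1, e2⟩ | ⟨s, j, i, x, y, e1, e2, e3⟩ <;>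
    rcases h2 with ⟨j', i', x', y', f1, f2⟩ | ⟨j', i', x', y', f1, f2⟩ |
      ⟨s', j', i', x', y', f1, f2, f3⟩
    · exact rV_ne_rB (e2.symm.trans f2)
    · omega
    · have := gc_lt j i x y
      omega
    · omega
    · exact rV_ne_rB (f2.symm.trans e2)
    · have := gc_lt j i x y
      omega
    · have := gc_lt j' i' x' y'
      omega
    · have := gc_lt j' i' x' y'
      omega
    · obtain ⟨rfl, rfl, rfl, rfl⟩ := rB_inj (e2.symm.trans f2)
      obtain rfl : s = s' := by omega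
      rw [e3] at f3
      simp at f3
  · intro c ρ h
    obtain ⟨h1, h2, h3⟩ := hr2 ρ (hrow c ρ (Or.inl h))
    exact ⟨h1, by omega, te_false h2 fun j i => (h3 j i).1⟩
  · intro c ρ h
    obtain ⟨h1, h2, h3⟩ := hr2 ρ (hrow c ρ (Or.inr h))
    exact ⟨h1, by omega, te_false h2 fun j i => (h3 j i).1⟩
  · intro c ρ h
    simp only [fm, decide_eq_true_eq] at h ⊢
    rcases h with h | h
    · exact Or.inl h.2
    · exact Or.inr h.2
  · intro c ρ h
    simp only [fm, decide_eq_true_eq] at h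
    obtain ⟨h0, j, i, h⟩ := h
    refine ⟨?_, ?_, ?_⟩
    · by_contra h1
      rw [Bool.not_eq_false] at h1
      exact ((hr2 ρ (hrow c ρ (Or.inl h1))).2.2 j i).2 h
    · by_contra h1
      rw [Bool.not_eq_false] at h1
      exact ((hr2 ρ (hrow c ρ (Or.inr h1))).2.2 j i).2 h
    · by_contra h1
      rw [Bool.not_eq_false] at h1
      simp only [fm, decide_eq_true_eq] at h1
      rcases h1 with h1 | ⟨-, j', i', h1⟩
      · omega
      · have := (base_uniq (r := P.w + 1) (r' := P.w) (by omega) (by omega)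
          ((by omega : P.base (P.bi j i) + (P.w + 1) = P.base (P.bi j' i') + P.w))).2.2
        omega
  · intro c ρ h h1
    simp only [fm, decide_eq_true_eq] at h ⊢
    rw [hh] at h1
    rcases h with h | ⟨h2, j, i, h3⟩
    · omega
    · exact ⟨h2, j, i, by omega⟩

open Classical in
/-- the code of the values of a constraint -/
noncomputable def enc (P : Pm) (σ : Fin P.a → Fin P.t → Bool) : ℕ :=
  Nat.ofBits (n := P.w) (fun r => if h : r.val / P.t < P.a ∧ r.val % P.t < P.t then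
    σ ⟨r.val / P.t, h.1⟩ ⟨r.val % P.t, h.2⟩ else false)

theorem enc_lt (σ : Fin P.a → Fin P.t → Bool) : P.enc σ < 2 ^ P.w := Nat.ofBits_lt_two_pow _

theorem enc_bit (σ : Fin P.a → Fin P.t → Bool) (x : Fin P.a) (y : Fin P.t) :
    (P.enc σ).testBit (P.ri x y) = σ x y := by
  unfold enc
  rw [Nat.testBit_ofBits_lt (h := ri_lt x y)]
  have ht : 0 < P.t := by have := y.2; omega
  have h1 : P.ri x y / P.t = x.val := by
    unfold ri
    rw [Nat.mul_comm, Nat.mul_add_div ht, Nat.div_eq_of_lt y.2, Nat.add_zero]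
  have h2 : P.ri x y % P.t = y.val := by
    unfold ri
    rw [Nat.mul_comm, Nat.mul_add_mod, Nat.mod_eq_of_lt y.2]
  simp only [h1, h2]
  rw [dif_pos ⟨x.2, y.2⟩]

theorem enc_inj {σ σ' : Fin P.a → Fin P.t → Bool} (h : P.enc σ = P.enc σ') : σ = σ' := by
  funext x y
  rw [← enc_bit σ, ← enc_bit σ', h]

open Classical in
/-- the clauses given by the sets `y` -/
noncomputable def xs (P : Pm) (y : Fin P.J → Set (Fin P.M × (Fin P.a → Fin P.t → Bool)))
    (c e : ℕ) : Bool :=
  decide ((c < P.G ∧ e = 2 * P.RT) ∨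
    ∃ j i σ, (i, σ) ∈ y j ∧ c = P.G + P.enc σ ∧ e + 1 = P.base (P.bi j i) + P.w)

theorem dec {n X Y : ℕ} (h : n < X * Y) : ∃ x < X, ∃ y < Y, n = x * Y + y := by
  have hY : 0 < Y := by
    rcases Nat.eq_zero_or_pos Y with rfl | h1
    · simp at h
    · exact h1
  exact ⟨n / Y, Nat.div_lt_of_lt_mul (by rwa [Nat.mul_comm] at h), n % Y, Nat.mod_lt _ hY, by
    rw [Nat.mul_comm]; exact (Nat.div_add_mod n Y).symm⟩

open Pool.Agent.W969.MC in
theorem mem_tg {V I A Λ : Type} [Fintype V] [DecidableEq V] [Fintype I] [DecidableEq I]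
    [Fintype A] [DecidableEq A] [Fintype Λ] [DecidableEq Λ] {h : I → A → V}
    {p : V → Λ} {u : I × (A → Λ)} :
    u ∈ tu h (gr p) ↔ ∀ x, p (h u.1 x) = u.2 x := by
  unfold tu
  rw [Finset.mem_filter]
  constructor
  · rintro ⟨-, h1⟩ x
    exact mem_gr.mp (h1 x)
  · exact fun h1 => ⟨Finset.mem_univ _, fun x => mem_gr.mpr (h1 x)⟩

open Pool.Agent.W969.MC in
theorem sat_iff (y : Fin P.J → Set (Fin P.M × (Fin P.a → Fin P.t → Bool))) :
    P.fm.Sat (P.xs y) ↔
      ∀ j, ∃ p : Fin P.m → (Fin P.t → Bool), ∀ u ∈ tu P.h (gr p), u ∉ y j := by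
  classical
  have hh : P.fm.h = P.RT := rfl
  have hk : P.fm.k = P.G + 2 ^ P.w := rfl
  have h2w : 0 < 2 ^ P.w := Nat.two_pow_pos _
  constructor
  · rintro ⟨mm, hmm⟩ j
    refine ⟨fun v b => mm (P.rV j v b), ?_⟩
    rintro ⟨i, σ⟩ hu hy
    have hu' : ∀ x, (fun b => mm (P.rV j (P.h i x) b)) = σ x := fun x => mem_tg.mp hu x
    -- the copies of the values
    have hcp : ∀ x b, mm (P.rB j i x b) = mm (P.rV j (P.h i x) b) := by
      intro x b
      have hg := gc_lt j i x b
      have hbl : ∀ c ρ, c < P.G → P.fm.bl c ρ = false := by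
        intro c ρ hc
        simp only [fm, decide_eq_false_iff_not]
        omega
      have h1 := hmm (2 * P.gc j i x b) (by omega) (2 * P.RT) (by omega)
        (by simp only [xs, decide_eq_true_eq]; exact Or.inl ⟨by omega, trivial⟩)
        (by simp only [fm, decide_eq_true_eq]; exact Or.inl ⟨by omega, trivial⟩)
      have h2 := hmm (2 * P.gc j i x b + 1) (by omega) (2 * P.RT) (by omega)
        (by simp only [xs, decide_eq_true_eq]; exact Or.inl ⟨by omega, trivial⟩)
        (by simp only [fm, decide_eq_true_eq]; exact Or.inl ⟨by omega, trivial⟩)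
      obtain ⟨i0, -, h1, -⟩ := h1
      obtain ⟨i1, -, h2, -⟩ := h2
      have e1 : mm (P.rV j (P.h i x) b) = true ∨ mm (P.rB j i x b) = false := by
        unfold Fm.tl at h1
        rw [Bool.or_eq_true, Bool.and_eq_true, Bool.and_eq_true] at h1
        simp only [fm, decide_eq_true_eq] at h1
        rcases h1 with ⟨h3, h4⟩ | ⟨h3, h4⟩
        · rcases h3 with ⟨j', i', x', b', f1, f2⟩ | ⟨j', i', x', b', f1, f2⟩ |
            ⟨s', j', i', x', b', f1, f2, f3⟩
          · obtain ⟨rfl, rfl, rfl, rfl⟩ := gc_inj (by omega : P.gc j i x b = P.gc j' i' x' b')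
            left; rw [← f2]; exact h4
          · omega
          · omega
        · rcases h3 with ⟨j', i', x', b', f1, f2⟩ | ⟨j', i', x', b', f1, f2⟩ |
            ⟨s', j', i', x', b', f1, f2, f3⟩
          · obtain ⟨rfl, rfl, rfl, rfl⟩ := gc_inj (by omega : P.gc j i x b = P.gc j' i' x' b')
            right; rw [← f2]; simpa using h4
          · omega
          · omega
      have e2 : mm (P.rB j i x b) = true ∨ mm (P.rV j (P.h i x) b) = false := by
        unfold Fm.tl at h2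
        rw [Bool.or_eq_true, Bool.and_eq_true, Bool.and_eq_true] at h2
        simp only [fm, decide_eq_true_eq] at h2
        rcases h2 with ⟨h3, h4⟩ | ⟨h3, h4⟩
        · rcases h3 with ⟨j', i', x', b', f1, f2⟩ | ⟨j', i', x', b', f1, f2⟩ |
            ⟨s', j', i', x', b', f1, f2, f3⟩
          · omega
          · obtain ⟨rfl, rfl, rfl, rfl⟩ := gc_inj (by omega : P.gc j i x b = P.gc j' i' x' b')
            left; rw [← f2]; exact h4
          · omega
        · rcases h3 with ⟨j', i', x', b', f1, f2⟩ | ⟨j', i', x', b', f1, f2⟩ |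
            ⟨s', j', i', x', b', f1, f2, f3⟩
          · omega
          · obtain ⟨rfl, rfl, rfl, rfl⟩ := gc_inj (by omega : P.gc j i x b = P.gc j' i' x' b')
            right; rw [← f2]; simpa using h4
          · omega
      cases e3 : mm (P.rB j i x b) <;> cases e4 : mm (P.rV j (P.h i x) b) <;> simp_all
    have hb := base_le j i
    have hel := P.enc_lt σ
    obtain ⟨i0, h1, h2, h3⟩ := hmm (P.G + P.enc σ) (by omega) (P.base (P.bi j i) + P.w - 1)
      (by omega)
      (by simp only [xs, decide_eq_true_eq]; exact Or.inr ⟨j, i, σ, hy, rfl, by omega⟩)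
      (by
        simp only [fm, decide_eq_true_eq]
        exact Or.inr ⟨by omega, j, i, by omega⟩)
    have h4 : ∃ j' i' x b, i0 = P.rB j' i' x b ∧ mm i0 = !(σ x b) := by
      unfold Fm.tl at h2
      rw [Bool.or_eq_true, Bool.and_eq_true, Bool.and_eq_true] at h2
      simp only [fm, decide_eq_true_eq] at h2
      rcases h2 with ⟨h3, h4⟩ | ⟨h3, h4⟩
      · rcases h3 with ⟨j', i', x', b', f1, f2⟩ | ⟨j', i', x', b', f1, f2⟩ |
          ⟨s', j', i', x', b', f1, f2, f3⟩
        · have := gc_lt j' i' x' b'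
          omega
        · have := gc_lt j' i' x' b'
          omega
        · obtain rfl : s' = P.enc σ := by omega
          rw [enc_bit] at f3
          exact ⟨j', i', x', b', f2, by rw [h4, f3]; rfl⟩
      · rcases h3 with ⟨j', i', x', b', f1, f2⟩ | ⟨j', i', x', b', f1, f2⟩ |
          ⟨s', j', i', x', b', f1, f2, f3⟩
        · have := gc_lt j' i' x' b'
          omega
        · have := gc_lt j' i' x' b'
          omega
        · obtain rfl : s' = P.enc σ := by omega
          rw [enc_bit] at f3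
          exact ⟨j', i', x', b', f2, by rw [f3]; simpa using h4⟩
    obtain ⟨j', i', x, b, h5, h6⟩ := h4
    have hr := ri_lt x b
    have h7 : P.bi j' i' = P.bi j i := by
      rcases Nat.lt_trichotomy (P.bi j' i') (P.bi j i) with h8 | h8 | h8
      · exfalso
        have h9 : P.base (P.bi j' i') + (P.w + 2) ≤ P.base (P.bi j i) := by
          unfold base
          have := Nat.mul_le_mul_right (P.w + 2) h8
          rw [Nat.succ_mul] at this
          omega
        have h10 := h3 (P.base (P.bi j' i') + P.w + 1) (by rw [h5]; unfold rB; omega) (by omega)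
        simp only [fm, decide_eq_false_iff_not] at h10
        exact h10 ⟨by omega, j', i', rfl⟩
      · exact h8
      · exfalso
        have h9 : P.base (P.bi j i) + (P.w + 2) ≤ P.base (P.bi j' i') := by
          unfold base
          have := Nat.mul_le_mul_right (P.w + 2) h8
          rw [Nat.succ_mul] at this
          omega
        rw [h5] at h1
        unfold rB at h1
        omega
    obtain ⟨rfl, rfl⟩ := bi_inj h7
    have h8 := congrFun (hu' x) b
    rw [h5, hcp, h8] at h6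
    cases h9 : σ x b <;> rw [h9] at h6 <;> simp at h6
  · intro hp
    choose p hp using hp
    set mm : ℕ → Bool := fun ρ => decide ((∃ j v b, ρ = P.rV j v b ∧ p j v b = true) ∨
      (∃ j i x b, ρ = P.rB j i x b ∧ p j (P.h i x) b = true)) with hmm
    have hV : ∀ j v b, mm (P.rV j v b) = p j v b := by
      intro j v b
      rw [hmm]
      simp only
      cases h1 : p j v b with
      | true => rw [decide_eq_true_eq]; exact Or.inl ⟨j, v, b, rfl, h1⟩
      | false =>
        rw [decide_eq_false_iff_not]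
        rintro (⟨j', v', b', h2, h3⟩ | ⟨j', i', x', b', h2, h3⟩)
        · obtain ⟨rfl, rfl, rfl⟩ := rV_inj h2
          rw [h1] at h3
          simp at h3
        · exact rV_ne_rB h2
    have hB : ∀ j i x b, mm (P.rB j i x b) = p j (P.h i x) b := by
      intro j i x b
      rw [hmm]
      simp only
      cases h1 : p j (P.h i x) b with
      | true => rw [decide_eq_true_eq]; exact Or.inr ⟨j, i, x, b, rfl, h1⟩
      | false =>
        rw [decide_eq_false_iff_not]
        rintro (⟨j', v', b', h2, h3⟩ | ⟨j', i', x', b', h2, h3⟩)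
        · exact rV_ne_rB h2.symm
        · obtain ⟨rfl, rfl, rfl, rfl⟩ := rB_inj h2
          rw [h1] at h3
          simp at h3
    refine ⟨mm, fun c hc e he hx ht => ?_⟩
    simp only [xs, decide_eq_true_eq] at hx
    rcases hx with ⟨h1, h2⟩ | ⟨j, i, σ, hy, h1, h2⟩
    · have h3 : c / 2 < (P.J * P.M) * P.w := by
        unfold G at h1
        omega
      obtain ⟨β, hβ, r, hr, h4⟩ := dec h3
      obtain ⟨j, hj, i, hi, rfl⟩ := dec hβ
      obtain ⟨x, hx, b, hb, rfl⟩ := dec hr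
      have h5 : c / 2 = P.gc ⟨j, hj⟩ ⟨i, hi⟩ ⟨x, hx⟩ ⟨b, hb⟩ := h4
      have hbl : ∀ ρ, P.fm.bl c ρ = false := by
        intro ρ
        simp only [fm, decide_eq_false_iff_not]
        omega
      have hV' := rV_lt (P := P) ⟨j, hj⟩ (P.h ⟨i, hi⟩ ⟨x, hx⟩) ⟨b, hb⟩
      have hB' := rB_le (P := P) ⟨j, hj⟩ ⟨i, hi⟩ ⟨x, hx⟩ ⟨b, hb⟩
      have hmV := hV ⟨j, hj⟩ (P.h ⟨i, hi⟩ ⟨x, hx⟩) ⟨b, hb⟩
      have hmB := hB ⟨j, hj⟩ ⟨i, hi⟩ ⟨x, hx⟩ ⟨b, hb⟩
      rcases Nat.mod_two_eq_zero_or_one c with h6 | h6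
      · cases h7 : p ⟨j, hj⟩ (P.h ⟨i, hi⟩ ⟨x, hx⟩) ⟨b, hb⟩ with
        | true =>
          refine ⟨P.rV ⟨j, hj⟩ (P.h ⟨i, hi⟩ ⟨x, hx⟩) ⟨b, hb⟩, by omega, ?_,
            fun _ _ _ => hbl _⟩
          unfold Fm.tl
          rw [hmV, h7, Bool.or_eq_true, Bool.and_eq_true]
          left
          refine ⟨?_, rfl⟩
          simp only [fm, decide_eq_true_eq]
          exact Or.inl ⟨_, _, _, _, by rw [← h5]; omega, rfl⟩
        | false =>
          refine ⟨P.rB ⟨j, hj⟩ ⟨i, hi⟩ ⟨x, hx⟩ ⟨b, hb⟩, by omega, ?_, fun _ _ _ => hbl _⟩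
          unfold Fm.tl
          rw [hmB, h7, Bool.or_eq_true, Bool.and_eq_true, Bool.and_eq_true]
          right
          refine ⟨?_, rfl⟩
          simp only [fm, decide_eq_true_eq]
          exact Or.inl ⟨_, _, _, _, by rw [← h5]; omega, rfl⟩
      · cases h7 : p ⟨j, hj⟩ (P.h ⟨i, hi⟩ ⟨x, hx⟩) ⟨b, hb⟩ with
        | true =>
          refine ⟨P.rB ⟨j, hj⟩ ⟨i, hi⟩ ⟨x, hx⟩ ⟨b, hb⟩, by omega, ?_, fun _ _ _ => hbl _⟩
          unfold Fm.tl
          rw [hmB, h7, Bool.or_eq_true, Bool.and_eq_true]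
          left
          refine ⟨?_, rfl⟩
          simp only [fm, decide_eq_true_eq]
          exact Or.inr (Or.inl ⟨_, _, _, _, by rw [← h5]; omega, rfl⟩)
        | false =>
          refine ⟨P.rV ⟨j, hj⟩ (P.h ⟨i, hi⟩ ⟨x, hx⟩) ⟨b, hb⟩, by omega, ?_,
            fun _ _ _ => hbl _⟩
          unfold Fm.tl
          rw [hmV, h7, Bool.or_eq_true, Bool.and_eq_true, Bool.and_eq_true]
          right
          refine ⟨?_, rfl⟩
          simp only [fm, decide_eq_true_eq]
          exact Or.inr (Or.inl ⟨_, _, _, _, by rw [← h5]; omega, rfl⟩)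
    · have h3 : (i, σ) ∉ tu P.h (gr (p j)) := fun h => hp j _ h hy
      have h4 : ∃ x, p j (P.h i x) ≠ σ x := by
        by_contra hcon
        push Not at hcon
        exact h3 (mem_tg.mpr hcon)
      obtain ⟨x, h4⟩ := h4
      obtain ⟨b, h5⟩ := Function.ne_iff.mp h4
      have hr := ri_lt x b
      have hmB := hB j i x b
      refine ⟨P.rB j i x b, by unfold rB; omega, ?_, ?_⟩
      · unfold Fm.tl
        rw [hmB, Bool.or_eq_true, Bool.and_eq_true, Bool.and_eq_true]
        simp only [fm, decide_eq_true_eq]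
        cases h6 : σ x b with
        | false =>
          left
          rw [h6] at h5
          exact ⟨Or.inr (Or.inr ⟨P.enc σ, j, i, x, b, h1, rfl, by rw [enc_bit, h6]⟩),
            by simpa using h5⟩
        | true =>
          right
          rw [h6] at h5
          exact ⟨Or.inr (Or.inr ⟨P.enc σ, j, i, x, b, h1, rfl, by rw [enc_bit, h6]⟩),
            by simpa using h5⟩
      · intro ρ g1 g2
        simp only [fm, decide_eq_false_iff_not]
        rintro ⟨-, j', i', g3⟩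
        unfold rB at g1
        have := (base_uniq (P := P) (j := j) (i := i) (j' := j') (i' := i')
          (r := ρ - P.base (P.bi j i)) (r' := P.w + 1) (by omega) (by omega) (by omega)).2.2
        omega

end Pm

end Pool.Agent.T9h21.TB
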