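import Pool.Agent.ETSP.Path

/-!
# Closed tours whose steps are all tight
-/

set_option autoImplicit false

namespace Pool.Agent.T9h21.TB

open Pool.Agent.ETSP

section

variable {V : Type} [DecidableEq V]

/-- `σ` moves the elements of `P` along one cycle whose steps satisfy `R`. -/
structure Cyc (P : V → Prop) (R : V → V → Prop) (σ : Equiv.Perm V) : Prop where
  val : ∀ v, P v → P (σ v)
  inv : ∀ v, P v → P (σ⁻¹ v)
  tight : ∀ v, P v → R v (σ v)
  ne : ∀ v, P v → σ v ≠ v
  ne2 : ∀ v, P v → σ (σ v) ≠ v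
  conn : ∀ v w, P v → P w → σ.SameCycle v w

omit [DecidableEq V] in
theorem pl_chain {d rr : V → V → ℝ} {γ : ℝ} : ∀ (l : List V) (a b : V),
    (a :: (l ++ [b])).IsChain (fun v w => rr v w ≤ d v w) →
    pl rr a l b ≤ pl d a l b ∧ (pl d a l b < pl rr a l b + γ →
      (a :: (l ++ [b])).IsChain (fun v w => d v w < rr v w + γ)) := by
  intro l
  induction l with
  | nil => intro a b h; simpa [pl] using h
  | cons x l ih =>
    intro a b h
    rw [List.cons_append, List.isChain_cons_cons] at h
    obtain ⟨h1, h2⟩ := ih x b h.2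
    simp only [pl]
    refine ⟨by linarith [h.1], fun h3 => ?_⟩
    rw [List.cons_append, List.isChain_cons_cons]
    exact ⟨by linarith, h2 (by linarith [h.1])⟩

omit [DecidableEq V] in
theorem pl_rr {r : V → ℝ} (l : List V) : ∀ a b : V,
    pl (fun v w => r v + r w) a l b = r a + 2 * (l.map r).sum + r b := by
  induction l with
  | nil => intro a b; simp [pl]
  | cons x l ih => intro a b; simp only [pl, ih, List.map_cons, List.sum_cons]; ring

omit [DecidableEq V] in
theorem tl_rr {r : V → ℝ} (l : List V) :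
    tl (fun v w => r v + r w) l = 2 * (l.map r).sum := by
  cases l with
  | nil => simp [tl]
  | cons x l => simp only [tl, pl_rr, List.map_cons, List.sum_cons]; ring

theorem cyc_of_list {d : V → V → ℝ} {r : V → ℝ} {P : V → Prop} {l : List V} (hl : l.Nodup)
    (h3 : 3 ≤ l.length) (hP : ∀ v, v ∈ l ↔ P v)
    (hsep : ∀ v w, P v → P w → v ≠ w → r v + r w ≤ d v w)
    {γ : ℝ} (ht : tl d l < 2 * (l.map r).sum + γ) :
    Cyc P (fun v w => d v w < r v + r w + γ) l.formPerm := by
  obtain ⟨a, l', rfl⟩ : ∃ a l', l = a :: l' := by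
    cases l with
    | nil => simp at h3
    | cons a l' => exact ⟨a, l', rfl⟩
  have hch : (a :: (l' ++ [a])).IsChain (fun v w => r v + r w ≤ d v w) := by
    rw [List.isChain_iff_getElem]
    intro i hi
    have hlen : (a :: (l' ++ [a])).length = l'.length + 2 := by simp
    simp only [List.length_cons] at h3
    have e1 : (a :: (l' ++ [a]))[i] = (a :: l')[i]'(by simp at hi ⊢; omega) := by
      change ((a :: l') ++ [a])[i]'(by simp at hi ⊢; omega) = _
      rw [List.getElem_append_left]
    apply hsep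
    · rw [← hP, e1]; exact List.getElem_mem _
    · rw [← hP]
      have := List.getElem_mem (l := a :: (l' ++ [a])) (n := i + 1) hi
      simp only [List.mem_cons, List.mem_append] at this ⊢
      rcases this with h | h | h | h
      · exact Or.inl h
      · exact Or.inr h
      · exact Or.inl h
      · simp at h
    · rw [e1]
      by_cases h4 : i + 1 < l'.length + 1
      · have e2 : (a :: (l' ++ [a]))[i + 1] = (a :: l')[i + 1]'(by simpa using h4) := by
          change ((a :: l') ++ [a])[i + 1]'(by simp at hi ⊢; omega) = _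
          rw [List.getElem_append_left]
        rw [e2, Ne, hl.getElem_inj_iff]
        omega
      · have e2 : (a :: (l' ++ [a]))[i + 1] = (a :: l')[0] := by
          have : i = l'.length := by simp at hi; omega
          subst this
          simp
        rw [e2, Ne, hl.getElem_inj_iff]
        simp at hi
        omega
  have hch2 : (a :: (l' ++ [a])).IsChain (fun v w => d v w < r v + r w + γ) := by
    refine (pl_chain (rr := fun v w => r v + r w) l' a a hch).2 ?_
    have := tl_rr (r := r) (a :: l')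
    rw [← this] at ht
    exact ht
  have key : ∀ v, P v → d v ((a :: l').formPerm v) < r v + r ((a :: l').formPerm v) + γ := by
    intro v hv
    obtain ⟨i, hi, rfl⟩ := List.getElem_of_mem ((hP v).2 hv)
    rw [List.formPerm_apply_getElem _ hl]
    rw [List.isChain_iff_getElem] at hch2
    have h4 := hch2 i (by simp at hi ⊢; omega)
    have e1 : (a :: (l' ++ [a]))[i]'(by simp at hi ⊢; omega) = (a :: l')[i] := by
      change ((a :: l') ++ [a])[i]'(by simp at hi ⊢; omega) = _
      rw [List.getElem_append_left]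
    have e2 : (a :: (l' ++ [a]))[i + 1]'(by simp at hi ⊢; omega) =
        (a :: l')[(i + 1) % (a :: l').length]'(Nat.mod_lt _ (by simp)) := by
      by_cases h5 : i + 1 < l'.length + 1
      · change ((a :: l') ++ [a])[i + 1]'(by simp at hi ⊢; omega) = _
        rw [List.getElem_append_left (by simpa using h5)]
        congr 1
        rw [Nat.mod_eq_of_lt (by simpa using h5)]
      · have : i = l'.length := by simp at hi; omega
        subst this
        simp
    rw [e1, e2] at h4
    exact h4
  have hmod : ∀ i (_ : i < (a :: l').length), (a :: l').formPerm (a :: l')[i] =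
      (a :: l')[(i + 1) % (a :: l').length]'(Nat.mod_lt _ (by simp)) :=
    fun i hi => List.formPerm_apply_getElem _ hl _ _
  refine ⟨fun v hv => ?_, fun v hv => ?_, key, fun v hv => ?_, fun v hv => ?_,
    fun v w hv hw => ?_⟩
  · rw [← hP] at hv ⊢
    exact List.formPerm_apply_mem_of_mem hv
  · rw [← hP] at hv ⊢
    exact List.mem_of_formPerm_apply_mem (by
      rwa [show (a :: l').formPerm ((a :: l').formPerm⁻¹ v) = v from
        Equiv.apply_symm_apply _ v])
  · rw [← hP] at hv
    exact (List.formPerm_apply_mem_ne_self_iff _ hl _ hv).2 (by omega)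
  · rw [← hP] at hv
    obtain ⟨i, hi, rfl⟩ := List.getElem_of_mem hv
    rw [hmod i hi, hmod, Ne, hl.getElem_inj_iff]
    intro h5
    have h6 : (i + 2) % (a :: l').length = i := by
      rw [Nat.mod_add_mod] at h5
      exact h5
    have h7 : (a :: l').length ≤ i + 2 := by
      by_contra h8
      rw [Nat.mod_eq_of_lt (by omega)] at h6
      omega
    rw [Nat.mod_eq_sub_mod h7, Nat.mod_eq_of_lt (by omega)] at h6
    omega
  · rw [← hP] at hv hw
    exact (List.isCycle_formPerm hl (by omega)).sameCycle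
      ((List.formPerm_apply_mem_ne_self_iff _ hl _ hv).2 (by omega))
      ((List.formPerm_apply_mem_ne_self_iff _ hl _ hw).2 (by omega))

end

section Use

variable {V : Type} [DecidableEq V] {P : V → Prop} {R : V → V → Prop} {σ : Equiv.Perm V}

/-- whether two elements are neighbours in the tour -/
def us (σ : Equiv.Perm V) (v w : V) : ℕ := if σ v = w ∨ σ w = v then 1 else 0

theorem us_comm (v w : V) : us σ v w = us σ w v := by
  unfold us
  simp only [or_comm]

theorem us_le (v w : V) : us σ v w ≤ 1 := by unfold us; split_ifs <;> omega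

theorem us_eq (v w : V) : us σ v w = if w ∈ ({σ v, σ⁻¹ v} : Finset V) then 1 else 0 := by
  unfold us
  simp only [Finset.mem_insert, Finset.mem_singleton]
  congr 1
  rw [Equiv.Perm.eq_inv_iff_eq]
  simp only [eq_comm]

omit [DecidableEq V] in
theorem Cyc.inv_ne (h : Cyc P R σ) {v : V} (hv : P v) : σ v ≠ σ⁻¹ v := by
  intro h1
  apply h.ne2 v hv
  rw [h1]
  exact Equiv.apply_symm_apply σ v

theorem us_cases (v w : V) : us σ v w = 0 ∨ us σ v w = 1 := by unfold us; split_ifs <;> omega

theorem us_eq_one {v w : V} : us σ v w = 1 ↔ w = σ v ∨ w = σ⁻¹ v := by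
  rw [us_eq]
  simp only [Finset.mem_insert, Finset.mem_singleton]
  split_ifs with h
  · exact ⟨fun _ => h, fun _ => rfl⟩
  · exact ⟨fun h1 => absurd h1 (by norm_num), fun h1 => absurd h1 h⟩

theorem Cyc.sum_us (h : Cyc P R σ) {v : V} (hv : P v) {L : List V} (hL : L.Nodup)
    (h1 : σ v ∈ L) (h2 : σ⁻¹ v ∈ L) : (L.map (us σ v)).sum = 2 := by
  rw [← List.sum_toFinset _ hL]
  simp only [us_eq]
  rw [Finset.sum_ite_mem, Finset.sum_const, smul_eq_mul, mul_one]
  have h3 : L.toFinset ∩ {σ v, σ⁻¹ v} = {σ v, σ⁻¹ v} := by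
    rw [Finset.inter_eq_right]
    intro w hw
    simp only [Finset.mem_insert, Finset.mem_singleton] at hw
    rw [List.mem_toFinset]
    rcases hw with rfl | rfl <;> assumption
  rw [h3, Finset.card_pair (h.inv_ne hv)]

theorem Cyc.closed (h : Cyc P R σ) {W : V → Prop} {v : V} (hv : P v) (hW : W v)
    (hc : ∀ v, P v → W v → ∀ w, us σ v w = 1 → W w) : ∀ w, P w → W w := by
  intro w hw
  have h1 : ∀ n : ℕ, (P ((σ ^ n) v) ∧ W ((σ ^ n) v)) ∧ (P ((σ⁻¹ ^ n) v) ∧ W ((σ⁻¹ ^ n) v)) := by
    intro n
    induction n with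
    | zero => exact ⟨⟨hv, hW⟩, hv, hW⟩
    | succ n ih =>
      rw [pow_succ', pow_succ']
      simp only [Equiv.Perm.mul_apply]
      exact ⟨⟨h.val _ ih.1.1, hc _ ih.1.1 ih.1.2 _ (us_eq_one.2 (Or.inl rfl))⟩,
        h.inv _ ih.2.1, hc _ ih.2.1 ih.2.2 _ (us_eq_one.2 (Or.inr rfl))⟩
  obtain ⟨i, hi⟩ := h.conn v w hv hw
  rcases Int.eq_nat_or_neg i with ⟨n, rfl | rfl⟩
  · have := (h1 n).1.2
    rw [zpow_natCast] at hi
    rwa [hi] at this
  · have := (h1 n).2.2
    rw [zpow_neg, zpow_natCast, ← inv_pow] at hi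
    rwa [hi] at this

/-- a closed part of the tour is the whole tour -/
theorem Cyc.small (h : Cyc P R σ) (L : List V) {v0 : V} (hv0 : v0 ∈ L)
    (hL : ∀ v ∈ L, P v ∧ ∃ a ∈ L, ∃ c ∈ L, a ≠ c ∧ us σ v a = 1 ∧ us σ v c = 1) :
    ∀ w, P w → w ∈ L := by
  refine h.closed (W := fun v => v ∈ L) (hL _ hv0).1 hv0 ?_
  intro v _ hvL w hw
  obtain ⟨-, a, ha, c, hc, hac, h1, h2⟩ := hL v hvL
  rw [us_eq_one] at h1 h2 hw
  rcases h1 with rfl | rfl <;> rcases h2 with rfl | rfl <;> rcases hw with rfl | rfl <;>
    first | assumption | exact absurd rfl hac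

end Use

end Pool.Agent.T9h21.TB
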