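import Mathlib

/-!
# Exchanging pieces of a graph
-/

set_option autoImplicit false

namespace Pool.Agent.T9h21.TB

section

variable {V : Type}

/-- A vertex of odd degree is connected to another one. -/
theorem odd_reach (H : SimpleGraph V) (S : Set V) (hS : S.Finite)
    (hH : ∀ v w, H.Adj v w → v ∈ S) {a : V} (ha : Odd (H.neighborSet a).ncard) :
    ∃ w, w ≠ a ∧ H.Reachable a w ∧ Odd (H.neighborSet w).ncard := by
  classical
  have hT : {v | v ∈ S ∧ H.Reachable a v}.Finite := hS.subset fun v hv => hv.1
  set T : Set V := {v | v ∈ S ∧ H.Reachable a v} with hTdef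
  have : Fintype T := hT.fintype
  have haS : a ∈ S := by
    have h1 : (H.neighborSet a).Nonempty := by
      by_contra h
      rw [Set.not_nonempty_iff_eq_empty] at h
      rw [h] at ha
      simp at ha
    obtain ⟨w, hw⟩ := h1
    exact hH a w hw
  have hdeg : ∀ x : T, ((H.induce T).degree x) = (H.neighborSet x).ncard := by
    intro x
    rw [← SimpleGraph.card_neighborFinset_eq_degree]
    have h1 : (H.neighborSet (x : V)) = Subtype.val '' ((H.induce T).neighborSet x) := by
      ext w
      simp only [SimpleGraph.mem_neighborSet, Set.mem_image, SimpleGraph.comap_adj,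
        Function.Embedding.subtype_apply, Subtype.exists, exists_and_right, exists_eq_right]
      constructor
      · intro hw
        exact ⟨⟨hH _ _ hw.symm, x.2.2.trans hw.reachable⟩, hw⟩
      · rintro ⟨_, hw⟩; exact hw
    rw [h1, Set.ncard_image_of_injective _ Subtype.val_injective, ← Set.ncard_coe_finset,
      SimpleGraph.coe_neighborFinset]
  obtain ⟨w, hw1, hw2⟩ := SimpleGraph.exists_ne_odd_degree_of_exists_odd_degree
    (G := H.induce T) ⟨a, haS, SimpleGraph.Reachable.refl _⟩ (by rw [hdeg]; exact ha)
  refine ⟨w, fun h => hw1 (Subtype.ext h), w.2.2, ?_⟩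
  rw [← hdeg]
  exact hw2

/-- The exchange of the connections of four terminals. -/
theorem exch {G G' H : SimpleGraph V} {W : V → Prop} {a b c d : V} (hG : H ≤ G) (hG' : H ≤ G')
    (hGH : ∀ v w, G.Adj v w → H.Adj v w ∨ (W v ∧ W w))
    (h1 : ∃ w, (w = b ∨ w = c ∨ w = d) ∧ H.Reachable a w)
    (hab : G.Reachable a b) (hcd : G.Reachable c d) (hac : G'.Reachable a c)
    (hbd : G'.Reachable b d)
    (hW : ∀ w, W w → G'.Reachable a w ∨ G'.Reachable b w ∨ G'.Reachable c w ∨ G'.Reachable d w) :
    G.Reachable a c ∨ (G'.Reachable a c ∧ G'.Reachable a b ∧ ∀ v w, G.Reachable v w →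
      G'.Reachable v w) := by
  by_cases h : G.Reachable a c
  · exact Or.inl h
  right
  have hHb : H.Reachable a b := by
    obtain ⟨w, rfl | rfl | rfl, hw⟩ := h1
    · exact hw
    · exact absurd (hw.mono hG) h
    · exact absurd ((hw.mono hG).trans hcd.symm) h
  have hb : G'.Reachable a b := hHb.mono hG'
  have hWa : ∀ w, W w → G'.Reachable a w := by
    intro w hw
    rcases hW w hw with h2 | h2 | h2 | h2
    · exact h2
    · exact hb.trans h2
    · exact hac.trans h2
    · exact (hb.trans hbd).trans h2
  refine ⟨hac, hb, fun v w hvw => ?_⟩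
  obtain ⟨p⟩ := hvw
  induction p with
  | nil => exact SimpleGraph.Reachable.refl _
  | cons hadj _ ih =>
    refine SimpleGraph.Reachable.trans ?_ ih
    rcases hGH _ _ hadj with h2 | ⟨h2, h3⟩
    · exact (hG' h2).reachable
    · exact (hWa _ h2).symm.trans (hWa _ h3)

end

end Pool.Agent.T9h21.TB
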