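import Mathlib

/-!
# Boards: a packing of circles along lines, and their contacts

A board has `2 h + 2` rows; row `i` is the horizontal line `y = -36 i`.  Along each row there are
stations; at a station of size `a` and abscissa `x` there are two circles of radius `a ^ 2` that
touch the line at `x`, one from above and one from below.  Stations of size `3` are called wires;
the other stations also carry a point on the line.
-/

set_option autoImplicit false

namespace Pool.Agent.T9h21.TB

/-- Types of the segments between two wires: first, literal, last, ordinary. -/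
inductive FT
  | F | L | E | O
  deriving DecidableEq

instance : Fintype FT := ⟨{.F, .L, .E, .O}, fun t => by cases t <;> decide⟩

/-- the number of stations of a segment -/
def FT.len : FT → ℕ
  | .F => 12
  | .E => 12
  | .L => 2
  | .O => 11

/-- the offset of the stations of a segment; station `0` is the wire at its left end -/
def FT.off : FT → ℕ → ℤ
  | _, 0 => 0
  | .F, 1 => 2
  | .F, k + 2 => 2 * k + 6
  | .E, k + 1 => if k = 11 then 30 else 2 * k + 6
  | .L, k + 1 => 8 * k + 12
  | .O, k + 1 => 2 * k + 6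

/-- the size of the stations of a segment -/
def FT.sz : FT → ℕ → ℤ
  | _, 0 => 3
  | .F, k + 1 => if k = 0 then 2 else 1
  | .E, k + 1 => if k = 11 then 2 else 1
  | .L, _ + 1 => 2
  | .O, _ + 1 => 1

theorem ft_range : ∀ t : FT, ∀ k : Fin 13, k.val ≤ t.len → 0 ≤ t.off k ∧ t.off k ≤ 30 ∧
    1 ≤ t.sz k ∧ t.sz k ≤ 3 ∧ (0 < k.val → 2 ≤ t.off k ∧ t.sz k ≤ 2) := by decide

theorem ft_same : ∀ t : FT, ∀ k k' : Fin 13, k.val < k'.val → k'.val ≤ t.len →
    (k.val = 0 → t ≠ .F) → 2 * t.sz k * t.sz k' ≤ t.off k' - t.off k ∧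
    (t.off k' - t.off k ≤ 2 * t.sz k * t.sz k' → k'.val = k.val + 1) := by decide

theorem ft_next : ∀ t t' : FT, ∀ k k' : Fin 13, k.val ≤ t.len → k'.val ≤ t'.len → t ≠ .E →
    t' ≠ .F → (k.val = 0 → t ≠ .F) →
    2 * t.sz k * t'.sz k' ≤ 32 + t'.off k' - t.off k ∧
    (32 + t'.off k' - t.off k ≤ 2 * t.sz k * t'.sz k' → k.val = t.len ∧ k'.val = 0) := by decide

theorem ft_step : ∀ t : FT, ∀ k : Fin 13, k.val < t.len → (k.val = 0 → t ≠ .F) →
    t.off (k.val + 1) - t.off k = 2 * t.sz k * t.sz (k.val + 1) := by decide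

theorem ft_last : ∀ t : FT, t ≠ .E → 32 - t.off t.len = 2 * t.sz t.len * 3 := by decide

theorem ft_len : ∀ t : FT, 2 ≤ t.len ∧ t.len ≤ 12 := by decide

theorem ft_mono : ∀ t : FT, ∀ k k' : Fin 13, k.val < k'.val → k'.val ≤ t.len →
    t.off k < t.off k' := by decide

theorem ft_zero : ∀ t : FT, t.off 0 = 0 ∧ t.sz 0 = 3 := by decide

theorem ft_F : ∀ k : Fin 13, 1 ≤ k.val → (k.val = 1 ∧ FT.F.off k = 2 ∧ FT.F.sz k = 2) ∨
    (6 ≤ FT.F.off k ∧ FT.F.sz k = 1) := by decide

theorem ft_E : ∀ k : Fin 13, (k.val = 12 ∧ FT.E.off k = 30 ∧ FT.E.sz k = 2) ∨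
    (0 < k.val ∧ FT.E.off k ≤ 26 ∧ FT.E.sz k = 1) ∨
    (k.val = 0 ∧ FT.E.off k = 0 ∧ FT.E.sz k = 3) := by decide

/-- A board: it has `2 h + 2` rows and `M` pairs of wires; `lit i c` tells whether the segment of
row `i` between the two wires of pair `c` is literal, `blk i c` whether these wires are blocked
(they carry a point on the line, too). -/
structure Board where
  h : ℕ
  M : ℕ
  lit : ℕ → ℕ → Bool
  blk : ℕ → ℕ → Bool

namespace Board

variable (b : Board)

/-- the number of rows -/
def H : ℕ := 2 * b.h + 2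

/-- the type of segment `n` of row `i` -/
def ty (i n : ℕ) : FT :=
  if n = 0 then .F else if n = 2 * b.M then .E else
    if n % 2 = 1 ∧ b.lit i (n / 2) = true then .L else .O

/-- the number of stations of segment `n` of row `i` -/
def len (i n : ℕ) : ℕ := (b.ty i n).len

/-- the size of a station -/
def sz (i n k : ℕ) : ℤ := (b.ty i n).sz k

/-- the abscissa of a station -/
def xx (i n k : ℕ) : ℤ := 32 * n + (b.ty i n).off k

end Board

/-- The nodes of a board: the two circles of the stations (`true` is above the line), the points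
between them, the ends of the rows and the connections of the ends of consecutive rows, and the
points that activate a pair of wires below a row. -/
inductive Nd
  | X (i n k : ℕ) (s : Bool)
  | Q (i n k : ℕ)
  | S (i : ℕ) (r : Bool)
  | C (i : ℕ) (r : Bool)
  | T (i : ℕ) (r : Bool)
  | A (e c : ℕ)
  deriving DecidableEq

/-- the sign of a side -/
def sg (s : Bool) : ℤ := if s then 1 else -1

namespace Board

variable (b : Board)

/-- the abscissa of a node -/
def px : Nd → ℤ
  | .X i n k _ => b.xx i n k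
  | .Q i n k => b.xx i n k
  | .S _ r => if r then 64 * b.M + 33 else -1
  | .C _ r => if r then 64 * b.M + 51 else -19
  | .T _ r => if r then 64 * b.M + 51 else -19
  | .A _ c => 64 * c + 32

/-- the ordinate of a node -/
def py : Nd → ℤ
  | .X i n k s => -36 * i + sg s * b.sz i n k ^ 2
  | .Q i _ _ => -36 * i
  | .S i _ => -36 * i
  | .C i _ => -36 * i
  | .T i _ => -36 * i - 18
  | .A e _ => -36 * e - 18

/-- the position of a node -/
def pos (v : Nd) : ℤ × ℤ := (b.px v, b.py v)

/-- the radius of a node -/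
def rad : Nd → ℤ
  | .X i n k _ => b.sz i n k ^ 2
  | .Q _ _ _ => 0
  | .S _ _ => 1
  | .C _ _ => 17
  | .T _ _ => 1
  | .A _ _ => 0

/-- The nodes that are present, if the pairs `c` with `act e c` are activated below row `e`. -/
def Val (act : ℕ → ℕ → Bool) : Nd → Prop
  | .X i n k _ => i < b.H ∧ n ≤ 2 * b.M ∧ k ≤ b.len i n ∧ (k = 0 → 1 ≤ n)
  | .Q i n k => i < b.H ∧ n ≤ 2 * b.M ∧ k ≤ b.len i n ∧
      (k = 0 → 1 ≤ n ∧ b.blk i ((n - 1) / 2) = true)
  | .S i _ => i < b.H
  | .C i _ => i < b.H
  | .T i _ => i < b.H ∧ i % 2 = 0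
  | .A e c => e ≤ 2 * b.h ∧ c < b.M ∧ act e c = true

/-- the square of the distance of two nodes -/
def d2 (v w : Nd) : ℤ := (b.px v - b.px w) ^ 2 + (b.py v - b.py w) ^ 2

/-- the circles of the two nodes are disjoint or touch -/
def Sep (v w : Nd) : Prop := (b.rad v + b.rad w) ^ 2 ≤ b.d2 v w

/-- the circles of the two nodes intersect or touch -/
def Tight (v w : Nd) : Prop := b.d2 v w ≤ (b.rad v + b.rad w) ^ 2

theorem d2_comm (v w : Nd) : b.d2 v w = b.d2 w v := by unfold d2; ring

theorem Sep.symm {b : Board} {v w : Nd} (h : b.Sep v w) : b.Sep w v := by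
  unfold Sep at *; rw [d2_comm, add_comm]; exact h

theorem Tight.symm {b : Board} {v w : Nd} (h : b.Tight v w) : b.Tight w v := by
  unfold Tight at *; rw [d2_comm, add_comm]; exact h

end Board

end Pool.Agent.T9h21.TB
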