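import Pool.Agent.T9h21.TB.Grid

/-!
# Circuits for tours in a square grid
-/

set_option autoImplicit false
set_option linter.unusedVariables false

namespace Pool.Agent.T9h21.TB

open Pool.Agent.ETSP Pool.Agent.W969.MC Pool.Agent.H560R2

namespace Pm

variable {P : Pm}

theorem xs_mono {y y' : Fin P.J → Set (Fin P.M × (Fin P.a → Fin P.t → Bool))}
    (h : ∀ j, y j ⊆ y' j) {c e : ℕ} (hx : P.xs y c e = true) : P.xs y' c e = true := by
  simp only [xs, decide_eq_true_eq] at hx ⊢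
  rcases hx with hx | ⟨j, i, σ, h1, h2⟩
  · exact Or.inl hx
  · exact Or.inr ⟨j, i, σ, h j h1, h2⟩

theorem ac_mono {F : Fm} {x x' : ℕ → ℕ → Bool} {e c : ℕ} (h : x (c / 9) e = true → x' (c / 9) e = true)
    (hx : F.ac x e c = true) : F.ac x' e c = true := by
  unfold Fm.ac at hx ⊢
  rw [Bool.and_eq_true, Bool.and_eq_true] at hx ⊢
  exact ⟨hx.1, h hx.2.1, hx.2.2⟩

/-- A pair of column and row depends on at most one constraint. -/
theorem xs_dep (J : Fin P.J) (c e : ℕ) :
    ∃ T' : Finset (Fin P.M × (Fin P.a → Fin P.t → Bool)), T'.card ≤ 1 ∧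
      ∀ (y : Fin P.J → Set (Fin P.M × (Fin P.a → Fin P.t → Bool)))
        (x x' : Set (Fin P.M × (Fin P.a → Fin P.t → Bool))), (∀ u ∈ T', u ∈ x → u ∈ x') →
        P.xs (Function.update y J x) c e = true → P.xs (Function.update y J x') c e = true := by
  classical
  by_cases hq : ∃ i σ, c = P.G + P.enc σ ∧ e + 1 = P.base (P.bi J i) + P.w
  · obtain ⟨i, σ, h1, h2⟩ := hq
    refine ⟨{(i, σ)}, by simp, fun y x x' h hx => ?_⟩
    simp only [xs, decide_eq_true_eq] at hx ⊢
    rcases hx with hx | ⟨j, i', σ', h3, h4, h5⟩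
    · exact Or.inl hx
    · right
      by_cases hj : j = J
      · subst hj
        have h6 : i' = i := by
          have := (base_uniq (P := P) (j := j) (i := i') (j' := j) (i' := i) (r := P.w) (r' := P.w)
            (by omega) (by omega) (by omega)).2.1
          exact this
        subst h6
        have h7 : σ' = σ := enc_inj (by omega)
        subst h7
        refine ⟨j, i', σ', ?_, h4, h5⟩
        rw [Function.update_self] at h3 ⊢
        exact h _ (Finset.mem_singleton_self _) h3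
      · refine ⟨j, i', σ', ?_, h4, h5⟩
        rw [Function.update_of_ne hj] at h3 ⊢
        exact h3
  · refine ⟨∅, by simp, fun y x x' _ hx => ?_⟩
    simp only [xs, decide_eq_true_eq] at hx ⊢
    rcases hx with hx | ⟨j, i', σ', h3, h4, h5⟩
    · exact Or.inl hx
    · right
      by_cases hj : j = J
      · subst hj
        exact absurd ⟨i', σ', h4, h5⟩ hq
      · refine ⟨j, i', σ', ?_, h4, h5⟩
        rw [Function.update_of_ne hj] at h3 ⊢
        exact h3

/-- the lower bound with integer parameters -/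
theorem grid_param (P : Pm) {b s w : ℕ} (hG : Good P.h (Fin P.t → Bool) b s w) {N : ℕ}
    (h1 : 64 * P.fm.board.M + 71 ≤ N) (h2 : 72 * P.fm.board.h + 55 ≤ N)
    {S : ℕ} {T : Finset (Fin S)} {wd : Fin S → ℕ}
    {a : ∀ i, Fin (wd i) → (Fin N × Fin N) ⊕ Fin S}
    {op : ∀ i, (Fin (wd i) → ℝ) → ℝ} {θ : ∀ i, Fin (wd i) → ℝ}
    {val : (Fin N × Fin N → Bool) → Fin S → ℝ}
    (htop : ∀ i j k, a i j = Sum.inr k → k < i)
    (hmon : ∀ i ∉ T, wd i ≤ 2 ∧ Monotone (op i))
    (hT : ∀ i ∈ T, ∀ z z' : Fin (wd i) → ℝ, (∀ j, θ i j ≤ z j ↔ θ i j ≤ z' j) → op i z = op i z')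
    (hval : ∀ x i, val x i = op i (fun j => Sum.elim (bit x) (val x) (a i j)))
    (o : Fin S) (τ : ℝ)
    (hlo : ∀ x, (∃ L, Lists x L ∧ gtl L ≤ P.fm.board.bd) → val x o < τ)
    (hhi : ∀ x, (∀ L, Lists x L → (P.fm.board.bd : ℝ) + 1 / 69 ≤ gtl L) → τ ≤ val x o)
    (hlen : S + ∑ i ∈ T, wd i ≤ (2 ^ P.t + 1) ^ P.m)
    (hlt : 8 * (S + ∑ i ∈ T, wd i) * 2 ^ (w / (2 * b) / b + 1) <
      (2 ^ P.t) ^ (w / (2 * b) / b + 1)) :
    P.J < ∏ i ∈ T, (wd i + 1) := by
  classical
  have hΛ : Fintype.card (Fin P.t → Bool) = 2 ^ P.t := by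
    rw [Fintype.card_fun, Fintype.card_bool, Fintype.card_fin]
  have hne : Nonempty (Fin P.a) := by
    have := hG.hA
    exact Fintype.card_pos_iff.mp (by omega)
  have hM : 1 ≤ P.fm.board.M := Fm.one_le_M
  refine csp_real_dual hG (m' := P.J) htop hmon hT hval o τ
    (fun y => P.fm.board.cells N (P.fm.ac (P.xs y))) ?_ ?_ ?_ ?_ ?_
  · intro y y' hy
    exact Board.cells_mono (fun e c h => ac_mono (fun h => xs_mono hy h) h) N
  · intro y
    have hs := sat_iff (P := P) y
    constructor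
    · intro h
      by_contra hcon
      push Not at hcon
      rw [← hs] at hcon
      obtain ⟨L, h3⟩ := Fm.tour_of_sat P.ok hcon
      have h4 := (Board.grid_iff (act := P.fm.ac (P.xs y)) h1 h2
        (fun z => z ≤ P.fm.board.bd)).2 ⟨L, h3⟩
      exact absurd h (not_le.2 (hlo _ h4))
    · rintro ⟨j, hj⟩
      apply hhi
      intro L hL
      by_contra hcon
      push Not at hcon
      have h4 := (Board.grid_iff (act := P.fm.ac (P.xs y)) h1 h2
        (fun z => z < P.fm.board.bd + 1 / 69)).1 ⟨L, hL, hcon⟩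
      have h5 := hs.1 (Fm.sat_of_tour P.ok h4) j
      obtain ⟨p, h6⟩ := h5
      obtain ⟨u, h7, h8⟩ := hj p
      exact h6 u h7 h8
  · intro y J q
    obtain ⟨e0, c0, h3⟩ := Board.cells_dep (b := P.fm.board) hM q
    obtain ⟨T', h4, h5⟩ := xs_dep (P := P) J (c0 / 9) e0
    exact ⟨T', h4, fun x x' h => h3 _ _ (ac_mono (h5 y x x' h))⟩
  · rw [hΛ, Fintype.card_fin]; exact hlen
  · rw [hΛ]; exact hlt

end Pm

end Pool.Agent.T9h21.TB
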