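import Pool.Agent.T9h21.TB.GridC

/-!
# The lower bound for circuits for tours in a square grid
-/

set_option autoImplicit false
set_option linter.unusedVariables false

namespace Pool.Agent.T9h21.TB

open Pool.Agent.ETSP Pool.Agent.W969.MC Pool.Agent.H560R2

theorem ev_sq (C : ℕ) : ∃ t0 : ℕ, ∀ t ≥ t0, C * (t + 1) ^ 2 ≤ 2 ^ t := by
  have h1 := tendsto_pow_const_div_const_pow_of_one_lt 2 (one_lt_two (α := ℝ))
  have h2 : ∀ᶠ n : ℕ in Filter.atTop, (n : ℝ) ^ 2 / 2 ^ n < 1 / (4 * (C + 1)) :=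
    h1.eventually (gt_mem_nhds (by positivity))
  obtain ⟨t0, h3⟩ := Filter.eventually_atTop.1 h2
  refine ⟨max t0 1, fun t ht => ?_⟩
  have h4 := h3 t ((le_max_left _ _).trans ht)
  have h5 : 1 ≤ t := (le_max_right _ _).trans ht
  rw [div_lt_div_iff₀ (by positivity) (by positivity)] at h4
  have h6 : ((t : ℝ) + 1) ^ 2 ≤ 4 * (t : ℝ) ^ 2 := by
    have : (1 : ℝ) ≤ t := by exact_mod_cast h5
    nlinarith
  have h7 : (C : ℝ) * ((t : ℝ) + 1) ^ 2 ≤ 2 ^ t := by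
    have h8 : (0 : ℝ) ≤ C := Nat.cast_nonneg _
    nlinarith [mul_le_mul_of_nonneg_left h6 h8, sq_nonneg (t : ℝ)]
  exact_mod_cast h7

theorem fm_M (P : Pm) : P.fm.board.M = 9 * (P.G + 2 ^ P.w) + 6 := rfl

theorem fm_h (P : Pm) : P.fm.board.h = P.RT := rfl

theorem ar1 {q m y z : ℕ} (hq : 1 ≤ q) (hm : 0 < m) (h : y ≤ q) (hz : z = q ^ 5 * m) :
    64 * (9 * (2 * ((q * (2 * m)) * y) + z) + 6) + 71 ≤ 4096 * z := by
  subst hz
  have k3 : (q * (2 * m)) * y ≤ 2 * (q ^ 2 * m) := by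
    calc (q * (2 * m)) * y ≤ (q * (2 * m)) * q := Nat.mul_le_mul_left _ h
      _ = 2 * (q ^ 2 * m) := by ring
  have k4 : q ^ 2 * m ≤ q ^ 5 * m :=
    Nat.mul_le_mul_right _ (Nat.pow_le_pow_right hq (by norm_num))
  have k5 : 1 ≤ q ^ 5 * m := Nat.mul_pos (by positivity) hm
  omega

theorem ar2 {q m y t z : ℕ} (hq : 1 ≤ q) (hm : 0 < m) (h : y + 2 ≤ q) (ht : t ≤ q)
    (hz : z = q ^ 5 * m) :
    72 * (1 + q * m * t + q * (2 * m) * (y + 2)) + 55 ≤ 4096 * z := by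
  subst hz
  have k3 : (q * (2 * m)) * (y + 2) ≤ 2 * (q ^ 2 * m) := by
    calc (q * (2 * m)) * (y + 2) ≤ (q * (2 * m)) * q := Nat.mul_le_mul_left _ h
      _ = 2 * (q ^ 2 * m) := by ring
  have k3' : q * m * t ≤ q ^ 2 * m := by
    calc q * m * t ≤ q * m * q := Nat.mul_le_mul_left _ ht
      _ = q ^ 2 * m := by ring
  have k4 : q ^ 2 * m ≤ q ^ 5 * m :=
    Nat.mul_le_mul_right _ (Nat.pow_le_pow_right hq (by norm_num))
  have k5 : 1 ≤ q ^ 5 * m := Nat.mul_pos (by positivity) hm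
  omega

theorem ar3 {b t q m w : ℕ} (hb : 4 ≤ b) (ht : 5 ≤ t) (hq : q = 2 ^ t)
    (hm : m = 2 ^ ((b - 3) * t)) (hw : w ≤ m) (h : 1024 * b * (t + 1) ^ 2 ≤ q) :
    256 * (q * ((2 * (m * Nat.clog 2 (q + 1)) + 2) * (Nat.log 2 w + 1))) ≤ q * (q * m) := by
  have hm0 : 0 < m := by rw [hm]; positivity
  have k1 : Nat.clog 2 (q + 1) ≤ t + 1 := by
    apply Nat.clog_le_of_le_pow
    rw [hq, pow_succ]
    have := Nat.one_le_two_pow (n := t)
    omega
  have k2 : Nat.log 2 w ≤ b * t := by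
    calc Nat.log 2 w ≤ Nat.log 2 m := Nat.log_mono_right hw
      _ = (b - 3) * t := by rw [hm, Nat.log_pow (by norm_num)]
      _ ≤ b * t := Nat.mul_le_mul_right _ (by omega)
  have k3 : 2 * (m * Nat.clog 2 (q + 1)) + 2 ≤ 4 * m * (t + 1) := by
    have k5 : m * Nat.clog 2 (q + 1) ≤ m * (t + 1) := Nat.mul_le_mul_left _ k1
    have k6 : 1 ≤ m * (t + 1) := Nat.mul_pos hm0 (by omega)
    have k7 : 4 * m * (t + 1) = 4 * (m * (t + 1)) := by ring
    omega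
  have k4 : Nat.log 2 w + 1 ≤ b * (t + 1) := by
    rw [Nat.mul_add]
    omega
  calc 256 * (q * ((2 * (m * Nat.clog 2 (q + 1)) + 2) * (Nat.log 2 w + 1)))
      ≤ 256 * (q * ((4 * m * (t + 1)) * (b * (t + 1)))) :=
        Nat.mul_le_mul_left _ (Nat.mul_le_mul_left _ (Nat.mul_le_mul k3 k4))
    _ = q * m * (1024 * b * (t + 1) ^ 2) := by ring
    _ ≤ q * m * q := Nat.mul_le_mul_left _ h
    _ = q * (q * m) := by ring

/-- the numbers for the lower bound -/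
theorem pars (b : ℕ) (hb : 4 ≤ b) : ∃ K t0 : ℕ, 0 < K ∧ ∀ t ≥ t0, 5 ≤ t ∧ K ≤ 2 ^ t ∧
    ∃ (P : Pm) (s w : ℕ), Good P.h (Fin P.t → Bool) b s w ∧ P.t = t ∧ P.J = 2 ^ t ∧
      P.m = 2 ^ ((b - 3) * t) ∧ 64 * P.fm.board.M + 71 ≤ 4096 * 2 ^ ((b + 2) * t) ∧
      72 * P.fm.board.h + 55 ≤ 4096 * 2 ^ ((b + 2) * t) ∧
      P.m ≤ K * (w / (2 * b) / b + 1) ∧ w / (2 * b) / b + 1 ≤ P.m := by
  obtain ⟨t1, h1⟩ := ev_sq (1024 * b)
  obtain ⟨t2, h2⟩ := ev_sq (36 * 3 ^ b * b ^ 2 * (b * (b + 2) + 1) + 72 * 3 ^ b * b ^ 4)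
  refine ⟨72 * 3 ^ b * b ^ 4, max (max t1 t2) 5, by positivity, fun t ht => ?_⟩
  have g1 := h1 t ((le_max_left _ _).trans ((le_max_left _ _).trans ht))
  have g2 := h2 t ((le_max_right _ _).trans ((le_max_left _ _).trans ht))
  have g3 : 5 ≤ t := (le_max_right _ _).trans ht
  set q := 2 ^ t with hq
  have hq32 : 32 ≤ q := by
    rw [hq]
    calc 32 = 2 ^ 5 := by norm_num
      _ ≤ 2 ^ t := Nat.pow_le_pow_right (by norm_num) g3
  have ht1 : 1 ≤ (t + 1) ^ 2 := Nat.one_le_pow _ _ (by omega)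
  have g4 : 36 * 3 ^ b * b ^ 2 * (b * (b + 2) + 1) + 72 * 3 ^ b * b ^ 4 ≤ q :=
    le_trans (Nat.le_mul_of_pos_right _ (by positivity)) g2
  set m := 2 ^ ((b - 3) * t) with hm
  have hmq : m = q ^ (b - 3) := by rw [hm, hq, ← pow_mul, Nat.mul_comm]
  have hqm : q ≤ m := by
    rw [hmq]
    exact Nat.le_self_pow (by omega) q
  have hm0 : 0 < m := by omega
  set D := 18 * 3 ^ b * b ^ 2 with hD
  have hD0 : 0 < D := by rw [hD]; positivity
  set s := m / D with hs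
  set w := s / 2 with hw
  have e1 : D * s ≤ m := Nat.mul_div_le _ _
  have e2 : m < D * (s + 1) := Nat.lt_mul_div_succ m hD0
  have e3 : 2 * w ≤ s := Nat.mul_div_le _ _
  have e4 : s < 2 * (w + 1) := Nat.lt_mul_div_succ s (by norm_num)
  have hww : b * (b + 2) ≤ w := by
    have k1 : 2 * D * (b * (b + 2) + 1) ≤ m := by
      have : 2 * D * (b * (b + 2) + 1) = 36 * 3 ^ b * b ^ 2 * (b * (b + 2) + 1) := by
        rw [hD]; ring
      omega
    have k2 : 2 * (b * (b + 2) + 1) ≤ s := by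
      rw [hs, Nat.le_div_iff_mul_le hD0]
      calc 2 * (b * (b + 2) + 1) * D = 2 * D * (b * (b + 2) + 1) := by ring
        _ ≤ m := k1
    omega
  obtain ⟨h, hE⟩ := exists_expd (A := Fin (b + 2)) b s m (2 * m) (by omega) (by simp)
    (by rw [← hD]; exact e1) (by omega) hm0
  have hΛ : Fintype.card (Fin t → Bool) = q := by
    rw [Fintype.card_fun, Fintype.card_bool, Fintype.card_fin]
  have hb3 : q ^ (b - 1) = q * (q * m) := by
    rw [hmq, show b - 1 = (b - 3) + 1 + 1 by omega, pow_succ, pow_succ]; ring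
  have hwm : w + 1 ≤ m := by
    have : s ≤ m := Nat.div_le_self _ _
    omega
  have k1 : (b + 2) * t + 2 ≤ q := by
    calc (b + 2) * t + 2 ≤ (b + 2) * (t + 1) := by rw [Nat.mul_add]; omega
      _ ≤ (1024 * b) * (t + 1) ^ 2 :=
        Nat.mul_le_mul (by omega) (Nat.le_self_pow (by norm_num) _)
      _ ≤ q := g1
  have k2 : 2 ^ ((b + 2) * t) = q ^ 5 * m := by
    rw [hmq, hq, ← pow_mul, ← pow_mul, ← pow_add]
    congr 1
    have : b + 2 = 5 + (b - 3) := by omega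
    rw [this]; ring
  have htq : t ≤ q := by
    rw [hq]
    exact Nat.lt_two_pow_self.le
  have hwm1 : w ≤ m := by omega
  have hq1 : 1 ≤ q := by omega
  have hbq : (b + 2) * t ≤ q := by omega
  refine ⟨g3, ?_, ⟨2 ^ t, m, 2 * m, b + 2, t, h⟩, s, w, ?_, rfl, rfl, rfl, ?_, ?_, ?_, ?_⟩
  · omega
  · refine ⟨by omega, by simp, hE, hww, e3, by simpa using hm0, by simp, ?_, ?_⟩
    · rw [hΛ]; omega
    · rw [hΛ, Fintype.card_fin, hb3]
      exact ar3 hb g3 hq hm hwm1 g1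
  · rw [fm_M]
    exact ar1 hq1 hm0 hbq k2
  · rw [fm_h]
    exact ar2 hq1 hm0 k1 htq k2
  · change m ≤ 72 * 3 ^ b * b ^ 4 * (w / (2 * b) / b + 1)
    rw [Nat.div_div_eq_div_mul]
    have k1 : w < 2 * b * b * (w / (2 * b * b) + 1) := Nat.lt_mul_div_succ w (by positivity)
    set j0 := w / (2 * b * b) + 1 with hj0
    have k2 : s + 1 ≤ 2 * (2 * b * b * j0) := by omega
    calc m ≤ D * (s + 1) := e2.le
      _ ≤ D * (2 * (2 * b * b * j0)) := Nat.mul_le_mul_left _ k2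
      _ = 72 * 3 ^ b * b ^ 4 * j0 := by rw [hD]; ring
  · change w / (2 * b) / b + 1 ≤ m
    have : w / (2 * b) / b ≤ w := (Nat.div_le_self _ _).trans (Nat.div_le_self _ _)
    omega

end Pool.Agent.T9h21.TB
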