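import Pool.Agent.T9h21.TB.GridM

/-!
# The lower bound for circuits for tours in a square grid: conclusion
-/

set_option autoImplicit false
set_option linter.unusedVariables false

namespace Pool.Agent.T9h21.TB

open Pool.Agent.ETSP Pool.Agent.W969.MC Pool.Agent.H560R2

theorem numY {ε : ℝ} (hε : 0 < ε) (hε1 : ε ≤ 1) {b C1 K N t m j0 : ℕ} (hb4 : 4 ≤ b)
    (hbε : 6 ≤ ε * ((b : ℝ) + 2)) (hC10 : 0 < C1) (hK : 0 < K)
    (hupp : N < C1 * 2 ^ ((b + 2) * t)) (hPm : m = 2 ^ ((b - 3) * t)) (f3 : m ≤ K * j0)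
    (hq : 2 * C1 * K ≤ 2 ^ t) : Real.exp ((N : ℝ) ^ (1 - ε)) ≤ (2 : ℝ) ^ j0 := by
  have h1 : (N : ℝ) ≤ C1 * (2 : ℝ) ^ (((b : ℝ) + 2) * t) := by
    have : (N : ℝ) ≤ C1 * 2 ^ ((b + 2) * t) := by exact_mod_cast hupp.le
    refine this.trans (le_of_eq ?_)
    rw [← Real.rpow_natCast]
    push_cast
    ring_nf
  have h2 : (N : ℝ) ^ (1 - ε) ≤ C1 * (2 : ℝ) ^ (((b : ℝ) - 4) * t) := by
    calc (N : ℝ) ^ (1 - ε) ≤ (C1 * (2 : ℝ) ^ (((b : ℝ) + 2) * t)) ^ (1 - ε) :=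
          Real.rpow_le_rpow (Nat.cast_nonneg _) h1 (by linarith)
      _ = (C1 : ℝ) ^ (1 - ε) * (2 : ℝ) ^ ((((b : ℝ) + 2) * t) * (1 - ε)) := by
          rw [Real.mul_rpow (Nat.cast_nonneg _) (by positivity), ← Real.rpow_mul (by norm_num)]
      _ ≤ (C1 : ℝ) ^ (1 : ℝ) * (2 : ℝ) ^ (((b : ℝ) - 4) * t) := by
          apply mul_le_mul
          · apply Real.rpow_le_rpow_of_exponent_le _ (by linarith)
            exact_mod_cast hC10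
          · apply Real.rpow_le_rpow_of_exponent_le (by norm_num)
            have h3 : (0 : ℝ) ≤ t := Nat.cast_nonneg _
            have h4 : ((b : ℝ) + 2) * (1 - ε) ≤ (b : ℝ) - 4 := by linarith
            calc ((b : ℝ) + 2) * t * (1 - ε) = ((b : ℝ) + 2) * (1 - ε) * t := by ring
              _ ≤ ((b : ℝ) - 4) * t := mul_le_mul_of_nonneg_right h4 h3
          · positivity
          · positivity
      _ = C1 * (2 : ℝ) ^ (((b : ℝ) - 4) * t) := by rw [Real.rpow_one]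
  have h3 : (2 : ℝ) ^ (((b : ℝ) - 4) * t) * 2 ^ t = m := by
    rw [hPm, Nat.cast_pow, Nat.cast_ofNat, ← Real.rpow_natCast, ← Real.rpow_natCast,
      ← Real.rpow_add (by norm_num)]
    congr 1
    rw [Nat.cast_mul, Nat.cast_sub (by omega)]
    push_cast
    ring
  have h4 : (m : ℝ) ≤ K * j0 := by exact_mod_cast f3
  have h5 : (2 : ℝ) * C1 * K ≤ 2 ^ t := by exact_mod_cast hq
  have h6 : (0 : ℝ) < K := by exact_mod_cast hK
  have h7 : (0 : ℝ) < (2 : ℝ) ^ (((b : ℝ) - 4) * t) := by positivity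
  have h8 : (2 : ℝ) ^ (((b : ℝ) - 4) * t) * (2 * C1 * K) ≤ K * j0 := by
    calc (2 : ℝ) ^ (((b : ℝ) - 4) * t) * (2 * C1 * K) ≤ (2 : ℝ) ^ (((b : ℝ) - 4) * t) * 2 ^ t :=
          mul_le_mul_of_nonneg_left h5 h7.le
      _ = m := h3
      _ ≤ K * j0 := h4
  have h9 : C1 * (2 : ℝ) ^ (((b : ℝ) - 4) * t) ≤ (j0 : ℝ) / 2 := by
    rw [le_div_iff₀ (by norm_num)]
    refine le_of_mul_le_mul_left ?_ h6
    calc (K : ℝ) * (C1 * (2 : ℝ) ^ (((b : ℝ) - 4) * t) * 2) =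
          (2 : ℝ) ^ (((b : ℝ) - 4) * t) * (2 * C1 * K) := by ring
      _ ≤ K * j0 := h8
  have hY : (N : ℝ) ^ (1 - ε) ≤ (j0 : ℝ) / 2 := h2.trans h9
  have e1 : (2 : ℝ) ^ j0 = Real.exp (Real.log 2 * j0) := by
    rw [← Real.rpow_natCast, Real.rpow_def_of_pos (by norm_num : (0 : ℝ) < 2) (j0 : ℝ)]
  rw [e1]
  apply Real.exp_le_exp.mpr
  have e2 := Real.log_two_gt_d9
  have e3 : (0 : ℝ) ≤ j0 := Nat.cast_nonneg _
  have e4 : (1 / 2 : ℝ) * j0 ≤ Real.log 2 * j0 :=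
    mul_le_mul_of_nonneg_right (by linarith) e3
  linarith

theorem numT {b C1 N t : ℕ} (hb4 : 4 ≤ b) (ht5 : 5 ≤ t) (hC1 : C1 = 4096 * 2 ^ (b + 2))
    (hupp : N < C1 * 2 ^ ((b + 2) * t)) :
    (N : ℝ) ^ (1 / (2 * ((b : ℝ) + 2))) ≤ (2 : ℝ) ^ t := by
  have h2 : (N : ℝ) ≤ (2 : ℝ) ^ (2 * ((b : ℝ) + 2) * t) := by
    have h3 : N ≤ 2 ^ (2 * (b + 2) * t) := by
      refine hupp.le.trans ?_
      have h4 : C1 ≤ 2 ^ ((b + 2) * t) := by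
        rw [hC1]
        calc 4096 * 2 ^ (b + 2) = 2 ^ 12 * 2 ^ (b + 2) := by norm_num
          _ = 2 ^ (12 + (b + 2)) := by rw [← pow_add]
          _ ≤ 2 ^ ((b + 2) * t) := Nat.pow_le_pow_right (by norm_num) (by nlinarith)
      calc C1 * 2 ^ ((b + 2) * t) ≤ 2 ^ ((b + 2) * t) * 2 ^ ((b + 2) * t) :=
            Nat.mul_le_mul_right _ h4
        _ = 2 ^ (2 * (b + 2) * t) := by rw [← pow_add]; congr 1; ring
    have h4 : (N : ℝ) ≤ (2 : ℝ) ^ (2 * (b + 2) * t) := by exact_mod_cast h3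
    refine h4.trans (le_of_eq ?_)
    rw [← Real.rpow_natCast]
    push_cast
    ring_nf
  calc (N : ℝ) ^ (1 / (2 * ((b : ℝ) + 2))) ≤
        ((2 : ℝ) ^ (2 * ((b : ℝ) + 2) * t)) ^ (1 / (2 * ((b : ℝ) + 2))) :=
        Real.rpow_le_rpow (Nat.cast_nonneg _) h2 (by positivity)
    _ = (2 : ℝ) ^ ((t : ℕ) : ℝ) := by
        rw [← Real.rpow_mul (by norm_num)]
        congr 1
        field_simp
    _ = (2 : ℝ) ^ t := Real.rpow_natCast _ _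

theorem numJ {X j0 t : ℕ} (hX : X < 2 ^ j0) (hj : 1 ≤ j0) (ht : 5 ≤ t) :
    8 * X * 2 ^ j0 < (2 ^ t) ^ j0 := by
  calc 8 * X * 2 ^ j0 < 8 * 2 ^ j0 * 2 ^ j0 :=
        Nat.mul_lt_mul_of_pos_right (Nat.mul_lt_mul_of_pos_left hX (by norm_num))
          (by positivity)
    _ = 2 ^ (3 + j0 + j0) := by rw [pow_add, pow_add]; norm_num
    _ ≤ 2 ^ (t * j0) := Nat.pow_le_pow_right (by norm_num) (by nlinarith)
    _ = (2 ^ t) ^ j0 := by rw [pow_mul]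

theorem grid_aux (ε : ℝ) (hε : 0 < ε) (hε1 : ε ≤ 1) :
    ∃ δ : ℝ, 0 < δ ∧ ∃ N0 : ℕ, 1 ≤ N0 ∧ ∀ N : ℕ, N0 ≤ N → ∃ B : ℕ,
      ∀ {S : ℕ} {T : Finset (Fin S)} {wd : Fin S → ℕ}
        {a : ∀ i, Fin (wd i) → (Fin N × Fin N) ⊕ Fin S}
        {op : ∀ i, (Fin (wd i) → ℝ) → ℝ} {θ : ∀ i, Fin (wd i) → ℝ}
        {val : (Fin N × Fin N → Bool) → Fin S → ℝ}
        (_ : ∀ i j k, a i j = Sum.inr k → k < i)
        (_ : ∀ i ∉ T, wd i ≤ 2 ∧ Monotone (op i))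
        (_ : ∀ i ∈ T, ∀ z z' : Fin (wd i) → ℝ, (∀ j, θ i j ≤ z j ↔ θ i j ≤ z' j) →
          op i z = op i z')
        (_ : ∀ x i, val x i = op i (fun j => Sum.elim (bit x) (val x) (a i j)))
        (o : Fin S) (τ : ℝ)
        (_ : ∀ x, (∃ L, Lists x L ∧ gtl L ≤ B) → val x o < τ)
        (_ : ∀ x, (∀ L, Lists x L → (B : ℝ) + 1 / 69 ≤ gtl L) → τ ≤ val x o),
        ((∏ i ∈ T, (wd i + 1) : ℕ) : ℝ) ≤ (N : ℝ) ^ δ →
        Real.exp ((N : ℝ) ^ (1 - ε)) ≤ ((S + ∑ i ∈ T, wd i : ℕ) : ℝ) := by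
  set b : ℕ := ⌈6 / ε⌉₊ + 4 with hb
  have hb4 : 4 ≤ b := by omega
  have hbε : 6 ≤ ε * ((b : ℝ) + 2) := by
    have h1 : 6 / ε ≤ (⌈6 / ε⌉₊ : ℝ) := Nat.le_ceil _
    rw [div_le_iff₀ hε] at h1
    have h2 : (b : ℝ) = ⌈6 / ε⌉₊ + 4 := by rw [hb]; push_cast; ring
    rw [h2]
    nlinarith
  obtain ⟨K, t0, hK, H⟩ := pars b hb4
  set C1 : ℕ := 4096 * 2 ^ (b + 2) with hC1
  have hC10 : 0 < C1 := by rw [hC1]; positivity
  set t1 : ℕ := max t0 (Nat.clog 2 (2 * C1 * K)) with ht1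
  refine ⟨1 / (2 * ((b : ℝ) + 2)), by positivity, 4096 * 2 ^ ((b + 2) * t1), ?_, ?_⟩
  · have : 0 < 2 ^ ((b + 2) * t1) := by positivity
    omega
  intro N hN
  set t : ℕ := Nat.log (2 ^ (b + 2)) (N / 4096) with ht
  have hbase : 1 < 2 ^ (b + 2) := Nat.one_lt_two_pow (by omega)
  have hN1 : 2 ^ ((b + 2) * t1) ≤ N / 4096 := by
    rw [Nat.le_div_iff_mul_le (by norm_num)]
    omega
  have hN0 : N / 4096 ≠ 0 := by
    have : 0 < 2 ^ ((b + 2) * t1) := by positivity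
    omega
  have htt : t1 ≤ t := by
    rw [ht]
    apply Nat.le_log_of_pow_le hbase
    rw [← pow_mul]
    exact hN1
  have hlow : 4096 * 2 ^ ((b + 2) * t) ≤ N := by
    have h1 := Nat.pow_log_le_self (2 ^ (b + 2)) hN0
    rw [← ht, ← pow_mul, Nat.le_div_iff_mul_le (by norm_num)] at h1
    omega
  have hupp : N < C1 * 2 ^ ((b + 2) * t) := by
    have h1 := Nat.lt_pow_succ_log_self hbase (N / 4096)
    rw [← ht, ← pow_mul, Nat.div_lt_iff_lt_mul (by norm_num), Nat.succ_eq_add_one, Nat.mul_add,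
      pow_add, Nat.mul_one] at h1
    rw [hC1]
    calc N < 2 ^ ((b + 2) * t) * 2 ^ (b + 2) * 4096 := h1
      _ = 4096 * 2 ^ (b + 2) * 2 ^ ((b + 2) * t) := by ring
  obtain ⟨ht5, hKt, P, s, w, hG, hPt, hPJ, hPm, f1, f2, f3, f4⟩ := H t ((le_max_left _ _).trans htt)
  set j0 : ℕ := w / (2 * b) / b + 1 with hj0
  have hq : 2 * C1 * K ≤ 2 ^ t := by
    have h1 : Nat.clog 2 (2 * C1 * K) ≤ t := (le_max_right _ _).trans htt
    exact (Nat.le_pow_clog (by norm_num) _).trans (Nat.pow_le_pow_right (by norm_num) h1)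
  refine ⟨P.fm.board.bd, ?_⟩
  intro S T wd a op θ val htop hmon hT hval o τ hlo hhi hprod
  by_contra hcon
  push Not at hcon
  set X : ℕ := S + ∑ i ∈ T, wd i with hX
  have hXj : X < 2 ^ j0 := by
    have h1 := numY hε hε1 hb4 hbε hC10 hK hupp hPm f3 hq
    have h2 : (X : ℝ) < (2 : ℝ) ^ j0 := hcon.trans_le h1
    exact_mod_cast h2
  have hj1 : 1 ≤ j0 := by rw [hj0]; exact Nat.le_add_left _ _
  have g1 : S + ∑ i ∈ T, wd i ≤ (2 ^ P.t + 1) ^ P.m := by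
    calc S + ∑ i ∈ T, wd i ≤ 2 ^ j0 := hXj.le
      _ ≤ 2 ^ P.m := Nat.pow_le_pow_right (by norm_num) f4
      _ ≤ (2 ^ P.t + 1) ^ P.m := Nat.pow_le_pow_left (by
        have := Nat.one_le_two_pow (n := P.t)
        omega) _
  have g2 : 8 * (S + ∑ i ∈ T, wd i) * 2 ^ j0 < (2 ^ P.t) ^ j0 := by
    rw [hPt]
    exact numJ hXj hj1 ht5
  have hres := Pm.grid_param P hG (N := N) (f1.trans hlow) (f2.trans hlow) htop hmon hT hval o τ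
    hlo hhi g1 g2
  rw [hPJ] at hres
  have h1 := numT hb4 ht5 hC1 hupp
  have h2 : ((∏ i ∈ T, (wd i + 1) : ℕ) : ℝ) ≤ ((2 ^ t : ℕ) : ℝ) := by
    push_cast at hprod ⊢
    exact hprod.trans h1
  have h3 : ∏ i ∈ T, (wd i + 1) ≤ 2 ^ t := by exact_mod_cast h2
  omega

/-- the lower bound for circuits for short tours in a square grid -/
theorem grid_main (ε : ℝ) (hε : 0 < ε) :
    ∃ δ : ℝ, 0 < δ ∧ ∃ N0 : ℕ, ∀ N : ℕ, N0 ≤ N → ∃ B : ℕ,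
      ∀ {S : ℕ} {T : Finset (Fin S)} {wd : Fin S → ℕ}
        {a : ∀ i, Fin (wd i) → (Fin N × Fin N) ⊕ Fin S}
        {op : ∀ i, (Fin (wd i) → ℝ) → ℝ} {θ : ∀ i, Fin (wd i) → ℝ}
        {val : (Fin N × Fin N → Bool) → Fin S → ℝ}
        (_ : ∀ i j k, a i j = Sum.inr k → k < i)
        (_ : ∀ i ∉ T, wd i ≤ 2 ∧ Monotone (op i))
        (_ : ∀ i ∈ T, ∀ z z' : Fin (wd i) → ℝ, (∀ j, θ i j ≤ z j ↔ θ i j ≤ z' j) →
          op i z = op i z')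
        (_ : ∀ x i, val x i = op i (fun j => Sum.elim (bit x) (val x) (a i j)))
        (o : Fin S) (τ : ℝ)
        (_ : ∀ x, (∃ L, Lists x L ∧ gtl L ≤ B) → val x o < τ)
        (_ : ∀ x, (∀ L, Lists x L → (B : ℝ) + 1 / 69 ≤ gtl L) → τ ≤ val x o),
        ((∏ i ∈ T, (wd i + 1) : ℕ) : ℝ) ≤ (N : ℝ) ^ δ →
        Real.exp ((N : ℝ) ^ (1 - ε)) ≤ ((S + ∑ i ∈ T, wd i : ℕ) : ℝ) := by
  obtain ⟨δ, hδ, N0, hN0, H⟩ := grid_aux (min ε 1) (lt_min hε one_pos) (min_le_right _ _)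
  refine ⟨δ, hδ, N0, fun N hN => ?_⟩
  obtain ⟨B, HB⟩ := H N hN
  refine ⟨B, fun {S T wd a op θ val} htop hmon hT hval o τ hlo hhi hprod => ?_⟩
  refine le_trans ?_ (HB htop hmon hT hval o τ hlo hhi hprod)
  apply Real.exp_le_exp.mpr
  apply Real.rpow_le_rpow_of_exponent_le
  · exact_mod_cast hN0.trans hN
  · have := min_le_left ε 1
    linarith

end Pool.Agent.T9h21.TB
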