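import Pool.Agent.T9h21.TB.Cyc

/-!
# The closed tour of a connected graph of degree two
-/

set_option autoImplicit false

namespace Pool.Agent.T9h21.TB

open Pool.Agent.ETSP

section

variable {V : Type}

theorem list_of_cycles (G : SimpleGraph V) {P : V → Prop} (hfin : {v | P v}.Finite)
    (hG : ∀ v w, G.Adj v w → P v) (h2 : ∀ v, P v → (G.neighborSet v).ncard = 2)
    {v0 : V} (hv0 : P v0) (hconn : ∀ v, P v → G.Reachable v0 v) :
    ∃ l : List V, (v0 :: l).Nodup ∧ (∀ v, v ∈ v0 :: l ↔ P v) ∧
      (v0 :: (l ++ [v0])).IsChain G.Adj := by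
  classical
  have hfin' : Finite {v | P v} := hfin.to_subtype
  set G' := G.induce {v | P v} with hG'
  have hcard : ∀ x : {v | P v}, (G'.neighborSet x).ncard = 2 := by
    intro x
    have h1 : (G.neighborSet (x : V)) = Subtype.val '' (G'.neighborSet x) := by
      ext w
      simp only [SimpleGraph.mem_neighborSet, Set.mem_image, hG', SimpleGraph.comap_adj,
        Function.Embedding.subtype_apply, Subtype.exists, exists_and_right, exists_eq_right]
      constructor
      · intro hw
        exact ⟨hG _ _ hw.symm, hw⟩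
      · rintro ⟨_, hw⟩; exact hw
    have h3 := h2 x x.2
    rwa [h1, Set.ncard_image_of_injective _ Subtype.val_injective] at h3
  have hcyc : G'.IsCycles := fun x _ => hcard x
  have hre : ∀ v w, G.Reachable v w → ∀ (hv : P v) (hw : P w),
      G'.Reachable ⟨v, hv⟩ ⟨w, hw⟩ := by
    rintro v w ⟨p⟩
    induction p with
    | nil => intro _ _; exact SimpleGraph.Reachable.refl _
    | cons hadj _ ih =>
      intro hv hw
      have hm := hG _ _ hadj.symm
      refine SimpleGraph.Reachable.trans (SimpleGraph.Adj.reachable ?_) (ih hm hw)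
      exact hadj
  obtain ⟨p, hp, hverts⟩ := hcyc.exists_cycle_toSubgraph_verts_eq_connectedComponentSupp
    (v := ⟨v0, hv0⟩) (c := G'.connectedComponentMk ⟨v0, hv0⟩)
    (by simp [SimpleGraph.ConnectedComponent.mem_supp_iff]) (by
      rw [← Set.ncard_pos (Set.toFinite _), hcard]
      norm_num)
  have hall : ∀ x : {v | P v}, x ∈ p.support := by
    intro x
    have h1 : x ∈ (G'.connectedComponentMk ⟨v0, hv0⟩).supp := by
      rw [SimpleGraph.ConnectedComponent.mem_supp_iff, SimpleGraph.ConnectedComponent.eq]
      exact (hre _ _ (hconn x x.2) hv0 x.2).symm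
    rw [← hverts] at h1
    simpa using h1
  have hch := p.isChain_adj_support
  have htail : p.support.tail ≠ [] := by
    intro h
    have h1 := hp.three_le_length
    have h2 := p.length_support
    have h3 : p.support.length = p.support.tail.length + 1 := by
      rw [← p.cons_tail_support]; simp
    rw [h] at h3
    rw [List.length_nil] at h3
    omega
  have hlast : p.support.tail.getLast htail = ⟨v0, hv0⟩ := by
    rw [List.getLast_tail]
    exact p.getLast_support
  obtain ⟨l, hl⟩ : ∃ l, p.support.tail = l ++ [⟨v0, hv0⟩] :=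
    ⟨p.support.tail.dropLast, by
      have := List.dropLast_append_getLast htail
      rw [hlast] at this
      exact this.symm⟩
  have hnd : (l ++ [(⟨v0, hv0⟩ : {v | P v})]).Nodup := by rw [← hl]; exact hp.support_nodup
  have hnd' : (⟨v0, hv0⟩ :: l).Nodup := (List.perm_append_singleton _ _).nodup_iff.1 hnd
  have hsup : p.support = ⟨v0, hv0⟩ :: (l ++ [⟨v0, hv0⟩]) := by
    rw [← p.cons_tail_support, hl]
  refine ⟨l.map Subtype.val, ?_, ?_, ?_⟩
  · have := hnd'.map Subtype.val_injective
    simpa using this
  · intro v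
    constructor
    · intro hv
      rcases List.mem_cons.1 hv with rfl | hv
      · exact hv0
      · obtain ⟨x, -, rfl⟩ := List.mem_map.1 hv
        exact x.2
    · intro hv
      have h1 := hall ⟨v, hv⟩
      rw [hsup] at h1
      simp only [List.mem_cons, List.mem_append, List.not_mem_nil, or_false] at h1
      rw [List.mem_cons]
      rcases h1 with h1 | h1 | h1
      · exact Or.inl (congrArg Subtype.val h1)
      · exact Or.inr (List.mem_map.2 ⟨_, h1, rfl⟩)
      · exact Or.inl (congrArg Subtype.val h1)
  · rw [hsup] at hch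
    have h1 : (v0 :: (l.map Subtype.val ++ [v0])) =
        (⟨v0, hv0⟩ :: (l ++ [⟨v0, hv0⟩]) : List {v | P v}).map Subtype.val := by simp
    rw [h1, List.isChain_map]
    exact hch.imp fun a b h => h

theorem tl_of_chain {d : V → V → ℝ} {r : V → ℝ} {v0 : V} {l : List V}
    (h : (v0 :: (l ++ [v0])).IsChain (fun v w => d v w ≤ r v + r w)) :
    tl d (v0 :: l) ≤ 2 * ((v0 :: l).map r).sum := by
  rw [← tl_rr]
  exact (pl_chain (d := fun v w => r v + r w) (rr := d) (γ := 0) l v0 v0 h).1

end

end Pool.Agent.T9h21.TB
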