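import Pool.Agent.T9h21.TB.Conn
import Pool.Agent.T9h21.TB.TourC
import Pool.Agent.ETSP.Geo

/-!
# The point sets of boards
-/

set_option autoImplicit false

namespace Pool.Agent.T9h21.TB

open Pool.Agent.ETSP

namespace Board

variable (b : Board)

/-- the nodes of a station -/
def stN (i n k : ℕ) : List Nd :=
  if k = 0 then (if n = 0 then [] else
    [.X i n 0 true, .X i n 0 false] ++ b.qN i n) else
    [.X i n k true, .X i n k false, .Q i n k]

/-- the nodes at the ends of a row -/
def endN (i : ℕ) : List Nd :=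
  [.S i false, .S i true, .C i false, .C i true] ++
    (if i % 2 = 0 then [.T i false, .T i true] else [])

/-- the nodes of a row -/
def rowN (i : ℕ) : List Nd :=
  ((List.range (2 * b.M + 1)).flatMap fun n => (List.range (b.len i n + 1)).flatMap fun k =>
    b.stN i n k) ++ endN i

/-- the nodes that activate pairs -/
def actN (act : ℕ → ℕ → Bool) : List Nd :=
  (List.range (2 * b.h + 1)).flatMap fun e => (List.range b.M).flatMap fun c =>
    if act e c then [.A e c] else []

/-- the nodes of a board -/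
def nds (act : ℕ → ℕ → Bool) : List Nd :=
  ((List.range b.H).flatMap fun i => b.rowN i) ++ b.actN act

variable {b} {act : ℕ → ℕ → Bool}

theorem mem_stN {i n k : ℕ} {v : Nd} : v ∈ b.stN i n k ↔
    (∃ s, v = .X i n k s ∧ (k = 0 → 1 ≤ n)) ∨
      (v = .Q i n k ∧ (k = 0 → 1 ≤ n ∧ b.blk i ((n - 1) / 2) = true)) := by
  unfold stN qN
  constructor
  · intro h
    split_ifs at h with h1 h2 h3
    · simp at h
    · subst h1
      simp only [List.mem_cons, List.mem_append, List.not_mem_nil, or_false] at h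
      rcases h with (rfl | rfl) | rfl
      · exact Or.inl ⟨true, rfl, fun _ => by omega⟩
      · exact Or.inl ⟨false, rfl, fun _ => by omega⟩
      · exact Or.inr ⟨rfl, fun _ => ⟨by omega, h3⟩⟩
    · subst h1
      simp only [List.mem_cons, List.mem_append, List.not_mem_nil, or_false] at h
      rcases h with rfl | rfl
      · exact Or.inl ⟨true, rfl, fun _ => by omega⟩
      · exact Or.inl ⟨false, rfl, fun _ => by omega⟩
    · simp only [List.mem_cons, List.not_mem_nil, or_false] at h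
      rcases h with rfl | rfl | rfl
      · exact Or.inl ⟨true, rfl, fun _ => by omega⟩
      · exact Or.inl ⟨false, rfl, fun _ => by omega⟩
      · exact Or.inr ⟨rfl, fun h => absurd h h1⟩
  · rintro (⟨s, rfl, h⟩ | ⟨rfl, h⟩)
    · by_cases h1 : k = 0
      · have h2 := h h1
        rw [if_pos h1, if_neg (by omega)]
        subst h1
        cases s <;> simp
      · rw [if_neg h1]
        cases s <;> simp
    · by_cases h1 : k = 0
      · have h2 := h h1
        rw [if_pos h1, if_neg (by omega), if_pos h2.2]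
        subst h1
        simp
      · rw [if_neg h1]
        simp

theorem mem_endN {i : ℕ} {v : Nd} : v ∈ endN i ↔
    (∃ r, v = .S i r) ∨ (∃ r, v = .C i r) ∨ (∃ r, v = .T i r ∧ i % 2 = 0) := by
  unfold endN
  constructor
  · intro h
    rw [List.mem_append] at h
    rcases h with h | h
    · simp only [List.mem_cons, List.not_mem_nil, or_false] at h
      rcases h with rfl | rfl | rfl | rfl
      · exact Or.inl ⟨_, rfl⟩
      · exact Or.inl ⟨_, rfl⟩
      · exact Or.inr (Or.inl ⟨_, rfl⟩)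
      · exact Or.inr (Or.inl ⟨_, rfl⟩)
    · split_ifs at h with h1
      · simp only [List.mem_cons, List.not_mem_nil, or_false] at h
        rcases h with rfl | rfl
        · exact Or.inr (Or.inr ⟨_, rfl, h1⟩)
        · exact Or.inr (Or.inr ⟨_, rfl, h1⟩)
      · simp at h
  · rintro (⟨r, rfl⟩ | ⟨r, rfl⟩ | ⟨r, rfl, h⟩)
    · cases r <;> simp
    · cases r <;> simp
    · cases r <;> simp [h]

theorem mem_actN {v : Nd} : v ∈ b.actN act ↔
    ∃ e c, v = .A e c ∧ e ≤ 2 * b.h ∧ c < b.M ∧ act e c = true := by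
  unfold actN
  simp only [List.mem_flatMap, List.mem_range]
  constructor
  · rintro ⟨e, he, c, hc, h⟩
    split_ifs at h with h1
    · rw [List.mem_singleton] at h
      exact ⟨e, c, h, by omega, hc, h1⟩
    · simp at h
  · rintro ⟨e, c, rfl, h1, h2, h3⟩
    exact ⟨e, by omega, c, h2, by rw [if_pos h3]; simp⟩

theorem mem_nds {v : Nd} : v ∈ b.nds act ↔ b.Val act v := by
  unfold nds rowN
  simp only [List.mem_append, List.mem_flatMap, List.mem_range, mem_stN, mem_endN, mem_actN]
  constructor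
  · rintro (⟨i, hi, ⟨n, hn, k, hk, ⟨s, rfl, h⟩ | ⟨rfl, h⟩⟩ | ⟨r, rfl⟩ | ⟨r, rfl⟩ | ⟨r, rfl, h⟩⟩ |
      ⟨e, c, rfl, h⟩)
    · exact ⟨hi, by omega, by omega, h⟩
    · exact ⟨hi, by omega, by omega, h⟩
    · exact hi
    · exact hi
    · exact ⟨hi, h⟩
    · exact h
  · intro hv
    cases v with
    | X i n k s =>
      obtain ⟨h1, h2, h3, h4⟩ := hv
      exact Or.inl ⟨i, h1, Or.inl ⟨n, by omega, k, by omega, Or.inl ⟨s, rfl, h4⟩⟩⟩
    | Q i n k =>
      obtain ⟨h1, h2, h3, h4⟩ := hv
      exact Or.inl ⟨i, h1, Or.inl ⟨n, by omega, k, by omega, Or.inr ⟨rfl, h4⟩⟩⟩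
    | S i r => exact Or.inl ⟨i, hv, Or.inr (Or.inl ⟨r, rfl⟩)⟩
    | C i r => exact Or.inl ⟨i, hv, Or.inr (Or.inr (Or.inl ⟨r, rfl⟩))⟩
    | T i r => exact Or.inl ⟨i, hv.1, Or.inr (Or.inr (Or.inr ⟨r, rfl, hv.2⟩))⟩
    | A e c => exact Or.inr ⟨e, c, rfl, hv⟩

theorem val_fin : {v | b.Val act v}.Finite := by
  refine (List.finite_toSet (b.nds act)).subset fun v hv => ?_
  exact mem_nds.2 hv

/-- the radii are nonnegative -/
theorem rad_nonneg (v : Nd) : 0 ≤ b.rad v := by
  cases v <;> simp only [rad] <;> positivity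

theorem pos_inj (hM : 1 ≤ b.M) {v w : Nd} (hv : b.Val act v) (hw : b.Val act w)
    (h : b.pos v = b.pos w) : v = w := by
  by_contra hne
  obtain ⟨h1, h2⟩ := cls hM hv hw hne
  have h3 : b.d2 v w = 0 := by
    unfold pos at h
    rw [Prod.mk.injEq] at h
    unfold d2
    rw [h.1, h.2]
    ring
  have h4 := b.rad_nonneg v
  have h5 := b.rad_nonneg w
  unfold Sep at h1
  rw [h3] at h1
  have h6 : b.rad v + b.rad w = 0 := by
    have : (b.rad v + b.rad w) ^ 2 = 0 := le_antisymm h1 (sq_nonneg _)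
    exact pow_eq_zero_iff (two_ne_zero) |>.1 this
  obtain ⟨h7, h8⟩ := h2 (by unfold Tight; rw [h3, h6]; norm_num)
  have hz : ∀ u, b.Val act u → b.rad u = 0 → (∃ i n k, u = .Q i n k) ∨ ∃ e c, u = .A e c := by
    intro u hu hr
    cases u with
    | X i n k s =>
      have := b.sz_pos i n k hu.2.2.1
      simp only [rad] at hr
      nlinarith
    | Q i n k => exact Or.inl ⟨i, n, k, rfl⟩
    | S i r => simp [rad] at hr
    | C i r => simp [rad] at hr
    | T i r => simp [rad] at hr
    | A e c => exact Or.inr ⟨e, c, rfl⟩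
  rcases hz v hv (by omega) with ⟨i, n, k, rfl⟩ | ⟨e, c, rfl⟩
  · rcases hz w hw (by omega) with ⟨i', n', k', rfl⟩ | ⟨e', c', rfl⟩
    · simp [nb] at h7
    · simp [nb] at h7
  · rcases hz w hw (by omega) with ⟨i', n', k', rfl⟩ | ⟨e', c', rfl⟩
    · simp [nb] at h7
    · simp [nb] at h7

/-- the Euclidean distance of two nodes -/
noncomputable def dst (b : Board) (v w : Nd) : ℝ := eucl (b.pos v) (b.pos w)

theorem dst_eq (v w : Nd) : b.dst v w = √((b.d2 v w : ℤ) : ℝ) := by
  unfold dst eucl nrm pos d2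
  congr 1
  push_cast
  simp only [Prod.fst_sub, Prod.snd_sub]
  push_cast
  ring

theorem sep_iff (v w : Nd) : (b.rad v : ℝ) + b.rad w ≤ b.dst v w ↔ b.Sep v w := by
  have h4 : (0 : ℝ) ≤ b.rad v := by exact_mod_cast b.rad_nonneg v
  have h5 : (0 : ℝ) ≤ b.rad w := by exact_mod_cast b.rad_nonneg w
  have h6 : (0 : ℝ) ≤ ((b.d2 v w : ℤ) : ℝ) := by
    have : 0 ≤ b.d2 v w := by unfold d2; positivity
    exact_mod_cast this
  rw [dst_eq, Real.le_sqrt (by positivity) h6]
  unfold Sep
  exact_mod_cast Iff.rfl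

theorem rad_le (v : Nd) (hv : b.Val act v) : b.rad v ≤ 17 := by
  cases v with
  | X i n k s =>
    have h1 := b.sz_pos i n k hv.2.2.1
    have h2 : b.sz i n k ≤ 3 := by
      have := ft_range (b.ty i n) ⟨k, by
        have h3 := hv.2.2.1
        have h4 := ft_len (b.ty i n)
        unfold len at h3
        omega⟩ hv.2.2.1
      exact this.2.2.2.1
    simp only [rad]
    nlinarith
  | Q i n k => simp [rad]
  | S i r => simp [rad]
  | C i r => simp [rad]
  | T i r => simp [rad]
  | A e c => simp [rad]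

theorem tight_of_lt {v w : Nd} (hv : b.Val act v) (hw : b.Val act w)
    (h : b.dst v w < (b.rad v : ℝ) + b.rad w + 1 / 69) : b.Tight v w := by
  have h4 := b.rad_nonneg v
  have h5 := b.rad_nonneg w
  have h6 := rad_le v hv
  have h7 := rad_le w hw
  set k : ℤ := b.rad v + b.rad w with hk
  have h8 : (b.rad v : ℝ) + b.rad w = k := by rw [hk]; push_cast; ring
  rw [dst_eq, h8] at h
  have h9 : (0 : ℝ) ≤ k := by exact_mod_cast (by omega : 0 ≤ k)
  have h10 : (k : ℝ) ≤ 34 := by exact_mod_cast (by omega : k ≤ 34)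
  rw [Real.sqrt_lt' (by positivity)] at h
  unfold Tight
  rw [← hk]
  by_contra h11
  have h12 : k ^ 2 + 1 ≤ b.d2 v w := by omega
  have h13 : ((k : ℝ)) ^ 2 + 1 ≤ ((b.d2 v w : ℤ) : ℝ) := by exact_mod_cast h12
  nlinarith

theorem tight_iff (v w : Nd) : b.dst v w ≤ (b.rad v : ℝ) + b.rad w ↔ b.Tight v w := by
  have h4 : (0 : ℝ) ≤ b.rad v := by exact_mod_cast b.rad_nonneg v
  have h5 : (0 : ℝ) ≤ b.rad w := by exact_mod_cast b.rad_nonneg w
  rw [dst_eq, Real.sqrt_le_left (by positivity)]
  unfold Tight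
  exact_mod_cast Iff.rfl

/-- a short tour through the nodes yields an assignment -/
theorem sound_list (hM : 1 ≤ b.M) {l : List Nd} (hl : l.Nodup) (hv : ∀ v, v ∈ l ↔ b.Val act v)
    (ht : tl b.dst l < 2 * (l.map fun v => (b.rad v : ℝ)).sum + 1 / 69) :
    ∃ m : ℕ → Bool, ∀ c < b.M, ∀ e ≤ 2 * b.h, act e c = true →
      ∃ i ≤ e, (∀ i', i ≤ i' → i' ≤ e → b.blk i' c = false) ∧ b.lit i c = true ∧
        xor (m i) (b.par i c) = true := by
  have hH : b.H = 2 * b.h + 2 := rfl
  have h3 : 3 ≤ l.length := by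
    have h4 : [Nd.S 0 false, .S 0 true, .C 0 false].Nodup := by simp
    have h5 : [Nd.S 0 false, .S 0 true, .C 0 false] ⊆ l := by
      intro v hv'
      rw [hv]
      simp only [List.mem_cons, List.not_mem_nil, or_false] at hv'
      rcases hv' with rfl | rfl | rfl <;> simp only [Val] <;> omega
    exact (h4.subperm h5).length_le
  have hC := cyc_of_list (d := b.dst) (r := fun v => (b.rad v : ℝ)) (P := b.Val act) hl h3 hv
    (fun v w hv hw hne => (sep_iff v w).2 (cls hM hv hw hne).1) ht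
  exact sound hM (loc_of_cyc hM ⟨hC.val, hC.inv,
    fun v hv => tight_of_lt hv (hC.val v hv) (hC.tight v hv), hC.ne, hC.ne2, hC.conn⟩)

/-- a good configuration yields a short tour -/
theorem complete_list (hM : 1 ≤ b.M) {m : ℕ → Bool} {kc cc : ℕ → Bool} {z0 : ℕ → ℕ → Bool}
    (hG : Good b act m kc cc z0) : ∃ l : List Nd, l.Nodup ∧ (∀ v, v ∈ l ↔ b.Val act v) ∧
      tl b.dst l ≤ 2 * (l.map fun v => (b.rad v : ℝ)).sum := by
  have hH : b.H = 2 * b.h + 2 := rfl
  obtain ⟨z, hL, hz⟩ := hG.conn hM val_fin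
  have hv0 : b.Val act (.S 0 false) := by simp only [Val]; omega
  obtain ⟨l, h1, h2, h3⟩ := list_of_cycles (Gr b hM act m z) (P := b.Val act) val_fin
    (fun v w h => h.1) (fun v hv => ncard_Gr hL hv) hv0 hz
  refine ⟨_, h1, h2, tl_of_chain (r := fun v => (b.rad v : ℝ)) ?_⟩
  refine h3.imp fun v w h => ?_
  exact (tight_iff v w).2 (nb_tight hM h.1 (mem_nb h.2.2))

theorem nodup_nds : (b.nds act).Nodup := by
  have hst : ∀ i n k, (b.stN i n k).Nodup := by
    intro i n k
    unfold stN qN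
    split_ifs <;> simp
  have hpw : ∀ {β : Type} (N : ℕ) (f : ℕ → List β),
      (∀ x y v, v ∈ f x → v ∈ f y → x = y) → (List.range N).Pairwise (fun x y =>
        List.Disjoint (f x) (f y)) := by
    intro β N f h
    refine List.nodup_range.imp fun {x y} hxy => ?_
    intro v hv hw
    exact hxy (h x y v hv hw)
  unfold nds
  rw [List.nodup_append']
  refine ⟨?_, ?_, ?_⟩
  · rw [List.nodup_flatMap]
    refine ⟨fun i _ => ?_, hpw _ _ ?_⟩
    · unfold rowN
      rw [List.nodup_append']
      refine ⟨?_, ?_, ?_⟩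
      · rw [List.nodup_flatMap]
        refine ⟨fun n _ => ?_, hpw _ _ ?_⟩
        · rw [List.nodup_flatMap]
          refine ⟨fun k _ => hst i n k, hpw _ _ ?_⟩
          intro x y v hv hw
          rw [mem_stN] at hv hw
          rcases hv with ⟨s, rfl, -⟩ | ⟨rfl, -⟩ <;> rcases hw with ⟨s', hw, -⟩ | ⟨hw, -⟩ <;>
            simp_all
        · intro x y v hv hw
          simp only [List.mem_flatMap, mem_stN] at hv hw
          obtain ⟨k, -, hv⟩ := hv
          obtain ⟨k', -, hw⟩ := hw
          rcases hv with ⟨s, rfl, -⟩ | ⟨rfl, -⟩ <;> rcases hw with ⟨s', hw, -⟩ | ⟨hw, -⟩ <;>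
            simp_all
      · unfold endN
        split_ifs <;> simp
      · intro v hv hw
        simp only [List.mem_flatMap, mem_stN] at hv
        rw [mem_endN] at hw
        obtain ⟨n, -, k, -, hv⟩ := hv
        rcases hv with ⟨s, rfl, -⟩ | ⟨rfl, -⟩ <;> simp at hw
    · intro x y v hv hw
      unfold rowN at hv hw
      simp only [List.mem_append, List.mem_flatMap, mem_stN, mem_endN] at hv hw
      rcases hv with ⟨n, -, k, -, ⟨s, rfl, -⟩ | ⟨rfl, -⟩⟩ | ⟨r, rfl⟩ | ⟨r, rfl⟩ | ⟨r, rfl, -⟩ <;>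
      rcases hw with ⟨n', -, k', -, ⟨s', hw, -⟩ | ⟨hw, -⟩⟩ | ⟨r', hw⟩ | ⟨r', hw⟩ |
        ⟨r', hw, -⟩ <;> simp_all
  · unfold actN
    rw [List.nodup_flatMap]
    refine ⟨fun e _ => ?_, hpw _ _ ?_⟩
    · rw [List.nodup_flatMap]
      refine ⟨fun c _ => ?_, hpw _ _ ?_⟩
      · split_ifs <;> simp
      · intro x y v hv hw
        split_ifs at hv hw <;> simp_all
    · intro x y v hv hw
      simp only [List.mem_flatMap] at hv hw
      obtain ⟨c, -, hv⟩ := hv
      obtain ⟨c', -, hw⟩ := hw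
      split_ifs at hv hw <;> simp_all
  · intro v hv hw
    rw [mem_actN] at hw
    unfold rowN at hv
    simp only [List.mem_append, List.mem_flatMap, mem_stN, mem_endN] at hv
    obtain ⟨e, c, rfl, -⟩ := hw
    simp at hv

/-- the bound on the length of the tour -/
def bd (b : Board) : ℕ := 2 * ((b.nds fun _ _ => false).map fun v => (b.rad v).toNat).sum

theorem bd_eq (act : ℕ → ℕ → Bool) {l : List Nd} (hl : l.Nodup) (hv : ∀ v, v ∈ l ↔ b.Val act v) :
    (b.bd : ℝ) = 2 * (l.map fun v => (b.rad v : ℝ)).sum := by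
  have h1 : l.Perm (b.nds act) :=
    (List.perm_ext_iff_of_nodup hl nodup_nds).2 fun v => by rw [hv, mem_nds]
  rw [(h1.map _).sum_eq]
  have h2 : ∀ L : List Nd, (((L.map fun v => (b.rad v).toNat).sum : ℕ) : ℝ) =
      (L.map fun v => (b.rad v : ℝ)).sum := by
    intro L
    induction L with
    | nil => simp
    | cons v L ih =>
      simp only [List.map_cons, List.sum_cons, Nat.cast_add, ih]
      congr 1
      have := Int.toNat_of_nonneg (b.rad_nonneg v)
      exact_mod_cast this
  have h3 : ∀ act' : ℕ → ℕ → Bool, ((b.actN act').map fun v => (b.rad v).toNat).sum = 0 := by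
    intro act'
    rw [List.sum_eq_zero]
    intro x hx
    simp only [List.mem_map] at hx
    obtain ⟨v, hv, rfl⟩ := hx
    rw [mem_actN] at hv
    obtain ⟨e, c, rfl, -⟩ := hv
    rfl
  unfold bd
  rw [Nat.cast_mul, Nat.cast_ofNat, ← h2]
  congr 2
  unfold nds
  rw [List.map_append, List.sum_append, List.map_append, List.sum_append, h3, h3]

/-- the points of a board -/
def pts (b : Board) (act : ℕ → ℕ → Bool) : Finset (ℤ × ℤ) := ((b.nds act).map b.pos).toFinset

/-- There is a short tour through the points if and only if there is one through the nodes. -/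
theorem tour_iff (hM : 1 ≤ b.M) (act : ℕ → ℕ → Bool) (p : ℝ → ℝ → Prop) :
    (∃ L : List (ℤ × ℤ), L.Nodup ∧ L.toFinset = b.pts act ∧ p (tl eucl L) b.bd) ↔
    ∃ l : List Nd, l.Nodup ∧ (∀ v, v ∈ l ↔ b.Val act v) ∧
      p (tl b.dst l) (2 * (l.map fun v => (b.rad v : ℝ)).sum) := by
  have hmap : ∀ l : List Nd, tl b.dst l = tl eucl (l.map b.pos) := by
    intro l
    have h1 : ∀ (l : List Nd) (v w : Nd), pl b.dst v l w = pl eucl (b.pos v) (l.map b.pos)
        (b.pos w) := by
      intro l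
      induction l with
      | nil => intro v w; rfl
      | cons x l ih => intro v w; simp only [pl, List.map_cons, ih]; rfl
    cases l with
    | nil => rfl
    | cons x l => exact h1 l x x
  constructor
  · rintro ⟨L, h1, h2, h3⟩
    have hmem : ∀ p ∈ L, ∃ v, b.Val act v ∧ b.pos v = p := by
      intro p hp
      rw [← List.mem_toFinset, h2] at hp
      unfold pts at hp
      rw [List.mem_toFinset, List.mem_map] at hp
      obtain ⟨v, hv, rfl⟩ := hp
      exact ⟨v, mem_nds.1 hv, rfl⟩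
    classical
    have hg : ∃ g : ℤ × ℤ → Nd, ∀ p ∈ L, b.Val act (g p) ∧ b.pos (g p) = p :=
      ⟨fun p => if h : p ∈ L then Classical.choose (hmem p h) else .S 0 false, fun p hp => by
        simp only [hp, dite_true]
        exact Classical.choose_spec (hmem p hp)⟩
    obtain ⟨g, hg⟩ := hg
    have h4 : (L.map g).map b.pos = L := by
      rw [List.map_map]
      conv_rhs => rw [← List.map_id L]
      exact List.map_congr_left fun p hp => (hg p hp).2
    have h5 : (L.map g).Nodup := by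
      apply List.Nodup.of_map b.pos
      rw [h4]
      exact h1
    have h6 : ∀ v, v ∈ L.map g ↔ b.Val act v := by
      intro v
      constructor
      · intro hv
        obtain ⟨p, hp, rfl⟩ := List.mem_map.1 hv
        exact (hg p hp).1
      · intro hv
        have h7 : b.pos v ∈ L := by
          rw [← List.mem_toFinset, h2]
          unfold pts
          rw [List.mem_toFinset]
          exact List.mem_map_of_mem (mem_nds.2 hv)
        rw [List.mem_map]
        exact ⟨b.pos v, h7, pos_inj hM (hg _ h7).1 hv (hg _ h7).2⟩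
    refine ⟨L.map g, h5, h6, ?_⟩
    rw [hmap, h4, ← bd_eq act h5 h6]
    exact h3
  · rintro ⟨l, h1, h2, h3⟩
    refine ⟨l.map b.pos, ?_, ?_, ?_⟩
    · exact List.Nodup.map_on (fun v hv w hw h => pos_inj hM ((h2 v).1 hv) ((h2 w).1 hw) h) h1
    · unfold pts
      ext p
      simp only [List.mem_toFinset, List.mem_map, mem_nds, h2]
    · rw [← hmap, bd_eq act h1 h2]
      exact h3

/-- a short tour yields an assignment -/
theorem pts_sound (hM : 1 ≤ b.M) (h : ∃ L : List (ℤ × ℤ), L.Nodup ∧ L.toFinset = b.pts act ∧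
    tl eucl L < b.bd + 1 / 69) : ∃ m : ℕ → Bool, ∀ c < b.M, ∀ e ≤ 2 * b.h, act e c = true →
      ∃ i ≤ e, (∀ i', i ≤ i' → i' ≤ e → b.blk i' c = false) ∧ b.lit i c = true ∧
        xor (m i) (b.par i c) = true := by
  obtain ⟨l, h1, h2, h3⟩ := (tour_iff hM act fun x y => x < y + 1 / 69).1 h
  exact sound_list hM h1 h2 h3

/-- a good configuration yields a short tour -/
theorem pts_complete (hM : 1 ≤ b.M) {m : ℕ → Bool} {kc cc : ℕ → Bool} {z0 : ℕ → ℕ → Bool}
    (hG : Good b act m kc cc z0) : ∃ L : List (ℤ × ℤ), L.Nodup ∧ L.toFinset = b.pts act ∧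
      tl eucl L ≤ b.bd := by
  obtain ⟨l, h1, h2, h3⟩ := complete_list hM hG
  exact (tour_iff hM act fun x y => x ≤ y).2 ⟨l, h1, h2, h3⟩

end Board

end Pool.Agent.T9h21.TB
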