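import Pool.Agent.T9h21.TB.Tog

/-!
# Configurations whose graph has a largest component
-/

set_option autoImplicit false

namespace Pool.Agent.T9h21.TB

namespace Board

variable {b : Board} {act : ℕ → ℕ → Bool} {m : ℕ → Bool} {z z' : ℕ → ℕ → Bool} {i c : ℕ}

/-- the nodes reached from the first node -/
def Mem (b : Board) (hM : 1 ≤ b.M) (act : ℕ → ℕ → Bool) (m : ℕ → Bool) (z : ℕ → ℕ → Bool) (v : Nd) :
    Prop := (Gr b hM act m z).Reachable (.S 0 false) v

theorem Mem.congr {hM : 1 ≤ b.M} {v w : Nd} (h : (Gr b hM act m z).Reachable v w) :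
    Mem b hM act m z v ↔ Mem b hM act m z w :=
  ⟨fun h1 => h1.trans h, fun h1 => h1.trans h.symm⟩

/-- the number of the nodes reached -/
noncomputable def cnt (b : Board) (hM : 1 ≤ b.M) (act : ℕ → ℕ → Bool) (m : ℕ → Bool)
    (z : ℕ → ℕ → Bool) : ℕ := {v | Mem b hM act m z v}.ncard

theorem mem_fin {hM : 1 ≤ b.M} (hfin : {v | b.Val act v}.Finite) :
    {v | Mem b hM act m z v}.Finite := by
  refine (hfin.insert (.S 0 false)).subset fun v hv => ?_
  obtain ⟨p⟩ := hv.symm
  cases p with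
  | nil => exact Set.mem_insert _ _
  | cons h _ => exact Set.mem_insert_of_mem _ h.1

/-- the closed state is connected row by row -/
theorem Tog.closed_in {hM : 1 ≤ b.M} (h : Tog b act m z z' i c) {r : ℕ}
    (hr : r = i ∨ r = i + 1) : ∀ w, b.Val act w → Wp i c w →
      (∀ n k s, w = .X r n k s → (Gr b hM act m z).Reachable (Zn r c) w) ∧
      (∀ n k, w = .Q r n k → (Gr b hM act m z).Reachable (Zn r c) w) := by
  have hc := h.hc
  have hi := h.hi
  have hud : up z r c = false ∧ z r c = false := by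
    rcases hr with rfl | rfl
    · exact ⟨h.up0, h.hz⟩
    · exact ⟨h.hz, h.dn1⟩
  obtain ⟨-, h1, h2, h3⟩ := r_str (hM := hM) h.hL (i := r) (by omega) hc hud.1 hud.2
  intro w hv hW
  constructor
  · rintro n k s rfl
    obtain ⟨g1, g2, g3, g4⟩ := hv
    simp only [Wp] at hW
    rcases hW.2 with rfl | ⟨rfl, rfl⟩
    · rcases Nat.eq_zero_or_pos k with rfl | hk
      · exact h1 s
      · exact (h3 k hk g3).trans (r_Q ⟨g1, g2, g3, fun h => by omega⟩ s)
    · exact h2 s
  · rintro n k rfl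
    obtain ⟨g1, g2, g3, g4⟩ := hv
    simp only [Wp] at hW
    obtain ⟨-, rfl⟩ := hW
    have hk : 1 ≤ k := by
      by_contra h0
      have h5 := (g4 (by omega)).2
      rw [show (2 * c + 1 - 1) / 2 = c by omega, h.nblk hr] at h5
      simp at h5
    exact h3 k hk g3

/-- the open state is connected across the rows -/
theorem Tog.open_in {hM : 1 ≤ b.M} (h : Tog b act m z z' i c) {r : ℕ}
    (hr : r = i ∨ r = i + 1) : ∀ w, b.Val act w → Wp i c w →
      (∀ n k s, w = .X r n k s → ∀ t, (Gr b hM act m z').Reachable (.X r (2 * c + 1) 0 t) w ∨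
        (Gr b hM act m z').Reachable (.X r (2 * c + 2) 0 t) w) ∧
      (∀ n k, w = .Q r n k → ∀ t, (Gr b hM act m z').Reachable (.X r (2 * c + 1) 0 t) w ∨
        (Gr b hM act m z').Reachable (.X r (2 * c + 2) 0 t) w) := by
  have hc := h.hc
  have hi := h.hi
  have hud : up z' r c ≠ z' r c := by
    rcases hr with rfl | rfl
    · rw [h.up0', h.hz']; simp
    · change z' i c ≠ z' (i + 1) c
      rw [h.hz', h.dn1']; simp
  obtain ⟨-, -, hlen, h1, h2⟩ := r_tr (hM := hM) h.hL' (i := r) (by omega) hc hud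
  have hQ : ∀ k, 1 ≤ k → k ≤ 2 → ∀ t,
      (Gr b hM act m z').Reachable (.X r (2 * c + 1) 0 t) (.Q r (2 * c + 1) k) ∨
      (Gr b hM act m z').Reachable (.X r (2 * c + 2) 0 t) (.Q r (2 * c + 1) k) := by
    intro k hk hk' t
    obtain rfl | rfl : k = 1 ∨ k = 2 := by omega
    · exact Or.inl (h1 t).symm
    · exact Or.inr (h2 t).symm
  intro w hv hW
  constructor
  · rintro n k s rfl t
    obtain ⟨g1, g2, g3, g4⟩ := hv
    simp only [Wp] at hW
    rcases hW.2 with rfl | ⟨rfl, rfl⟩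
    · rcases Nat.eq_zero_or_pos k with rfl | hk
      · exact Or.inl ((h1 t).symm.trans (h1 s))
      · have h4 := r_Q (hM := hM) (act := act) (m := m) (z := z') (i := r) (n := 2 * c + 1)
          (k := k) ⟨g1, g2, g3, fun h => by omega⟩ s
        rcases hQ k hk (by omega) t with h3 | h3
        · exact Or.inl (h3.trans h4)
        · exact Or.inr (h3.trans h4)
    · exact Or.inr ((h2 t).symm.trans (h2 s))
  · rintro n k rfl t
    obtain ⟨g1, g2, g3, g4⟩ := hv
    simp only [Wp] at hW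
    obtain ⟨-, rfl⟩ := hW
    have hk : 1 ≤ k := by
      by_contra h0
      have h5 := (g4 (by omega)).2
      rw [show (2 * c + 1 - 1) / 2 = c by omega, h.nblk hr] at h5
      simp at h5
    exact hQ k hk (by omega) t

theorem Tog.joins {hM : 1 ≤ b.M} (h : Tog b act m z z' i c) :
    (Gr b hM act m z).Reachable (.X i (2 * c + 1) 0 true) (.X i (2 * c + 2) 0 true) ∧
    (Gr b hM act m z).Reachable (.X (i + 1) (2 * c + 1) 0 false)
      (.X (i + 1) (2 * c + 2) 0 false) ∧
    (Gr b hM act m z').Reachable (.X i (2 * c + 1) 0 true) (.X (i + 1) (2 * c + 1) 0 false) ∧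
    (Gr b hM act m z').Reachable (.X i (2 * c + 2) 0 true) (.X (i + 1) (2 * c + 2) 0 false) := by
  have hc := h.hc
  have hi := h.hi
  obtain ⟨-, h1, h2, -⟩ := r_str (hM := hM) h.hL (i := i) (by omega) hc h.up0 h.hz
  obtain ⟨-, h3, h4, -⟩ := r_str (hM := hM) h.hL (i := i + 1) hi hc h.hz h.dn1
  obtain ⟨-, -, -, h5, h6⟩ := r_tr (hM := hM) h.hL' (i := i) (by omega) hc
    (by rw [h.up0', h.hz']; simp)
  obtain ⟨-, -, -, h7, h8⟩ := r_tr (hM := hM) h.hL' (i := i + 1) hi hc
    (by change z' i c ≠ z' (i + 1) c; rw [h.hz', h.dn1']; simp)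
  have h9 := r_vert (hM := hM) (n := 2 * c + 1) h.hL' (i := i) (by omega) (by omega) (by omega)
    (by rw [show (2 * c + 1 - 1) / 2 = c by omega]; exact h.hz')
  have h10 := r_vert (hM := hM) (n := 2 * c + 2) h.hL' (i := i) (by omega) (by omega) (by omega)
    (by rw [show (2 * c + 2 - 1) / 2 = c by omega]; exact h.hz')
  exact ⟨(h1 true).symm.trans (h2 true), (h3 false).symm.trans (h4 false),
    (((h5 true).symm.trans (h5 false)).trans h9).trans ((h7 true).symm.trans (h7 false)),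
    (((h6 true).symm.trans (h6 false)).trans h10).trans ((h8 true).symm.trans (h8 false))⟩

/-- the four regions around a connection are equally reached -/
def Same (b : Board) (hM : 1 ≤ b.M) (act : ℕ → ℕ → Bool) (m : ℕ → Bool) (z : ℕ → ℕ → Bool)
    (i c : ℕ) : Prop :=
  (Mem b hM act m z (Zn i c) ↔ Mem b hM act m z (Zn i (c + 1))) ∧
  (Mem b hM act m z (Zn i c) ↔ Mem b hM act m z (Zn (i + 1) c)) ∧
  (Mem b hM act m z (Zn (i + 1) c) ↔ Mem b hM act m z (Zn (i + 1) (c + 1)))

theorem Tog.regions {hM : 1 ≤ b.M} (h : Tog b act m z z' i c) (zz : ℕ → ℕ → Bool) :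
    (Gr b hM act m zz).Reachable (Zn i c) (.X i (2 * c + 1) 0 true) ∧
    (Gr b hM act m zz).Reachable (Zn i (c + 1)) (.X i (2 * c + 2) 0 true) ∧
    (Gr b hM act m zz).Reachable (Zn (i + 1) c) (.X (i + 1) (2 * c + 1) 0 false) ∧
    (Gr b hM act m zz).Reachable (Zn (i + 1) (c + 1)) (.X (i + 1) (2 * c + 2) 0 false) := by
  have hc := h.hc
  have hi := h.hi
  have h1 := r_Zl (hM := hM) (act := act) (m := m) (z := zz) (i := i) (by omega) hc
  have h2 := r_Zr (hM := hM) (act := act) (m := m) (z := zz) (i := i) (by omega) hc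
  have h3 := r_Zl (hM := hM) (act := act) (m := m) (z := zz) (i := i + 1) (by omega) hc
  have h4 := r_Zr (hM := hM) (act := act) (m := m) (z := zz) (i := i + 1) (by omega) hc
  rw [h.m0] at h1
  rw [h.lm_succ0] at h2
  rw [h.m1] at h3
  rw [h.lm_succ1] at h4
  exact ⟨h1, h2, h3, h4⟩

theorem Tog.same_of {hM : 1 ≤ b.M} (h : Tog b act m z z' i c) {zz : ℕ → ℕ → Bool}
    (h1 : Mem b hM act m zz (.X i (2 * c + 1) 0 true) ↔
      Mem b hM act m zz (.X i (2 * c + 2) 0 true))
    (h2 : Mem b hM act m zz (.X i (2 * c + 1) 0 true) ↔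
      Mem b hM act m zz (.X (i + 1) (2 * c + 1) 0 false))
    (h3 : Mem b hM act m zz (.X (i + 1) (2 * c + 1) 0 false) ↔
      Mem b hM act m zz (.X (i + 1) (2 * c + 2) 0 false)) : Same b hM act m zz i c := by
  obtain ⟨g1, g2, g3, g4⟩ := h.regions (hM := hM) zz
  unfold Same
  rw [Mem.congr g1, Mem.congr g2, Mem.congr g3, Mem.congr g4]
  exact ⟨h1, h2, h3⟩

theorem Tog.Wter {hM : 1 ≤ b.M} (h : Tog b act m z z' i c)
    (hfin : {v | b.Val act v}.Finite) :
    ∃ w, (w = .X i (2 * c + 2) 0 true ∨ w = .X (i + 1) (2 * c + 1) 0 false ∨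
      w = .X (i + 1) (2 * c + 2) 0 false) ∧
      (Hr b hM act m z i c).Reachable (.X i (2 * c + 1) 0 true) w := by
  obtain ⟨w, h1, h2, h3⟩ := h.pair (hM := hM) hfin (v := .X i (2 * c + 1) 0 true) (Or.inl rfl)
  rcases h2 with rfl | h2
  · exact absurd rfl h1
  · exact ⟨w, h2, h3⟩

theorem cases_Wp {w : Nd} (hW : Wp i c w) : ∃ r, (r = i ∨ r = i + 1) ∧
    ((∃ n k s, w = .X r n k s) ∨ (∃ n k, w = .Q r n k)) := by
  cases w with
  | X r n k s => exact ⟨r, hW.1, Or.inl ⟨n, k, s, rfl⟩⟩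
  | Q r n k => exact ⟨r, hW.1, Or.inr ⟨n, k, rfl⟩⟩
  | S r t => exact absurd hW (by simp [Wp])
  | C r t => exact absurd hW (by simp [Wp])
  | T r t => exact absurd hW (by simp [Wp])
  | A c' => exact absurd hW (by simp [Wp])

theorem Tog.same_closed {hM : 1 ≤ b.M} (h : Tog b act m z z' i c)
    (hfin : {v | b.Val act v}.Finite) (hmax : cnt b hM act m z' ≤ cnt b hM act m z) :
    Same b hM act m z i c := by
  obtain ⟨j1, j2, j3, j4⟩ := h.joins (hM := hM)
  have h1 := exch (G := Gr b hM act m z) (G' := Gr b hM act m z') (H := Hr b hM act m z i c)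
    (W := fun v => b.Val act v ∧ Wp i c v) (fun v w hvw => hvw.1)
    (fun v w hvw => (h.adj_iff hvw.2).2 hvw.1)
    (fun v w hvw => by
      by_cases hW : Wp i c v ∧ Wp i c w
      · exact Or.inr ⟨⟨hvw.1, hW.1⟩, hvw.2.1, hW.2⟩
      · exact Or.inl ⟨hvw, hW⟩)
    (h.Wter hfin) j1 j2 j3 j4 (by
      rintro w ⟨hw1, hw2⟩
      obtain ⟨r, hr, hw3⟩ := cases_Wp hw2
      obtain ⟨g1, g2⟩ := h.open_in (hM := hM) hr w hw1 hw2
      have g3 : ∀ t, (Gr b hM act m z').Reachable (.X r (2 * c + 1) 0 t) w ∨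
          (Gr b hM act m z').Reachable (.X r (2 * c + 2) 0 t) w := by
        rcases hw3 with ⟨n, k, s, hw3⟩ | ⟨n, k, hw3⟩
        · exact g1 n k s hw3
        · exact g2 n k hw3
      rcases hr with rfl | rfl
      · rcases g3 true with g4 | g4
        · exact Or.inl g4
        · exact Or.inr (Or.inl g4)
      · rcases g3 false with g4 | g4
        · exact Or.inr (Or.inr (Or.inl g4))
        · exact Or.inr (Or.inr (Or.inr g4)))
  rcases h1 with h1 | ⟨h1, h2, h3⟩
  · exact h.same_of (Mem.congr j1) (Mem.congr h1) (Mem.congr j2)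
  · have h4 : {v | Mem b hM act m z v} = {v | Mem b hM act m z' v} :=
      Set.eq_of_subset_of_ncard_le (fun v hv => h3 _ _ hv) hmax (mem_fin hfin)
    have h5 : ∀ v, Mem b hM act m z v ↔ Mem b hM act m z' v := fun v => by
      have := congrArg (fun S => v ∈ S) h4
      simpa using this
    refine h.same_of (Mem.congr j1) ?_ (Mem.congr j2)
    rw [h5, h5]
    exact Mem.congr h1

theorem Tog.same_open {hM : 1 ≤ b.M} (h : Tog b act m z z' i c)
    (hfin : {v | b.Val act v}.Finite) (hmax : cnt b hM act m z ≤ cnt b hM act m z') :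
    Same b hM act m z' i c := by
  obtain ⟨j1, j2, j3, j4⟩ := h.joins (hM := hM)
  have h1 := exch (G := Gr b hM act m z') (G' := Gr b hM act m z) (H := Hr b hM act m z i c)
    (W := fun v => b.Val act v ∧ Wp i c v) (fun v w hvw => (h.adj_iff hvw.2).2 hvw.1)
    (fun v w hvw => hvw.1)
    (fun v w hvw => by
      by_cases hW : Wp i c v ∧ Wp i c w
      · exact Or.inr ⟨⟨hvw.1, hW.1⟩, hvw.2.1, hW.2⟩
      · exact Or.inl ⟨(h.adj_iff hW).1 hvw, hW⟩)
    (by
      obtain ⟨w, hw, hw'⟩ := h.Wter (hM := hM) hfin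
      exact ⟨w, by tauto, hw'⟩) j3 j4 j1 j2 (by
      rintro w ⟨hw1, hw2⟩
      obtain ⟨r, hr, hw3⟩ := cases_Wp hw2
      obtain ⟨g1, g2⟩ := h.closed_in (hM := hM) hr w hw1 hw2
      obtain ⟨q1, -, q3, -⟩ := h.regions (hM := hM) z
      have g3 : (Gr b hM act m z).Reachable (Zn r c) w := by
        rcases hw3 with ⟨n, k, s, hw3⟩ | ⟨n, k, hw3⟩
        · exact g1 n k s hw3
        · exact g2 n k hw3
      rcases hr with rfl | rfl
      · exact Or.inl (q1.symm.trans g3)
      · exact Or.inr (Or.inl (q3.symm.trans g3)))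
  rcases h1 with h1 | ⟨h1, h2, h3⟩
  · exact h.same_of (Mem.congr h1) (Mem.congr j3) (Mem.congr ((j3.symm.trans h1).trans j4))
  · have h4 : {v | Mem b hM act m z' v} = {v | Mem b hM act m z v} :=
      Set.eq_of_subset_of_ncard_le (fun v hv => h3 _ _ hv) hmax (mem_fin hfin)
    have h5 : ∀ v, Mem b hM act m z' v ↔ Mem b hM act m z v := fun v => by
      have := congrArg (fun S => v ∈ S) h4
      simpa using this
    refine h.same_of ?_ (Mem.congr j3) ?_
    · rw [h5, h5]
      exact Mem.congr h1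
    · rw [h5, h5]
      exact Mem.congr j2

end Board

end Pool.Agent.T9h21.TB
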