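import Pool.Agent.T9h21.TB.Tight

/-!
# Connections inside the graph of a configuration
-/

set_option autoImplicit false

namespace Pool.Agent.T9h21.TB

namespace Board

variable {b : Board} {hM : 1 ≤ b.M} {act : ℕ → ℕ → Bool} {m : ℕ → Bool} {z : ℕ → ℕ → Bool}

theorem rch {v w : Nd} (hv : b.Val act v) (h : (w, true) ∈ b.cand act m z v) :
    (Gr b hM act m z).Reachable v w :=
  SimpleGraph.Adj.reachable ⟨hv, val_nb hM hv (mem_nb h), h⟩

theorem r_Q {i n k : ℕ} (hv : b.Val act (.Q i n k)) (s : Bool) :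
    (Gr b hM act m z).Reachable (.Q i n k) (.X i n k s) :=
  rch hv (by cases s <;> simp [cand])

theorem r_rt {i n k : ℕ} {s : Bool} (hv : b.Val act (.X i n k s)) (h : b.gu m z i n k s = true) :
    (Gr b hM act m z).Reachable (.X i n k s) (b.rt i n k s) :=
  rch hv (by simp [cand, h])

theorem gu_or {i n k : ℕ} (h : tr z i n = false) : ∃ s, b.gu m z i n k s = true := by
  unfold gu
  rw [h]
  generalize xor (b.base m i n) (decide (k % 2 = 1)) = x
  cases x
  · exact ⟨false, by simp⟩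
  · exact ⟨true, by simp⟩

theorem r_step {i n k : ℕ} (hi : i < b.H) (hn : n ≤ 2 * b.M) (hk : 1 ≤ k)
    (hk' : k + 1 ≤ b.len i n) (h : tr z i n = false) :
    (Gr b hM act m z).Reachable (.Q i n k) (.Q i n (k + 1)) := by
  obtain ⟨s, hs⟩ := gu_or (b := b) (m := m) (k := k) h
  have hv : b.Val act (.X i n k s) := ⟨hi, hn, by omega, by omega⟩
  have h1 := r_rt (hM := hM) hv hs
  unfold rt at h1
  rw [if_pos (by omega)] at h1
  exact ((r_Q (val_Q hv hk) s).trans h1).trans
    (r_Q (⟨hi, hn, hk', fun h => by omega⟩ : b.Val act (.Q i n (k + 1))) s).symm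

theorem r_seg {i n k : ℕ} (hi : i < b.H) (hn : n ≤ 2 * b.M) (hk : 1 ≤ k)
    (hk' : k ≤ b.len i n) (h : tr z i n = false) :
    (Gr b hM act m z).Reachable (.Q i n 1) (.Q i n k) := by
  induction k with
  | zero => omega
  | succ k ih =>
    rcases Nat.eq_zero_or_pos k with rfl | hk0
    · exact SimpleGraph.Reachable.refl _
    · exact (ih hk0 (by omega)).trans (r_step hi hn hk0 hk' h)

theorem r_right {i n : ℕ} {s : Bool} (hi : i < b.H) (hn : n ≤ 2 * b.M) (hn1 : 1 ≤ n)
    (h : b.gu m z i n 0 s = true) :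
    (Gr b hM act m z).Reachable (.X i n 0 s) (.Q i n 1) := by
  have hv : b.Val act (.X i n 0 s) := ⟨hi, hn, Nat.zero_le _, fun _ => hn1⟩
  have h2 := b.two_le_len i n
  have h1 := r_rt (hM := hM) hv h
  unfold rt at h1
  rw [if_pos (by omega)] at h1
  exact h1.trans (r_Q (⟨hi, hn, by omega, fun h => by omega⟩ : b.Val act (.Q i n 1)) s).symm

theorem r_left {i n : ℕ} {s : Bool} (hi : i < b.H) (hn : n + 1 ≤ 2 * b.M)
    (h : b.gu m z i n (b.len i n) s = true) :
    (Gr b hM act m z).Reachable (.Q i n (b.len i n)) (.X i (n + 1) 0 s) := by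
  have h2 := b.two_le_len i n
  have hv : b.Val act (.X i n (b.len i n) s) := ⟨hi, by omega, le_rfl, by omega⟩
  have h1 := r_rt (hM := hM) hv h
  unfold rt at h1
  rw [if_neg (by omega), if_neg (by omega)] at h1
  exact (r_Q (val_Q hv (by omega)) s).trans h1

theorem r_op {i n : ℕ} (s : Bool) (hi : i < b.H) (hn : n ≤ 2 * b.M) (hn1 : 1 ≤ n)
    (hu : up z i ((n - 1) / 2) = false) (hd : z i ((n - 1) / 2) = false) :
    (Gr b hM act m z).Reachable (.X i n 0 s) (.X i n 0 (!s)) := by
  cases hb : b.blk i ((n - 1) / 2) with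
  | false =>
    exact rch ⟨hi, hn, Nat.zero_le _, fun _ => hn1⟩ (by simp [cand, hu, hd, hb])
  | true =>
    have hvQ : b.Val act (.Q i n 0) := ⟨hi, hn, Nat.zero_le _, fun _ => ⟨hn1, hb⟩⟩
    exact (r_Q hvQ s).symm.trans (r_Q hvQ _)

theorem r_vert {i n : ℕ} (hL : Legal b act m z) (hi : i < b.H) (hn : n ≤ 2 * b.M) (hn1 : 1 ≤ n)
    (hz : z i ((n - 1) / 2) = true) :
    (Gr b hM act m z).Reachable (.X i n 0 false) (.X (i + 1) n 0 true) := by
  have hH : b.H = 2 * b.h + 2 := rfl
  have hi1 : i ≠ 2 * b.h + 1 := by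
    rintro rfl
    rw [hL.bot] at hz
    simp at hz
  have hv : b.Val act (.X i n 0 false) := ⟨hi, hn, Nat.zero_le _, fun _ => hn1⟩
  by_cases hA' : hA act i n = true
  · have hA2 := hA_iff.1 hA'
    obtain ⟨g1, g2⟩ := hA2
    have g4 : 2 * (n / 2) + 1 = n := by omega
    have hvA : b.Val act (.A i (n / 2)) := ⟨by omega, by omega, g2⟩
    have h1 : (Gr b hM act m z).Reachable (.A i (n / 2)) (.X i n 0 false) :=
      rch hvA (by simp [cand, g4])
    have h2 : (Gr b hM act m z).Reachable (.A i (n / 2)) (.X (i + 1) n 0 true) :=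
      rch hvA (by simp [cand, g4])
    exact h1.symm.trans h2
  · refine rch hv ?_
    simp only [cand, List.mem_cons]
    right; right; right
    rw [if_pos trivial, List.mem_append]
    right
    unfold vcand
    rw [if_neg (by simp), if_neg hi1, List.mem_cons]
    left
    simp [hz, hA']

/-- the node of region `c` of row `i` -/
def Zn (i c : ℕ) : Nd := .Q i (2 * c) 1

theorem tr_even (i c : ℕ) : tr z i (2 * c) = false := by
  unfold tr; simp

theorem tr_odd (i c : ℕ) : tr z i (2 * c + 1) = xor (up z i c) (z i c) := by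
  unfold tr
  rw [show (2 * c + 1) / 2 = c by omega, show (2 * c + 1) % 2 = 1 by omega]
  simp

theorem r_Zl {i c : ℕ} (hi : i < b.H) (hc : c < b.M) :
    (Gr b hM act m z).Reachable (Zn i c) (.X i (2 * c + 1) 0 (b.lm m i c)) := by
  have h1 : b.gu m z i (2 * c) (b.len i (2 * c)) (b.lm m i c) = true := by
    rw [gl1 hM i hc]; cases b.lm m i c <;> rfl
  have h2 := b.two_le_len i (2 * c)
  exact (r_seg hi (by omega) (by omega) le_rfl (tr_even i c)).trans (r_left hi (by omega) h1)

theorem r_Zr {i c : ℕ} (hi : i < b.H) (hc : c < b.M) :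
    (Gr b hM act m z).Reachable (Zn i (c + 1)) (.X i (2 * c + 2) 0 (!(b.lm m i (c + 1)))) := by
  have h1 : b.gu m z i (2 * c + 2) 0 (!(b.lm m i (c + 1))) = true := by
    rw [gr2]; cases b.lm m i (c + 1) <;> rfl
  exact (r_right hi (by omega) (by omega) h1).symm

/-- in a row without change, the inner part of a pair is connected -/
theorem r_in {i c : ℕ} (hL : Legal b act m z) (hi : i < b.H) (hc : c < b.M)
    (h : up z i c = z i c) :
    (Gr b hM act m z).Reachable (.Q i (2 * c + 1) 1) (.X i (2 * c + 1) 0 (!(b.lm m i c))) ∧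
    (Gr b hM act m z).Reachable (.Q i (2 * c + 1) 1) (.X i (2 * c + 2) 0 (b.lm m i (c + 1))) ∧
    ∀ k, 1 ≤ k → k ≤ b.len i (2 * c + 1) →
      (Gr b hM act m z).Reachable (.Q i (2 * c + 1) 1) (.Q i (2 * c + 1) k) := by
  have htr : tr z i (2 * c + 1) = false := by rw [tr_odd, h]; simp
  have h2 := b.two_le_len i (2 * c + 1)
  have h3 : ∀ k, 1 ≤ k → k ≤ b.len i (2 * c + 1) →
      (Gr b hM act m z).Reachable (.Q i (2 * c + 1) 1) (.Q i (2 * c + 1) k) :=
    fun k hk hk' => r_seg hi (by omega) hk hk' htr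
  refine ⟨(r_right hi (by omega) (by omega) ?_).symm, (h3 _ (by omega) le_rfl).trans
    (r_left hi (by omega) ?_), h3⟩
  · rw [gr1, h]; cases b.lm m i c <;> simp
  · rw [gl2 hL hi hc, h]; cases b.lm m i (c + 1) <;> simp

/-- in a row with a change at pair `c`, the two halves of the pair are connected -/
theorem r_tr {i c : ℕ} (hL : Legal b act m z) (hi : i < b.H) (hc : c < b.M)
    (h : up z i c ≠ z i c) :
    b.lit i c = true ∧ b.lm m i c = z i c ∧ b.len i (2 * c + 1) = 2 ∧
    (∀ s, (Gr b hM act m z).Reachable (.Q i (2 * c + 1) 1) (.X i (2 * c + 1) 0 s)) ∧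
    (∀ s, (Gr b hM act m z).Reachable (.Q i (2 * c + 1) 2) (.X i (2 * c + 2) 0 s)) := by
  obtain ⟨h1, h2⟩ := (hL.law i hi c hc).resolve_left h
  have hx : xor (up z i c) (z i c) = true := by
    cases h3 : up z i c <;> cases h4 : z i c <;> simp_all
  have hlen : b.len i (2 * c + 1) = 2 := by rw [len_odd hc, if_pos h1]
  refine ⟨h1, h2.symm, hlen, fun s => (r_right hi (by omega) (by omega) ?_).symm, fun s => ?_⟩
  · rw [gr1, hx]; simp
  · have := r_left (hM := hM) (act := act) (m := m) (z := z) (i := i) (n := 2 * c + 1) (s := s) hi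
      (by omega) (by rw [gl2 hL hi hc, hx]; simp)
    rwa [hlen] at this

/-- in a row that is not used vertically, everything is connected at a pair -/
theorem r_str {i c : ℕ} (hL : Legal b act m z) (hi : i < b.H) (hc : c < b.M)
    (hu : up z i c = false) (hd : z i c = false) :
    (Gr b hM act m z).Reachable (Zn i c) (Zn i (c + 1)) ∧
    (∀ s, (Gr b hM act m z).Reachable (Zn i c) (.X i (2 * c + 1) 0 s)) ∧
    (∀ s, (Gr b hM act m z).Reachable (Zn i c) (.X i (2 * c + 2) 0 s)) ∧
    ∀ k, 1 ≤ k → k ≤ b.len i (2 * c + 1) →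
      (Gr b hM act m z).Reachable (Zn i c) (.Q i (2 * c + 1) k) := by
  obtain ⟨h1, h2, h3⟩ := r_in (hM := hM) hL hi hc (by rw [hu, hd])
  have h4 := r_Zl (hM := hM) (act := act) (m := m) (z := z) hi hc
  have h5 := r_Zr (hM := hM) (act := act) (m := m) (z := z) hi hc
  have h6 : ∀ s, (Gr b hM act m z).Reachable (.X i (2 * c + 1) 0 s)
      (.X i (2 * c + 1) 0 (!s)) := fun s => r_op s hi (by omega) (by omega)
    (by rw [show (2 * c + 1 - 1) / 2 = c by omega]; exact hu)
    (by rw [show (2 * c + 1 - 1) / 2 = c by omega]; exact hd)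
  have h7 : ∀ s, (Gr b hM act m z).Reachable (.X i (2 * c + 2) 0 s)
      (.X i (2 * c + 2) 0 (!s)) := fun s => r_op s hi (by omega) (by omega)
    (by rw [show (2 * c + 2 - 1) / 2 = c by omega]; exact hu)
    (by rw [show (2 * c + 2 - 1) / 2 = c by omega]; exact hd)
  have h8 : ∀ s, (Gr b hM act m z).Reachable (Zn i c) (.X i (2 * c + 1) 0 s) := by
    intro s
    by_cases hs : s = b.lm m i c
    · rw [hs]; exact h4
    · have : s = !(b.lm m i c) := by cases s <;> cases h9 : b.lm m i c <;> simp_all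
      rw [this]; exact h4.trans (h6 _)
  have h9 : (Gr b hM act m z).Reachable (Zn i c) (.Q i (2 * c + 1) 1) := (h8 _).trans h1.symm
  have h10 : ∀ s, (Gr b hM act m z).Reachable (Zn i c) (.X i (2 * c + 2) 0 s) := by
    intro s
    by_cases hs : s = b.lm m i (c + 1)
    · rw [hs]; exact h9.trans h2
    · have : s = !(b.lm m i (c + 1)) := by cases s <;> cases h9 : b.lm m i (c + 1) <;> simp_all
      rw [this]; exact (h9.trans h2).trans (h7 _)
  exact ⟨(h10 _).trans h5.symm, h8, h10, fun k hk hk' => h9.trans (h3 k hk hk')⟩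

end Board

end Pool.Agent.T9h21.TB
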