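import Pool.Agent.T9h21.TB.Contact
import Pool.Agent.T9h21.TB.Cyc

/-!
# Tight tours of a board yield assignments
-/

set_option autoImplicit false

namespace Pool.Agent.T9h21.TB

namespace Board

variable (b : Board)

/-- the parity of the number of literal segments before pair `c` in row `i` -/
def par (i : ℕ) : ℕ → Bool
  | 0 => false
  | c + 1 => xor (par i c) (b.lit i c)

/-- the point between the circles of a blocked wire -/
def qN (i n : ℕ) : List Nd := if b.blk i ((n - 1) / 2) = true then [.Q i n 0] else []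

variable {b} {act : ℕ → ℕ → Bool}

theorem nb_wire (i n : ℕ) (s : Bool) : b.nb act (.X i n 0 s) =
    b.lf i n 0 s :: b.rt i n 0 s :: .X i n 0 (!s) :: (b.qN i n ++ b.vert act i n s) := by
  simp [nb, qN]

theorem nb_rung (i n k : ℕ) (s : Bool) (hk : 1 ≤ k) : b.nb act (.X i n k s) =
    [b.lf i n k s, b.rt i n k s, .X i n k (!s), .Q i n k] := by
  have : ¬ k = 0 := by omega
  simp [nb, this]

theorem nodup_rung (i n k : ℕ) (s : Bool) (hk : 1 ≤ k) : (b.nb act (.X i n k s)).Nodup := by
  rw [nb_rung i n k s hk]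
  have h1 : k - 1 ≠ k + 1 := by omega
  have h2 : k - 1 ≠ k := by omega
  have h3 : ¬ k = 0 := by omega
  unfold lf rt
  rw [if_neg h3]
  split_ifs <;> simp [h1, h2]

theorem nodup_wire (i n : ℕ) (s : Bool) (hn : 1 ≤ n) : (b.nb act (.X i n 0 s)).Nodup := by
  rw [nb_wire]
  have h1 : n - 1 ≠ n + 1 := by omega
  have h2 : n - 1 ≠ n := by omega
  have h4 : 0 < b.len i n := by have := b.two_le_len i n; omega
  unfold lf rt vert qN aN
  rw [if_pos rfl, if_pos h4]
  cases s
  · simp only [Bool.false_eq_true, if_false]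
    split_ifs <;> simp <;> omega
  · simp only [if_true]
    split_ifs <;> simp <;> omega

end Board

open Classical in
/-- whether two nodes are neighbours -/
noncomputable def ua (A : Nd → Nd → Prop) (v w : Nd) : ℕ := if A v w ∨ A w v then 1 else 0

theorem ua_comm {A : Nd → Nd → Prop} (v w : Nd) : ua A v w = ua A w v := by
  unfold ua
  by_cases h : A v w ∨ A w v
  · rw [if_pos h, if_pos h.symm]
  · rw [if_neg h, if_neg fun h' => h h'.symm]

theorem ua_le {A : Nd → Nd → Prop} (v w : Nd) : ua A v w ≤ 1 := by unfold ua; split_ifs <;> omega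

theorem ua_cases {A : Nd → Nd → Prop} (v w : Nd) : ua A v w = 0 ∨ ua A v w = 1 := by
  unfold ua; split_ifs <;> omega

/-- the nodes of the rows without their ends -/
def Nd.loc : Nd → Bool
  | .X _ _ _ _ => true
  | .Q _ _ _ => true
  | .A _ _ => true
  | _ => false

/-- the neighbourhood relation `A` behaves like that of a long tight tour at the nodes of the
rows -/
structure Loc (b : Board) (act : ℕ → ℕ → Bool) (A : Nd → Nd → Prop) : Prop where
  snb : ∀ v, b.Val act v → v.loc = true → (b.nb act v).Nodup →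
    ((b.nb act v).map (ua A v)).sum = 2
  small : ∀ (L : List Nd) (v0 : Nd), v0 ∈ L →
    (∀ v ∈ L, b.Val act v ∧ ∃ a ∈ L, ∃ c ∈ L, a ≠ c ∧ ua A v a = 1 ∧ ua A v c = 1) →
    (∀ v ∈ L, v.loc = true) → False

section

open Board

variable {b : Board} {act : ℕ → ℕ → Bool} {A : Nd → Nd → Prop}

theorem s_nb (hC : Loc b act A) {v : Nd} (hv : b.Val act v) (hl : v.loc = true)
    (hn : (b.nb act v).Nodup) : ((b.nb act v).map (ua A v)).sum = 2 :=
  hC.snb v hv hl hn

theorem s_Q (hM : 1 ≤ b.M) (hC : Loc b act A) {i n k : ℕ}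
    (hv : b.Val act (.Q i n k)) (s : Bool) : ua A (.X i n k s) (.Q i n k) = 1 := by
  have h1 := s_nb hC hv rfl (by simp [nb])
  simp only [nb, List.map_cons, List.map_nil, List.sum_cons, List.sum_nil] at h1
  have h2 := ua_le (A := A) (.Q i n k) (.X i n k true)
  have h3 := ua_le (A := A) (.Q i n k) (.X i n k false)
  rw [ua_comm]
  cases s <;> omega

theorem s_A (hM : 1 ≤ b.M) (hC : Loc b act A) {e c : ℕ}
    (hv : b.Val act (.A e c)) : ua A (.A e c) (.X e (2 * c + 1) 0 false) = 1 ∧
      ua A (.A e c) (.X (e + 1) (2 * c + 1) 0 true) = 1 := by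
  have h1 := s_nb hC hv rfl (by simp [nb])
  simp only [nb, List.map_cons, List.map_nil, List.sum_cons, List.sum_nil] at h1
  have h2 := ua_le (A := A) (.A e c) (.X e (2 * c + 1) 0 false)
  have h3 := ua_le (A := A) (.A e c) (.X (e + 1) (2 * c + 1) 0 true)
  omega

theorem not_small (hC : Loc b act A) (L : List Nd) {v0 : Nd} (hv0 : v0 ∈ L)
    (hL : ∀ v ∈ L, b.Val act v ∧ ∃ a ∈ L, ∃ c ∈ L, a ≠ c ∧ ua A v a = 1 ∧ ua A v c = 1)
    (hS : ∀ v ∈ L, v.loc = true) : False :=
  hC.small L v0 hv0 hL hS

theorem val_op {i n k : ℕ} {s : Bool} (hv : b.Val act (.X i n k s)) (s' : Bool) :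
    b.Val act (.X i n k s') := hv

theorem val_Q {i n k : ℕ} {s : Bool} (hv : b.Val act (.X i n k s)) (hk : 1 ≤ k) :
    b.Val act (.Q i n k) := ⟨hv.1, hv.2.1, hv.2.2.1, fun h => by omega⟩

/-- the two circles of a rung are not joined -/
theorem s_op (hM : 1 ≤ b.M) (hC : Loc b act A) {i n k : ℕ} {s : Bool}
    (hv : b.Val act (.X i n k s)) (hvQ : b.Val act (.Q i n k)) :
    ua A (.X i n k s) (.X i n k (!s)) = 0 := by
  rcases ua_cases (A := A) (.X i n k s) (.X i n k (!s)) with h | h
  · exact h
  exfalso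
  have h1 := s_Q hM hC hvQ
  refine not_small hC [.X i n k s, .X i n k (!s), .Q i n k] (v0 := .X i n k s) (by simp) ?_
    (by simp [Nd.loc])
  intro v hv'
  simp only [List.mem_cons, List.not_mem_nil, or_false] at hv'
  rcases hv' with rfl | rfl | rfl
  · exact ⟨hv, .X i n k (!s), by simp, .Q i n k, by simp, by simp, h, h1 s⟩
  · exact ⟨val_op hv _, .X i n k s, by simp, .Q i n k, by simp, by simp,
      by rw [ua_comm]; exact h, h1 _⟩
  · exact ⟨hvQ, .X i n k s, by simp, .X i n k (!s), by simp, by simp,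
      by rw [ua_comm]; exact h1 _, by rw [ua_comm]; exact h1 _⟩

/-- whether the gap to the right of a station is used -/
noncomputable def gp (b : Board) (A : Nd → Nd → Prop) (i n k : ℕ) (s : Bool) : ℕ :=
  if n = 0 ∧ k = 0 then ua A (.X i 0 1 s) (.S i false) else ua A (.X i n k s) (b.rt i n k s)

theorem gp_le (i n k : ℕ) (s : Bool) : gp b A i n k s ≤ 1 := by
  unfold gp; split_ifs <;> exact ua_le _ _

theorem us_lf {i n k : ℕ} {s : Bool} (hv : b.Val act (.X i n k s)) :
    ua A (.X i n k s) (b.lf i n k s) =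
      if k = 0 then gp b A i (n - 1) (b.len i (n - 1)) s else gp b A i n (k - 1) s := by
  obtain ⟨h1, h2, h3, h4⟩ := hv
  have h5 := b.two_le_len i (n - 1)
  unfold lf gp
  by_cases hk : k = 0
  · rw [if_pos hk, if_pos hk, if_neg (by omega), ua_comm]
    have h6 := h4 hk
    subst hk
    unfold rt
    rw [if_neg (by omega), if_neg (by omega), Nat.sub_add_cancel h6]
  · rw [if_neg hk, if_neg hk]
    by_cases h6 : k = 1 ∧ n = 0
    · rw [if_pos h6, if_pos (by omega), h6.1, h6.2]
    · rw [if_neg h6, if_neg (by omega), ua_comm]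
      unfold rt
      rw [if_pos (by omega), Nat.sub_add_cancel (by omega)]

theorem us_rt {i n k : ℕ} {s : Bool} (hv : b.Val act (.X i n k s)) :
    ua A (.X i n k s) (b.rt i n k s) = gp b A i n k s := by
  obtain ⟨h1, h2, h3, h4⟩ := hv
  unfold gp
  rw [if_neg (by omega)]

/-- the gaps around a rung are used alternately -/
theorem gp_step (hM : 1 ≤ b.M) (hC : Loc b act A) {i n k : ℕ} {s : Bool}
    (hi : i < b.H) (hn : n ≤ 2 * b.M) (hk : k + 1 ≤ b.len i n) :
    gp b A i n k s + gp b A i n (k + 1) s = 1 := by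
  have hv : b.Val act (.X i n (k + 1) s) := ⟨hi, hn, hk, by omega⟩
  have h1 := s_nb hC hv rfl (nodup_rung _ _ _ _ (by omega))
  rw [nb_rung _ _ _ _ (by omega)] at h1
  simp only [List.map_cons, List.map_nil, List.sum_cons, List.sum_nil] at h1
  rw [us_lf hv, us_rt hv, s_op hM hC hv (val_Q hv (by omega)), s_Q hM hC (val_Q hv (by omega)),
    if_neg (by omega), Nat.add_sub_cancel] at h1
  omega

theorem gp_alt (hM : 1 ≤ b.M) (hC : Loc b act A) {i n k : ℕ} {s : Bool}
    (hi : i < b.H) (hn : n ≤ 2 * b.M) (hk : k ≤ b.len i n) :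
    (k % 2 = 0 → gp b A i n k s = gp b A i n 0 s) ∧
    (k % 2 = 1 → gp b A i n k s + gp b A i n 0 s = 1) := by
  induction k with
  | zero => exact ⟨fun _ => rfl, fun h => by omega⟩
  | succ k ih =>
    have h1 := ih (by omega)
    have h2 := gp_step (s := s) hM hC hi hn hk
    have h3 := gp_le (b := b) (A := A) i n k s
    constructor
    · intro h4
      have := h1.2 (by omega)
      omega
    · intro h4
      have := h1.1 (by omega)
      omega

/-- the gaps between two rungs are not both used -/
theorem gp_hex (hM : 1 ≤ b.M) (hC : Loc b act A) {i n k : ℕ}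
    (hi : i < b.H) (hn : n ≤ 2 * b.M) (hk : 1 ≤ k) (hk' : k + 1 ≤ b.len i n)
    (h1 : gp b A i n k true = 1) (h2 : gp b A i n k false = 1) : False := by
  have hv : ∀ s, b.Val act (.X i n k s) := fun s => ⟨hi, hn, by omega, by omega⟩
  have hv' : ∀ s, b.Val act (.X i n (k + 1) s) := fun s => ⟨hi, hn, by omega, by omega⟩
  have h3 : ∀ s, ua A (.X i n k s) (.X i n (k + 1) s) = 1 := by
    intro s
    have h4 : gp b A i n k s = 1 := by cases s <;> assumption
    unfold gp rt at h4
    rwa [if_neg (by omega), if_pos (by omega)] at h4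
  have h4 := s_Q hM hC (val_Q (hv true) hk)
  have h5 := s_Q hM hC (val_Q (hv' true) (by omega))
  refine not_small hC [.X i n k true, .Q i n k, .X i n k false, .X i n (k + 1) false,
    .Q i n (k + 1), .X i n (k + 1) true] (v0 := .X i n k true) (by simp) ?_
    (by simp [Nd.loc])
  intro v hv''
  simp only [List.mem_cons, List.not_mem_nil, or_false] at hv''
  rcases hv'' with rfl | rfl | rfl | rfl | rfl | rfl
  · exact ⟨hv _, .Q i n k, by simp, .X i n (k + 1) true, by simp, by simp, h4 _, h3 _⟩
  · exact ⟨val_Q (hv true) hk, .X i n k true, by simp, .X i n k false, by simp, by simp,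
      by rw [ua_comm]; exact h4 _, by rw [ua_comm]; exact h4 _⟩
  · exact ⟨hv _, .Q i n k, by simp, .X i n (k + 1) false, by simp, by simp, h4 _, h3 _⟩
  · exact ⟨hv' _, .X i n k false, by simp, .Q i n (k + 1), by simp, by simp,
      by rw [ua_comm]; exact h3 _, h5 _⟩
  · exact ⟨val_Q (hv' true) (by omega), .X i n (k + 1) true, by simp, .X i n (k + 1) false,
      by simp, by simp, by rw [ua_comm]; exact h5 _, by rw [ua_comm]; exact h5 _⟩
  · exact ⟨hv' _, .X i n k true, by simp, .Q i n (k + 1), by simp, by simp,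
      by rw [ua_comm]; exact h3 _, h5 _⟩

theorem gp_pos (hM : 1 ≤ b.M) (hC : Loc b act A) {i n : ℕ}
    (hi : i < b.H) (hn : n ≤ 2 * b.M) : 1 ≤ gp b A i n 0 true + gp b A i n 0 false := by
  by_contra h
  have h2 := b.two_le_len i n
  have h3 := gp_step (s := true) hM hC hi hn (k := 0) (by omega)
  have h4 := gp_step (s := false) hM hC hi hn (k := 0) (by omega)
  rw [zero_add] at h3 h4
  exact gp_hex hM hC hi hn (k := 1) le_rfl h2 (by omega) (by omega)

theorem gp_sum (hM : 1 ≤ b.M) (hC : Loc b act A) {i n : ℕ}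
    (hi : i < b.H) (hn : n ≤ 2 * b.M) (hl : 3 ≤ b.len i n) :
    gp b A i n 0 true + gp b A i n 0 false = 1 := by
  have h1 := gp_pos hM hC hi hn
  have h2 := (gp_alt (s := true) hM hC hi hn (k := 2) (by omega)).1 rfl
  have h3 := (gp_alt (s := false) hM hC hi hn (k := 2) (by omega)).1 rfl
  have h4 := gp_le (b := b) (A := A) i n 0 true
  have h5 := gp_le (b := b) (A := A) i n 0 false
  by_contra h
  exact gp_hex hM hC hi hn (k := 2) (by omega) (by omega) (by omega) (by omega)

/-- the use of the vertical neighbours of a wire -/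
noncomputable def vt (b : Board) (act : ℕ → ℕ → Bool) (A : Nd → Nd → Prop) (i n : ℕ) (s : Bool) : ℕ :=
  ((b.vert act i n s).map (ua A (.X i n 0 s))).sum

theorem wire_sum (hM : 1 ≤ b.M) (hC : Loc b act A) {i n : ℕ}
    (hi : i < b.H) (hn : n ≤ 2 * b.M) (hn1 : 1 ≤ n) :
    ∃ q : ℕ, (b.blk i ((n - 1) / 2) = true → q = 1) ∧
      ∀ s, gp b A i (n - 1) (b.len i (n - 1)) s + gp b A i n 0 s + q + vt b act A i n s = 2 := by
  have hv : ∀ s, b.Val act (.X i n 0 s) := fun s => ⟨hi, hn, Nat.zero_le _, fun _ => hn1⟩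
  have h1 := fun s => s_nb hC (hv s) rfl (nodup_wire _ _ _ hn1)
  have h2 : ∀ s, ua A (.X i n 0 s) (.X i n 0 (!s)) = ua A (.X i n 0 true) (.X i n 0 false) := by
    intro s
    cases s
    · rw [ua_comm]; rfl
    · rfl
  by_cases hb : b.blk i ((n - 1) / 2) = true
  · have hvQ : b.Val act (.Q i n 0) := ⟨hi, hn, Nat.zero_le _, fun _ => ⟨hn1, hb⟩⟩
    refine ⟨1, fun _ => rfl, fun s => ?_⟩
    have h3 := h1 s
    rw [nb_wire, qN, if_pos hb] at h3
    simp only [List.map_cons, List.sum_cons, List.cons_append, List.nil_append] at h3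
    rw [us_lf (hv s), us_rt (hv s), if_pos rfl, s_op hM hC (hv s) hvQ, s_Q hM hC hvQ s] at h3
    unfold vt
    omega
  · refine ⟨ua A (.X i n 0 true) (.X i n 0 false), fun h => absurd h hb, fun s => ?_⟩
    have h3 := h1 s
    rw [nb_wire, qN, if_neg hb] at h3
    simp only [List.map_cons, List.sum_cons, List.nil_append] at h3
    rw [us_lf (hv s), us_rt (hv s), if_pos rfl, h2] at h3
    unfold vt
    omega

theorem vt_top (n : ℕ) : vt b act A 0 n true = 0 := by
  unfold vt vert
  simp

theorem vt_bot (n : ℕ) : vt b act A (2 * b.h + 1) n false = 0 := by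
  unfold vt vert
  simp

theorem vt_step (hM : 1 ≤ b.M) (hC : Loc b act A) {i n : ℕ} (hi : i ≤ 2 * b.h)
    (hn : n ≤ 2 * b.M) (hn1 : 1 ≤ n) : vt b act A (i + 1) n true = vt b act A i n false ∧
      vt b act A i n false ≤ 1 ∧
      (n % 2 = 1 → act i (n / 2) = true → vt b act A i n false = 1) := by
  have h1 : ¬ i = 2 * b.h + 1 := by omega
  have hH : b.H = 2 * b.h + 2 := rfl
  by_cases h : n % 2 = 1 ∧ act i (n / 2) = true
  · obtain ⟨h3, h4⟩ := h
    have hvA : b.Val act (.A i (n / 2)) := ⟨hi, by omega, h4⟩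
    obtain ⟨h5, h6⟩ := s_A hM hC hvA
    have h7 : 2 * (n / 2) + 1 = n := by omega
    rw [h7, ua_comm] at h5 h6
    have h8 : ua A (.X i n 0 false) (.X (i + 1) n 0 true) = 0 := by
      rcases ua_cases (A := A) (.X i n 0 false) (.X (i + 1) n 0 true) with h | h
      · exact h
      exfalso
      refine not_small hC [.X i n 0 false, .X (i + 1) n 0 true, .A i (n / 2)]
        (v0 := .A i (n / 2)) (by simp) ?_ (by simp [Nd.loc])
      intro v hv
      simp only [List.mem_cons, List.not_mem_nil, or_false] at hv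
      rcases hv with rfl | rfl | rfl
      · exact ⟨⟨by omega, hn, Nat.zero_le _, fun _ => hn1⟩, _, by simp, .A i (n / 2),
          by simp, by simp, h, h5⟩
      · exact ⟨⟨by omega, hn, Nat.zero_le _, fun _ => hn1⟩, .X i n 0 false,
          by simp, .A i (n / 2), by simp, by simp, by rw [ua_comm]; exact h, h6⟩
      · exact ⟨hvA, .X i n 0 false, by simp, .X (i + 1) n 0 true, by simp, by simp,
          by rw [ua_comm]; exact h5, by rw [ua_comm]; exact h6⟩
    have h9 : vt b act A i n false = 1 := by
      unfold vt vert aN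
      simp [h1, h3, h4, h8, h5]
    have h10 : vt b act A (i + 1) n true = 1 := by
      unfold vt vert aN
      rw [ua_comm] at h8
      simp [h3, h4, h8, h6]
    rw [h9, h10]
    exact ⟨rfl, le_rfl, fun _ _ => rfl⟩
  · have h9 : vt b act A i n false = ua A (.X i n 0 false) (.X (i + 1) n 0 true) := by
      unfold vt vert aN
      rw [if_neg (by simp), if_neg h1, if_neg h]
      simp
    have h10 : vt b act A (i + 1) n true = ua A (.X (i + 1) n 0 true) (.X i n 0 false) := by
      unfold vt vert aN
      rw [if_pos rfl, if_neg (by omega), Nat.add_sub_cancel, if_neg h]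
      simp
    rw [h9, h10, ua_comm]
    exact ⟨rfl, ua_le _ _, fun h4 h5 => absurd ⟨h4, h5⟩ h⟩

theorem len_even (hM : 1 ≤ b.M) (i c : ℕ) : b.len i (2 * c) = if c = 0 ∨ c = b.M then 12 else 11 := by
  unfold len ty
  by_cases h1 : c = 0
  · subst h1; simp [FT.len]
  · rw [if_neg (by omega)]
    by_cases h2 : c = b.M
    · subst h2; simp [FT.len]
    · rw [if_neg (by omega), if_neg (by omega), if_neg (by omega)]; rfl

theorem len_odd {c : ℕ} (hc : c < b.M) (i : ℕ) :
    b.len i (2 * c + 1) = if b.lit i c = true then 2 else 11 := by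
  unfold len ty
  have h1 : (2 * c + 1) / 2 = c := by omega
  have h2 : (2 * c + 1) % 2 = 1 := by omega
  rw [if_neg (by omega), if_neg (by omega), h1, h2]
  by_cases h3 : b.lit i c = true
  · simp [h3, FT.len]
  · simp [h3, FT.len]

/-- the use of the gap left of the first wire of pair `c` -/
noncomputable def lam (b : Board) (A : Nd → Nd → Prop) (i c : ℕ) (s : Bool) : ℕ :=
  gp b A i (2 * c) (b.len i (2 * c)) s

theorem lam_sum (hM : 1 ≤ b.M) (hC : Loc b act A) {i c : ℕ} (hi : i < b.H)
    (hc : c ≤ b.M) : lam b A i c true + lam b A i c false = 1 := by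
  have h0 : 11 ≤ b.len i (2 * c) := by rw [len_even hM]; split_ifs <;> omega
  have h1 := gp_sum hM hC hi (n := 2 * c) (by omega) (by omega)
  have h2 := gp_alt (s := true) hM hC hi (n := 2 * c) (by omega) le_rfl
  have h3 := gp_alt (s := false) hM hC hi (n := 2 * c) (by omega) le_rfl
  unfold lam
  rcases Nat.mod_two_eq_zero_or_one (b.len i (2 * c)) with h4 | h4
  · rw [h2.1 h4, h3.1 h4]; exact h1
  · have := h2.2 h4
    have := h3.2 h4
    omega

/-- the local law at a pair of wires -/
theorem law (hM : 1 ≤ b.M) (hC : Loc b act A) {i c : ℕ} (hi : i < b.H)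
    (hc : c < b.M) (hu : vt b act A i (2 * c + 1) true = vt b act A i (2 * c + 2) true)
    (hu1 : vt b act A i (2 * c + 1) true ≤ 1) (hd : vt b act A i (2 * c + 1) false ≤ 1)
    (hd1 : vt b act A i (2 * c + 2) false ≤ 1) :
    vt b act A i (2 * c + 1) false = vt b act A i (2 * c + 2) false ∧
    (b.blk i c = true → vt b act A i (2 * c + 1) true = 0 ∧ vt b act A i (2 * c + 1) false = 0) ∧
    (b.lit i c = false → vt b act A i (2 * c + 1) false = vt b act A i (2 * c + 1) true ∧
      (c + 1 < b.M → lam b A i (c + 1) true = lam b A i c true)) ∧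
    (b.lit i c = true → (c + 1 < b.M → lam b A i (c + 1) true + lam b A i c true = 1) ∧
      (vt b act A i (2 * c + 1) true = 0 → vt b act A i (2 * c + 1) false = 1 →
        lam b A i c true = 1)) := by
  have h1 := lam_sum hM hC hi hc.le
  obtain ⟨q, hq, h2⟩ := wire_sum hM hC hi (n := 2 * c + 1) (by omega) (by omega)
  obtain ⟨q', -, h3⟩ := wire_sum hM hC hi (n := 2 * c + 2) (by omega) (by omega)
  rw [show (2 * c + 1 - 1) / 2 = c by omega] at hq
  have h4 : ∀ s, lam b A i c s + gp b A i (2 * c + 1) 0 s + q + vt b act A i (2 * c + 1) s = 2 := by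
    intro s; have := h2 s; simpa [lam] using this
  have h5 : ∀ s, gp b A i (2 * c + 1) (b.len i (2 * c + 1)) s + gp b A i (2 * c + 2) 0 s + q' +
      vt b act A i (2 * c + 2) s = 2 := by
    intro s; have := h3 s; simpa using this
  have h6 := h4 true
  have h7 := h4 false
  have h8 := h5 true
  have h9 := h5 false
  have hle : ∀ n s, gp b A i n 0 s ≤ 1 := fun n s => gp_le _ _ _ _
  have g1 := hle (2 * c + 1) true
  have g2 := hle (2 * c + 1) false
  have g3 := hle (2 * c + 2) true
  have g4 := hle (2 * c + 2) false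
  have hl2 : 11 ≤ b.len i (2 * c + 2) := by
    have := len_even hM i (c + 1)
    rw [show 2 * (c + 1) = 2 * c + 2 by ring] at this
    rw [this]; split_ifs <;> omega
  have h10 := gp_sum hM hC hi (n := 2 * c + 2) (by omega) (by omega)
  have h11 := gp_pos hM hC hi (n := 2 * c + 1) (by omega)
  have h12 : c + 1 < b.M → lam b A i (c + 1) true + gp b A i (2 * c + 2) 0 true = 1 := by
    intro h
    have h13 := len_even hM i (c + 1)
    rw [if_neg (by omega)] at h13
    exact (gp_alt (s := true) hM hC hi (n := 2 * c + 2) (k := b.len i (2 * (c + 1))) (by omega)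
      le_rfl).2 (by rw [h13])
  have h14 := fun s => gp_alt (s := s) hM hC hi (n := 2 * c + 1) (by omega) le_rfl
  have h15 := len_odd hc i
  cases hlit : b.lit i c with
  | false =>
    rw [hlit, if_neg (by simp)] at h15
    have h16 := gp_sum hM hC hi (n := 2 * c + 1) (by omega) (by omega)
    have h17 := (h14 true).2 (by rw [h15])
    have h18 := (h14 false).2 (by rw [h15])
    refine ⟨by omega, fun hb => by have := hq hb; omega, fun _ => ⟨by omega, fun h => ?_⟩,
      fun h => by simp at h⟩
    have := h12 h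
    omega
  | true =>
    rw [hlit, if_pos rfl] at h15
    have h17 := (h14 true).1 (by rw [h15])
    have h18 := (h14 false).1 (by rw [h15])
    refine ⟨by omega, fun hb => by have := hq hb; omega, fun h => by simp at h,
      fun _ => ⟨fun h => ?_, fun _ _ => by omega⟩⟩
    have := h12 h
    omega

theorem vt_le (hM : 1 ≤ b.M) (hC : Loc b act A) {i n : ℕ} (hi : i < b.H)
    (hn : n ≤ 2 * b.M) (hn1 : 1 ≤ n) (s : Bool) : vt b act A i n s ≤ 1 := by
  unfold H at hi
  cases s with
  | false =>
    rcases Nat.lt_or_ge (2 * b.h) i with h | h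
    · obtain rfl : i = 2 * b.h + 1 := by omega
      rw [vt_bot]; omega
    · exact (vt_step hM hC h hn hn1).2.1
  | true =>
    cases i with
    | zero => rw [vt_top]; omega
    | succ i =>
      obtain ⟨h1, h2, -⟩ := vt_step (i := i) hM hC (by omega) hn hn1
      rw [h1]; exact h2

theorem vt_pair (hM : 1 ≤ b.M) (hC : Loc b act A) {c : ℕ} (hc : c < b.M) :
    ∀ i, i < b.H → vt b act A i (2 * c + 1) true = vt b act A i (2 * c + 2) true := by
  intro i
  induction i with
  | zero => intro _; rw [vt_top, vt_top]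
  | succ i ih =>
    intro hi
    have h1 : i ≤ 2 * b.h := by unfold H at hi; omega
    rw [(vt_step hM hC h1 (n := 2 * c + 1) (by omega) (by omega)).1,
      (vt_step hM hC h1 (n := 2 * c + 2) (by omega) (by omega)).1]
    have hi' : i < b.H := by omega
    exact (law hM hC hi' hc (ih hi') (vt_le hM hC hi' (by omega) (by omega) _)
      (vt_le hM hC hi' (by omega) (by omega) _) (vt_le hM hC hi' (by omega) (by omega) _)).1

/-- Tight tours of a board yield assignments. -/
theorem sound (hM : 1 ≤ b.M) (hC : Loc b act A) :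
    ∃ m : ℕ → Bool, ∀ c < b.M, ∀ e ≤ 2 * b.h, act e c = true →
      ∃ i ≤ e, (∀ i', i ≤ i' → i' ≤ e → b.blk i' c = false) ∧ b.lit i c = true ∧
        xor (m i) (b.par i c) = true := by
  have hH : b.H = 2 * b.h + 2 := rfl
  have hlaw : ∀ i c, i < b.H → c < b.M → _ := fun i c hi hc => law hM hC hi hc
    (vt_pair hM hC hc i hi) (vt_le hM hC hi (by omega) (by omega) _)
    (vt_le hM hC hi (by omega) (by omega) _) (vt_le hM hC hi (by omega) (by omega) _)
  have hlam : ∀ i < b.H, ∀ c < b.M, lam b A i c true =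
      (xor (decide (lam b A i 0 true = 1)) (b.par i c)).toNat := by
    intro i hi c
    induction c with
    | zero =>
      intro _
      have : lam b A i 0 true ≤ 1 := gp_le _ _ _ _
      rcases Nat.le_one_iff_eq_zero_or_eq_one.1 this with h | h <;> simp [h, par]
    | succ c ih =>
      intro hc
      have h1 := ih (by omega)
      obtain ⟨-, -, h2, h3⟩ := hlaw i c hi (by omega)
      cases hlit : b.lit i c with
      | false =>
        rw [(h2 hlit).2 hc, h1, par, hlit, Bool.xor_false]
      | true =>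
        have := (h3 hlit).1 hc
        have e : ∀ x y : Bool, xor x (!y) = !xor x y := by decide
        rw [par, hlit, Bool.xor_true, e]
        rw [h1] at this
        generalize xor (decide (lam b A i 0 true = 1)) (b.par i c) = x at this ⊢
        cases x
        · simp at this ⊢; omega
        · simp at this ⊢; omega
  refine ⟨fun i => decide (lam b A i 0 true = 1), fun c hc => ?_⟩
  -- a used vertical connection starts at a true literal
  have key : ∀ i ≤ 2 * b.h, vt b act A i (2 * c + 1) false = 1 →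
      ∃ i0 ≤ i, (∀ i', i0 ≤ i' → i' ≤ i → b.blk i' c = false) ∧ b.lit i0 c = true ∧
        xor (decide (lam b A i0 0 true = 1)) (b.par i0 c) = true := by
    intro i
    induction i with
    | zero =>
      intro hi hd
      obtain ⟨-, hb, h2, h3⟩ := hlaw 0 c (by omega) hc
      have hb' : b.blk 0 c = false := by
        by_contra h
        rw [Bool.not_eq_false] at h
        have := (hb h).2
        omega
      cases hlit : b.lit 0 c with
      | false =>
        have := (h2 hlit).1
        rw [vt_top] at this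
        omega
      | true =>
        have h5 := (h3 hlit).2 (vt_top _) hd
        rw [hlam 0 (by omega) c hc] at h5
        refine ⟨0, le_rfl, fun i' _ h => ?_, hlit, ?_⟩
        · obtain rfl : i' = 0 := by omega
          exact hb'
        · generalize xor (decide (lam b A 0 0 true = 1)) (b.par 0 c) = x at h5 ⊢
          cases x
          · simp at h5
          · rfl
    | succ i ih =>
      intro hi hd
      obtain ⟨-, hb, h2, h3⟩ := hlaw (i + 1) c (by omega) hc
      have hb' : b.blk (i + 1) c = false := by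
        by_contra h
        rw [Bool.not_eq_false] at h
        have := (hb h).2
        omega
      have h7 := (vt_step hM hC (i := i) (n := 2 * c + 1) (by omega) (by omega) (by omega)).1
      have h8 := vt_le (s := false) hM hC (i := i) (n := 2 * c + 1) (by omega) (by omega)
        (by omega)
      rcases Nat.lt_or_ge (vt b act A i (2 * c + 1) false) 1 with h9 | h9
      · cases hlit : b.lit (i + 1) c with
        | false =>
          have := (h2 hlit).1
          omega
        | true =>
          have h5 := (h3 hlit).2 (by omega) hd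
          rw [hlam (i + 1) (by omega) c hc] at h5
          refine ⟨i + 1, le_rfl, fun i' h h' => ?_, hlit, ?_⟩
          · obtain rfl : i' = i + 1 := by omega
            exact hb'
          · generalize xor (decide (lam b A (i + 1) 0 true = 1)) (b.par (i + 1) c) = x at h5 ⊢
            cases x
            · simp at h5
            · rfl
      · obtain ⟨i0, g1, g2, g3, g4⟩ := ih (by omega) (by omega)
        refine ⟨i0, by omega, fun i' h h' => ?_, g3, g4⟩
        rcases Nat.lt_or_ge i i' with h10 | h10
        · obtain rfl : i' = i + 1 := by omega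
          exact hb'
        · exact g2 i' h h10
  intro e he hact
  have h2 := (vt_step hM hC (i := e) (n := 2 * c + 1) he (by omega) (by omega)).2.2
    (by omega) (by rw [show (2 * c + 1) / 2 = c by omega]; exact hact)
  exact key e he h2

theorem ua_perm {σ : Equiv.Perm Nd} (v w : Nd) : ua (fun v w => σ v = w) v w = us σ v w := by
  unfold ua us
  split_ifs <;> rfl

theorem nb_mem {σ : Equiv.Perm Nd} (hM : 1 ≤ b.M) (hC : Cyc (b.Val act) b.Tight σ) {v : Nd}
    (hv : b.Val act v) : σ v ∈ b.nb act v ∧ σ⁻¹ v ∈ b.nb act v := by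
  have h1 : σ (σ⁻¹ v) = v := Equiv.apply_symm_apply σ v
  constructor
  · exact ((cls hM hv (hC.val v hv) (Ne.symm (hC.ne v hv))).2 (hC.tight v hv)).1
  · have h2 := hC.tight _ (hC.inv v hv)
    have h3 := hC.ne _ (hC.inv v hv)
    rw [h1] at h2 h3
    exact ((cls hM (hC.inv v hv) hv (Ne.symm h3)).2 h2).2

theorem loc_of_cyc {σ : Equiv.Perm Nd} (hM : 1 ≤ b.M) (hC : Cyc (b.Val act) b.Tight σ) :
    Loc b act (fun v w => σ v = w) := by
  constructor
  · intro v hv _ hn
    rw [List.map_congr_left (g := us σ v) fun w _ => ua_perm v w]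
    exact hC.sum_us hv hn (nb_mem hM hC hv).1 (nb_mem hM hC hv).2
  · intro L v0 hv0 hL hl
    have h1 := hC.small L hv0 (fun v hv => by
      obtain ⟨h1, a, ha, c, hc, h2, h3, h4⟩ := hL v hv
      rw [ua_perm] at h3 h4
      exact ⟨h1, a, ha, c, hc, h2, h3, h4⟩) (.S 0 true) (by simp only [Val]; unfold H; omega)
    have h2 := hl _ h1
    simp [Nd.loc] at h2

end

end Pool.Agent.T9h21.TB
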