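import Pool.Agent.T9h21.TB.Config

/-!
# The listed contacts are contacts
-/

set_option autoImplicit false

namespace Pool.Agent.T9h21.TB

namespace Board

variable {b : Board} {act : ℕ → ℕ → Bool}

theorem tight_side {i n k n' k' : ℕ} (s : Bool)
    (h : b.xx i n' k' - b.xx i n k = 2 * b.sz i n k * b.sz i n' k') :
    b.Tight (.X i n k s) (.X i n' k' s) := by
  unfold Tight d2
  simp only [px, py, rad]
  have h1 : b.xx i n k - b.xx i n' k' = -(2 * b.sz i n k * b.sz i n' k') := by linarith
  rw [h1]
  rcases sg_cases s with ⟨-, h5⟩ | ⟨-, h5⟩ <;> rw [h5] <;> apply le_of_eq <;> ring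

theorem tight_rt (hM : 1 ≤ b.M) {i n k : ℕ} {s : Bool} (hv : b.Val act (.X i n k s)) :
    b.Tight (.X i n k s) (b.rt i n k s) := by
  obtain ⟨h1, h2, h3, h4⟩ := hv
  have h5 := b.len_le i n
  unfold rt
  by_cases hk : k < b.len i n
  · rw [if_pos hk]
    apply tight_side
    have h6 := ft_step (b.ty i n) ⟨k, by omega⟩ hk (fun h h' => by
      have := ty_F h'
      have := h4 h
      omega)
    unfold xx sz
    linarith
  · rw [if_neg hk]
    obtain rfl : k = b.len i n := by omega
    by_cases hn : n = 2 * b.M
    · rw [if_pos hn]
      subst hn
      have h7 : b.len i (2 * b.M) = 12 := by rw [len_even hM, if_pos (Or.inr rfl)]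
      rw [h7]
      unfold Tight d2
      simp only [px, py, rad]
      unfold xx sz
      rw [ty_E' hM]
      cases s <;> norm_num [FT.off, FT.sz, sg] <;> ring_nf <;> norm_num
    · rw [if_neg hn]
      apply tight_side
      have h6 := ft_last (b.ty i n) (fun h => hn (ty_E h))
      have h8 := ft_zero (b.ty i (n + 1))
      unfold xx sz
      rw [h8.1, h8.2]
      unfold len
      push_cast
      linarith

theorem nb_tight (hM : 1 ≤ b.M) {v w : Nd} (hv : b.Val act v) (hw : w ∈ b.nb act v) :
    b.Tight v w := by
  have hH : b.H = 2 * b.h + 2 := rfl
  have h2l := b.two_le_len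
  have hS : ∀ i s, b.Tight (.X i 0 1 s) (.S i false) := by
    intro i s
    unfold Tight d2
    simp only [px, py, rad]
    unfold xx sz
    rw [ty_F']
    cases s <;> norm_num [FT.off, FT.sz, sg]
  have hS' : ∀ i s, i < b.H → b.Tight (.X i (2 * b.M) 12 s) (.S i true) := by
    intro i s hi
    have h7 : b.len i (2 * b.M) = 12 := by rw [len_even hM, if_pos (Or.inr rfl)]
    have := tight_rt (act := act) hM (i := i) (n := 2 * b.M) (k := 12) (s := s)
      ⟨hi, le_rfl, by omega, fun h => by omega⟩
    unfold rt at this
    rwa [if_neg (by omega), if_pos rfl] at this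
  have hop : ∀ i n k s, b.Tight (.X i n k s) (.X i n k (!s)) := by
    intro i n k s
    unfold Tight d2
    simp only [px, py, rad]
    cases s <;> simp [sg] <;> ring_nf <;> norm_num
  have hQ : ∀ i n k s, b.Tight (.X i n k s) (.Q i n k) := by
    intro i n k s
    unfold Tight d2
    simp only [px, py, rad]
    cases s <;> simp [sg]
  have hV : ∀ i n, b.Tight (.X i n 0 false) (.X (i + 1) n 0 true) := by
    intro i n
    unfold Tight d2
    simp only [px, py, rad]
    have h8 := ft_zero (b.ty i n)
    have h9 := ft_zero (b.ty (i + 1) n)
    unfold xx sz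
    rw [h8.1, h8.2, h9.1, h9.2]
    simp [sg]
    ring_nf
    norm_num
  have hA1 : ∀ e c, b.Tight (.A e c) (.X e (2 * c + 1) 0 false) := by
    intro e c
    unfold Tight d2
    simp only [px, py, rad]
    have h8 := ft_zero (b.ty e (2 * c + 1))
    unfold xx sz
    rw [h8.1, h8.2]
    simp [sg]
    ring_nf
    norm_num
  have hA2 : ∀ e c, b.Tight (.A e c) (.X (e + 1) (2 * c + 1) 0 true) := by
    intro e c
    unfold Tight d2
    simp only [px, py, rad]
    have h8 := ft_zero (b.ty (e + 1) (2 * c + 1))
    unfold xx sz
    rw [h8.1, h8.2]
    simp [sg]
    ring_nf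
    norm_num
  have hSC : ∀ i r, b.Tight (.S i r) (.C i r) := by
    intro i r
    unfold Tight d2
    simp only [px, py, rad]
    cases r <;> simp
  have hCT : ∀ i r, b.Tight (.C i r) (.T (i - i % 2) r) := by
    intro i r
    unfold Tight d2
    simp only [px, py, rad]
    rcases Nat.mod_two_eq_zero_or_one i with h | h
    · rw [h, Nat.sub_zero]
      ring_nf; norm_num
    · rw [h]
      have h1 : ((i - 1 : ℕ) : ℤ) = i - 1 := by omega
      rw [h1]
      ring_nf; norm_num
  cases v with
  | X i n k s =>
    have hv' := hv
    obtain ⟨h1, h2, h3, h4⟩ := hv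
    have hlf : b.Tight (.X i n k s) (b.lf i n k s) := by
      by_cases hk : k = 0
      · subst hk
        have h4' := h4 rfl
        have h5 := tight_rt (act := act) hM (i := i) (n := n - 1) (k := b.len i (n - 1)) (s := s)
          ⟨h1, by omega, le_rfl, fun h => by have := h2l i (n - 1); omega⟩
        unfold rt at h5
        rw [if_neg (by omega), if_neg (by omega), Nat.sub_add_cancel h4'] at h5
        unfold lf
        rw [if_pos rfl]
        exact h5.symm
      · unfold lf
        rw [if_neg hk]
        by_cases hk' : k = 1 ∧ n = 0
        · obtain ⟨rfl, rfl⟩ := hk'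
          rw [if_pos ⟨rfl, rfl⟩]
          exact hS i s
        · rw [if_neg hk']
          have h5 := tight_rt (act := act) hM (i := i) (n := n) (k := k - 1) (s := s)
            ⟨h1, by omega, by omega, fun h => by omega⟩
          unfold rt at h5
          rw [if_pos (by omega), Nat.sub_add_cancel (by omega)] at h5
          exact h5.symm
    by_cases hk : k = 0
    · subst hk
      have haN : ∀ e w, w ∈ aN act e n → w = .A e (n / 2) ∧ 2 * (n / 2) + 1 = n := by
        intro e w hw
        unfold aN at hw
        split_ifs at hw with g1
        · simp only [List.mem_singleton] at hw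
          exact ⟨hw, by omega⟩
        · simp at hw
      rw [nb_wire] at hw
      simp only [List.mem_cons, vert, qN, List.mem_append] at hw
      rcases hw with rfl | rfl | rfl | hw | hw
      · exact hlf
      · exact tight_rt hM hv'
      · exact hop _ _ _ _
      · split_ifs at hw with g1
        · simp only [List.mem_singleton] at hw
          subst hw
          exact hQ _ _ _ _
        · simp at hw
      · cases s with
        | true =>
          rw [if_pos rfl] at hw
          split_ifs at hw with g1
          · simp at hw
          · rw [List.mem_cons] at hw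
            rcases hw with rfl | hw
            · have := hV (i - 1) n
              rw [Nat.sub_add_cancel (by omega)] at this
              exact this.symm
            · obtain ⟨rfl, g4⟩ := haN _ _ hw
              have := hA2 (i - 1) (n / 2)
              rw [g4, Nat.sub_add_cancel (by omega)] at this
              exact this.symm
        | false =>
          rw [if_neg (by simp)] at hw
          split_ifs at hw with g1
          · simp at hw
          · rw [List.mem_cons] at hw
            rcases hw with rfl | hw
            · exact hV i n
            · obtain ⟨rfl, g4⟩ := haN _ _ hw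
              have := hA1 i (n / 2)
              rw [g4] at this
              exact this.symm
    · rw [nb_rung _ _ _ _ (by omega)] at hw
      simp only [List.mem_cons, List.not_mem_nil, or_false] at hw
      rcases hw with rfl | rfl | rfl | rfl
      · exact hlf
      · exact tight_rt hM hv'
      · exact hop _ _ _ _
      · exact hQ _ _ _ _
  | Q i n k =>
    simp only [nb, List.mem_cons, List.not_mem_nil, or_false] at hw
    rcases hw with rfl | rfl <;> exact (hQ _ _ _ _).symm
  | S i r =>
    have h1 : i < b.H := hv
    cases r with
    | false =>
      simp only [nb, List.mem_cons, List.not_mem_nil, or_false] at hw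
      rcases hw with rfl | rfl | rfl
      · exact hSC _ _
      · exact (hS _ _).symm
      · exact (hS _ _).symm
    | true =>
      simp only [nb, List.mem_cons, List.not_mem_nil, or_false] at hw
      rcases hw with rfl | rfl | rfl
      · exact hSC _ _
      · exact (hS' _ _ h1).symm
      · exact (hS' _ _ h1).symm
  | C i r =>
    simp only [nb, List.mem_cons, List.not_mem_nil, or_false] at hw
    rcases hw with rfl | rfl
    · exact (hSC _ _).symm
    · exact hCT _ _
  | T i r =>
    obtain ⟨h1, h2⟩ := hv
    simp only [nb, List.mem_cons, List.not_mem_nil, or_false] at hw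
    rcases hw with rfl | rfl
    · have := hCT i r
      rw [h2, Nat.sub_zero] at this
      exact this.symm
    · have := hCT (i + 1) r
      rw [show (i + 1) % 2 = 1 by omega, Nat.add_sub_cancel] at this
      exact this.symm
  | A e c =>
    simp only [nb, List.mem_cons, List.not_mem_nil, or_false] at hw
    rcases hw with rfl | rfl
    · exact hA1 e c
    · exact hA2 e c

end Board

end Pool.Agent.T9h21.TB
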