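import Pool.Agent.T9h21.TB.Reach
import Pool.Agent.T9h21.TB.Exch

/-!
# Switching a connection between two rows
-/

set_option autoImplicit false

namespace Pool.Agent.T9h21.TB

namespace Board

variable {b : Board} {act : ℕ → ℕ → Bool} {m : ℕ → Bool} {z z' : ℕ → ℕ → Bool} {i c : ℕ}

/-- `z'` arises from `z` by switching on the connection at `(i, c)`. -/
structure Tog (b : Board) (act : ℕ → ℕ → Bool) (m : ℕ → Bool) (z z' : ℕ → ℕ → Bool) (i c : ℕ) :
    Prop where
  hi : i + 1 < b.H
  hc : c < b.M
  hL : Legal b act m z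
  hL' : Legal b act m z'
  hz : z i c = false
  hz' : z' i c = true
  heq : ∀ i' c', (i' ≠ i ∨ c' ≠ c) → z' i' c' = z i' c'
  l0 : b.lit i c = true
  l1 : b.lit (i + 1) c = true
  m0 : b.lm m i c = true
  m1 : b.lm m (i + 1) c = false
  ha : ∀ e, act e c = false

theorem eq_of_xor : ∀ x s : Bool, true = xor x (!s) → s = x := by decide

/-- the nodes near the connection -/
def Wp (i c : ℕ) : Nd → Prop
  | .X r n k _ => (r = i ∨ r = i + 1) ∧ (n = 2 * c + 1 ∨ (n = 2 * c + 2 ∧ k = 0))
  | .Q r n _ => (r = i ∨ r = i + 1) ∧ n = 2 * c + 1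
  | _ => False

theorem Tog.up_eq (h : Tog b act m z z' i c) {i' c' : ℕ} (h1 : i' ≠ i + 1 ∨ c' ≠ c) :
    up z' i' c' = up z i' c' := by
  cases i' with
  | zero => rfl
  | succ i' => exact h.heq _ _ (by omega)

theorem Tog.up0 (h : Tog b act m z z' i c) : up z i c = false := by
  rcases h.hL.law i (by have := h.hi; omega) c h.hc with h1 | ⟨-, h1⟩
  · rw [h1, h.hz]
  · rw [h.hz, h.m0] at h1; simp at h1

theorem Tog.dn1 (h : Tog b act m z z' i c) : z (i + 1) c = false := by
  rcases h.hL.law (i + 1) h.hi c h.hc with h1 | ⟨-, h1⟩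
  · rw [← h1]; exact h.hz
  · rw [h1, h.m1]

theorem Tog.nblk (h : Tog b act m z z' i c) {r : ℕ} (hr : r = i ∨ r = i + 1) :
    b.blk r c = false := by
  by_contra hb
  rw [Bool.not_eq_false] at hb
  rcases hr with rfl | rfl
  · have := (h.hL'.blk _ (by have := h.hi; omega) c h.hc hb).2
    rw [h.hz'] at this
    simp at this
  · have := (h.hL'.blk _ h.hi c h.hc hb).1
    change z' i c = false at this
    rw [h.hz'] at this
    simp at this

theorem Tog.up0' (h : Tog b act m z z' i c) : up z' i c = false := by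
  rw [h.up_eq (by omega), h.up0]

theorem Tog.dn1' (h : Tog b act m z z' i c) : z' (i + 1) c = false := by
  rw [h.heq _ _ (by omega), h.dn1]

theorem Tog.gu_eq (h : Tog b act m z z' i c) {i' n : ℕ}
    (h1 : ¬ ((i' = i ∨ i' = i + 1) ∧ n = 2 * c + 1)) (k : ℕ) (s : Bool) :
    b.gu m z' i' n k s = b.gu m z i' n k s := by
  have h2 : tr z' i' n = tr z i' n := by
    unfold tr
    rcases Nat.mod_two_eq_zero_or_one n with h3 | h3
    · rw [h3]; simp
    · by_cases h4 : n / 2 = c
      · rw [h.up_eq (by omega), h.heq _ _ (by omega)]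
      · rw [h.up_eq (Or.inr h4), h.heq _ _ (Or.inr h4)]
  unfold gu
  rw [h2]

/-- away from the connection nothing changes -/
theorem Tog.cand_eq (h : Tog b act m z z' i c) {v : Nd} (hv : b.Val act v) (hW : ¬ Wp i c v) :
    b.cand act m z' v = b.cand act m z v := by
  have hc := h.hc
  cases v with
  | X r n k s =>
    simp only [Wp] at hW
    have h1 : b.gu m z' r n k s = b.gu m z r n k s := h.gu_eq (by tauto) _ _
    simp only [cand]
    by_cases hk : k = 0
    · subst hk
      have hn := hv.2.2.2 rfl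
      have h2 : b.gu m z' r (n - 1) (b.len r (n - 1)) s = b.gu m z r (n - 1) (b.len r (n - 1)) s :=
        h.gu_eq (by rintro ⟨h3, h4⟩; exact hW ⟨h3, Or.inr ⟨by omega, rfl⟩⟩) _ _
      have h3 : ¬ ((r = i ∨ r = i + 1) ∧ (n - 1) / 2 = c) := by
        rintro ⟨h3, h4⟩
        exact hW ⟨h3, by omega⟩
      have h4 : up z' r ((n - 1) / 2) = up z r ((n - 1) / 2) := h.up_eq (by omega)
      have h5 : z' r ((n - 1) / 2) = z r ((n - 1) / 2) := h.heq _ _ (by omega)
      rw [h1, h2, h4, h5]
      unfold vcand
      rw [h4, h5]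
    · have h2 : b.gu m z' r n (k - 1) s = b.gu m z r n (k - 1) s := h.gu_eq (by tauto) _ _
      rw [h1, h2, decide_eq_false hk, if_neg hk, if_neg hk, if_neg hk, if_neg hk]
      simp
  | Q r n k => rfl
  | S r t =>
    have h1 : ∀ n k s, n % 2 = 0 → b.gu m z' r n k s = b.gu m z r n k s :=
      fun n k s hn => h.gu_eq (by omega) _ _
    cases t with
    | false => simp only [cand]; rw [h1 _ _ _ rfl, h1 _ _ _ rfl]
    | true => simp only [cand]; rw [h1 _ _ _ (by omega), h1 _ _ _ (by omega)]
  | C r t => rfl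
  | T r t => rfl
  | A c' => rfl

/-- the edges that leave the region near the connection -/
theorem Tog.leave (h : Tog b act m z z' i c) {v w : Nd} (hv : b.Val act v) (hW : Wp i c v)
    (hw : ¬ Wp i c w) (hvw : (w, true) ∈ b.cand act m z v) :
    ∃ r, (r = i ∨ r = i + 1) ∧
      ((v = .X r (2 * c + 1) 0 (b.lm m r c) ∧ w = b.lf r (2 * c + 1) 0 (b.lm m r c)) ∨
      (v = .X r (2 * c + 2) 0 (!(b.lm m r (c + 1))) ∧
        w = b.rt r (2 * c + 2) 0 (!(b.lm m r (c + 1))))) := by
  have hc := h.hc
  cases v with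
  | X r n k s =>
    simp only [Wp] at hW
    obtain ⟨hr, hn⟩ := hW
    obtain ⟨g1, g2, g3, g4⟩ := hv
    have hlit : b.lit r c = true := by
      rcases hr with rfl | rfl
      · exact h.l0
      · exact h.l1
    have hlen : b.len r (2 * c + 1) = 2 := by rw [len_odd hc, if_pos hlit]
    have hvert : ∀ s, k = 0 → (w, true) ∈ b.qcand r n ++ b.vcand act z r n s → Wp i c w := by
      intro s hk hm
      have hc1 : (n - 1) / 2 = c := by omega
      have hac : ∀ e, (w, true) ∉ acand act e n := by
        intro e he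
        unfold acand at he
        split_ifs at he with hA'
        · rw [hA_iff] at hA'
          obtain ⟨q1, q2⟩ := hA'
          rw [show n / 2 = c by omega, h.ha e] at q2
          simp at q2
        · simp at he
      unfold vcand qcand at hm
      rw [hc1, List.mem_append, h.nblk hr] at hm
      rcases hm with hm | hm
      · simp at hm
      · cases s with
        | true =>
          rw [if_pos rfl] at hm
          split_ifs at hm with g0
          · simp at hm
          · rw [List.mem_cons] at hm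
            rcases hm with hm | hm
            · rw [Prod.mk.injEq] at hm
              rcases hr with rfl | rfl
              · rw [h.up0] at hm
                simp at hm
              · rw [hm.1]
                exact ⟨Or.inl (by omega), by omega⟩
            · exact absurd hm (hac _)
        | false =>
          rw [if_neg (by simp)] at hm
          split_ifs at hm with g0
          · simp at hm
          · rw [List.mem_cons] at hm
            rcases hm with hm | hm
            · rw [Prod.mk.injEq] at hm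
              rcases hr with rfl | rfl
              · rw [hm.1]
                exact ⟨Or.inr rfl, by omega⟩
              · rw [h.dn1] at hm
                simp at hm
            · exact absurd hm (hac _)
    rcases hn with rfl | ⟨rfl, rfl⟩
    · simp only [cand, List.mem_cons, Prod.mk.injEq] at hvw
      rcases hvw with ⟨rfl, hf⟩ | ⟨rfl, hf⟩ | ⟨rfl, hf⟩ | hf
      · by_cases hk : k = 0
        · subst hk
          rw [if_pos rfl, Nat.add_sub_cancel, gl1 (by omega) r hc] at hf
          have hs : s = b.lm m r c := eq_of_xor _ _ hf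
          exact ⟨r, hr, Or.inl ⟨by rw [hs], by rw [hs]⟩⟩
        · exfalso
          apply hw
          unfold lf
          rw [if_neg hk, if_neg (by omega)]
          exact ⟨hr, Or.inl rfl⟩
      · exfalso
        apply hw
        unfold rt
        split_ifs with q1 q2
        · exact ⟨hr, Or.inl rfl⟩
        · omega
        · exact ⟨hr, Or.inr ⟨rfl, rfl⟩⟩
      · exact absurd ⟨hr, Or.inl rfl⟩ hw
      · by_cases hk : k = 0
        · rw [if_pos hk] at hf
          exact absurd (hvert _ hk hf) hw
        · rw [if_neg hk] at hf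
          simp only [List.mem_singleton, Prod.mk.injEq, and_true] at hf
          rw [hf] at hw
          exact absurd ⟨hr, rfl⟩ hw
    · simp only [cand, List.mem_cons, Prod.mk.injEq] at hvw
      rcases hvw with ⟨rfl, hf⟩ | ⟨rfl, hf⟩ | ⟨rfl, hf⟩ | hf
      · exfalso
        apply hw
        unfold lf
        rw [if_pos rfl]
        exact ⟨hr, Or.inl (by omega)⟩
      · rw [gr2] at hf
        have hs : s = !(b.lm m r (c + 1)) := eq_of_xor _ _ hf
        exact ⟨r, hr, Or.inr ⟨by rw [hs], by rw [hs]⟩⟩
      · exact absurd ⟨hr, Or.inr ⟨rfl, rfl⟩⟩ hw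
      · rw [if_pos trivial] at hf
        exact absurd (hvert _ rfl hf) hw
  | Q r n k =>
    simp only [Wp] at hW
    simp only [cand, List.mem_cons, Prod.mk.injEq, and_true, List.not_mem_nil, or_false] at hvw
    rcases hvw with rfl | rfl <;> exact absurd ⟨hW.1, Or.inl hW.2⟩ hw
  | S r t => exact absurd hW (by simp [Wp])
  | C r t => exact absurd hW (by simp [Wp])
  | T r t => exact absurd hW (by simp [Wp])
  | A c' => exact absurd hW (by simp [Wp])

/-- the nodes of degree two -/
theorem ncard_Gr {hM : 1 ≤ b.M} (hL : Legal b act m z) {v : Nd} (hv : b.Val act v) :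
    ((Gr b hM act m z).neighborSet v).ncard = 2 := by
  have h1 : (Gr b hM act m z).neighborSet v =
      ((((b.cand act m z v).filter (fun p => p.2)).map Prod.fst).toFinset : Set Nd) := by
    ext w
    simp only [SimpleGraph.mem_neighborSet, List.coe_toFinset, List.mem_map, List.mem_filter,
      Set.mem_ofPred_eq, Prod.exists, exists_and_right, exists_eq_right]
    constructor
    · rintro ⟨-, -, h⟩
      exact h
    · intro h
      exact ⟨hv, val_nb hM hv (mem_nb h), h⟩
  have h2 : (((b.cand act m z v).filter (fun p => p.2)).map Prod.fst).Nodup := by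
    have h3 := nodup_nb hv
    rw [← map_cand (m := m) (z := z)] at h3
    exact h3.sublist ((List.filter_sublist).map _)
  rw [h1, Set.ncard_coe_finset, List.toFinset_card_of_nodup h2, List.length_map,
    ← List.countP_eq_length_filter]
  exact count_cand hM hL hv

/-- The part of the graph that does not depend on the connection. -/
def Hr (b : Board) (hM : 1 ≤ b.M) (act : ℕ → ℕ → Bool) (m : ℕ → Bool) (z : ℕ → ℕ → Bool)
    (i c : ℕ) : SimpleGraph Nd where
  Adj v w := (Gr b hM act m z).Adj v w ∧ ¬ (Wp i c v ∧ Wp i c w)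
  symm := ⟨fun _ _ h => ⟨h.1.symm, fun h1 => h.2 h1.symm⟩⟩
  loopless := ⟨fun _ h => h.1.ne rfl⟩

theorem Tog.adj_iff {hM : 1 ≤ b.M} (h : Tog b act m z z' i c) {v w : Nd}
    (hW : ¬ (Wp i c v ∧ Wp i c w)) :
    (Gr b hM act m z').Adj v w ↔ (Gr b hM act m z).Adj v w := by
  by_cases hv : Wp i c v
  · have hw : ¬ Wp i c w := fun h => hW ⟨hv, h⟩
    rw [SimpleGraph.adj_comm, SimpleGraph.adj_comm (Gr b hM act m z)]
    constructor
    · rintro ⟨h1, h2, h3⟩
      rw [h.cand_eq h1 hw] at h3
      exact ⟨h1, h2, h3⟩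
    · rintro ⟨h1, h2, h3⟩
      rw [← h.cand_eq h1 hw] at h3
      exact ⟨h1, h2, h3⟩
  · constructor
    · rintro ⟨h1, h2, h3⟩
      rw [h.cand_eq h1 hv] at h3
      exact ⟨h1, h2, h3⟩
    · rintro ⟨h1, h2, h3⟩
      rw [← h.cand_eq h1 hv] at h3
      exact ⟨h1, h2, h3⟩

/-- the terminals of the connection -/
def Ter (i c : ℕ) (w : Nd) : Prop :=
  w = .X i (2 * c + 1) 0 true ∨ w = .X i (2 * c + 2) 0 true ∨
    w = .X (i + 1) (2 * c + 1) 0 false ∨ w = .X (i + 1) (2 * c + 2) 0 false

theorem Tog.lm_succ0 (h : Tog b act m z z' i c) : b.lm m i (c + 1) = false := by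
  rw [lm_succ, h.m0, h.l0]; rfl

theorem Tog.lm_succ1 (h : Tog b act m z z' i c) : b.lm m (i + 1) (c + 1) = true := by
  rw [lm_succ, h.m1, h.l1]; rfl

theorem Tog.ter {hM : 1 ≤ b.M} (h : Tog b act m z z' i c) {v w : Nd}
    (hvw : (Hr b hM act m z i c).Adj v w) (hv : Wp i c v) : Ter i c v := by
  obtain ⟨⟨h1, h2, h3⟩, h4⟩ := hvw
  obtain ⟨r, hr, h5⟩ := h.leave h1 hv (fun h => h4 ⟨hv, h⟩) h3
  have g0 := h.m0
  have g1 := h.m1
  have g2 := h.lm_succ0
  have g3 := h.lm_succ1
  rcases hr with rfl | rfl
  · rw [g0, g2] at h5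
    rcases h5 with h5 | h5
    · exact Or.inl h5.1
    · exact Or.inr (Or.inl h5.1)
  · rw [g1, g3] at h5
    rcases h5 with h5 | h5
    · exact Or.inr (Or.inr (Or.inl h5.1))
    · exact Or.inr (Or.inr (Or.inr h5.1))

/-- the terminals have one neighbour outside -/
theorem Tog.ter_card {hM : 1 ≤ b.M} (h : Tog b act m z z' i c) {v : Nd} (hv : Ter i c v) :
    ((Hr b hM act m z i c).neighborSet v).ncard = 1 := by
  have hc := h.hc
  have hi := h.hi
  have g0 := h.m0
  have g1 := h.m1
  have g2 := h.lm_succ0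
  have g3 := h.lm_succ1
  have key1 : ∀ r, (r = i ∨ r = i + 1) → ((Hr b hM act m z i c).neighborSet
      (.X r (2 * c + 1) 0 (b.lm m r c))).ncard = 1 := by
    intro r hr
    rw [Set.ncard_eq_one]
    refine ⟨b.lf r (2 * c + 1) 0 (b.lm m r c), ?_⟩
    have hvv : b.Val act (.X r (2 * c + 1) 0 (b.lm m r c)) :=
      ⟨by omega, by omega, Nat.zero_le _, fun _ => by omega⟩
    have hWw : Wp i c (.X r (2 * c + 1) 0 (b.lm m r c)) := ⟨hr, Or.inl rfl⟩
    ext w
    simp only [SimpleGraph.mem_neighborSet, Set.mem_singleton_iff]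
    constructor
    · rintro ⟨⟨h1, h2, h3⟩, h4⟩
      obtain ⟨r', hr', h5 | h5⟩ := h.leave h1 hWw (fun h => h4 ⟨hWw, h⟩) h3
      · obtain ⟨h5, h6⟩ := h5
        injection h5 with e1 e2 e3 e4
        subst e1
        exact h6
      · obtain ⟨h5, h6⟩ := h5
        injection h5 with e1 e2 e3 e4
        omega
    · rintro rfl
      refine ⟨⟨hvv, val_nb hM hvv mem_lf, ?_⟩, ?_⟩
      · simp only [cand, List.mem_cons, Prod.mk.injEq, true_and]
        left
        rw [if_pos trivial, Nat.add_sub_cancel, gl1 hM r hc]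
        cases b.lm m r c <;> rfl
      · rintro ⟨-, h4⟩
        unfold lf at h4
        rw [if_pos rfl] at h4
        simp only [Wp] at h4
        omega
  have key2 : ∀ r, (r = i ∨ r = i + 1) → ((Hr b hM act m z i c).neighborSet
      (.X r (2 * c + 2) 0 (!(b.lm m r (c + 1))))).ncard = 1 := by
    intro r hr
    rw [Set.ncard_eq_one]
    refine ⟨b.rt r (2 * c + 2) 0 (!(b.lm m r (c + 1))), ?_⟩
    have hvv : b.Val act (.X r (2 * c + 2) 0 (!(b.lm m r (c + 1)))) :=
      ⟨by omega, by omega, Nat.zero_le _, fun _ => by omega⟩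
    have hWw : Wp i c (.X r (2 * c + 2) 0 (!(b.lm m r (c + 1)))) := ⟨hr, Or.inr ⟨rfl, rfl⟩⟩
    ext w
    simp only [SimpleGraph.mem_neighborSet, Set.mem_singleton_iff]
    constructor
    · rintro ⟨⟨h1, h2, h3⟩, h4⟩
      obtain ⟨r', hr', h5 | h5⟩ := h.leave h1 hWw (fun h => h4 ⟨hWw, h⟩) h3
      · obtain ⟨h5, h6⟩ := h5
        injection h5 with e1 e2 e3 e4
        omega
      · obtain ⟨h5, h6⟩ := h5
        injection h5 with e1 e2 e3 e4
        subst e1
        exact h6
    · rintro rfl
      refine ⟨⟨hvv, val_nb hM hvv mem_rt, ?_⟩, ?_⟩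
      · simp only [cand, List.mem_cons, Prod.mk.injEq, true_and]
        right; left
        rw [gr2]
        cases b.lm m r (c + 1) <;> rfl
      · rintro ⟨-, h4⟩
        unfold rt at h4
        have h5 := b.two_le_len r (2 * c + 2)
        rw [if_pos (by omega)] at h4
        simp only [Wp] at h4
        omega
  rcases hv with rfl | rfl | rfl | rfl
  · have := key1 i (Or.inl rfl); rwa [g0] at this
  · have := key2 i (Or.inl rfl); rwa [g2] at this
  · have := key1 (i + 1) (Or.inr rfl); rwa [g1] at this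
  · have := key2 (i + 1) (Or.inr rfl); rwa [g3] at this

/-- each terminal is connected to another one outside -/
theorem Tog.pair {hM : 1 ≤ b.M} (h : Tog b act m z z' i c) (hfin : {v | b.Val act v}.Finite)
    {v : Nd} (hv : Ter i c v) : ∃ w, w ≠ v ∧ Ter i c w ∧ (Hr b hM act m z i c).Reachable v w := by
  obtain ⟨w, h1, h2, h3⟩ := odd_reach (Hr b hM act m z i c) {v | b.Val act v} hfin
    (fun v w h => h.1.1) (a := v) (by rw [h.ter_card hv]; exact odd_one)
  refine ⟨w, h1, ?_, h2⟩
  by_cases hw : Wp i c w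
  · obtain ⟨x, hx⟩ : ((Hr b hM act m z i c).neighborSet w).Nonempty := by
      by_contra h4
      rw [Set.not_nonempty_iff_eq_empty] at h4
      rw [h4] at h3
      simp at h3
    exact h.ter hx hw
  · exfalso
    have h4 : (Hr b hM act m z i c).neighborSet w = (Gr b hM act m z).neighborSet w := by
      ext x
      simp only [SimpleGraph.mem_neighborSet]
      exact ⟨fun h => h.1, fun h => ⟨h, fun h5 => hw h5.1⟩⟩
    rw [h4] at h3
    by_cases hvw : b.Val act w
    · rw [ncard_Gr h.hL hvw] at h3
      exact absurd h3 (by decide)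
    · have h5 : (Gr b hM act m z).neighborSet w = ∅ := by
        ext x
        simp only [SimpleGraph.mem_neighborSet, Set.mem_empty_iff_false, iff_false]
        exact fun h => hvw h.1
      rw [h5] at h3
      simp at h3

end Board

end Pool.Agent.T9h21.TB
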